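import Pool.Agent.T6.H20.BV.Defs

/-!
# Project BV, module VAR: the first variation
-/

set_option autoImplicit false

namespace Pool.Agent.T6.H20.BV

open MeasureTheory Set Filter Topology Pool.Agent.T6.H20.BU

namespace ModVar

/-- `1 + s² (x₁² + x₂²)` -/
def Nn (s : ℝ) (x : Fin 3 → ℝ) : ℝ := 1 + s ^ 2 * (x 1 ^ 2 + x 2 ^ 2)

/-- `(x₀ + s x_j) / √(1 + s² (x₁² + x₂²))` -/
noncomputable def Tj (s : ℝ) (j : Fin 3) (x : Fin 3 → ℝ) : ℝ :=
  (x 0 + s * x j) * (Real.sqrt (Nn s x))⁻¹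

theorem Nn_ge (s : ℝ) (x : Fin 3 → ℝ) : 1 ≤ Nn s x := by
  unfold Nn
  nlinarith [sq_nonneg s, sq_nonneg (x 1), sq_nonneg (x 2),
    mul_nonneg (sq_nonneg s) (add_nonneg (sq_nonneg (x 1)) (sq_nonneg (x 2)))]

theorem sqrt_pos' (s : ℝ) (x : Fin 3 → ℝ) : 0 < Real.sqrt (Nn s x) :=
  Real.sqrt_pos.2 (lt_of_lt_of_le one_pos (Nn_ge s x))

theorem contDiff_Tj (s : ℝ) (j : Fin 3) : ContDiff ℝ 1 (Tj s j) := by
  have h0 : ∀ i : Fin 3, ContDiff ℝ 1 (fun x : Fin 3 → ℝ => x i) := fun i => contDiff_apply ℝ ℝ i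
  have h1 : ContDiff ℝ 1 (Nn s) := by
    unfold Nn
    exact contDiff_const.add (contDiff_const.mul (((h0 1).pow 2).add ((h0 2).pow 2)))
  have h2 : ContDiff ℝ 1 (fun x => Real.sqrt (Nn s x)) :=
    h1.sqrt fun x => (lt_of_lt_of_le one_pos (Nn_ge s x)).ne'
  have h3 : ContDiff ℝ 1 (fun x => (Real.sqrt (Nn s x))⁻¹) :=
    h2.inv fun x => (sqrt_pos' s x).ne'
  unfold Tj
  exact ((h0 0).add (contDiff_const.mul (h0 j))).mul h3

theorem fderiv_Tj (s : ℝ) (j : Fin 3) (x v : Fin 3 → ℝ) :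
    fderiv ℝ (Tj s j) x v = (Real.sqrt (Nn s x))⁻¹ * (v 0 + s * v j) -
      (x 0 + s * x j) * s ^ 2 * (x 1 * v 1 + x 2 * v 2) * (Real.sqrt (Nn s x))⁻¹ ^ 3 := by
  have hp : ∀ i : Fin 3, HasFDerivAt (fun x : Fin 3 → ℝ => x i)
      (ContinuousLinearMap.proj (R := ℝ) (φ := fun _ : Fin 3 => ℝ) i) x := fun i =>
    hasFDerivAt_apply i x
  have h1 : HasFDerivAt (fun x : Fin 3 → ℝ => Nn s x) _ x :=
    ((((hp 1).pow 2).add ((hp 2).pow 2)).const_mul (s ^ 2)).const_add 1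
  have hN := lt_of_lt_of_le one_pos (Nn_ge s x)
  have hq := sqrt_pos' s x
  have h2 : HasDerivAt (fun t : ℝ => (Real.sqrt t)⁻¹)
      (-(1 / (2 * Real.sqrt (Nn s x))) / Real.sqrt (Nn s x) ^ 2) (Nn s x) :=
    (Real.hasDerivAt_sqrt hN.ne').inv hq.ne'
  have h3 := h2.comp_hasFDerivAt x h1
  have h4 : HasFDerivAt (fun x : Fin 3 → ℝ => x 0 + s * x j) _ x :=
    (hp 0).add ((hp j).const_mul s)
  have h5 : HasFDerivAt (Tj s j) _ x := h4.mul h3
  rw [h5.fderiv]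
  simp only [add_apply, smul_apply, ContinuousLinearMap.proj_apply, smul_eq_mul, nsmul_eq_mul,
    Function.comp_apply]
  field_simp
  push_cast
  ring

/-- the first component of the variation -/
noncomputable def fs (s : ℝ) (f φ γ : ℝ × ℝ → ℝ) (j : Fin 3) (p : ℝ × ℝ) : ℝ :=
  Tj s j (fun i => (![f, φ, γ] : Fin 3 → ℝ × ℝ → ℝ) i p)

/-- its gradient -/
noncomputable def Fs (s : ℝ) (f φ γ : ℝ × ℝ → ℝ) (F P R : ℝ × ℝ → ℝ × ℝ) (j : Fin 3)
    (p : ℝ × ℝ) : ℝ × ℝ :=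
  ∑ i, fderiv ℝ (Tj s j) (fun i => (![f, φ, γ] : Fin 3 → ℝ × ℝ → ℝ) i p) (Pi.single i 1) •
    (![F, P, R] : Fin 3 → ℝ × ℝ → ℝ × ℝ) i p

theorem w2_fs (hC : StmChain) {f φ γ : ℝ × ℝ → ℝ} {F P R : ℝ × ℝ → ℝ × ℝ} (hf : W2 f F)
    (hφ : W2 φ P) (hγ : W2 γ R) (s : ℝ) (j : Fin 3) :
    W2 (fs s f φ γ j) (Fs s f φ γ F P R j) := by
  refine hC.1 3 ![f, φ, γ] ![F, P, R] (Tj s j) (contDiff_Tj s j) ?_
  intro i
  fin_cases i
  · exact hf
  · exact hφ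
  · exact hγ

/-- `1 / √(1 + s² (φ² + γ²))` -/
noncomputable def nu (s : ℝ) (φ γ : ℝ × ℝ → ℝ) (p : ℝ × ℝ) : ℝ :=
  (Real.sqrt (1 + s ^ 2 * (φ p ^ 2 + γ p ^ 2)))⁻¹

theorem fs1 (s : ℝ) (f φ γ : ℝ × ℝ → ℝ) (p : ℝ × ℝ) :
    fs s f φ γ 1 p = (f p + s * φ p) * nu s φ γ p := rfl

theorem fs2 (s : ℝ) (f φ γ : ℝ × ℝ → ℝ) (p : ℝ × ℝ) :
    fs s f φ γ 2 p = (f p + s * γ p) * nu s φ γ p := rfl

theorem Fs1 (s : ℝ) (f φ γ : ℝ × ℝ → ℝ) (F P R : ℝ × ℝ → ℝ × ℝ) (p : ℝ × ℝ) :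
    Fs s f φ γ F P R 1 p = nu s φ γ p • (F p + s • P p) -
      ((f p + s * φ p) * s ^ 2 * nu s φ γ p ^ 3) • (φ p • P p + γ p • R p) := by
  unfold Fs
  rw [Fin.sum_univ_three, fderiv_Tj, fderiv_Tj, fderiv_Tj]
  have e : (Real.sqrt (Nn s (fun i => (![f, φ, γ] : Fin 3 → ℝ × ℝ → ℝ) i p)))⁻¹ =
      nu s φ γ p := rfl
  rw [e]
  simp [Pi.single_apply]
  module

theorem Fs2 (s : ℝ) (f φ γ : ℝ × ℝ → ℝ) (F P R : ℝ × ℝ → ℝ × ℝ) (p : ℝ × ℝ) :
    Fs s f φ γ F P R 2 p = nu s φ γ p • (F p + s • R p) -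
      ((f p + s * γ p) * s ^ 2 * nu s φ γ p ^ 3) • (φ p • P p + γ p • R p) := by
  unfold Fs
  rw [Fin.sum_univ_three, fderiv_Tj, fderiv_Tj, fderiv_Tj]
  have e : (Real.sqrt (Nn s (fun i => (![f, φ, γ] : Fin 3 → ℝ × ℝ → ℝ) i p)))⁻¹ =
      nu s φ γ p := rfl
  rw [e]
  simp [Pi.single_apply]
  module

theorem nu_bound {s : ℝ} {φ γ : ℝ × ℝ → ℝ} {p : ℝ × ℝ} {M : ℝ} (h1 : |φ p| ≤ M)
    (h2 : |γ p| ≤ M) : 0 < nu s φ γ p ∧ nu s φ γ p ≤ 1 ∧ |nu s φ γ p - 1| ≤ s ^ 2 * M ^ 2 ∧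
      nu s φ γ p ^ 2 * (1 + s ^ 2 * (φ p ^ 2 + γ p ^ 2)) = 1 := by
  set x := s ^ 2 * (φ p ^ 2 + γ p ^ 2) with hx
  have hx0 : 0 ≤ x := by positivity
  have hM : 0 ≤ M := (abs_nonneg _).trans h1
  have hxM : x ≤ 2 * (s ^ 2 * M ^ 2) := by
    have a1 : φ p ^ 2 ≤ M ^ 2 := by rw [← sq_abs]; exact pow_le_pow_left₀ (abs_nonneg _) h1 2
    have a2 : γ p ^ 2 ≤ M ^ 2 := by rw [← sq_abs]; exact pow_le_pow_left₀ (abs_nonneg _) h2 2
    have := mul_le_mul_of_nonneg_left (add_le_add a1 a2) (sq_nonneg s)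
    rw [hx]
    linarith
  have hn1 : 1 ≤ Real.sqrt (1 + x) := by
    rw [Real.one_le_sqrt]
    linarith
  have hn2 : Real.sqrt (1 + x) ^ 2 = 1 + x := Real.sq_sqrt (by linarith)
  have hnu : nu s φ γ p = (Real.sqrt (1 + x))⁻¹ := rfl
  rw [hnu]
  have hpos : 0 < Real.sqrt (1 + x) := by linarith
  refine ⟨inv_pos.2 hpos, inv_le_one_of_one_le₀ hn1, ?_, ?_⟩
  · have e1 : (Real.sqrt (1 + x))⁻¹ - 1 = -((Real.sqrt (1 + x) - 1) / Real.sqrt (1 + x)) := by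
      field_simp
      ring
    rw [e1, abs_neg, abs_of_nonneg (div_nonneg (by linarith) hpos.le)]
    have e2 : (Real.sqrt (1 + x) - 1) / Real.sqrt (1 + x) ≤ Real.sqrt (1 + x) - 1 :=
      div_le_self (by linarith) hn1
    nlinarith
  · rw [inv_pow, hn2]
    field_simp

section meas

theorem qq_sub : QQ ⊆ ⋃ k : ℕ, Box k := by
  intro p hp
  rw [mem_iUnion]
  obtain ⟨k, hk⟩ := exists_nat_ge (max (max p.1 (1 / p.1)) p.2)
  refine ⟨k, ⟨?_, ?_⟩, ⟨hp.2.le, ?_⟩⟩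
  · have h1 : 1 / p.1 ≤ k := (le_max_right _ _).trans ((le_max_left _ _).trans hk)
    have h2 : 1 / p.1 ≤ (k : ℝ) + 2 := by linarith
    have hp1 : 0 < p.1 := hp.1
    have h3 : 0 < (k : ℝ) + 2 := by positivity
    rw [div_le_iff₀ h3]
    rw [div_le_iff₀ hp1] at h2
    linarith
  · have h1 : p.1 ≤ k := (le_max_left _ _).trans ((le_max_left _ _).trans hk)
    linarith
  · have h1 : p.2 ≤ k := (le_max_right _ _).trans hk
    linarith

theorem box_sub (k : ℕ) : Box k ⊆ Qc := by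
  rintro p ⟨h1, h2⟩
  have h3 : 0 < 1 / ((k : ℝ) + 2) := by positivity
  exact ⟨lt_of_lt_of_le h3 h1.1, h2.1⟩

theorem box_meas (k : ℕ) : MeasurableSet (Box k) := measurableSet_Icc.prod measurableSet_Icc

theorem aesm_mu {X : Type*} [TopologicalSpace X] [TopologicalSpace.PseudoMetrizableSpace X]
    {h : ℝ × ℝ → X}
    (hk : ∀ k, AEStronglyMeasurable h (volume.restrict (Box k))) : AEStronglyMeasurable h mu := by
  have h1 : AEStronglyMeasurable h (volume.restrict (⋃ k, Box k)) :=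
    AEStronglyMeasurable.iUnion hk
  have h2 : AEStronglyMeasurable h (volume.restrict QQ) :=
    h1.mono_measure (Measure.restrict_mono qq_sub le_rfl)
  exact h2.mono_ac (withDensity_absolutelyContinuous _ _)

theorem aesm_fun {f : ℝ × ℝ → ℝ} {F : ℝ × ℝ → ℝ × ℝ} (h : W2 f F) :
    AEStronglyMeasurable f mu := by
  refine aesm_mu fun k => ?_
  have h1 : ∀ j : ℕ, ∃ u : ℝ × ℝ → ℝ, ContDiff ℝ 1 u ∧
      ∀ p ∈ Box k, |f p - u p| ≤ 1 / ((j : ℝ) + 1) := by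
    intro j
    obtain ⟨u, hu1, hu2, -⟩ := h.app k (1 / ((j : ℝ) + 1)) (by positivity)
    exact ⟨u, hu1, hu2⟩
  choose u hu1 hu2 using h1
  refine aestronglyMeasurable_of_tendsto_ae (f := fun j => u j) atTop
    (fun j => (hu1 j).continuous.aestronglyMeasurable) ?_
  refine (ae_restrict_iff' (box_meas k)).2 (Eventually.of_forall fun p hp => ?_)
  rw [tendsto_iff_dist_tendsto_zero]
  refine squeeze_zero (fun _ => dist_nonneg) (fun j => ?_)
    tendsto_one_div_add_atTop_nhds_zero_nat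
  rw [Real.dist_eq, abs_sub_comm]
  exact hu2 j p hp

theorem aesm_grad {f : ℝ × ℝ → ℝ} {F : ℝ × ℝ → ℝ × ℝ} (h : W2 f F) :
    AEStronglyMeasurable F mu :=
  aesm_mu fun k => (h.mem k).aestronglyMeasurable

theorem aesm_av {f g : ℝ × ℝ → ℝ} {F G : ℝ × ℝ → ℝ × ℝ} (h : W2 f F) (h' : W2 g G) :
    AEStronglyMeasurable (av f F G) mu := by
  have m1 := (aesm_fun h).aemeasurable
  have m2 := (aesm_grad h).aemeasurable
  have m3 := (aesm_grad h').aemeasurable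
  have m4 : AEMeasurable (fun p : ℝ × ℝ => (![(F p).1, (F p).2, (G p).1, (G p).2,
      2 * f p / p.1] : Fin 5 → ℝ)) mu := by
    refine aemeasurable_pi_lambda _ fun i => ?_
    fin_cases i
    · exact m2.fst
    · exact m2.snd
    · exact m3.fst
    · exact m3.snd
    · exact (m1.const_mul 2).div measurable_fst.aemeasurable
  have m5 : AEMeasurable (av f F G) mu :=
    (PiLp.continuous_toLp 2 (fun _ : Fin 5 => ℝ)).measurable.comp_aemeasurable m4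
  exact m5.aestronglyMeasurable

theorem ae_QQ : ∀ᵐ p ∂mu, p ∈ QQ := by
  have h1 : ∀ᵐ p ∂(volume.restrict QQ), p ∈ QQ := by
    refine ae_restrict_mem ?_
    exact (measurableSet_lt measurable_const measurable_fst).inter
      (measurableSet_lt measurable_const measurable_snd)
  exact (withDensity_absolutelyContinuous _ _).ae_le h1

end meas

/-- the cubic inequality -/
theorem cube_le {W : Type*} [NormedAddCommGroup W] [InnerProductSpace ℝ W] (v w : W) :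
    ‖v + w‖ ^ 3 ≤ ‖v‖ ^ 3 + 3 * (‖v‖ * inner ℝ v w) + 3 * (‖v‖ * ‖w‖ ^ 2) + ‖w‖ ^ 3 := by
  have h1 : ‖v + w‖ ^ 2 = ‖v‖ ^ 2 + 2 * inner ℝ v w + ‖w‖ ^ 2 := norm_add_sq_real v w
  have h2 : ‖v + w‖ ≤ ‖v‖ + ‖w‖ := norm_add_le v w
  have h3 : |‖v + w‖ - ‖v‖| ≤ ‖w‖ := by
    have := abs_norm_sub_norm_le (v + w) v
    rwa [add_sub_cancel_left] at this
  set q := ‖v + w‖
  set x := ‖v‖ with hx
  set y := ‖w‖ with hy
  have hq0 : 0 ≤ q := norm_nonneg _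
  have hx0 : 0 ≤ x := norm_nonneg _
  have hy0 : 0 ≤ y := norm_nonneg _
  have h4 : (q - x) ^ 2 ≤ y ^ 2 := by
    rw [← sq_abs]
    exact pow_le_pow_left₀ (abs_nonneg _) h3 2
  have h5 : (q - x) ^ 2 * (q + x / 2) ≤ y ^ 2 * (x + y + x / 2) :=
    mul_le_mul h4 (by linarith) (by positivity) (by positivity)
  have h6 : q ^ 3 = x ^ 3 + 3 * (x * inner ℝ v w) + 3 / 2 * (x * y ^ 2) +
      (q - x) ^ 2 * (q + x / 2) := by
    have : inner ℝ v w = (q ^ 2 - x ^ 2 - y ^ 2) / 2 := by linarith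
    rw [this]
    ring
  rw [h6]
  linarith [h5]

/-- the pointwise estimate of the variation -/
theorem point {f g φ γ : ℝ × ℝ → ℝ} {F G P R : ℝ × ℝ → ℝ × ℝ} {p : ℝ × ℝ} {M s : ℝ}
    (hf : |f p| ≤ 2) (hg : |g p| ≤ 2) (h1 : |φ p| ≤ M) (h2 : |γ p| ≤ M) (hs : |s| ≤ 1) :
    ‖av (fs s f φ γ 1) (Fs s f φ γ F P R 1) (Fs s g φ γ G P R 2) p - (av f F G p +
      s • av φ P R p)‖ ≤
        (M ^ 2 + 2 * M * (2 + M)) * s ^ 2 * (‖av f F G p‖ + ‖av φ P R p‖) := by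
  have hM : 0 ≤ M := (abs_nonneg _).trans h1
  obtain ⟨n0, n1, n2, -⟩ := nu_bound (s := s) h1 h2
  set ν := nu s φ γ p with hν
  set a := av f F G p with ha
  set b := av φ P R p with hb
  set c := (f p + s * φ p) * s ^ 2 * ν ^ 3 with hc
  set c' := (g p + s * γ p) * s ^ 2 * ν ^ 3 with hc'
  set w : V5 := !₂[c * (φ p * (P p).1 + γ p * (R p).1), c * (φ p * (P p).2 + γ p * (R p).2),
    c' * (φ p * (P p).1 + γ p * (R p).1), c' * (φ p * (P p).2 + γ p * (R p).2), 0] with hw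
  have key : av (fs s f φ γ 1) (Fs s f φ γ F P R 1) (Fs s g φ γ G P R 2) p - (a + s • b) =
      (ν - 1) • (a + s • b) - w := by
    ext i
    fin_cases i
    · simp [av, ha, hb, hw, Fs1, Fs2, fs1, hc, hc', ← hν]
      ring
    · simp [av, ha, hb, hw, Fs1, Fs2, fs1, hc, hc', ← hν]
      ring
    · simp [av, ha, hb, hw, Fs1, Fs2, fs1, hc, hc', ← hν]
      ring
    · simp [av, ha, hb, hw, Fs1, Fs2, fs1, hc, hc', ← hν]
      ring
    · simp [av, ha, hb, hw, Fs1, Fs2, fs1, hc, hc', ← hν]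
      ring
  rw [key]
  have hcb : |c| ≤ (2 + M) * s ^ 2 := by
    rw [hc, abs_mul, abs_mul, abs_of_nonneg (sq_nonneg s), abs_of_nonneg (by positivity : 0 ≤ ν ^ 3)]
    have a1 : |f p + s * φ p| ≤ 2 + M := by
      refine (abs_add_le _ _).trans ?_
      rw [abs_mul]
      have : |s| * |φ p| ≤ 1 * M := mul_le_mul hs h1 (abs_nonneg _) zero_le_one
      linarith
    have a2 : ν ^ 3 ≤ 1 := pow_le_one₀ n0.le n1
    calc |f p + s * φ p| * s ^ 2 * ν ^ 3 ≤ ((2 + M) * s ^ 2) * 1 :=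
          mul_le_mul (mul_le_mul_of_nonneg_right a1 (sq_nonneg s)) a2 (by positivity)
            (by positivity)
      _ = _ := mul_one _
  have hcb' : |c'| ≤ (2 + M) * s ^ 2 := by
    rw [hc', abs_mul, abs_mul, abs_of_nonneg (sq_nonneg s),
      abs_of_nonneg (by positivity : 0 ≤ ν ^ 3)]
    have a1 : |g p + s * γ p| ≤ 2 + M := by
      refine (abs_add_le _ _).trans ?_
      rw [abs_mul]
      have : |s| * |γ p| ≤ 1 * M := mul_le_mul hs h2 (abs_nonneg _) zero_le_one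
      linarith
    have a2 : ν ^ 3 ≤ 1 := pow_le_one₀ n0.le n1
    calc |g p + s * γ p| * s ^ 2 * ν ^ 3 ≤ ((2 + M) * s ^ 2) * 1 :=
          mul_le_mul (mul_le_mul_of_nonneg_right a1 (sq_nonneg s)) a2 (by positivity)
            (by positivity)
      _ = _ := mul_one _
  have hwb : ‖w‖ ≤ 2 * M * (2 + M) * s ^ 2 * ‖b‖ := by
    have b1 : ‖w‖ ^ 2 = (c ^ 2 + c' ^ 2) * ((φ p * (P p).1 + γ p * (R p).1) ^ 2 +
        (φ p * (P p).2 + γ p * (R p).2) ^ 2) := by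
      rw [EuclideanSpace.norm_sq_eq, Fin.sum_univ_five, hw]
      simp only [Real.norm_eq_abs, sq_abs]
      simp
      ring
    have b2 : ‖b‖ ^ 2 = (P p).1 ^ 2 + (P p).2 ^ 2 + (R p).1 ^ 2 + (R p).2 ^ 2 +
        (2 * φ p / p.1) ^ 2 := by
      rw [EuclideanSpace.norm_sq_eq, Fin.sum_univ_five, hb]
      simp only [Real.norm_eq_abs, sq_abs]
      simp [av]
    have b3 : (φ p * (P p).1 + γ p * (R p).1) ^ 2 + (φ p * (P p).2 + γ p * (R p).2) ^ 2 ≤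
        (2 * M ^ 2) * ‖b‖ ^ 2 := by
      have d1 : φ p ^ 2 + γ p ^ 2 ≤ 2 * M ^ 2 := by
        have a1 : φ p ^ 2 ≤ M ^ 2 := by rw [← sq_abs]; exact pow_le_pow_left₀ (abs_nonneg _) h1 2
        have a2 : γ p ^ 2 ≤ M ^ 2 := by rw [← sq_abs]; exact pow_le_pow_left₀ (abs_nonneg _) h2 2
        linarith
      have d2 : (φ p * (P p).1 + γ p * (R p).1) ^ 2 + (φ p * (P p).2 + γ p * (R p).2) ^ 2 ≤
          (φ p ^ 2 + γ p ^ 2) * ((P p).1 ^ 2 + (P p).2 ^ 2 + (R p).1 ^ 2 + (R p).2 ^ 2) := by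
        nlinarith [sq_nonneg (φ p * (R p).1 - γ p * (P p).1),
          sq_nonneg (φ p * (R p).2 - γ p * (P p).2)]
      have d3 : (P p).1 ^ 2 + (P p).2 ^ 2 + (R p).1 ^ 2 + (R p).2 ^ 2 ≤ ‖b‖ ^ 2 := by
        rw [b2]
        linarith [sq_nonneg (2 * φ p / p.1)]
      exact d2.trans (mul_le_mul d1 d3 (by positivity) (by positivity))
    have b4 : c ^ 2 + c' ^ 2 ≤ 2 * ((2 + M) * s ^ 2) ^ 2 := by
      have a1 : c ^ 2 ≤ ((2 + M) * s ^ 2) ^ 2 := by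
        rw [← sq_abs]; exact pow_le_pow_left₀ (abs_nonneg _) hcb 2
      have a2 : c' ^ 2 ≤ ((2 + M) * s ^ 2) ^ 2 := by
        rw [← sq_abs]; exact pow_le_pow_left₀ (abs_nonneg _) hcb' 2
      linarith
    have b5 : ‖w‖ ^ 2 ≤ (2 * M * (2 + M) * s ^ 2 * ‖b‖) ^ 2 := by
      rw [b1]
      refine (mul_le_mul b4 b3 (by positivity) (by positivity)).trans (le_of_eq ?_)
      ring
    exact le_of_sq_le_sq b5 (by positivity)
  have hab : ‖a + s • b‖ ≤ ‖a‖ + ‖b‖ := by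
    refine (norm_add_le _ _).trans ?_
    rw [norm_smul, Real.norm_eq_abs]
    have := mul_le_mul_of_nonneg_right hs (norm_nonneg b)
    linarith
  calc ‖(ν - 1) • (a + s • b) - w‖ ≤ ‖(ν - 1) • (a + s • b)‖ + ‖w‖ := norm_sub_le _ _
    _ ≤ s ^ 2 * M ^ 2 * (‖a‖ + ‖b‖) + 2 * M * (2 + M) * s ^ 2 * ‖b‖ := by
        rw [norm_smul, Real.norm_eq_abs]
        exact add_le_add (mul_le_mul n2 hab (norm_nonneg _) (by positivity)) hwb
    _ ≤ _ := by
        have : 0 ≤ 2 * M * (2 + M) * s ^ 2 * ‖a‖ := by positivity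
        linarith

/-- the pointwise estimate of the energy -/
theorem point2 {a b c : V5} {C s : ℝ} (hC : 0 ≤ C) (hs : |s| ≤ 1)
    (h : ‖c - (a + s • b)‖ ≤ C * s ^ 2 * (‖a‖ + ‖b‖)) :
    ‖c‖ ^ 3 - ‖a‖ ^ 3 ≤ 3 * s * (‖a‖ * inner ℝ a b) +
      (3 * C + 3 * (1 + C) ^ 2 + (1 + C) ^ 3) * s ^ 2 * (‖a‖ + ‖b‖) ^ 3 := by
  set e := c - (a + s • b) with he
  have hc : c = a + (s • b + e) := by rw [he]; abel
  set Z := ‖a‖ + ‖b‖ with hZ
  have ha0 : 0 ≤ ‖a‖ := norm_nonneg a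
  have hb0 : 0 ≤ ‖b‖ := norm_nonneg b
  have hZ0 : 0 ≤ Z := by positivity
  have haZ : ‖a‖ ≤ Z := by linarith
  have hbZ : ‖b‖ ≤ Z := by linarith
  have hs2 : s ^ 2 ≤ |s| := by
    rw [← sq_abs]
    nlinarith [abs_nonneg s]
  have hw : ‖s • b + e‖ ≤ |s| * (1 + C) * Z := by
    refine (norm_add_le _ _).trans ?_
    rw [norm_smul, Real.norm_eq_abs]
    have h1 : |s| * ‖b‖ ≤ |s| * Z := mul_le_mul_of_nonneg_left hbZ (abs_nonneg s)
    have h2 : C * s ^ 2 * Z ≤ C * |s| * Z :=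
      mul_le_mul_of_nonneg_right (mul_le_mul_of_nonneg_left hs2 hC) hZ0
    linarith
  have h3 := cube_le a (s • b + e)
  rw [← hc, inner_add_right, real_inner_smul_right] at h3
  have h4 : ‖a‖ * inner ℝ a e ≤ C * s ^ 2 * Z ^ 3 := by
    have h5 : inner ℝ a e ≤ ‖a‖ * ‖e‖ := real_inner_le_norm a e
    calc ‖a‖ * inner ℝ a e ≤ ‖a‖ * (‖a‖ * ‖e‖) := mul_le_mul_of_nonneg_left h5 ha0
      _ ≤ Z * (Z * (C * s ^ 2 * Z)) := by
          refine mul_le_mul haZ (mul_le_mul haZ h (norm_nonneg _) hZ0) (by positivity) hZ0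
      _ = _ := by ring
  have h6 : ‖a‖ * ‖s • b + e‖ ^ 2 ≤ (1 + C) ^ 2 * s ^ 2 * Z ^ 3 := by
    calc ‖a‖ * ‖s • b + e‖ ^ 2 ≤ Z * (|s| * (1 + C) * Z) ^ 2 :=
          mul_le_mul haZ (pow_le_pow_left₀ (norm_nonneg _) hw 2) (by positivity) hZ0
      _ = (1 + C) ^ 2 * |s| ^ 2 * Z ^ 3 := by ring
      _ = _ := by rw [sq_abs]
  have h7 : ‖s • b + e‖ ^ 3 ≤ (1 + C) ^ 3 * s ^ 2 * Z ^ 3 := by
    calc ‖s • b + e‖ ^ 3 ≤ (|s| * (1 + C) * Z) ^ 3 := pow_le_pow_left₀ (norm_nonneg _) hw 3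
      _ = ((1 + C) ^ 3 * Z ^ 3) * (|s| ^ 2 * |s|) := by ring
      _ ≤ ((1 + C) ^ 3 * Z ^ 3) * (|s| ^ 2 * 1) := by
          refine mul_le_mul_of_nonneg_left ?_ (by positivity)
          exact mul_le_mul_of_nonneg_left hs (by positivity)
      _ = (1 + C) ^ 3 * |s| ^ 2 * Z ^ 3 := by ring
      _ = _ := by rw [sq_abs]
  nlinarith [h3, h4, h6, h7]

end ModVar

open ModVar

theorem var (hC : StmChain) : StmVAR := by
  intro f g F G hmin φ γ P R hT hb hφs hγs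
  obtain ⟨hA, hfg, hE⟩ := hmin
  obtain ⟨M, hM⟩ := hb
  have h10 : ((1 : ℝ), (0 : ℝ)) ∈ Qc := ⟨one_pos, le_rfl⟩
  have hM0 : 0 ≤ M := (abs_nonneg _).trans (hM _ h10).1
  set a := av f F G with ha
  set b := av φ P R with hbdef
  set C : ℝ := M ^ 2 + 2 * M * (2 + M) with hCdef
  have hC0 : 0 ≤ C := by positivity
  set C' : ℝ := 3 * C + 3 * (1 + C) ^ 2 + (1 + C) ^ 3 with hC'
  have hC'0 : 0 ≤ C' := by positivity
  have hfb : ∀ p ∈ Qc, |f p| ≤ 2 ∧ |g p| ≤ 2 := by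
    intro p hp
    have h1 := hfg p hp
    constructor
    · exact abs_le_of_sq_le_sq (by nlinarith [sq_nonneg (g p)]) (by norm_num)
    · exact abs_le_of_sq_le_sq (by nlinarith [sq_nonneg (f p)]) (by norm_num)
  have hQ : QQ ⊆ Qc := fun p hp => ⟨hp.1, hp.2.le⟩
  have hZ : MemLp (fun p => ‖a p‖ + ‖b p‖) 3 mu := hA.mem.norm.add hT.mem.norm
  have hZint : Integrable (fun p => (‖a p‖ + ‖b p‖) ^ 3) mu := by
    have h1 := hZ.integrable_norm_pow (by norm_num)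
    refine h1.congr (Eventually.of_forall fun p => ?_)
    simp only []
    rw [Real.norm_eq_abs, abs_of_nonneg (by positivity)]
  have ha3 : Integrable (fun p => ‖a p‖ ^ 3) mu := by
    have h1 := hA.mem.integrable_norm_pow (by norm_num)
    exact_mod_cast h1
  have habint : Integrable (fun p => ‖a p‖ * inner ℝ (a p) (b p)) mu := by
    refine hZint.mono' ?_ (Eventually.of_forall fun p => ?_)
    · exact hA.mem.aestronglyMeasurable.norm.mul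
        (hA.mem.aestronglyMeasurable.inner hT.mem.aestronglyMeasurable)
    · rw [norm_mul, norm_norm]
      have h1 : ‖inner ℝ (a p) (b p)‖ ≤ ‖a p‖ * ‖b p‖ := norm_inner_le_norm _ _
      have h2 : 0 ≤ ‖a p‖ := norm_nonneg _
      have h3 : 0 ≤ ‖b p‖ := norm_nonneg _
      calc ‖a p‖ * ‖inner ℝ (a p) (b p)‖ ≤ ‖a p‖ * (‖a p‖ * ‖b p‖) :=
            mul_le_mul_of_nonneg_left h1 h2
        _ ≤ (‖a p‖ + ‖b p‖) ^ 3 := by
            have e1 : 0 ≤ ‖a p‖ ^ 3 := by positivity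
            have e2 : 0 ≤ ‖a p‖ ^ 2 * ‖b p‖ := by positivity
            have e3 : 0 ≤ ‖a p‖ * ‖b p‖ ^ 2 := by positivity
            have e4 : 0 ≤ ‖b p‖ ^ 3 := by positivity
            nlinarith
  set I := ∫ p, ‖a p‖ * inner ℝ (a p) (b p) ∂mu with hI
  set K := C' * ∫ p, (‖a p‖ + ‖b p‖) ^ 3 ∂mu with hK
  have main : ∀ s : ℝ, |s| ≤ 1 → 0 ≤ 3 * s * I + K * s ^ 2 := by
    intro s hs
    set fS := fs s f φ γ 1 with hfS
    set gS := fs s g φ γ 2 with hgS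
    set FS := Fs s f φ γ F P R 1 with hFS
    set GS := Fs s g φ γ G P R 2 with hGS
    have wf : W2 fS FS := w2_fs hC hA.wf hT.wφ hT.wγ s 1
    have wg : W2 gS GS := w2_fs hC hA.wg hT.wφ hT.wγ s 2
    have hpt : ∀ᵐ p ∂mu, ‖av fS FS GS p - (a p + s • b p)‖ ≤ C * s ^ 2 * (‖a p‖ + ‖b p‖) := by
      filter_upwards [ae_QQ] with p hp
      exact point (hfb p (hQ hp)).1 (hfb p (hQ hp)).2 (hM p (hQ hp)).1 (hM p (hQ hp)).2 hs
    have hmem : MemLp (av fS FS GS) 3 mu := by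
      have h1 : MemLp (fun p => (1 + C) * (‖a p‖ + ‖b p‖)) 3 mu := hZ.const_mul (1 + C)
      refine h1.of_le (aesm_av wf wg) ?_
      filter_upwards [hpt] with p hp
      have h2 : ‖av fS FS GS p‖ ≤ ‖av fS FS GS p - (a p + s • b p)‖ + ‖a p + s • b p‖ := by
        have := norm_add_le (av fS FS GS p - (a p + s • b p)) (a p + s • b p)
        rwa [sub_add_cancel] at this
      have h3 : ‖a p + s • b p‖ ≤ ‖a p‖ + ‖b p‖ := by
        refine (norm_add_le _ _).trans ?_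
        rw [norm_smul, Real.norm_eq_abs]
        have := mul_le_mul_of_nonneg_right hs (norm_nonneg (b p))
        linarith
      have h4 : C * s ^ 2 * (‖a p‖ + ‖b p‖) ≤ C * (‖a p‖ + ‖b p‖) := by
        have h5 : s ^ 2 ≤ 1 := by rw [← sq_abs]; exact pow_le_one₀ (abs_nonneg s) hs
        have h6 : 0 ≤ C * (‖a p‖ + ‖b p‖) := by positivity
        nlinarith
      have h7 : 0 ≤ (1 + C) * (‖a p‖ + ‖b p‖) := by positivity
      rw [Real.norm_eq_abs, abs_of_nonneg h7]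
      linarith
    have hadm : Adm fS gS FS GS := by
      refine ⟨wf, wg, hmem, ?_, ?_, ?_⟩
      · intro r hr
        have hr' : ((r : ℝ), (0 : ℝ)) ∈ Qc := ⟨hr, le_rfl⟩
        have h1 := (nu_bound (s := s) (hM _ hr').1 (hM _ hr').2).2.2.2
        have h2 := hA.bdy r hr
        have h3 := hT.bdy r hr
        rw [hfS, hgS, fs1, fs2]
        linear_combination h1 + nu s φ γ (r, 0) ^ 2 * h2 + 2 * s * nu s φ γ (r, 0) ^ 2 * h3
      · intro p hp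
        rw [hfS, fs1, fs1]
        have h1 : nu s φ γ (JJ p) = nu s φ γ p := by
          unfold nu
          rw [hφs p hp, hγs p hp, neg_sq]
        rw [h1, hφs p hp, hA.jf p hp]
      · intro p hp
        rw [hgS, fs2, fs2]
        have h1 : nu s φ γ (JJ p) = nu s φ γ p := by
          unfold nu
          rw [hφs p hp, hγs p hp, neg_sq]
        rw [h1, hγs p hp, hA.jg p hp]
        ring
    have h1 := hE fS gS FS GS hadm
    have hS3 : Integrable (fun p => ‖av fS FS GS p‖ ^ 3) mu := by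
      have h1 := hmem.integrable_norm_pow (by norm_num)
      exact_mod_cast h1
    have h2 : ∫ p, ‖av fS FS GS p‖ ^ 3 ∂mu - ∫ p, ‖a p‖ ^ 3 ∂mu ≤ 3 * s * I + K * s ^ 2 := by
      rw [← integral_sub hS3 ha3]
      have h3 : 3 * s * I + K * s ^ 2 = ∫ p, (3 * s * (‖a p‖ * inner ℝ (a p) (b p)) +
          C' * s ^ 2 * (‖a p‖ + ‖b p‖) ^ 3) ∂mu := by
        rw [integral_add (habint.const_mul _) (hZint.const_mul _), integral_const_mul,
          integral_const_mul, hK, hI]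
        ring
      rw [h3]
      refine integral_mono_ae (hS3.sub ha3) ((habint.const_mul _).add (hZint.const_mul _)) ?_
      filter_upwards [hpt] with p hp
      exact point2 hC0 hs hp
    linarith
  have hK0 : 0 ≤ K := by
    rw [hK]
    refine mul_nonneg hC'0 (integral_nonneg fun p => ?_)
    positivity
  show I = 0
  by_contra hne
  have hIpos : 0 < |I| := abs_pos.2 hne
  set t := min 1 (|I| / (K + 1)) with ht
  have ht0 : 0 < t := lt_min one_pos (div_pos hIpos (by linarith))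
  have ht1 : t ≤ 1 := min_le_left _ _
  have ht2 : t * (K + 1) ≤ |I| := by
    have := min_le_right 1 (|I| / (K + 1))
    rw [← ht] at this
    rwa [le_div_iff₀ (by linarith : 0 < K + 1)] at this
  rcases lt_or_gt_of_ne hne with h | h
  · have h1 := main t (by rw [abs_of_pos ht0]; exact ht1)
    rw [abs_of_neg h] at ht2
    have h2 : t * (t * (K + 1)) ≤ t * (-I) := mul_le_mul_of_nonneg_left ht2 ht0.le
    have h3 : 0 < t * (-I) := mul_pos ht0 (by linarith)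
    nlinarith [sq_nonneg t]
  · have h1 := main (-t) (by rw [abs_neg, abs_of_pos ht0]; exact ht1)
    rw [abs_of_pos h] at ht2
    have h2 : t * (t * (K + 1)) ≤ t * I := mul_le_mul_of_nonneg_left ht2 ht0.le
    have h3 : 0 < t * I := mul_pos ht0 h
    nlinarith [sq_nonneg t]

end Pool.Agent.T6.H20.BV
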