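import Pool.Agent.T6.H20.BV.Chn
import Pool.Agent.T6.H20.BV.Var
import Pool.Agent.T6.H20.BU.Weak

/-!
# Project BV, module T3D (helper43)
-/

set_option autoImplicit false

namespace Pool.Agent.T6.H20.BV.ModT3D

open MeasureTheory Set Filter Topology Pool.Agent.T6.H20.BU Pool.Agent.T6.H20.BV
open scoped ContDiff

/-! ### Calculus off the axis -/

theorem continuous_coord (i : Fin 3) : Continuous (fun x : E 3 => x i) :=
  (EuclideanSpace.proj (𝕜 := ℝ) i).continuous

theorem continuous_rr : Continuous rr := by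
  unfold rr
  exact Real.continuous_sqrt.comp (((continuous_coord 0).pow 2).add ((continuous_coord 1).pow 2))

theorem continuous_rz : Continuous rz := continuous_rr.prodMk (continuous_coord 2)

theorem rr_nonneg (x : E 3) : 0 ≤ rr x := Real.sqrt_nonneg _

theorem rr_sq (x : E 3) : rr x ^ 2 = x 0 ^ 2 + x 1 ^ 2 := Real.sq_sqrt (by positivity)

theorem cs_sq {x : E 3} (hx : rr x ≠ 0) : c1 x ^ 2 + s1 x ^ 2 = 1 := by
  unfold c1 s1
  rw [div_pow, div_pow, ← add_div, ← rr_sq, div_self (pow_ne_zero 2 hx)]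

theorem abs_c1_le (x : E 3) : |c1 x| ≤ 1 := by
  by_cases hx : rr x = 0
  · simp [c1, hx]
  · have := cs_sq hx
    rw [← sq_le_one_iff_abs_le_one]
    nlinarith [sq_nonneg (s1 x)]

theorem abs_s1_le (x : E 3) : |s1 x| ≤ 1 := by
  by_cases hx : rr x = 0
  · simp [s1, hx]
  · have := cs_sq hx
    rw [← sq_le_one_iff_abs_le_one]
    nlinarith [sq_nonneg (c1 x)]

theorem proj_ap (i : Fin 3) (v : E 3) : EuclideanSpace.proj (𝕜 := ℝ) i v = v i := rfl

/-- the linear form `v ↦ a v₀ + b v₁ + c v₂` -/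
noncomputable def lf (a b c : ℝ) : E 3 →L[ℝ] ℝ :=
  a • EuclideanSpace.proj (𝕜 := ℝ) (0 : Fin 3) + b • EuclideanSpace.proj (𝕜 := ℝ) (1 : Fin 3) +
    c • EuclideanSpace.proj (𝕜 := ℝ) (2 : Fin 3)

theorem lf_apply (a b c : ℝ) (v : E 3) : lf a b c v = a * v 0 + b * v 1 + c * v 2 := by
  simp [lf]

theorem hasFDerivAt_coord (i : Fin 3) (x : E 3) :
    HasFDerivAt (fun x : E 3 => x i) (EuclideanSpace.proj (𝕜 := ℝ) i) x :=
  (EuclideanSpace.proj (𝕜 := ℝ) i).hasFDerivAt

theorem rr_hasFDerivAt {x : E 3} (hx : rr x ≠ 0) : HasFDerivAt rr (lf (c1 x) (s1 x) 0) x := by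
  have h0 := hasFDerivAt_coord 0 x
  have h1 := hasFDerivAt_coord 1 x
  have h2 : HasFDerivAt (fun x : E 3 => x 0 ^ 2 + x 1 ^ 2) _ x := (h0.pow 2).add (h1.pow 2)
  have h3 : x 0 ^ 2 + x 1 ^ 2 ≠ 0 := by
    rw [← rr_sq]; exact pow_ne_zero 2 hx
  have h4 := h2.sqrt h3
  refine h4.congr_fderiv ?_
  ext v
  rw [lf_apply]
  have e : Real.sqrt (x 0 ^ 2 + x 1 ^ 2) = rr x := rfl
  rw [e]
  simp only [c1, s1]
  simp
  field_simp

theorem c1_hasFDerivAt {x : E 3} (hx : rr x ≠ 0) :
    HasFDerivAt c1 (lf (s1 x ^ 2 / rr x) (-(c1 x * s1 x) / rr x) 0) x := by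
  have h0 := hasFDerivAt_coord 0 x
  have h1 := (h0.mul ((hasDerivAt_inv hx).comp_hasFDerivAt x (rr_hasFDerivAt hx)))
  have h2 : HasFDerivAt c1 _ x := h1
  refine h2.congr_fderiv ?_
  ext v
  have h3 := cs_sq hx
  have e1 : c1 x = x 0 / rr x := rfl
  simp only [lf_apply, add_apply, smul_apply, smul_eq_mul,
    proj_ap, Function.comp]
  have e2 : s1 x ^ 2 = 1 - c1 x ^ 2 := by linarith
  rw [e2, e1]
  field_simp
  ring

theorem s1_hasFDerivAt {x : E 3} (hx : rr x ≠ 0) :
    HasFDerivAt s1 (lf (-(c1 x * s1 x) / rr x) (c1 x ^ 2 / rr x) 0) x := by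
  have h0 := hasFDerivAt_coord 1 x
  have h1 := (h0.mul ((hasDerivAt_inv hx).comp_hasFDerivAt x (rr_hasFDerivAt hx)))
  have h2 : HasFDerivAt s1 _ x := h1
  refine h2.congr_fderiv ?_
  ext v
  have h3 := cs_sq hx
  have e1 : s1 x = x 1 / rr x := rfl
  simp only [lf_apply, add_apply, smul_apply, smul_eq_mul,
    proj_ap, Function.comp]
  have e2 : c1 x ^ 2 = 1 - s1 x ^ 2 := by linarith
  rw [e2, e1]
  field_simp
  ring

theorem comp_rz_hasFDerivAt {h : ℝ × ℝ → ℝ} (hh : ContDiff ℝ 1 h) {x : E 3} (hx : rr x ≠ 0) :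
    HasFDerivAt (fun x => h (rz x)) (lf ((gr h (rz x)).1 * c1 x) ((gr h (rz x)).1 * s1 x)
      (gr h (rz x)).2) x := by
  have h1 : HasFDerivAt rz ((lf (c1 x) (s1 x) 0).prod (EuclideanSpace.proj (𝕜 := ℝ) (2 : Fin 3))) x :=
    (rr_hasFDerivAt hx).prodMk (hasFDerivAt_coord 2 x)
  have h2 := ((hh.differentiable one_ne_zero) (rz x)).hasFDerivAt.comp x h1
  refine h2.congr_fderiv ?_
  ext v
  rw [lf_apply]
  have e : ∀ a b : ℝ, fderiv ℝ h (rz x) (a, b) = a * (gr h (rz x)).1 + b * (gr h (rz x)).2 := by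
    intro a b
    have : ((a, b) : ℝ × ℝ) = a • ((1, 0) : ℝ × ℝ) + b • ((0, 1) : ℝ × ℝ) := by simp
    rw [this, map_add, map_smul, map_smul]
    rfl
  simp only [ContinuousLinearMap.comp_apply, ContinuousLinearMap.prod_apply, lf_apply, e,
    proj_ap]
  ring

theorem om_hasFDerivAt {h h' : ℝ × ℝ → ℝ} (hh : ContDiff ℝ 1 h) (hh' : ContDiff ℝ 1 h') {x : E 3}
    (hx : rr x ≠ 0) (c : Fin 3) :
    HasFDerivAt (fun x => om h h' x c) (lf (dm h (gr h) (gr h') x c 0) (dm h (gr h) (gr h') x c 1)
      (dm h (gr h) (gr h') x c 2)) x := by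
  have hc := c1_hasFDerivAt hx
  have hs := s1_hasFDerivAt hx
  have hu := comp_rz_hasFDerivAt hh hx
  have hu' := comp_rz_hasFDerivAt hh' hx
  have h3 := cs_sq hx
  fin_cases c
  · have h1 : HasFDerivAt (fun x => (c1 x ^ 2 - s1 x ^ 2) * h (rz x)) _ x :=
      ((hc.pow 2).sub (hs.pow 2)).mul hu
    have h2 : HasFDerivAt (fun x => om h h' x 0) _ x := h1
    refine h2.congr_fderiv ?_
    ext v
    simp only [lf_apply, add_apply, sub_apply,
      smul_apply, smul_eq_mul]
    simp [dm, emb, av, rz]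
    field_simp
    ring
  · have h1 : HasFDerivAt (fun x => (2 * c1 x * s1 x) * h (rz x)) _ x :=
      ((hc.const_mul 2).mul hs).mul hu
    have h2 : HasFDerivAt (fun x => om h h' x 1) _ x := h1
    refine h2.congr_fderiv ?_
    ext v
    simp only [lf_apply, add_apply, smul_apply, smul_eq_mul]
    simp [dm, emb, av, rz]
    field_simp
    ring
  · have h2 : HasFDerivAt (fun x => om h h' x 2) _ x := hu'
    refine h2.congr_fderiv ?_
    ext v
    simp only [lf_apply]
    simp [dm, emb, av, rz]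

theorem isOpen_off : IsOpen {x : E 3 | rr x ≠ 0} :=
  isOpen_ne_fun continuous_rr continuous_const

theorem coord_contDiff (i : Fin 3) : ContDiff ℝ 1 (fun x : E 3 => x i) :=
  (EuclideanSpace.proj (𝕜 := ℝ) i).contDiff

theorem rr_contDiffOn : ContDiffOn ℝ 1 rr {x : E 3 | rr x ≠ 0} := by
  unfold rr
  refine ContDiffOn.sqrt (((coord_contDiff 0).pow 2).add ((coord_contDiff 1).pow 2)).contDiffOn ?_
  intro x hx
  have : x 0 ^ 2 + x 1 ^ 2 = rr x ^ 2 := (rr_sq x).symm
  rw [this]
  exact pow_ne_zero 2 hx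

theorem c1_contDiffOn : ContDiffOn ℝ 1 c1 {x : E 3 | rr x ≠ 0} :=
  (coord_contDiff 0).contDiffOn.div rr_contDiffOn fun _ hx => hx

theorem s1_contDiffOn : ContDiffOn ℝ 1 s1 {x : E 3 | rr x ≠ 0} :=
  (coord_contDiff 1).contDiffOn.div rr_contDiffOn fun _ hx => hx

theorem om_contDiffOn {h h' : ℝ × ℝ → ℝ} (hh : ContDiff ℝ 1 h) (hh' : ContDiff ℝ 1 h')
    (c : Fin 3) : ContDiffOn ℝ 1 (fun x => om h h' x c) {x : E 3 | rr x ≠ 0} := by
  have hrz : ContDiffOn ℝ 1 rz {x : E 3 | rr x ≠ 0} :=
    rr_contDiffOn.prodMk (coord_contDiff 2).contDiffOn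
  have hu : ContDiffOn ℝ 1 (fun x => h (rz x)) {x : E 3 | rr x ≠ 0} := hh.comp_contDiffOn hrz
  have hu' : ContDiffOn ℝ 1 (fun x => h' (rz x)) {x : E 3 | rr x ≠ 0} := hh'.comp_contDiffOn hrz
  fin_cases c
  · exact (((c1_contDiffOn.pow 2).sub (s1_contDiffOn.pow 2)).mul hu)
  · exact ((contDiffOn_const.mul c1_contDiffOn).mul s1_contDiffOn).mul hu
  · exact hu'

theorem lf_single (w : E 3) (j : Fin 3) :
    lf (w 0) (w 1) (w 2) (EuclideanSpace.single j 1) = w j := by
  rw [lf_apply]
  fin_cases j <;> simp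

theorem pd_eq {h h' : ℝ × ℝ → ℝ} (hh : ContDiff ℝ 1 h)
    (hh' : ContDiff ℝ 1 h') (c : Fin 3) {φ : E 3 → ℝ} (hφ : ContDiff ℝ 1 φ)
    (hφs : tsupport φ ⊆ {x : E 3 | rr x ≠ 0}) (j : Fin 3) (x : E 3) :
    pd (fun x => φ x * om h h' x c) j x =
      om h h' x c * pd φ j x + dm h (gr h) (gr h') x c j * φ x := by
  by_cases hx : x ∈ tsupport φ
  · have h3 := ((hφ.differentiable one_ne_zero) x).hasFDerivAt.mul
      (om_hasFDerivAt hh hh' (hφs hx) c)
    have h4 : fderiv ℝ (fun x => φ x * om h h' x c) x = _ := h3.fderiv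
    unfold pd
    rw [h4]
    simp only [add_apply, smul_apply, smul_eq_mul, lf_single]
    ring
  · rw [pd_zero_of_notMem hx, image_eq_zero_of_notMem_tsupport hx]
    have h5 : (fun x => φ x * om h h' x c) =ᶠ[𝓝 x] fun _ => 0 := by
      filter_upwards [notMem_tsupport_iff_eventuallyEq.1 hx] with z hz
      simp [hz]
    rw [pd_congr h5]
    simp [pd]

theorem int_C1 {h h' : ℝ × ℝ → ℝ} (hh : ContDiff ℝ 1 h)
    (hh' : ContDiff ℝ 1 h') (c : Fin 3) {φ : E 3 → ℝ} (hφ : ContDiff ℝ 1 φ)
    (hφc : HasCompactSupport φ) (hφs : tsupport φ ⊆ {x : E 3 | rr x ≠ 0}) (j : Fin 3) :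
    Integrable (fun x => om h h' x c * pd φ j x + dm h (gr h) (gr h') x c j * φ x) := by
  have h1 : ContDiff ℝ 1 (fun x => φ x * om h h' x c) :=
    cut_contDiff isOpen_off hφ hφs (om_contDiffOn hh hh' c)
  have h2 : HasCompactSupport (fun x => φ x * om h h' x c) := hφc.mul_right
  have h3 := (continuous_pd h1 j).integrable_of_hasCompactSupport (μ := volume)
    (hasCompactSupport_pd h2 j)
  exact h3.congr (Eventually.of_forall fun x => pd_eq hh hh' c hφ hφs j x)

/-- Green's formula for `C¹` functions, off the axis -/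
theorem green_C1 (hG : StmtGreen) {h h' : ℝ × ℝ → ℝ} (hh : ContDiff ℝ 1 h)
    (hh' : ContDiff ℝ 1 h') (c : Fin 3) {φ : E 3 → ℝ} (hφ : ContDiff ℝ 1 φ)
    (hφc : HasCompactSupport φ) (hφs : tsupport φ ⊆ {x : E 3 | rr x ≠ 0}) (j : Fin 3) :
    ∫ x in half 2, (om h h' x c * pd φ j x + dm h (gr h) (gr h') x c j * φ x) =
      if j = Fin.last 2 then -∫ y : E 2, om h h' (bd y) c * φ (bd y) else 0 := by
  have h1 : ContDiff ℝ 1 (fun x => φ x * om h h' x c) :=
    cut_contDiff isOpen_off hφ hφs (om_contDiffOn hh hh' c)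
  have h2 : HasCompactSupport (fun x => φ x * om h h' x c) := hφc.mul_right
  have key := hG 2 _ h1 h2 j
  have e1 := pd_eq hh hh' c hφ hφs j
  simp only [e1] at key
  rw [key]
  simp only [mul_comm]

/-! ### The measures -/

theorem rz_P3 {p : ℝ × ℝ} (hp : 0 < p.1) (t : ℝ) : rz (P3 (p, t)) = p := by
  have h1 : rr (P3 (p, t)) = p.1 := by
    have : (P3 (p, t)) 0 ^ 2 + (P3 (p, t)) 1 ^ 2 = p.1 ^ 2 := by
      have e0 : (P3 (p, t)) 0 = p.1 * Real.cos t := rfl
      have e1 : (P3 (p, t)) 1 = p.1 * Real.sin t := rfl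
      rw [e0, e1]
      have := Real.sin_sq_add_cos_sq t
      linear_combination p.1 ^ 2 * this
    unfold rr
    rw [this, Real.sqrt_sq hp.le]
  unfold rz
  rw [h1]
  rfl

theorem vol_An : (volume : Measure ℝ) An = ENNReal.ofReal (2 * Real.pi) := by
  unfold An
  rw [Real.volume_Ioo]
  congr 1
  ring

theorem map_rz (hC : StmCOV) :
    Measure.map rz (volume.restrict (half 2)) = ENNReal.ofReal (2 * Real.pi) • mu := by
  have hfin : IsFiniteMeasure (volume.restrict An : Measure ℝ) :=
    ⟨by rw [Measure.restrict_apply_univ, vol_An]; exact ENNReal.ofReal_lt_top⟩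
  rw [← hC.1.map_eq, Measure.map_map continuous_rz.measurable hC.1.measurable]
  have h1 : (rz ∘ P3) =ᵐ[mu.prod (volume.restrict An)] Prod.fst := by
    have h2 : ∀ᵐ q ∂(mu.prod (volume.restrict An)), q.1 ∈ QQ :=
      Measure.quasiMeasurePreserving_fst.ae ModVar.ae_QQ
    filter_upwards [h2] with q hq
    exact rz_P3 hq.1 q.2
  have hsf : SFinite mu := by
    unfold mu
    infer_instance
  rw [Measure.map_congr h1, Measure.map_fst_prod, Measure.restrict_apply_univ, vol_An]

theorem lintegral_rz (hC : StmCOV) {D : ℝ × ℝ → ENNReal} (hD : AEMeasurable D mu) :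
    ∫⁻ x in half 2, D (rz x) = ENNReal.ofReal (2 * Real.pi) * ∫⁻ p, D p ∂mu := by
  have h1 : AEMeasurable D (Measure.map rz (volume.restrict (half 2))) := by
    rw [map_rz hC]; exact hD.smul_measure _
  rw [← lintegral_map' h1 continuous_rz.measurable.aemeasurable, map_rz hC,
    lintegral_smul_measure, smul_eq_mul]

theorem aesm_rz (hC : StmCOV) {X : Type*} [TopologicalSpace X] {u : ℝ × ℝ → X}
    (hu : AEStronglyMeasurable u mu) :
    AEStronglyMeasurable (fun x => u (rz x)) (volume.restrict (half 2)) := by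
  have h1 : AEStronglyMeasurable u (Measure.map rz (volume.restrict (half 2))) := by
    rw [map_rz hC]; exact hu.smul_measure _
  exact h1.comp_measurable continuous_rz.measurable

theorem ae_rz (hC : StmCOV) {P : ℝ × ℝ → Prop} (hP : ∀ᵐ p ∂mu, P p) :
    ∀ᵐ x ∂(volume.restrict (half 2)), P (rz x) := by
  have h1 : ∀ᵐ p ∂(Measure.map rz (volume.restrict (half 2))), P p := by
    rw [map_rz hC]; exact Measure.ae_smul_measure hP _
  exact ae_of_ae_map continuous_rz.measurable.aemeasurable h1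

theorem memLp_rz (hC : StmCOV) {u : ℝ × ℝ → V5} (hu : MemLp u 3 mu) :
    MemLp (fun x => u (rz x)) 3 (volume.restrict (half 2)) := by
  have h1 : MemLp u 3 (Measure.map rz (volume.restrict (half 2))) := by
    rw [map_rz hC]; exact hu.smul_measure ENNReal.ofReal_ne_top
  exact (memLp_map_measure_iff h1.1 continuous_rz.measurable.aemeasurable).1 h1

/-! ### `emb` -/

theorem emb_sub (c s : ℝ) (a b : V5) (i j : Fin 3) :
    emb c s a i j - emb c s b i j = emb c s (a - b) i j := by
  fin_cases i <;> fin_cases j <;> simp [emb] <;> ring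

theorem emb_le {c s : ℝ} (hc : |c| ≤ 1) (hs : |s| ≤ 1) (a : V5) (i j : Fin 3) :
    |emb c s a i j| ≤ 3 * ‖a‖ := by
  have ha : ∀ k, |a k| ≤ ‖a‖ := fun k => PiLp.norm_apply_le a k
  have hc2 : c ^ 2 ≤ 1 := by rw [← sq_abs]; exact pow_le_one₀ (abs_nonneg _) hc
  have hs2 : s ^ 2 ≤ 1 := by rw [← sq_abs]; exact pow_le_one₀ (abs_nonneg _) hs
  have hcs : |c ^ 2 - s ^ 2| ≤ 1 := by
    rw [abs_le]
    constructor <;> nlinarith [sq_nonneg c, sq_nonneg s]
  have h2 : |2 * c * s| ≤ 2 := by
    rw [abs_mul, abs_mul, abs_two]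
    nlinarith [abs_nonneg c, abs_nonneg s, mul_le_one₀ hc (abs_nonneg s) hs]
  have key2 : ∀ x y k l : ℝ, |x| ≤ 1 → |y| ≤ 2 → |k| ≤ ‖a‖ → |l| ≤ ‖a‖ →
      |x * k + y * l| ≤ 3 * ‖a‖ := by
    intro x y k l hx hy hk hl
    refine (abs_add_le _ _).trans ?_
    rw [abs_mul, abs_mul]
    nlinarith [mul_le_mul hx hk (abs_nonneg k) zero_le_one,
      mul_le_mul hy hl (abs_nonneg l) zero_le_two]
  have hm1 : ∀ x y : ℝ, |x| ≤ 1 → |y| ≤ 1 → |x * y| ≤ 1 := fun x y hx hy => by
    rw [abs_mul]; exact mul_le_one₀ hx (abs_nonneg _) hy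
  have hm2 : ∀ x y : ℝ, |x| ≤ 2 → |y| ≤ 1 → |x * y| ≤ 2 := fun x y hx hy => by
    rw [abs_mul]; nlinarith [abs_nonneg x, abs_nonneg y]
  have h0 : |(0:ℝ)| ≤ 2 := by simp
  have hn : ∀ x : ℝ, |x| ≤ 2 → |-x| ≤ 2 := fun x hx => by rwa [abs_neg]
  have hl2 : ∀ x : ℝ, |x| ≤ 1 → |x| ≤ 2 := fun x hx => hx.trans (by norm_num)
  fin_cases i <;> fin_cases j
  · have := key2 ((c ^ 2 - s ^ 2) * c) (2 * c * s * s) (a 0) (a 4) (hm1 _ _ hcs hc) (hm2 _ _ h2 hs)
      (ha 0) (ha 4)
    simp only [emb]
    simp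
    refine le_of_eq_of_le (congrArg _ ?_) this
    ring
  · have := key2 ((c ^ 2 - s ^ 2) * s) (-(2 * c * s * c)) (a 0) (a 4) (hm1 _ _ hcs hs)
      (hn _ (hm2 _ _ h2 hc)) (ha 0) (ha 4)
    simp only [emb]
    simp
    refine le_of_eq_of_le (congrArg _ ?_) this
    ring
  · have := key2 (c ^ 2 - s ^ 2) 0 (a 1) (a 4) hcs h0 (ha 1) (ha 4)
    simp only [emb]
    simp
    refine le_of_eq_of_le ?_ this
    rw [zero_mul, add_zero, abs_mul]
  · have := key2 (-((c ^ 2 - s ^ 2) * s)) (2 * c * s * c) (a 4) (a 0)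
      (by rw [abs_neg]; exact hm1 _ _ hcs hs) (hm2 _ _ h2 hc) (ha 4) (ha 0)
    simp only [emb]
    simp
    refine le_of_eq_of_le (congrArg _ ?_) this
    ring
  · have := key2 ((c ^ 2 - s ^ 2) * c) (2 * c * s * s) (a 4) (a 0) (hm1 _ _ hcs hc) (hm2 _ _ h2 hs)
      (ha 4) (ha 0)
    simp only [emb]
    simp
    refine le_of_eq_of_le (congrArg _ ?_) this
    ring
  · have := key2 0 (2 * c * s) (a 4) (a 1) (by simp) h2 (ha 4) (ha 1)
    simp only [emb]
    simp
    refine le_of_eq_of_le ?_ this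
    rw [zero_mul, zero_add, abs_mul, abs_mul, abs_mul, abs_two]
  · have := key2 c 0 (a 2) (a 0) hc h0 (ha 2) (ha 0)
    simp only [emb]
    simp
    refine le_of_eq_of_le ?_ this
    rw [zero_mul, add_zero, abs_mul, mul_comm]
  · have := key2 s 0 (a 2) (a 0) hs h0 (ha 2) (ha 0)
    simp only [emb]
    simp
    refine le_of_eq_of_le ?_ this
    rw [zero_mul, add_zero, abs_mul, mul_comm]
  · have := key2 1 0 (a 3) (a 0) (by simp) h0 (ha 3) (ha 0)
    simp only [emb]
    simp
    refine le_of_eq_of_le ?_ this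
    rw [zero_mul, add_zero, one_mul]

theorem measurable_c1 : Measurable c1 :=
  (continuous_coord 0).measurable.div continuous_rr.measurable

theorem measurable_s1 : Measurable s1 :=
  (continuous_coord 1).measurable.div continuous_rr.measurable

theorem aesm_dm (hC : StmCOV) {f g : ℝ × ℝ → ℝ} {F G : ℝ × ℝ → ℝ × ℝ} (hf : W2 f F)
    (hg : W2 g G) (c : Fin 3) :
    AEStronglyMeasurable (fun x => dm f F G x c) (volume.restrict (half 2)) := by
  have h1 := (aesm_rz hC (ModVar.aesm_av hf hg)).aemeasurable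
  have ha : ∀ k : Fin 5, AEMeasurable (fun x => av f F G (rz x) k) (volume.restrict (half 2)) :=
    fun k => (EuclideanSpace.proj (𝕜 := ℝ) k).continuous.measurable.comp_aemeasurable h1
  have hc := measurable_c1.aemeasurable (μ := volume.restrict (half 2))
  have hs := measurable_s1.aemeasurable (μ := volume.restrict (half 2))
  have key : ∀ j : Fin 3, AEMeasurable (fun x => dm f F G x c j) (volume.restrict (half 2)) := by
    intro j
    have h0 := ha 0
    have h1 := ha 1
    have h2 := ha 2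
    have h3 := ha 3
    have h4 := ha 4
    fin_cases c <;> fin_cases j
    · exact ((((hc.pow_const 2).sub (hs.pow_const 2)).mul h0).mul hc).add
        ((((hc.const_mul 2).mul hs).mul h4).mul hs)
    · exact ((((hc.pow_const 2).sub (hs.pow_const 2)).mul h0).mul hs).sub
        ((((hc.const_mul 2).mul hs).mul h4).mul hc)
    · exact ((hc.pow_const 2).sub (hs.pow_const 2)).mul h1
    · exact ((((hc.const_mul 2).mul hs).mul h0).mul hc).sub
        ((((hc.pow_const 2).sub (hs.pow_const 2)).mul h4).mul hs)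
    · exact ((((hc.const_mul 2).mul hs).mul h0).mul hs).add
        ((((hc.pow_const 2).sub (hs.pow_const 2)).mul h4).mul hc)
    · exact ((hc.const_mul 2).mul hs).mul h1
    · exact h2.mul hc
    · exact h2.mul hs
    · exact h3
  have h5 : AEMeasurable (fun x => (fun j => dm f F G x c j : Fin 3 → ℝ))
      (volume.restrict (half 2)) := aemeasurable_pi_lambda _ key
  have h6 : AEMeasurable (fun x => dm f F G x c) (volume.restrict (half 2)) :=
    (PiLp.continuous_toLp 2 (fun _ : Fin 3 => ℝ)).measurable.comp_aemeasurable h5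
  exact h6.aestronglyMeasurable

theorem norm_E3_le (v : E 3) : ‖v‖ ≤ |v 0| + |v 1| + |v 2| := by
  have h1 : ‖v‖ ^ 2 ≤ (|v 0| + |v 1| + |v 2|) ^ 2 := by
    rw [EuclideanSpace.norm_sq_eq, Fin.sum_univ_three]
    simp only [Real.norm_eq_abs]
    have a0 := abs_nonneg (v 0)
    have a1 := abs_nonneg (v 1)
    have a2 := abs_nonneg (v 2)
    nlinarith [mul_nonneg a0 a1, mul_nonneg a0 a2, mul_nonneg a1 a2]
  exact (abs_le_of_sq_le_sq' h1 (by positivity)).2

theorem norm_dm_le (f : ℝ × ℝ → ℝ) (F G : ℝ × ℝ → ℝ × ℝ) (x : E 3) (c : Fin 3) :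
    ‖dm f F G x c‖ ≤ 9 * ‖av f F G (rz x)‖ := by
  refine (norm_E3_le _).trans ?_
  have h := fun j => emb_le (abs_c1_le x) (abs_s1_le x) (av f F G (rz x)) c j
  have h0 := h 0
  have h1 := h 1
  have h2 := h 2
  unfold dm
  linarith

theorem memLp_dm (hC : StmCOV) {f g : ℝ × ℝ → ℝ} {F G : ℝ × ℝ → ℝ × ℝ} (hf : W2 f F)
    (hg : W2 g G) (hm : MemLp (av f F G) 3 mu) (c : Fin 3) :
    MemLp (fun x => dm f F G x c) 3 (volume.restrict (half 2)) := by
  refine ((memLp_rz hC hm).norm.const_mul 9).mono' (aesm_dm hC hf hg c) ?_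
  exact Eventually.of_forall fun x => norm_dm_le f F G x c

theorem aesm_om (hC : StmCOV) {f g : ℝ × ℝ → ℝ} {F G : ℝ × ℝ → ℝ × ℝ} (hf : W2 f F)
    (hg : W2 g G) (c : Fin 3) :
    AEStronglyMeasurable (fun x => om f g x c) (volume.restrict (half 2)) := by
  have h1 := (aesm_rz hC (ModVar.aesm_fun hf)).aemeasurable
  have h2 := (aesm_rz hC (ModVar.aesm_fun hg)).aemeasurable
  have hc := measurable_c1.aemeasurable (μ := volume.restrict (half 2))
  have hs := measurable_s1.aemeasurable (μ := volume.restrict (half 2))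
  refine AEMeasurable.aestronglyMeasurable ?_
  fin_cases c
  · exact ((hc.pow_const 2).sub (hs.pow_const 2)).mul h1
  · exact ((hc.const_mul 2).mul hs).mul h1
  · exact h2

/-- differences of `om` -/
theorem om_sub_le (f g h h' : ℝ × ℝ → ℝ) (x : E 3) (c : Fin 3) (ε : ℝ)
    (h1 : |f (rz x) - h (rz x)| ≤ ε) (h2 : |g (rz x) - h' (rz x)| ≤ ε) :
    |om h h' x c - om f g x c| ≤ ε := by
  have hε : 0 ≤ ε := (abs_nonneg _).trans h1
  have hc := abs_c1_le x
  have hs := abs_s1_le x
  have hc2 : c1 x ^ 2 ≤ 1 := by rw [← sq_abs]; exact pow_le_one₀ (abs_nonneg _) hc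
  have hs2 : s1 x ^ 2 ≤ 1 := by rw [← sq_abs]; exact pow_le_one₀ (abs_nonneg _) hs
  have hcs : |c1 x ^ 2 - s1 x ^ 2| ≤ 1 := by
    rw [abs_le]
    constructor <;> nlinarith [sq_nonneg (c1 x), sq_nonneg (s1 x)]
  have hcs2 : |2 * c1 x * s1 x| ≤ 1 := by
    by_cases hx : rr x = 0
    · have : c1 x = 0 := by simp [c1, hx]
      rw [this]; simp
    · have := cs_sq hx
      rw [abs_le]
      constructor <;> nlinarith [sq_nonneg (c1 x - s1 x), sq_nonneg (c1 x + s1 x)]
  rw [abs_sub_comm] at h1 h2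
  fin_cases c
  · have : om h h' x 0 - om f g x 0 = (c1 x ^ 2 - s1 x ^ 2) * (h (rz x) - f (rz x)) := by
      simp only [om]
      simp
      ring
    show |om h h' x 0 - om f g x 0| ≤ ε
    rw [this, abs_mul]
    nlinarith [abs_nonneg (h (rz x) - f (rz x)), abs_nonneg (c1 x ^ 2 - s1 x ^ 2)]
  · have : om h h' x 1 - om f g x 1 = (2 * c1 x * s1 x) * (h (rz x) - f (rz x)) := by
      simp only [om]
      simp
      ring
    show |om h h' x 1 - om f g x 1| ≤ ε
    rw [this, abs_mul]
    nlinarith [abs_nonneg (h (rz x) - f (rz x)), abs_nonneg (2 * c1 x * s1 x)]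
  · exact h2

theorem om_le (f g : ℝ × ℝ → ℝ) (x : E 3) (c : Fin 3) (M : ℝ)
    (h1 : |f (rz x)| ≤ M) (h2 : |g (rz x)| ≤ M) : |om f g x c| ≤ M := by
  have := om_sub_le f g (fun _ => 0) (fun _ => 0) x c M (by simpa using h1) (by simpa using h2)
  have h0 : om (fun _ => 0) (fun _ => 0) x c = 0 := by
    fin_cases c <;> simp [om]
  rwa [h0, zero_sub, abs_neg] at this

theorem exists_Box_Qc {K : Set (ℝ × ℝ)} (hK : IsCompact K) (hKQ : K ⊆ Qc) :
    ∃ k, K ⊆ Box k := by
  have hc : ContinuousOn (fun p : ℝ × ℝ => max (1 / p.1) (max p.1 p.2)) K := by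
    have c1 : ContinuousOn (fun p : ℝ × ℝ => 1 / p.1) K :=
      continuousOn_const.div continuous_fst.continuousOn fun p hp => (hKQ hp).1.ne'
    have c2 : ContinuousOn (fun p : ℝ × ℝ => max p.1 p.2) K :=
      (continuous_fst.max continuous_snd).continuousOn
    exact c1.sup c2
  obtain ⟨C, hC⟩ := hK.exists_bound_of_continuousOn hc
  obtain ⟨k, hk⟩ := exists_nat_ge C
  refine ⟨k, fun p hp => ?_⟩
  have h1 := (le_abs_self _).trans ((hC p hp).trans hk)
  have hp1 : 0 < p.1 := (hKQ hp).1
  have e1 : 1 / p.1 ≤ k := (le_max_left _ _).trans h1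
  have e2 : p.1 ≤ k := ((le_max_left _ _).trans (le_max_right _ _)).trans h1
  have e3 : p.2 ≤ k := ((le_max_right _ _).trans (le_max_right _ _)).trans h1
  refine ⟨⟨?_, by linarith⟩, (hKQ hp).2, by linarith⟩
  rw [div_le_iff₀ (by positivity)]
  rw [div_le_iff₀ hp1] at e1
  nlinarith

/-- on a box, `mu` is bounded by a multiple of Lebesgue measure -/
theorem mu_Box_le (k : ℕ) : mu.restrict (Box k) ≤
    ENNReal.ofReal ((k : ℝ) + 2) • (volume.restrict (Box k) : Measure (ℝ × ℝ)) := by
  refine Measure.le_iff.2 fun s hs => ?_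
  rw [Measure.restrict_apply hs, Measure.smul_apply, smul_eq_mul, Measure.restrict_apply hs]
  unfold mu
  rw [withDensity_apply _ (hs.inter (measurableSet_Box k)), Measure.restrict_restrict
    (hs.inter (measurableSet_Box k))]
  calc ∫⁻ a in s ∩ Box k ∩ QQ, ENNReal.ofReal a.1 ≤
      ∫⁻ a in s ∩ Box k ∩ QQ, ENNReal.ofReal ((k : ℝ) + 2) := by
        refine setLIntegral_mono' ((hs.inter (measurableSet_Box k)).inter
          isOpen_QQ.measurableSet) fun p hp => ?_
        exact ENNReal.ofReal_le_ofReal hp.1.2.1.2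
    _ = ENNReal.ofReal ((k : ℝ) + 2) * volume (s ∩ Box k ∩ QQ) := by
        rw [lintegral_const, Measure.restrict_apply_univ]
    _ ≤ _ := mul_le_mul' le_rfl (measure_mono inter_subset_left)

/-- approximation of `av` on a box -/
theorem approx {f g : ℝ × ℝ → ℝ} {F G : ℝ × ℝ → ℝ × ℝ} (hf : W2 f F) (hg : W2 g G) (k : ℕ) :
    ∃ h h' : ℕ → ℝ × ℝ → ℝ, (∀ n, ContDiff ℝ 1 (h n)) ∧ (∀ n, ContDiff ℝ 1 (h' n)) ∧
      (∀ n, ∀ p ∈ Box k, |f p - h n p| ≤ 1 / ((n : ℝ) + 1) ∧ |g p - h' n p| ≤ 1 / ((n : ℝ) + 1)) ∧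
      Tendsto (fun n => ∫⁻ p in Box k, ‖av (h n) (gr (h n)) (gr (h' n)) p - av f F G p‖ₑ ∂mu)
        atTop (𝓝 0) := by
  have hpos : ∀ n : ℕ, (0:ℝ) < 1 / ((n : ℝ) + 1) := fun n => by positivity
  choose h hh1 hh2 hh3 using fun n : ℕ => hf.app k (1 / ((n : ℝ) + 1)) (hpos n)
  choose h' hh1' hh2' hh3' using fun n : ℕ => hg.app k (1 / ((n : ℝ) + 1)) (hpos n)
  refine ⟨h, h', hh1, hh1', fun n p hp => ⟨hh2 n p hp, hh2' n p hp⟩, ?_⟩
  set ν : Measure (ℝ × ℝ) := volume.restrict (Box k) with hν
  have hfinK : IsFiniteMeasure ν := by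
    refine ⟨?_⟩
    rw [hν, Measure.restrict_apply_univ]
    exact (isCompact_Box k).measure_lt_top
  have hm : ∀ n, AEStronglyMeasurable (fun p => F p - gr (h n) p) ν := fun n =>
    (hf.mem k).1.sub (continuous_gr (hh1 n)).aestronglyMeasurable
  have hm' : ∀ n, AEStronglyMeasurable (fun p => G p - gr (h' n) p) ν := fun n =>
    (hg.mem k).1.sub (continuous_gr (hh1' n)).aestronglyMeasurable
  set V : ENNReal := ν univ ^ (1 / (1 : ENNReal).toReal - 1 / (3 : ENNReal).toReal) with hV
  have hVfin : V ≠ ⊤ := by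
    refine ENNReal.rpow_ne_top_of_nonneg ?_ (measure_ne_top _ _)
    norm_num
  -- the bound
  have hb : ∀ n, ∫⁻ p in Box k, ‖av (h n) (gr (h n)) (gr (h' n)) p - av f F G p‖ₑ ∂mu ≤
      ENNReal.ofReal ((k : ℝ) + 2) * (ENNReal.ofReal (1 / ((n : ℝ) + 1)) * (2 * V) +
        ENNReal.ofReal (1 / ((n : ℝ) + 1)) * (2 * V) +
        ENNReal.ofReal (1 / ((n : ℝ) + 1)) * (ENNReal.ofReal (2 * ((k : ℝ) + 2)) * ν univ)) := by
    intro n
    calc ∫⁻ p in Box k, ‖av (h n) (gr (h n)) (gr (h' n)) p - av f F G p‖ₑ ∂mu ≤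
        ∫⁻ p, ‖av (h n) (gr (h n)) (gr (h' n)) p - av f F G p‖ₑ
          ∂(ENNReal.ofReal ((k : ℝ) + 2) • ν) := lintegral_mono' (mu_Box_le k) le_rfl
      _ = ENNReal.ofReal ((k : ℝ) + 2) *
          ∫⁻ p, ‖av (h n) (gr (h n)) (gr (h' n)) p - av f F G p‖ₑ ∂ν := by
          rw [lintegral_smul_measure, smul_eq_mul]
      _ ≤ ENNReal.ofReal ((k : ℝ) + 2) * ∫⁻ p, (2 * ‖F p - gr (h n) p‖ₑ +
          2 * ‖G p - gr (h' n) p‖ₑ +
            ENNReal.ofReal (1 / ((n : ℝ) + 1)) * ENNReal.ofReal (2 * ((k : ℝ) + 2))) ∂ν := by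
          refine mul_le_mul' le_rfl ?_
          refine setLIntegral_mono_ae' (measurableSet_Box k) (Eventually.of_forall fun p hp => ?_)
          have hp1 : 0 < p.1 := (Box_sub k hp).1
          have hp2 : 1 / ((k : ℝ) + 2) ≤ p.1 := hp.1.1
          have hreal : ‖av (h n) (gr (h n)) (gr (h' n)) p - av f F G p‖ ≤
              2 * ‖F p - gr (h n) p‖ + 2 * ‖G p - gr (h' n) p‖ +
                (1 / ((n : ℝ) + 1)) * (2 * ((k : ℝ) + 2)) := by
            have hnorm : ∀ v : V5, ‖v‖ ≤ |v 0| + |v 1| + |v 2| + |v 3| + |v 4| := by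
              intro v
              have h1 : ‖v‖ ^ 2 ≤ (|v 0| + |v 1| + |v 2| + |v 3| + |v 4|) ^ 2 := by
                rw [EuclideanSpace.norm_sq_eq, Fin.sum_univ_five]
                simp only [Real.norm_eq_abs]
                have a0 := abs_nonneg (v 0)
                have a1 := abs_nonneg (v 1)
                have a2 := abs_nonneg (v 2)
                have a3 := abs_nonneg (v 3)
                have a4 := abs_nonneg (v 4)
                nlinarith [mul_nonneg a0 a1, mul_nonneg a0 a2, mul_nonneg a0 a3, mul_nonneg a0 a4,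
                  mul_nonneg a1 a2, mul_nonneg a1 a3, mul_nonneg a1 a4, mul_nonneg a2 a3,
                  mul_nonneg a2 a4, mul_nonneg a3 a4]
              exact (abs_le_of_sq_le_sq' h1 (by positivity)).2
            refine (hnorm _).trans ?_
            have e0 : (av (h n) (gr (h n)) (gr (h' n)) p - av f F G p) 0 =
                -((F p - gr (h n) p).1) := by
              show (gr (h n) p).1 - (F p).1 = -((F p).1 - (gr (h n) p).1)
              ring
            have e1 : (av (h n) (gr (h n)) (gr (h' n)) p - av f F G p) 1 =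
                -((F p - gr (h n) p).2) := by
              show (gr (h n) p).2 - (F p).2 = -((F p).2 - (gr (h n) p).2)
              ring
            have e2 : (av (h n) (gr (h n)) (gr (h' n)) p - av f F G p) 2 =
                -((G p - gr (h' n) p).1) := by
              show (gr (h' n) p).1 - (G p).1 = -((G p).1 - (gr (h' n) p).1)
              ring
            have e3 : (av (h n) (gr (h n)) (gr (h' n)) p - av f F G p) 3 =
                -((G p - gr (h' n) p).2) := by
              show (gr (h' n) p).2 - (G p).2 = -((G p).2 - (gr (h' n) p).2)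
              ring
            have e4 : (av (h n) (gr (h n)) (gr (h' n)) p - av f F G p) 4 =
                -(2 * (f p - h n p) / p.1) := by
              show 2 * h n p / p.1 - 2 * f p / p.1 = -(2 * (f p - h n p) / p.1)
              ring
            rw [e0, e1, e2, e3, e4, abs_neg, abs_neg, abs_neg, abs_neg, abs_neg]
            have i0 := norm_fst_le (F p - gr (h n) p)
            have i1 := norm_snd_le (F p - gr (h n) p)
            have i2 := norm_fst_le (G p - gr (h' n) p)
            have i3 := norm_snd_le (G p - gr (h' n) p)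
            rw [Real.norm_eq_abs] at i0 i1 i2 i3
            have i4 : |2 * (f p - h n p) / p.1| ≤ (1 / ((n : ℝ) + 1)) * (2 * ((k : ℝ) + 2)) := by
              rw [abs_div, abs_mul, abs_two, abs_of_pos hp1, div_le_iff₀ hp1]
              have j1 := hh2 n p hp
              have j2 : 1 ≤ ((k : ℝ) + 2) * p.1 := by
                rw [div_le_iff₀ (by positivity)] at hp2
                linarith
              have j3 := hpos n
              calc 2 * |f p - h n p| ≤ 2 * (1 / ((n : ℝ) + 1)) := by gcongr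
                _ = 2 * (1 / ((n : ℝ) + 1)) * 1 := by ring
                _ ≤ 2 * (1 / ((n : ℝ) + 1)) * (((k : ℝ) + 2) * p.1) := by gcongr
                _ = _ := by ring
            linarith
          have h2 : ∀ x : ENNReal, 2 * x = ENNReal.ofReal 2 * x := by intro x; simp
          rw [← ofReal_norm, ← ofReal_norm, ← ofReal_norm, h2, h2,
            ← ENNReal.ofReal_mul (by norm_num), ← ENNReal.ofReal_mul (by norm_num),
            ← ENNReal.ofReal_mul (hpos n).le, ← ENNReal.ofReal_add (by positivity) (by positivity),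
            ← ENNReal.ofReal_add (by positivity) (by positivity)]
          exact ENNReal.ofReal_le_ofReal hreal
      _ = ENNReal.ofReal ((k : ℝ) + 2) * (2 * ∫⁻ p, ‖F p - gr (h n) p‖ₑ ∂ν +
          2 * ∫⁻ p, ‖G p - gr (h' n) p‖ₑ ∂ν +
            ENNReal.ofReal (1 / ((n : ℝ) + 1)) * ENNReal.ofReal (2 * ((k : ℝ) + 2)) * ν univ) := by
          rw [lintegral_add_right _ measurable_const, lintegral_const,
            lintegral_add_left' ((hm n).enorm.const_mul _), lintegral_const_mul'' _ (hm n).enorm,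
            lintegral_const_mul'' _ (hm' n).enorm]
      _ ≤ _ := by
          refine mul_le_mul' le_rfl ?_
          have key : ∀ (w : ℝ × ℝ → ℝ × ℝ), AEStronglyMeasurable w ν →
              eLpNorm w 3 ν ≤ ENNReal.ofReal (1 / ((n : ℝ) + 1)) →
              2 * ∫⁻ p, ‖w p‖ₑ ∂ν ≤ ENNReal.ofReal (1 / ((n : ℝ) + 1)) * (2 * V) := by
            intro w hw hw3
            rw [← eLpNorm_one_eq_lintegral_enorm]
            have h1 := eLpNorm_le_eLpNorm_mul_rpow_measure_univ
              (show (1 : ENNReal) ≤ 3 by norm_num) hw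
            calc 2 * eLpNorm w 1 ν ≤ 2 * (eLpNorm w 3 ν * V) := mul_le_mul' le_rfl h1
              _ ≤ 2 * (ENNReal.ofReal (1 / ((n : ℝ) + 1)) * V) :=
                mul_le_mul' le_rfl (mul_le_mul' hw3 le_rfl)
              _ = _ := by ring
          refine add_le_add (add_le_add (key _ (hm n) (hh3 n)) (key _ (hm' n) (hh3' n))) ?_
          rw [mul_assoc]
  have hlim0 : Tendsto (fun n : ℕ => ENNReal.ofReal (1 / ((n : ℝ) + 1))) atTop (𝓝 0) := by
    have := ENNReal.tendsto_ofReal (tendsto_one_div_add_atTop_nhds_zero_nat (𝕜 := ℝ))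
    simpa using this
  have hmul : ∀ c : ENNReal, c ≠ ⊤ →
      Tendsto (fun n : ℕ => ENNReal.ofReal (1 / ((n : ℝ) + 1)) * c) atTop (𝓝 0) := by
    intro c hc
    have := ENNReal.Tendsto.mul_const hlim0 (Or.inr hc)
    simpa using this
  have hV2 : (2 : ENNReal) * V ≠ ⊤ := ENNReal.mul_ne_top (by norm_num) hVfin
  have hW : ENNReal.ofReal (2 * ((k : ℝ) + 2)) * ν univ ≠ ⊤ :=
    ENNReal.mul_ne_top ENNReal.ofReal_ne_top (measure_ne_top _ _)
  have htot := ENNReal.Tendsto.const_mul (a := ENNReal.ofReal ((k : ℝ) + 2))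
    (((hmul _ hV2).add (hmul _ hV2)).add (hmul _ hW)) (Or.inr ENNReal.ofReal_ne_top)
  simp only [add_zero, mul_zero] at htot
  exact tendsto_of_tendsto_of_tendsto_of_le_of_le tendsto_const_nhds htot (fun _ => bot_le) hb

theorem norm_bd (y : E 2) : ‖(bd y : E 3)‖ = ‖y‖ := by
  have h1 : ‖(bd y : E 3)‖ ^ 2 = ‖y‖ ^ 2 := by
    have e1 : ∀ i : Fin 2, (bd y : E 3) (Fin.castSucc i) = y i := fun i => by simp [bd]
    have e2 : (bd y : E 3) (Fin.last 2) = 0 := bd_last y
    rw [EuclideanSpace.norm_sq_eq, EuclideanSpace.norm_sq_eq, Fin.sum_univ_castSucc]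
    simp only [e1, e2]
    simp
  exact (pow_left_inj₀ (norm_nonneg _) (norm_nonneg _) two_ne_zero).1 h1

theorem rr_bd (y : E 2) : rr (bd y) = ‖y‖ := by
  have h1 : rr (bd y) ^ 2 = ‖y‖ ^ 2 := by
    rw [rr_sq, EuclideanSpace.norm_sq_eq, Fin.sum_univ_two]
    simp only [Real.norm_eq_abs, sq_abs]
    rfl
  exact (pow_left_inj₀ (rr_nonneg _) (norm_nonneg _) two_ne_zero).1 h1

theorem rz_bd (y : E 2) : rz (bd y) = (‖y‖, 0) := by
  unfold rz
  rw [rr_bd]
  rfl

theorem rz_bd_Qc {y : E 2} (hy : y ≠ 0) : rz (bd y) ∈ Qc := by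
  rw [rz_bd]
  exact ⟨norm_pos_iff.2 hy, le_rfl⟩

theorem compact_bd {φ : E 3 → ℝ} (hφc : HasCompactSupport φ) :
    HasCompactSupport (fun y : E 2 => φ (bd y)) := by
  obtain ⟨R, hR⟩ := hφc.isBounded.subset_closedBall (0 : E 3)
  refine HasCompactSupport.intro (isCompact_closedBall (0 : E 2) R) fun y hy => ?_
  refine image_eq_zero_of_notMem_tsupport fun h => hy ?_
  have := hR h
  rw [mem_closedBall_zero_iff, norm_bd] at this
  rwa [mem_closedBall_zero_iff]

theorem aesm_om_bd {f g : ℝ × ℝ → ℝ} (hf : ContinuousOn f Qc) (hg : ContinuousOn g Qc)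
    (c : Fin 3) : AEStronglyMeasurable (fun y : E 2 => om f g (bd y) c) volume := by
  have hfc : ContinuousOn (fun y : E 2 => f (rz (bd y))) {y | y ≠ 0} :=
    hf.comp (continuous_rz.comp continuous_bd).continuousOn fun y hy => rz_bd_Qc hy
  have hgc : ContinuousOn (fun y : E 2 => g (rz (bd y))) {y | y ≠ 0} :=
    hg.comp (continuous_rz.comp continuous_bd).continuousOn fun y hy => rz_bd_Qc hy
  have hms : MeasurableSet {y : E 2 | y ≠ 0} := (measurableSet_singleton (0 : E 2)).compl
  have hfull : (volume : Measure (E 2)).restrict {y | y ≠ 0} = volume := by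
    refine Measure.restrict_eq_self_of_ae_mem ?_
    have : (volume : Measure (E 2)) {0} = 0 := measure_singleton _
    exact compl_mem_ae_iff.2 this
  have h1 := (hfc.aestronglyMeasurable hms (μ := volume)).aemeasurable
  have h2 := (hgc.aestronglyMeasurable hms (μ := volume)).aemeasurable
  rw [hfull] at h1 h2
  have hc : AEMeasurable (fun y : E 2 => c1 (bd y)) :=
    (measurable_c1.comp continuous_bd.measurable).aemeasurable
  have hs : AEMeasurable (fun y : E 2 => s1 (bd y)) :=
    (measurable_s1.comp continuous_bd.measurable).aemeasurable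
  refine AEMeasurable.aestronglyMeasurable ?_
  fin_cases c
  · exact ((hc.pow_const 2).sub (hs.pow_const 2)).mul h1
  · exact ((hc.const_mul 2).mul hs).mul h1
  · exact h2

section fix

variable {f g : ℝ × ℝ → ℝ} {F G : ℝ × ℝ → ℝ × ℝ}

theorem int_om (hC : StmCOV) (hf : W2 f F) (hg : W2 g G) {M : ℝ}
    (hM : ∀ p ∈ Qc, |f p| ≤ M ∧ |g p| ≤ M) (c : Fin 3) (R : ℝ) :
    IntegrableOn (fun x => om f g x c) (half 2 ∩ Metric.ball 0 R) := by
  have hfin : (volume : Measure (E 3)) (half 2 ∩ Metric.ball 0 R) < ⊤ :=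
    (measure_mono inter_subset_right).trans_lt measure_ball_lt_top
  have hfin' : IsFiniteMeasure (volume.restrict (half 2 ∩ Metric.ball (0 : E 3) R)) :=
    ⟨by rw [Measure.restrict_apply_univ]; exact hfin⟩
  refine Integrable.of_bound
    ((aesm_om hC hf hg c).mono_measure (Measure.restrict_mono inter_subset_left le_rfl)) M ?_
  have h1 := ae_rz hC ModVar.ae_QQ
  have h2 : ∀ᵐ x ∂(volume.restrict (half 2 ∩ Metric.ball (0 : E 3) R)), rz x ∈ QQ :=
    ae_mono (Measure.restrict_mono inter_subset_left le_rfl) h1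
  filter_upwards [h2] with x hx
  have h3 := hM _ (QQ_sub_Qc hx)
  exact om_le f g x c M h3.1 h3.2

theorem int_dm (hC : StmCOV) (hf : W2 f F) (hg : W2 g G) (hm : MemLp (av f F G) 3 mu)
    (c : Fin 3) (R : ℝ) :
    IntegrableOn (fun x => dm f F G x c) (half 2 ∩ Metric.ball 0 R) := by
  have hfin : (volume : Measure (E 3)) (half 2 ∩ Metric.ball 0 R) < ⊤ :=
    (measure_mono inter_subset_right).trans_lt measure_ball_lt_top
  have hfin' : IsFiniteMeasure (volume.restrict (half 2 ∩ Metric.ball (0 : E 3) R)) :=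
    ⟨by rw [Measure.restrict_apply_univ]; exact hfin⟩
  exact ((memLp_dm hC hf hg hm c).mono_measure
    (Measure.restrict_mono inter_subset_left le_rfl)).integrable (by norm_num)

theorem int_dmj (hC : StmCOV) (hf : W2 f F) (hg : W2 g G) (hm : MemLp (av f F G) 3 mu)
    (c j : Fin 3) (R : ℝ) :
    IntegrableOn (fun x => dm f F G x c j) (half 2 ∩ Metric.ball 0 R) :=
  (EuclideanSpace.proj (𝕜 := ℝ) j).integrable_comp (int_dm hC hf hg hm c R)

theorem int_total (hC : StmCOV) (hf : W2 f F) (hg : W2 g G) (hm : MemLp (av f F G) 3 mu)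
    {M : ℝ} (hM : ∀ p ∈ Qc, |f p| ≤ M ∧ |g p| ≤ M) (c j : Fin 3) {φ : E 3 → ℝ}
    (hφ : ContDiff ℝ 1 φ) (hφc : HasCompactSupport φ) :
    IntegrableOn (fun x => om f g x c * pd φ j x + dm f F G x c j * φ x) (half 2) :=
  (intOn_mul (isOpen_half 2).measurableSet (int_om hC hf hg hM c) (continuous_pd hφ j)
    (hasCompactSupport_pd hφc j)).add
    (intOn_mul (isOpen_half 2).measurableSet (int_dmj hC hf hg hm c j) hφ.continuous hφc)

/-- Green's formula off the axis -/
theorem green_off (hG : StmtGreen) (hC : StmCOV) (hf : W2 f F) (hg : W2 g G)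
    (hm : MemLp (av f F G) 3 mu)
    {M : ℝ} (hM : ∀ p ∈ Qc, |f p| ≤ M ∧ |g p| ≤ M) (c j : Fin 3) {φ : E 3 → ℝ}
    (hφ : ContDiff ℝ 1 φ) (hφc : HasCompactSupport φ)
    (hφs : tsupport φ ⊆ {x : E 3 | rr x ≠ 0}) :
    ∫ x in half 2, (om f g x c * pd φ j x + dm f F G x c j * φ x) =
      if j = Fin.last 2 then -∫ y : E 2, om f g (bd y) c * φ (bd y) else 0 := by
  -- the compact part
  set K' : Set (E 3) := tsupport φ ∩ {x | 0 ≤ x 2} with hK'
  have hK'c : IsCompact K' := hφc.isCompact.inter_right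
    (isClosed_le continuous_const (continuous_coord 2))
  have hKQ : rz '' K' ⊆ Qc := by
    rintro _ ⟨x, ⟨hx1, hx2⟩, rfl⟩
    exact ⟨lt_of_le_of_ne (rr_nonneg x) (Ne.symm (hφs hx1)), hx2⟩
  obtain ⟨k, hk⟩ := exists_Box_Qc (hK'c.image continuous_rz) hKQ
  have hkx : ∀ x ∈ tsupport φ, 0 ≤ x 2 → rz x ∈ Box k := fun x h1 h2 => hk ⟨x, ⟨h1, h2⟩, rfl⟩
  obtain ⟨h, h', hh, hh', hclose, hconv⟩ := approx hf hg k
  have hgreen := fun n => green_C1 hG (hh n) (hh' n) c hφ hφc hφs j
  obtain ⟨B0, hB0⟩ := hφc.exists_bound_of_continuous hφ.continuous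
  obtain ⟨B1, hB1⟩ := (hasCompactSupport_pd hφc j).exists_bound_of_continuous (continuous_pd hφ j)
  have hB00 : 0 ≤ B0 := (norm_nonneg _).trans (hB0 0)
  have hB10 : 0 ≤ B1 := (norm_nonneg _).trans (hB1 0)
  -- the left side
  have hL : Tendsto (fun n => ∫ x in half 2, (om (h n) (h' n) x c * pd φ j x +
      dm (h n) (gr (h n)) (gr (h' n)) x c j * φ x)) atTop
      (𝓝 (∫ x in half 2, (om f g x c * pd φ j x + dm f F G x c j * φ x))) := by
    refine tendsto_integral_of_L1 _ (int_total hC hf hg hm hM c j hφ hφc).aestronglyMeasurable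
      (Eventually.of_forall fun n => (int_C1 (hh n) (hh' n) c hφ hφc hφs j).integrableOn) ?_
    set S : ℕ → ℝ × ℝ → ENNReal := fun n => (Box k).indicator fun p =>
      ENNReal.ofReal (B1 * (1 / ((n : ℝ) + 1))) +
        ENNReal.ofReal (3 * B0) * ‖av (h n) (gr (h n)) (gr (h' n)) p - av f F G p‖ₑ with hS
    have hSm0 : ∀ n, AEMeasurable (fun p =>
        ‖av (h n) (gr (h n)) (gr (h' n)) p - av f F G p‖ₑ) mu := by
      intro n
      have := (smooth (h n) (hh n))
      have h2 := (smooth (h' n) (hh' n))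
      exact ((ModVar.aesm_av this h2).sub (ModVar.aesm_av hf hg)).enorm
    have hSm : ∀ n, AEMeasurable (S n) mu := by
      intro n
      exact (((hSm0 n).const_mul _).const_add _).indicator (measurableSet_Box k)
    have hbound : ∀ n, ∫⁻ x in half 2, ‖(om (h n) (h' n) x c * pd φ j x +
        dm (h n) (gr (h n)) (gr (h' n)) x c j * φ x) -
        (om f g x c * pd φ j x + dm f F G x c j * φ x)‖ₑ ≤
        ENNReal.ofReal (2 * Real.pi) * (ENNReal.ofReal (B1 * (1 / ((n : ℝ) + 1))) * mu (Box k) +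
          ENNReal.ofReal (3 * B0) * ∫⁻ p in Box k,
            ‖av (h n) (gr (h n)) (gr (h' n)) p - av f F G p‖ₑ ∂mu) := by
      intro n
      calc _ ≤ ∫⁻ x in half 2, S n (rz x) := by
            refine setLIntegral_mono_ae' (isOpen_half 2).measurableSet
              (Eventually.of_forall fun x hx => ?_)
            by_cases hxs : x ∈ tsupport φ
            · have hxB := hkx x hxs (le_of_lt hx)
              have h1 := hclose n _ hxB
              have h2 := om_sub_le f g (h n) (h' n) x c _ h1.1 h1.2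
              have h3 : |dm (h n) (gr (h n)) (gr (h' n)) x c j - dm f F G x c j| ≤
                  3 * ‖av (h n) (gr (h n)) (gr (h' n)) (rz x) - av f F G (rz x)‖ := by
                unfold dm
                rw [emb_sub]
                exact emb_le (abs_c1_le x) (abs_s1_le x) _ c j
              have h4 : ‖(om (h n) (h' n) x c * pd φ j x +
                  dm (h n) (gr (h n)) (gr (h' n)) x c j * φ x) -
                  (om f g x c * pd φ j x + dm f F G x c j * φ x)‖ ≤
                  B1 * (1 / ((n : ℝ) + 1)) + 3 * B0 *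
                    ‖av (h n) (gr (h n)) (gr (h' n)) (rz x) - av f F G (rz x)‖ := by
                have e : (om (h n) (h' n) x c * pd φ j x +
                    dm (h n) (gr (h n)) (gr (h' n)) x c j * φ x) -
                    (om f g x c * pd φ j x + dm f F G x c j * φ x) =
                    (om (h n) (h' n) x c - om f g x c) * pd φ j x +
                    (dm (h n) (gr (h n)) (gr (h' n)) x c j - dm f F G x c j) * φ x := by ring
                rw [e]
                refine (norm_add_le _ _).trans (add_le_add ?_ ?_)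
                · rw [norm_mul, mul_comm]
                  exact mul_le_mul (hB1 x) h2 (norm_nonneg _) hB10
                · rw [norm_mul]
                  calc _ ≤ 3 * ‖av (h n) (gr (h n)) (gr (h' n)) (rz x) - av f F G (rz x)‖ * B0 :=
                        mul_le_mul h3 (hB0 x) (norm_nonneg _) (by positivity)
                    _ = _ := by ring
              simp only [hS]
              rw [indicator_of_mem hxB, ← ofReal_norm, ← ofReal_norm,
                ← ENNReal.ofReal_mul (by positivity),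
                ← ENNReal.ofReal_add (by positivity) (by positivity)]
              exact ENNReal.ofReal_le_ofReal h4
            · rw [pd_zero_of_notMem hxs, image_eq_zero_of_notMem_tsupport hxs]
              simp
        _ = ENNReal.ofReal (2 * Real.pi) * ∫⁻ p, S n p ∂mu := lintegral_rz hC (hSm n)
        _ = _ := by
            simp only [hS]
            rw [lintegral_indicator (measurableSet_Box k),
              lintegral_add_left measurable_const, lintegral_const, Measure.restrict_apply_univ,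
              lintegral_const_mul'' _ ((hSm0 n).mono_measure Measure.restrict_le_self)]
    have hmuB : mu (Box k) ≠ ⊤ := by
      have h1 := mu_Box_le k univ
      rw [Measure.restrict_apply_univ, Measure.smul_apply, smul_eq_mul,
        Measure.restrict_apply_univ] at h1
      exact ne_top_of_le_ne_top (ENNReal.mul_ne_top ENNReal.ofReal_ne_top
        (isCompact_Box k).measure_lt_top.ne) h1
    have hlim0 : Tendsto (fun n : ℕ => ENNReal.ofReal (B1 * (1 / ((n : ℝ) + 1)))) atTop (𝓝 0) := by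
      have := ENNReal.tendsto_ofReal
        ((tendsto_one_div_add_atTop_nhds_zero_nat (𝕜 := ℝ)).const_mul B1)
      simpa using this
    have hlim := ENNReal.Tendsto.const_mul (a := ENNReal.ofReal (2 * Real.pi))
      ((ENNReal.Tendsto.mul_const (b := mu (Box k)) hlim0 (Or.inr hmuB)).add
        (ENNReal.Tendsto.const_mul (a := ENNReal.ofReal (3 * B0)) hconv
          (Or.inr ENNReal.ofReal_ne_top))) (Or.inr ENNReal.ofReal_ne_top)
    simp only [zero_mul, mul_zero, add_zero] at hlim
    exact tendsto_of_tendsto_of_tendsto_of_le_of_le tendsto_const_nhds hlim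
      (fun _ => bot_le) hbound
  -- the right side
  have hbdc := compact_bd hφc
  have hbdcont : Continuous (fun y : E 2 => φ (bd y)) := hφ.continuous.comp continuous_bd
  have hbdi : Integrable (fun y : E 2 => φ (bd y)) :=
    hbdcont.integrable_of_hasCompactSupport hbdc
  have hfc := cont f F hf
  have hgc := cont g G hg
  have hclose2 : ∀ n (y : E 2), φ (bd y) ≠ 0 →
      |om (h n) (h' n) (bd y) c - om f g (bd y) c| ≤ 1 / ((n : ℝ) + 1) ∧
        |om f g (bd y) c| ≤ M := by
    intro n y hy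
    have h1 : (bd y : E 3) ∈ tsupport φ := subset_tsupport _ hy
    have h2 : rz (bd y) ∈ Box k := hkx _ h1 (le_of_eq (by simp [bd]; rfl))
    have h3 := hclose n _ h2
    have h4 := hM _ (Box_sub k h2)
    exact ⟨om_sub_le f g (h n) (h' n) _ c _ h3.1 h3.2, om_le f g _ c M h4.1 h4.2⟩
  have hR : Tendsto (fun n => ∫ y : E 2, om (h n) (h' n) (bd y) c * φ (bd y)) atTop
      (𝓝 (∫ y : E 2, om f g (bd y) c * φ (bd y))) := by
    refine tendsto_integral_of_dominated_convergence (fun y => (M + 1) * ‖φ (bd y)‖) ?_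
      (hbdi.norm.const_mul _) ?_ ?_
    · intro n
      exact (aesm_om_bd (hh n).continuous.continuousOn (hh' n).continuous.continuousOn c).mul
        hbdcont.aestronglyMeasurable
    · intro n
      refine Eventually.of_forall fun y => ?_
      by_cases hy : φ (bd y) = 0
      · simp [hy]
      · obtain ⟨h1, h2⟩ := hclose2 n y hy
        rw [norm_mul]
        refine mul_le_mul_of_nonneg_right ?_ (norm_nonneg _)
        have h3 : (1 : ℝ) / ((n : ℝ) + 1) ≤ 1 := by
          rw [div_le_one (by positivity)]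
          have : (0:ℝ) ≤ n := Nat.cast_nonneg n
          linarith
        have h4 : om (h n) (h' n) (bd y) c =
            (om (h n) (h' n) (bd y) c - om f g (bd y) c) + om f g (bd y) c := by ring
        rw [h4]
        refine (norm_add_le _ _).trans ?_
        rw [Real.norm_eq_abs, Real.norm_eq_abs]
        linarith
    · refine Eventually.of_forall fun y => ?_
      by_cases hy : φ (bd y) = 0
      · simp only [hy, mul_zero]
        exact tendsto_const_nhds
      · refine Tendsto.mul_const _ ?_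
        rw [tendsto_iff_norm_sub_tendsto_zero]
        exact squeeze_zero (fun n => norm_nonneg _) (fun n => (hclose2 n y hy).1)
          tendsto_one_div_add_atTop_nhds_zero_nat
  simp only [hgreen] at hL
  refine tendsto_nhds_unique hL ?_
  split_ifs with hj
  · exact hR.neg
  · exact tendsto_const_nhds

/-! ### The cutoff at the axis -/

/-- the profile of the cutoff -/
noncomputable def ch (s : ℝ) : ℝ := Real.smoothTransition (s - 1)

theorem ch_contDiff : ContDiff ℝ 1 ch := by
  unfold ch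
  exact Real.smoothTransition.contDiff.comp (contDiff_id.sub contDiff_const)

theorem ch_zero {s : ℝ} (hs : s ≤ 1) : ch s = 0 :=
  Real.smoothTransition.zero_of_nonpos (by linarith)

theorem ch_one {s : ℝ} (hs : 2 ≤ s) : ch s = 1 :=
  Real.smoothTransition.one_of_one_le (by linarith)

theorem ch_abs (s : ℝ) : |ch s| ≤ 1 := by
  show |Real.smoothTransition (s - 1)| ≤ 1
  rw [abs_of_nonneg (Real.smoothTransition.nonneg _)]
  exact Real.smoothTransition.le_one _

theorem dch_bound : ∃ B : ℝ, 0 ≤ B ∧ ∀ s, |deriv ch s| ≤ B ∧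
    (s ∉ Icc (1:ℝ) 2 → deriv ch s = 0) := by
  have hz : ∀ s, s ∉ Icc (1:ℝ) 2 → deriv ch s = 0 := by
    intro s hs
    rw [mem_Icc, not_and_or, not_le, not_le] at hs
    rcases hs with hs | hs
    · have : ch =ᶠ[𝓝 s] fun _ => 0 := by
        filter_upwards [Iio_mem_nhds hs] with t ht using ch_zero (le_of_lt ht)
      rw [this.deriv_eq]; simp
    · have : ch =ᶠ[𝓝 s] fun _ => 1 := by
        filter_upwards [Ioi_mem_nhds hs] with t ht using ch_one (le_of_lt ht)
      rw [this.deriv_eq]; simp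
  obtain ⟨B, hB⟩ := (isCompact_Icc (a := (1:ℝ)) (b := 2)).exists_bound_of_continuousOn
    ((ch_contDiff.continuous_deriv le_rfl).continuousOn)
  refine ⟨|B|, abs_nonneg _, fun s => ⟨?_, hz s⟩⟩
  by_cases hs : s ∈ Icc (1:ℝ) 2
  · exact (hB s hs).trans (le_abs_self _)
  · rw [hz s hs, abs_zero]; exact abs_nonneg _

/-- the cutoff -/
noncomputable def cut (n : ℕ) (x : E 3) : ℝ := ch ((x 0 ^ 2 + x 1 ^ 2) * ((n : ℝ) + 1) ^ 2)

theorem cut_contDiff' (n : ℕ) : ContDiff ℝ 1 (cut n) := by
  unfold cut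
  exact ch_contDiff.comp ((((coord_contDiff 0).pow 2).add ((coord_contDiff 1).pow 2)).mul
    contDiff_const)

theorem cut_abs (n : ℕ) (x : E 3) : |cut n x| ≤ 1 := ch_abs _

theorem tsupport_cut (n : ℕ) : tsupport (cut n) ⊆ {x : E 3 | rr x ≠ 0} := by
  have hcl : IsClosed {x : E 3 | 1 ≤ (x 0 ^ 2 + x 1 ^ 2) * ((n : ℝ) + 1) ^ 2} :=
    isClosed_le continuous_const
      ((((continuous_coord 0).pow 2).add ((continuous_coord 1).pow 2)).mul continuous_const)
  have h1 : tsupport (cut n) ⊆ {x : E 3 | 1 ≤ (x 0 ^ 2 + x 1 ^ 2) * ((n : ℝ) + 1) ^ 2} := by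
    refine closure_minimal ?_ hcl
    intro x hx
    by_contra h
    exact hx (ch_zero (le_of_lt (not_le.1 h)))
  intro x hx h0
  have h2 : (1:ℝ) ≤ (x 0 ^ 2 + x 1 ^ 2) * ((n : ℝ) + 1) ^ 2 := h1 hx
  rw [← rr_sq, h0] at h2
  norm_num at h2

theorem cut_lim {x : E 3} (hx : rr x ≠ 0) : Tendsto (fun n => cut n x) atTop (𝓝 1) := by
  have hx0 : 0 < rr x ^ 2 := by positivity
  have h1 : Tendsto (fun n : ℕ => rr x ^ 2 * ((n : ℝ) + 1) ^ 2) atTop atTop := by
    refine Tendsto.const_mul_atTop hx0 ?_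
    have : Tendsto (fun n : ℕ => (n : ℝ) + 1) atTop atTop :=
      tendsto_atTop_add_const_right _ _ tendsto_natCast_atTop_atTop
    exact (tendsto_pow_atTop two_ne_zero).comp this
  have h2 : ∀ᶠ n in atTop, cut n x = 1 := by
    filter_upwards [h1.eventually_ge_atTop 2] with n hn
    refine ch_one ?_
    rw [← rr_sq]
    exact hn
  exact (tendsto_congr' h2).2 tendsto_const_nhds

theorem pd_cut {B : ℝ} (hB : ∀ s, |deriv ch s| ≤ B ∧ (s ∉ Icc (1:ℝ) 2 → deriv ch s = 0))
    (hB0 : 0 ≤ B) (n : ℕ) (j : Fin 3) (x : E 3) :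
    |pd (cut n) j x| ≤ 4 * B * ((n : ℝ) + 1) ∧
      (2 / ((n : ℝ) + 1) < rr x → pd (cut n) j x = 0) := by
  set N : ℝ := (n : ℝ) + 1 with hN
  have hN0 : 0 < N := by positivity
  have h0 := hasFDerivAt_coord 0 x
  have h1 := hasFDerivAt_coord 1 x
  have h2 : HasFDerivAt (fun x : E 3 => (x 0 ^ 2 + x 1 ^ 2) * N ^ 2) _ x :=
    ((h0.pow 2).add (h1.pow 2)).mul_const (N ^ 2)
  have h3 : HasFDerivAt (cut n) _ x :=
    ((ch_contDiff.differentiable one_ne_zero _).hasDerivAt).comp_hasFDerivAt x h2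
  have h4 : pd (cut n) j x = deriv ch ((x 0 ^ 2 + x 1 ^ 2) * N ^ 2) *
      (N ^ 2 * (2 * x 0 * (EuclideanSpace.single j (1:ℝ) : E 3) 0 +
        2 * x 1 * (EuclideanSpace.single j (1:ℝ) : E 3) 1)) := by
    unfold pd
    rw [h3.fderiv, ← hN]
    simp only [smul_apply, smul_eq_mul, add_apply, proj_ap]
    simp
  rw [h4, ← rr_sq]
  have hcase : 2 / N < rr x → deriv ch (rr x ^ 2 * N ^ 2) = 0 := by
    intro h
    refine (hB _).2 fun hm => ?_
    have h5 : 2 < rr x * N := by rwa [div_lt_iff₀ hN0] at h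
    have h6 : rr x ^ 2 * N ^ 2 ≤ 2 := hm.2
    nlinarith
  refine ⟨?_, fun h => by rw [hcase h, zero_mul]⟩
  by_cases h : 2 / N < rr x
  · rw [hcase h, zero_mul, abs_zero]; positivity
  · push Not at h
    have a0 : |x 0| ≤ rr x := by
      refine abs_le_of_sq_le_sq ?_ (rr_nonneg x)
      rw [rr_sq]; nlinarith [sq_nonneg (x 1)]
    have a1 : |x 1| ≤ rr x := by
      refine abs_le_of_sq_le_sq ?_ (rr_nonneg x)
      rw [rr_sq]; nlinarith [sq_nonneg (x 0)]
    have key : |2 * x 0 * (EuclideanSpace.single j (1:ℝ) : E 3) 0 +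
        2 * x 1 * (EuclideanSpace.single j (1:ℝ) : E 3) 1| ≤ 2 * rr x := by
      fin_cases j
      · simp
        exact a0
      · simp
        exact a1
      · simp
        exact rr_nonneg x
    rw [abs_mul, abs_mul, abs_of_pos (by positivity : (0:ℝ) < N ^ 2)]
    calc |deriv ch (rr x ^ 2 * N ^ 2)| * (N ^ 2 * |2 * x 0 * (EuclideanSpace.single j (1:ℝ) : E 3) 0 +
        2 * x 1 * (EuclideanSpace.single j (1:ℝ) : E 3) 1|) ≤ B * (N ^ 2 * (2 * (2 / N))) := by
          refine mul_le_mul (hB _).1 ?_ (by positivity) hB0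
          refine mul_le_mul_of_nonneg_left (key.trans ?_) (by positivity)
          linarith
      _ = 4 * B * N := by field_simp; norm_num

/-- volume of a tube -/
theorem tube_volume (a R : ℝ) (ha : 0 ≤ a) :
    (volume : Measure (E 3)) {x : E 3 | rr x ≤ a ∧ ‖x‖ ≤ R} ≤
      ENNReal.ofReal ((2 * a) * (2 * a) * (2 * R)) := by
  have h3 : MeasurePreserving (WithLp.toLp 2 : (Fin 3 → ℝ) → E 3) volume volume :=
    PiLp.volume_preserving_toLp (Fin 3)
  have hms : MeasurableSet {x : E 3 | rr x ≤ a ∧ ‖x‖ ≤ R} :=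
    ((isClosed_le continuous_rr continuous_const).inter
      (isClosed_le continuous_norm continuous_const)).measurableSet
  rw [← h3.measure_preimage hms.nullMeasurableSet]
  have hsub : (WithLp.toLp 2 : (Fin 3 → ℝ) → E 3) ⁻¹' {x : E 3 | rr x ≤ a ∧ ‖x‖ ≤ R} ⊆
      Set.Icc ![-a, -a, -R] ![a, a, R] := by
    rintro x ⟨h1, h2⟩
    have a0 : |x 0| ≤ a := by
      refine (abs_le_of_sq_le_sq ?_ (rr_nonneg (WithLp.toLp 2 x))).trans h1
      rw [rr_sq]
      show x 0 ^ 2 ≤ x 0 ^ 2 + x 1 ^ 2
      nlinarith [sq_nonneg (x 1)]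
    have a1 : |x 1| ≤ a := by
      refine (abs_le_of_sq_le_sq ?_ (rr_nonneg (WithLp.toLp 2 x))).trans h1
      rw [rr_sq]
      show x 1 ^ 2 ≤ x 0 ^ 2 + x 1 ^ 2
      nlinarith [sq_nonneg (x 0)]
    have a2 : |x 2| ≤ R := by
      have := PiLp.norm_apply_le (WithLp.toLp 2 x : E 3) 2
      exact this.trans h2
    rw [abs_le] at a0 a1 a2
    constructor
    · intro i; fin_cases i
      · exact a0.1
      · exact a1.1
      · exact a2.1
    · intro i; fin_cases i
      · exact a0.2
      · exact a1.2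
      · exact a2.2
  refine (measure_mono hsub).trans ?_
  rw [Real.volume_Icc_pi, Fin.prod_univ_three]
  show ENNReal.ofReal (a - -a) * ENNReal.ofReal (a - -a) * ENNReal.ofReal (R - -R) ≤ _
  rw [← ENNReal.ofReal_mul (by linarith), ← ENNReal.ofReal_mul (by nlinarith)]
  apply ENNReal.ofReal_le_ofReal
  apply le_of_eq
  ring

/-- the map is weakly differentiable -/
theorem weak (hG : StmtGreen) (hC : StmCOV) (hf : W2 f F) (hg : W2 g G)
    (hm : MemLp (av f F G) 3 mu) (hex : ∃ M : ℝ, ∀ p ∈ Qc, |f p| ≤ M ∧ |g p| ≤ M)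
    (c : Fin 3) : WeakDiff 2 (fun x => om f g x c) (fun x => dm f F G x c)
      (fun y => om f g (bd y) c) := by
  obtain ⟨M, hM⟩ := hex
  have hM0 : 0 ≤ M := (abs_nonneg _).trans (hM (1, 0) ⟨one_pos, le_rfl⟩).1
  have hfc := cont f F hf
  have hgc := cont g G hg
  have hbm := aesm_om_bd hfc hgc c
  have hne : ∀ᵐ y : E 2, y ≠ 0 := by
    have : (volume : Measure (E 2)) {0} = 0 := measure_singleton _
    exact compl_mem_ae_iff.2 this
  have hbb : ∀ᵐ y : E 2, ‖om f g (bd y) c‖ ≤ M := by
    filter_upwards [hne] with y hy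
    have h1 := hM _ (rz_bd_Qc hy)
    exact om_le f g _ c M h1.1 h1.2
  refine ⟨fun R => int_om hC hf hg hM c R, fun R => int_dm hC hf hg hm c R, ?_, ?_⟩
  · refine (locallyIntegrable_const M).mono hbm ?_
    filter_upwards [hbb] with y hy
    rwa [Real.norm_of_nonneg hM0]
  · intro φ hφ hφc j
    -- the equation with the cutoff
    have hψ : ∀ n, ContDiff ℝ 1 (fun x => cut n x * φ x) := fun n => (cut_contDiff' n).mul hφ
    have hψc : ∀ n, HasCompactSupport (fun x => cut n x * φ x) := fun n => hφc.mul_left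
    have hψs : ∀ n, tsupport (fun x => cut n x * φ x) ⊆ {x : E 3 | rr x ≠ 0} := fun n =>
      (tsupport_mul_subset_left).trans (tsupport_cut n)
    have hgreen := fun n => green_off hG hC hf hg hm hM c j (hψ n) (hψc n) (hψs n)
    have hpd : ∀ n x, pd (fun x => cut n x * φ x) j x = cut n x * pd φ j x + φ x * pd (cut n) j x := by
      intro n x
      unfold pd
      have h1 := ((cut_contDiff' n).differentiable one_ne_zero x).hasFDerivAt.mul
        (hφ.differentiable one_ne_zero x).hasFDerivAt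
      have h2 : fderiv ℝ (fun x => cut n x * φ x) x = _ := h1.fderiv
      rw [h2]
      simp only [add_apply, smul_apply, smul_eq_mul]
    have htot := int_total hC hf hg hm hM c j hφ hφc
    obtain ⟨B, hB0, hB⟩ := dch_bound
    obtain ⟨B0, hB0'⟩ := hφc.exists_bound_of_continuous hφ.continuous
    have hB00 : 0 ≤ B0 := (norm_nonneg _).trans (hB0' 0)
    obtain ⟨R, hR⟩ := hφc.isBounded.subset_closedBall (0 : E 3)
    have hrz := ae_rz hC ModVar.ae_QQ
    -- the main part
    have hA : Tendsto (fun n => ∫ x in half 2,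
        cut n x * (om f g x c * pd φ j x + dm f F G x c j * φ x)) atTop
        (𝓝 (∫ x in half 2, (om f g x c * pd φ j x + dm f F G x c j * φ x))) := by
      refine tendsto_integral_of_dominated_convergence
        (fun x => ‖om f g x c * pd φ j x + dm f F G x c j * φ x‖) ?_ htot.norm ?_ ?_
      · intro n
        exact ((cut_contDiff' n).continuous.aestronglyMeasurable).mul htot.aestronglyMeasurable
      · intro n
        refine Eventually.of_forall fun x => ?_
        rw [norm_mul]
        exact mul_le_of_le_one_left (norm_nonneg _) (cut_abs n x)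
      · filter_upwards [hrz] with x hx
        have hx0 : rr x ≠ 0 := (show 0 < rr x from hx.1).ne'
        have := (cut_lim hx0).mul_const (om f g x c * pd φ j x + dm f F G x c j * φ x)
        rwa [one_mul] at this
    -- the extra part
    have hE0 : ∀ n, IntegrableOn (fun x => om f g x c * (φ x * pd (cut n) j x)) (half 2) := by
      intro n
      refine intOn_mul (isOpen_half 2).measurableSet (int_om hC hf hg hM c) ?_ ?_
      · exact hφ.continuous.mul (continuous_pd (cut_contDiff' n) j)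
      · exact hφc.mul_right
    have hE : Tendsto (fun n => ∫ x in half 2, om f g x c * (φ x * pd (cut n) j x)) atTop (𝓝 0) := by
      rw [tendsto_zero_iff_norm_tendsto_zero]
      have hle : ∀ n : ℕ, ‖∫ x in half 2, om f g x c * (φ x * pd (cut n) j x)‖ ≤
          (M * (B0 * (128 * B * |R|))) * (1 / ((n : ℝ) + 1)) := by
        intro n
        set N : ℝ := (n : ℝ) + 1 with hN
        have hN0 : 0 < N := by positivity
        set T : Set (E 3) := {x : E 3 | rr x ≤ 2 / N ∧ ‖x‖ ≤ |R|} with hT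
        have hTm : MeasurableSet T :=
          ((isClosed_le continuous_rr continuous_const).inter
            (isClosed_le continuous_norm continuous_const)).measurableSet
        have hTv := tube_volume (2 / N) |R| (by positivity)
        have hz : ∀ x, x ∉ T → om f g x c * (φ x * pd (cut n) j x) = 0 := by
          intro x hx
          by_cases hxs : x ∈ tsupport φ
          · have h1 : ‖x‖ ≤ |R| := by
              have := hR hxs
              rw [mem_closedBall_zero_iff] at this
              exact this.trans (le_abs_self R)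
            have h2 : 2 / N < rr x := by
              by_contra h
              exact hx ⟨not_lt.1 h, h1⟩
            rw [(pd_cut hB hB0 n j x).2 h2]
            simp
          · rw [image_eq_zero_of_notMem_tsupport hxs]
            simp
        have e1 : ∫ x in half 2, om f g x c * (φ x * pd (cut n) j x) =
            ∫ x in half 2 ∩ T, om f g x c * (φ x * pd (cut n) j x) := by
          rw [← setIntegral_indicator hTm]
          refine integral_congr_ae (Eventually.of_forall fun x => ?_)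
          by_cases hx : x ∈ T
          · rw [indicator_of_mem hx]
          · rw [indicator_of_notMem hx]
            exact hz x hx
        rw [e1]
        have hfin : (volume : Measure (E 3)) (half 2 ∩ T) < ⊤ :=
          (measure_mono inter_subset_right).trans_lt (hTv.trans_lt ENNReal.ofReal_lt_top)
        have hbound : ∀ᵐ x ∂(volume.restrict (half 2 ∩ T)),
            ‖om f g x c * (φ x * pd (cut n) j x)‖ ≤ M * (B0 * (4 * B * N)) := by
          have h2 : ∀ᵐ x ∂(volume.restrict (half 2 ∩ T)), rz x ∈ QQ :=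
            ae_mono (Measure.restrict_mono inter_subset_left le_rfl) hrz
          filter_upwards [h2] with x hx
          have h3 := hM _ (QQ_sub_Qc hx)
          rw [norm_mul, norm_mul]
          exact mul_le_mul (om_le f g x c M h3.1 h3.2)
            (mul_le_mul (hB0' x) (pd_cut hB hB0 n j x).1 (norm_nonneg _) hB00) (by positivity) hM0
        refine (norm_setIntegral_le_of_norm_le_const_ae hfin hbound).trans ?_
        have hreal : (volume : Measure (E 3)).real (half 2 ∩ T) ≤
            (2 * (2 / N)) * (2 * (2 / N)) * (2 * |R|) := by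
          unfold Measure.real
          refine ENNReal.toReal_le_of_le_ofReal (by positivity) ?_
          exact (measure_mono inter_subset_right).trans hTv
        calc M * (B0 * (4 * B * N)) * (volume : Measure (E 3)).real (half 2 ∩ T) ≤
            M * (B0 * (4 * B * N)) * ((2 * (2 / N)) * (2 * (2 / N)) * (2 * |R|)) := by gcongr
          _ = _ := by field_simp; ring
      refine squeeze_zero (fun n => norm_nonneg _) hle ?_
      have := (tendsto_one_div_add_atTop_nhds_zero_nat (𝕜 := ℝ)).const_mul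
        (M * (B0 * (128 * B * |R|)))
      simpa using this
    -- the right side
    have hbdc := compact_bd hφc
    have hbdcont : Continuous (fun y : E 2 => φ (bd y)) := hφ.continuous.comp continuous_bd
    have hbdi : Integrable (fun y : E 2 => φ (bd y)) :=
      hbdcont.integrable_of_hasCompactSupport hbdc
    have hRt : Tendsto (fun n => ∫ y : E 2, om f g (bd y) c * (cut n (bd y) * φ (bd y))) atTop
        (𝓝 (∫ y : E 2, om f g (bd y) c * φ (bd y))) := by
      refine tendsto_integral_of_dominated_convergence (fun y => M * ‖φ (bd y)‖) ?_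
        (hbdi.norm.const_mul _) ?_ ?_
      · intro n
        exact hbm.mul ((((cut_contDiff' n).continuous.comp continuous_bd).mul
          hbdcont).aestronglyMeasurable)
      · intro n
        filter_upwards [hbb] with y hy
        rw [norm_mul, norm_mul]
        refine mul_le_mul hy ?_ (by positivity) hM0
        exact mul_le_of_le_one_left (norm_nonneg _) (cut_abs n _)
      · filter_upwards [hne] with y hy
        have h1 : rr (bd y) ≠ 0 := by
          rw [rr_bd]; exact (norm_pos_iff.2 hy).ne'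
        have h2 := ((cut_lim h1).mul_const (φ (bd y))).const_mul (om f g (bd y) c)
        rwa [one_mul] at h2
    have hsum := hA.add hE
    rw [add_zero] at hsum
    have heq : ∀ n, (∫ x in half 2, cut n x * (om f g x c * pd φ j x + dm f F G x c j * φ x)) +
        ∫ x in half 2, om f g x c * (φ x * pd (cut n) j x) =
        if j = Fin.last 2 then -∫ y : E 2, om f g (bd y) c * (cut n (bd y) * φ (bd y)) else 0 := by
      intro n
      rw [← hgreen n]
      have i1 : IntegrableOn (fun x => cut n x *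
          (om f g x c * pd φ j x + dm f F G x c j * φ x)) (half 2) := by
        refine htot.norm.mono' (((cut_contDiff' n).continuous.aestronglyMeasurable).mul
          htot.aestronglyMeasurable) (Eventually.of_forall fun x => ?_)
        rw [norm_mul]
        exact mul_le_of_le_one_left (norm_nonneg _) (cut_abs n x)
      rw [← integral_add i1 (hE0 n)]
      refine integral_congr_ae (Eventually.of_forall fun x => ?_)
      show _ = om f g x c * pd (fun x => cut n x * φ x) j x + dm f F G x c j * (cut n x * φ x)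
      rw [hpd]
      ring
    simp only [heq] at hsum
    refine tendsto_nhds_unique hsum ?_
    split_ifs with hj
    · exact hRt.neg
    · exact tendsto_const_nhds

end fix

end Pool.Agent.T6.H20.BV.ModT3D

namespace Pool.Agent.T6.H20.BV

theorem t3d (hG : Pool.Agent.T6.H20.BU.StmtGreen) (hC : StmCOV) : StmT3D := by
  intro f g F G hf hg hm hex c
  exact ModT3D.weak hG hC hf hg hm hex c

end Pool.Agent.T6.H20.BV
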