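import Pool.Agent.T6.H20.BV.Defs

set_option autoImplicit false

/-!
# Module AAD: Arzelà–Ascoli on the boxes and a diagonal sequence
-/

namespace Pool.Agent.T6.H20.BV

open MeasureTheory Set Filter Topology

namespace ModAAD

theorem box_sub (k : ℕ) : Box k ⊆ Qc := by
  intro p hp
  have h1 : (0 : ℝ) < 1 / ((k : ℝ) + 2) := by positivity
  exact ⟨lt_of_lt_of_le h1 hp.1.1, hp.2.1⟩

theorem box_compact (k : ℕ) : IsCompact (Box k) := isCompact_Icc.prod isCompact_Icc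

theorem cauchy_on {u : ℕ → ℝ × ℝ → ℝ} {K E : Set (ℝ × ℝ)} (hK : IsCompact K) (hE : E ⊆ K)
    (hd : K ⊆ closure E) (C : ℝ)
    (hu : ∀ j, ∀ p ∈ K, ∀ q ∈ K, |u j p - u j q| ≤ C * dist p q ^ ((1 : ℝ) / 3))
    (hc : ∀ p ∈ E, CauchySeq fun j => u j p) : UniformCauchySeqOn u atTop K := by
  rw [Metric.uniformCauchySeqOn_iff]
  intro ε hε
  obtain ⟨δ, hδ, hδ'⟩ : ∃ δ : ℝ, 0 < δ ∧ ∀ d : ℝ, 0 ≤ d → d < δ → C * d ^ ((1 : ℝ) / 3) < ε / 3 := by
    have h1 : Tendsto (fun d : ℝ => C * d ^ ((1 : ℝ) / 3)) (𝓝 0) (𝓝 (C * (0 : ℝ) ^ ((1 : ℝ) / 3))) := by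
      apply Tendsto.const_mul
      exact (Real.continuousAt_rpow_const 0 ((1 : ℝ) / 3) (Or.inr (by norm_num))).tendsto
    rw [Real.zero_rpow (by norm_num), mul_zero] at h1
    have h2 := h1.eventually (gt_mem_nhds (show (0 : ℝ) < ε / 3 by linarith))
    obtain ⟨δ, hδ, h3⟩ := Metric.eventually_nhds_iff.mp h2
    refine ⟨δ, hδ, fun d hd0 hd1 => h3 ?_⟩
    rw [Real.dist_eq, sub_zero, abs_of_nonneg hd0]
    exact hd1
  obtain ⟨t, htE, htf, htc⟩ : ∃ t : Set (ℝ × ℝ), t ⊆ E ∧ t.Finite ∧ K ⊆ ⋃ d ∈ t, Metric.ball d δ := by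
    obtain ⟨t, ht1, ht2, ht3⟩ := hK.elim_finite_subcover_image (b := E)
      (c := fun d => Metric.ball d δ) (fun d _ => Metric.isOpen_ball) (by
        intro p hp
        obtain ⟨d, hd, hdp⟩ := Metric.mem_closure_iff.mp (hd hp) δ hδ
        exact Set.mem_iUnion₂.mpr ⟨d, hd, hdp⟩)
    exact ⟨t, ht1, ht2, ht3⟩
  have hN : ∃ N : ℕ, ∀ d ∈ t, ∀ i, N ≤ i → ∀ j, N ≤ j → |u i d - u j d| < ε / 3 := by
    have h1 : ∀ d ∈ t, ∃ N : ℕ, ∀ i, N ≤ i → ∀ j, N ≤ j → |u i d - u j d| < ε / 3 := by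
      intro d hd
      obtain ⟨N, hN⟩ := Metric.cauchySeq_iff.mp (hc d (htE hd)) (ε / 3) (by linarith)
      exact ⟨N, fun i hi j hj => by
        have := hN i hi j hj
        rwa [Real.dist_eq] at this⟩
    choose! N hN using h1
    obtain ⟨B, hB⟩ := (htf.image N).bddAbove
    exact ⟨B, fun d hd i hi j hj => hN d hd i ((hB ⟨d, hd, rfl⟩).trans hi) j
      ((hB ⟨d, hd, rfl⟩).trans hj)⟩
  obtain ⟨N, hN⟩ := hN
  refine ⟨N, fun i hi j hj p hp => ?_⟩
  obtain ⟨d, hd, hpd⟩ := Set.mem_iUnion₂.mp (htc hp)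
  rw [Metric.mem_ball] at hpd
  have hdK : d ∈ K := hE (htE hd)
  have h1 := hu i p hp d hdK
  have h2 := hu j d hdK p hp
  have h3 := hN d hd i hi j hj
  have h4 := hδ' (dist p d) dist_nonneg hpd
  rw [dist_comm d p] at h2
  rw [Real.dist_eq]
  have h5 : u i p - u j p = (u i p - u i d) + (u i d - u j d) + (u j d - u j p) := by ring
  rw [h5]
  calc |(u i p - u i d) + (u i d - u j d) + (u j d - u j p)|
      ≤ |u i p - u i d| + |u i d - u j d| + |u j d - u j p| := by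
        refine (abs_add_le _ _).trans ?_
        gcongr
        exact abs_add_le _ _
    _ < ε := by linarith

end ModAAD

open ModAAD in
theorem aad : StmAAD := by
  intro u M C hM hC
  have hE : ∀ k : ℕ, ∃ t ⊆ Box k, t.Countable ∧ Box k ⊆ closure t := fun k =>
    (TopologicalSpace.IsSeparable.of_separableSpace (Box k)).exists_countable_dense_subset
  choose E hEB hEc hEd using hE
  have hDc : (⋃ k, E k).Countable := Set.countable_iUnion hEc
  have : Countable (⋃ k, E k : Set (ℝ × ℝ)) := hDc.to_subtype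
  have hDQ : ∀ p ∈ (⋃ k, E k : Set (ℝ × ℝ)), p ∈ Qc := by
    intro p hp
    obtain ⟨k, hk⟩ := Set.mem_iUnion.mp hp
    exact box_sub k (hEB k hk)
  have hcomp : IsCompact (Set.pi Set.univ (fun _ : (⋃ k, E k : Set (ℝ × ℝ)) => Set.Icc (-M) M)) :=
    isCompact_univ_pi fun _ => isCompact_Icc
  obtain ⟨a, _, s, hs, hsa⟩ := hcomp.tendsto_subseq
    (x := fun j => fun d : (⋃ k, E k : Set (ℝ × ℝ)) => u j d) (by
      intro j d _
      exact abs_le.mp (hM j d (hDQ d d.2)))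
  have hpt : ∀ d : (⋃ k, E k : Set (ℝ × ℝ)), Tendsto (fun j => u (s j) d) atTop (𝓝 (a d)) := by
    intro d
    exact (tendsto_pi_nhds.mp hsa) d
  have hcs : ∀ k, UniformCauchySeqOn (fun j => u (s j)) atTop (Box k) := by
    intro k
    refine cauchy_on (box_compact k) (hEB k) (hEd k) (C k) (fun j p hp q hq => hC k (s j) p hp q hq) ?_
    intro p hp
    exact (hpt ⟨p, Set.mem_iUnion.mpr ⟨k, hp⟩⟩).cauchySeq
  have hlim : ∀ k, ∀ p ∈ Box k, Tendsto (fun j => u (s j) p) atTop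
      (𝓝 (limUnder atTop fun j => u (s j) p)) := by
    intro k p hp
    exact ((hcs k).cauchySeq hp).tendsto_limUnder
  exact ⟨s, fun p => limUnder atTop fun j => u (s j) p, hs, fun k =>
    (hcs k).tendstoUniformlyOn_of_tendsto (hlim k)⟩

end Pool.Agent.T6.H20.BV
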