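import Pool.Agent.T6.H20.BV.Trt

/-!
# Project BV: the final assembly
-/

set_option autoImplicit false

namespace Pool.Agent.T6.H20.BV

open MeasureTheory Set Filter Topology Pool.Agent.T6.H20.BU

/-! ### Algebra -/

theorem norm_sq_E3 (v : E 3) : ‖v‖ ^ 2 = v 0 ^ 2 + v 1 ^ 2 + v 2 ^ 2 := by
  rw [EuclideanSpace.norm_sq_eq, Fin.sum_univ_three]
  simp [sq_abs]

theorem inner_E3 (v w : E 3) : inner ℝ v w = v 0 * w 0 + v 1 * w 1 + v 2 * w 2 := by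
  rw [PiLp.inner_apply, Fin.sum_univ_three]
  simp only [RCLike.inner_apply, conj_trivial]
  ring

theorem inner_V5 (v w : V5) :
    inner ℝ v w = v 0 * w 0 + v 1 * w 1 + v 2 * w 2 + v 3 * w 3 + v 4 * w 4 := by
  rw [PiLp.inner_apply, Fin.sum_univ_five]
  simp only [RCLike.inner_apply, conj_trivial]
  ring

/-- the entries of `emb` -/
theorem emb_entries (c s : ℝ) (a : V5) :
    (emb c s a 0 0 = (c ^ 2 - s ^ 2) * a 0 * c + 2 * c * s * a 4 * s ∧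
      emb c s a 0 1 = (c ^ 2 - s ^ 2) * a 0 * s - 2 * c * s * a 4 * c ∧
      emb c s a 0 2 = (c ^ 2 - s ^ 2) * a 1) ∧
    (emb c s a 1 0 = 2 * c * s * a 0 * c - (c ^ 2 - s ^ 2) * a 4 * s ∧
      emb c s a 1 1 = 2 * c * s * a 0 * s + (c ^ 2 - s ^ 2) * a 4 * c ∧
      emb c s a 1 2 = 2 * c * s * a 1) ∧
    (emb c s a 2 0 = a 2 * c ∧ emb c s a 2 1 = a 2 * s ∧ emb c s a 2 2 = a 3) :=
  ⟨⟨rfl, rfl, rfl⟩, ⟨rfl, rfl, rfl⟩, ⟨rfl, rfl, rfl⟩⟩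

theorem bme_entries (c s : ℝ) (B : Fin 3 → E 3) :
    bme c s B 0 = (c ^ 2 - s ^ 2) * (B 0 0 * c + B 0 1 * s) + 2 * c * s * (B 1 0 * c + B 1 1 * s) ∧
    bme c s B 1 = (c ^ 2 - s ^ 2) * B 0 2 + 2 * c * s * B 1 2 ∧
    bme c s B 2 = B 2 0 * c + B 2 1 * s ∧ bme c s B 3 = B 2 2 ∧
    bme c s B 4 = -(2 * c * s) * (-(B 0 0) * s + B 0 1 * c) +
      (c ^ 2 - s ^ 2) * (-(B 1 0) * s + B 1 1 * c) :=
  ⟨rfl, rfl, rfl, rfl, rfl⟩

theorem emb_inner (c s : ℝ) (a : V5) (B : Fin 3 → E 3) :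
    ∑ i, inner ℝ (emb c s a i) (B i) = inner ℝ a (bme c s B) := by
  obtain ⟨⟨e1, e2, e3⟩, ⟨e4, e5, e6⟩, e7, e8, e9⟩ := emb_entries c s a
  obtain ⟨b1, b2, b3, b4, b5⟩ := bme_entries c s B
  rw [Fin.sum_univ_three, inner_E3, inner_E3, inner_E3, inner_V5, e1, e2, e3, e4, e5, e6, e7, e8,
    e9, b1, b2, b3, b4, b5]
  ring

theorem emb_hs {c s : ℝ} (h : c ^ 2 + s ^ 2 = 1) (a : V5) : hs (emb c s a) = ‖a‖ := by
  obtain ⟨⟨e1, e2, e3⟩, ⟨e4, e5, e6⟩, e7, e8, e9⟩ := emb_entries c s a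
  have h1 : ∑ i, ‖emb c s a i‖ ^ 2 = ‖a‖ ^ 2 := by
    rw [Fin.sum_univ_three, norm_sq_E3, norm_sq_E3, norm_sq_E3, TRT.norm_sq_V5, e1, e2, e3, e4,
      e5, e6, e7, e8, e9]
    have h2 : ((c ^ 2 - s ^ 2) * a 0 * c + 2 * c * s * a 4 * s) ^ 2 +
        ((c ^ 2 - s ^ 2) * a 0 * s - 2 * c * s * a 4 * c) ^ 2 + ((c ^ 2 - s ^ 2) * a 1) ^ 2 +
        ((2 * c * s * a 0 * c - (c ^ 2 - s ^ 2) * a 4 * s) ^ 2 +
        (2 * c * s * a 0 * s + (c ^ 2 - s ^ 2) * a 4 * c) ^ 2 + (2 * c * s * a 1) ^ 2) +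
        ((a 2 * c) ^ 2 + (a 2 * s) ^ 2 + a 3 ^ 2) =
        (c ^ 2 + s ^ 2) ^ 3 * (a 0 ^ 2 + a 4 ^ 2) + (c ^ 2 + s ^ 2) ^ 2 * a 1 ^ 2 +
          (c ^ 2 + s ^ 2) * a 2 ^ 2 + a 3 ^ 2 := by ring
    rw [h2, h]
    ring
  unfold hs
  rw [h1, Real.sqrt_sq (norm_nonneg _)]

/-- what conformality of `emb c s a` means for `a` -/
theorem emb_conf {c s : ℝ} (h : c ^ 2 + s ^ 2 = 1) (a : V5)
    (hc : ∀ i j : Fin 3, ∑ k, emb c s a k i * emb c s a k j =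
      if i = j then hs (emb c s a) ^ 2 / (((2 : ℕ) : ℝ) + 1) else 0) :
    a 0 ^ 2 + a 1 ^ 2 = a 4 ^ 2 ∧ a 2 ^ 2 + a 3 ^ 2 = a 4 ^ 2 := by
  set l : ℝ := hs (emb c s a) ^ 2 / (((2 : ℕ) : ℝ) + 1) with hl
  obtain ⟨⟨e1, e2, e3⟩, ⟨e4, e5, e6⟩, e7, e8, e9⟩ := emb_entries c s a
  have m00 := hc 0 0
  have m01 := hc 0 1
  have m11 := hc 1 1
  have m02 := hc 0 2
  have m12 := hc 1 2
  have m22 := hc 2 2
  rw [Fin.sum_univ_three, e1, e4, e7, if_pos rfl] at m00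
  rw [Fin.sum_univ_three, e1, e2, e4, e5, e7, e8, if_neg (by decide)] at m01
  rw [Fin.sum_univ_three, e2, e5, e8, if_pos rfl] at m11
  rw [Fin.sum_univ_three, e1, e3, e4, e6, e7, e9, if_neg (by decide)] at m02
  rw [Fin.sum_univ_three, e2, e3, e5, e6, e8, e9, if_neg (by decide)] at m12
  rw [Fin.sum_univ_three, e3, e6, e9, if_pos rfl] at m22
  have r1 : (c ^ 2 + s ^ 2) ^ 4 * a 0 ^ 2 + (c ^ 2 + s ^ 2) ^ 2 * a 2 ^ 2 =
      (c ^ 2 + s ^ 2) * l := by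
    linear_combination c ^ 2 * m00 + 2 * c * s * m01 + s ^ 2 * m11
  have r2 : (c ^ 2 + s ^ 2) ^ 2 * a 1 ^ 2 + a 3 ^ 2 = l := by
    linear_combination m22
  have r3 : (c ^ 2 + s ^ 2) ^ 3 * (a 0 * a 1) + (c ^ 2 + s ^ 2) * (a 2 * a 3) = 0 := by
    linear_combination c * m02 + s * m12
  have r4 : (c ^ 2 + s ^ 2) ^ 4 * a 4 ^ 2 = (c ^ 2 + s ^ 2) * l := by
    linear_combination s ^ 2 * m00 - 2 * c * s * m01 + c ^ 2 * m11
  rw [h] at r1 r2 r3 r4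
  have q1 : a 0 ^ 2 + a 2 ^ 2 = l := by linarith
  have q2 : a 1 ^ 2 + a 3 ^ 2 = l := by linarith
  have q3 : a 0 * a 1 + a 2 * a 3 = 0 := by linarith
  have q4 : a 4 ^ 2 = l := by linarith
  have q5 : l * (a 0 ^ 2 - a 3 ^ 2) = 0 := by
    linear_combination (a 0 * a 1 - a 2 * a 3) * q3 - a 0 ^ 2 * q2 + a 3 ^ 2 * q1
  rcases mul_eq_zero.1 q5 with h0 | h0
  · have p0 := sq_nonneg (a 0)
    have p1 := sq_nonneg (a 1)
    have p2 := sq_nonneg (a 2)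
    have p3 := sq_nonneg (a 3)
    rw [h0] at q1 q2
    have z0 : a 0 ^ 2 = 0 := by linarith
    have z1 : a 1 ^ 2 = 0 := by linarith
    have z2 : a 2 ^ 2 = 0 := by linarith
    have z3 : a 3 ^ 2 = 0 := by linarith
    constructor <;> linarith
  · constructor <;> linarith

/-! ### Cylindrical coordinates -/

theorem rr_P3 {p : ℝ × ℝ} (hp : 0 < p.1) (t : ℝ) : rr (P3 (p, t)) = p.1 := by
  unfold rr P3
  show Real.sqrt ((p.1 * Real.cos t) ^ 2 + (p.1 * Real.sin t) ^ 2) = p.1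
  have : (p.1 * Real.cos t) ^ 2 + (p.1 * Real.sin t) ^ 2 = p.1 ^ 2 := by
    have := Real.cos_sq_add_sin_sq t
    linear_combination p.1 ^ 2 * this
  rw [this, Real.sqrt_sq hp.le]

theorem rz_P3 {p : ℝ × ℝ} (hp : 0 < p.1) (t : ℝ) : rz (P3 (p, t)) = p := by
  unfold rz
  rw [rr_P3 hp]
  rfl

theorem c1_P3 {p : ℝ × ℝ} (hp : 0 < p.1) (t : ℝ) : c1 (P3 (p, t)) = Real.cos t := by
  unfold c1
  rw [rr_P3 hp]
  show p.1 * Real.cos t / p.1 = Real.cos t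
  field_simp

theorem s1_P3 {p : ℝ × ℝ} (hp : 0 < p.1) (t : ℝ) : s1 (P3 (p, t)) = Real.sin t := by
  unfold s1
  rw [rr_P3 hp]
  show p.1 * Real.sin t / p.1 = Real.sin t
  field_simp

theorem dm_P3 (f : ℝ × ℝ → ℝ) (F G : ℝ × ℝ → ℝ × ℝ) {p : ℝ × ℝ} (hp : 0 < p.1) (t : ℝ) :
    dm f F G (P3 (p, t)) = emb (Real.cos t) (Real.sin t) (av f F G p) := by
  unfold dm
  rw [rz_P3 hp, c1_P3 hp, s1_P3 hp]

theorem c1_sq_add {x : E 3} (hx : rr x ≠ 0) : c1 x ^ 2 + s1 x ^ 2 = 1 := by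
  unfold c1 s1
  have h : rr x ^ 2 = x 0 ^ 2 + x 1 ^ 2 := by
    unfold rr
    exact Real.sq_sqrt (by positivity)
  rw [div_pow, div_pow, ← add_div, ← h, div_self (pow_ne_zero 2 hx)]

theorem P3_bd (r t : ℝ) : P3 ((r, 0), t) = bd (P2 (r, t)) := by
  ext i
  fin_cases i
  · rfl
  · rfl
  · rfl

theorem ae_mu_QQ : ∀ᵐ p ∂mu, p ∈ QQ := by
  unfold mu
  refine (withDensity_absolutelyContinuous _ _).ae_le ?_
  exact ae_restrict_mem isOpen_QQ.measurableSet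

instance : SFinite mu := by
  unfold mu
  infer_instance

theorem measurableSet_half : MeasurableSet (half 2) := by
  have h1 : IsOpen (half 2) :=
    isOpen_lt continuous_const (EuclideanSpace.proj (𝕜 := ℝ) (Fin.last 2)).continuous
  exact h1.measurableSet

/-- transfer of almost everywhere statements to the coordinates -/
theorem ae_prod_of_ae_half (hC : StmCOV) {Q : E 3 → Prop}
    (h : ∀ᵐ x ∂(volume.restrict (half 2)), Q x) :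
    ∀ᵐ p ∂mu, ∀ᵐ t ∂(volume.restrict An), Q (P3 (p, t)) := by
  have h1 : ∀ᵐ q ∂(mu.prod (volume.restrict An)), Q (P3 q) :=
    hC.1.quasiMeasurePreserving.ae h
  exact Measure.ae_ae_of_ae_prod h1

/-! ### Non-conformality -/

theorem not_conf (hC : StmCOV) (hA : StmNCA) (hB : StmNCB) {f g : ℝ × ℝ → ℝ}
    {F G : ℝ × ℝ → ℝ × ℝ} (hAdm : Adm f g F G) (hE : EqA f g F G) :
    ¬ IsConformal 2 3 (dm f F G) := by
  intro hconf
  have h1 : ∀ᵐ x ∂(volume.restrict (half 2)), ∀ i j : Fin 3,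
      ∑ c, dm f F G x c i * dm f F G x c j =
        if i = j then hs (dm f F G x) ^ 2 / (((2 : ℕ) : ℝ) + 1) else 0 := by
    rw [ae_restrict_iff' measurableSet_half]
    exact hconf
  have h2 := ae_prod_of_ae_half hC h1
  have hAn : (volume.restrict An : Measure ℝ) ≠ 0 := by
    rw [Ne, Measure.restrict_eq_zero, An, Real.volume_Ioo]
    have := Real.pi_pos
    simp
    linarith
  have h3 : ∀ᵐ p ∂mu, (av f F G p) 0 ^ 2 + (av f F G p) 1 ^ 2 = (av f F G p) 4 ^ 2 ∧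
      (av f F G p) 2 ^ 2 + (av f F G p) 3 ^ 2 = (av f F G p) 4 ^ 2 := by
    filter_upwards [h2, ae_mu_QQ] with p hp hpQ
    have hne : (ae (volume.restrict An : Measure ℝ)).NeBot := ae_neBot.2 hAn
    obtain ⟨t, ht⟩ := hp.exists
    rw [dm_P3 f F G hpQ.1 t] at ht
    exact emb_conf (Real.cos_sq_add_sin_sq t) _ ht
  have h4 : ∀ᵐ p ∂mu, (F p).1 ^ 2 + (F p).2 ^ 2 = 4 * f p ^ 2 / p.1 ^ 2 ∧
      (G p).1 ^ 2 + (G p).2 ^ 2 = 4 * f p ^ 2 / p.1 ^ 2 := by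
    filter_upwards [h3] with p hp
    have e := av_comp (f := f) (F := F) (G := G) p
    rw [e.1, e.2.1, e.2.2.1, e.2.2.2.1, e.2.2.2.2] at hp
    have e5 : (2 * f p / p.1) ^ 2 = 4 * f p ^ 2 / p.1 ^ 2 := by
      rw [div_pow]
      ring
    rwa [e5] at hp
  have h5 := hA f g F G hAdm hE h4
  have h6 := hB f F hAdm.wf (h4.mono fun p hp => hp.1) h5
  -- the point (1, 0)
  have hp1 : ((1, 0) : ℝ × ℝ) ∈ Qc := ⟨one_pos, le_refl _⟩
  have hJ : JJ (1, 0) = (1, 0) := by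
    unfold JJ
    norm_num
  have hg : g (1, 0) = 0 := by
    have := hAdm.jg (1, 0) hp1
    rw [hJ] at this
    linarith
  have hf : f (1, 0) = 0 := by
    have hc := cont f F hAdm.wf
    have h7 : Tendsto (fun n : ℕ => ((1, 1 / ((n : ℝ) + 1)) : ℝ × ℝ)) atTop
        (𝓝[Qc] (1, 0)) := by
      refine tendsto_nhdsWithin_iff.2 ⟨?_, Eventually.of_forall fun n => ?_⟩
      · exact (tendsto_const_nhds.prodMk_nhds tendsto_one_div_add_atTop_nhds_zero_nat)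
      · refine ⟨one_pos, ?_⟩
        show (0 : ℝ) ≤ 1 / ((n : ℝ) + 1)
        positivity
    have h8 := (hc (1, 0) hp1).tendsto.comp h7
    refine tendsto_nhds_unique h8 ?_
    refine tendsto_const_nhds.congr fun n => ?_
    refine (h6 _ ⟨one_pos, ?_⟩).symm
    show (0 : ℝ) < 1 / ((n : ℝ) + 1)
    positivity
  have := hAdm.bdy 1 one_pos
  rw [hf, hg] at this
  norm_num at this

end Pool.Agent.T6.H20.BV
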