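import Pool.Agent.T6.H20.BV.Fin

/-!
# Project BV, module AVG: averages of test maps
-/

set_option autoImplicit false

namespace Pool.Agent.T6.H20.BV

open MeasureTheory Set Filter Topology Pool.Agent.T6.H20.BU

namespace AVGx

/-- the angular measure -/
noncomputable abbrev nu : Measure ℝ := volume.restrict An

/-- the constant of the Hölder inequality -/
noncomputable def C0 : ENNReal :=
  nu Set.univ ^ (1 / (1 : ENNReal).toReal - 1 / (3 : ENNReal).toReal)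

theorem C0_ne_top : C0 ≠ ⊤ := by
  unfold C0
  refine ENNReal.rpow_ne_top_of_nonneg (by norm_num) (measure_ne_top _ _)

theorem jensen {E' : Type*} [NormedAddCommGroup E'] [NormedSpace ℝ E'] {X : (ℝ × ℝ) × ℝ → E'}
    (hX : AEStronglyMeasurable X (mu.prod nu)) :
    eLpNorm (fun p => ∫ t, X (p, t) ∂nu) 3 mu ≤ C0 * eLpNorm X 3 (mu.prod nu) := by
  have h3 : (3 : ENNReal).toReal = 3 := by simp
  rw [eLpNorm_eq_lintegral_rpow_enorm_toReal (by norm_num) (by norm_num),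
    eLpNorm_eq_lintegral_rpow_enorm_toReal (by norm_num) (by norm_num), h3]
  have hm : AEMeasurable (fun q => ‖X q‖ₑ ^ (3 : ℝ)) (mu.prod nu) := hX.enorm.pow_const 3
  rw [lintegral_prod _ hm]
  have h1 : ∀ᵐ p ∂mu, ‖∫ t, X (p, t) ∂nu‖ₑ ^ (3 : ℝ) ≤
      C0 ^ (3 : ℝ) * ∫⁻ t, ‖X (p, t)‖ₑ ^ (3 : ℝ) ∂nu := by
    filter_upwards [hX.prodMk_left] with p hp
    have h2 : ‖∫ t, X (p, t) ∂nu‖ₑ ≤ eLpNorm (fun t => X (p, t)) 3 nu * C0 := by
      calc ‖∫ t, X (p, t) ∂nu‖ₑ ≤ ∫⁻ t, ‖X (p, t)‖ₑ ∂nu := enorm_integral_le_lintegral_enorm _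
        _ = eLpNorm (fun t => X (p, t)) 1 nu := eLpNorm_one_eq_lintegral_enorm.symm
        _ ≤ _ := eLpNorm_le_eLpNorm_mul_rpow_measure_univ (by norm_num) hp
    calc ‖∫ t, X (p, t) ∂nu‖ₑ ^ (3 : ℝ) ≤ (eLpNorm (fun t => X (p, t)) 3 nu * C0) ^ (3 : ℝ) :=
          ENNReal.rpow_le_rpow h2 (by norm_num)
      _ = _ := by
          rw [ENNReal.mul_rpow_of_nonneg _ _ (by norm_num),
            eLpNorm_eq_lintegral_rpow_enorm_toReal (by norm_num) (by norm_num), h3,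
            ← ENNReal.rpow_mul]
          norm_num
          rw [mul_comm]
  calc (∫⁻ p, ‖∫ t, X (p, t) ∂nu‖ₑ ^ (3 : ℝ) ∂mu) ^ (1 / (3 : ℝ))
      ≤ (∫⁻ p, C0 ^ (3 : ℝ) * ∫⁻ t, ‖X (p, t)‖ₑ ^ (3 : ℝ) ∂nu ∂mu) ^ (1 / (3 : ℝ)) :=
        ENNReal.rpow_le_rpow (lintegral_mono_ae h1) (by norm_num)
    _ = _ := by
        rw [lintegral_const_mul' _ _ (ENNReal.rpow_ne_top_of_nonneg (by norm_num) C0_ne_top),
          ENNReal.mul_rpow_of_nonneg _ _ (by norm_num), ← ENNReal.rpow_mul]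
        norm_num

theorem aesm_bme (hC : StmCOV) {B : E 3 → Fin 3 → E 3}
    (hBm : ∀ c, AEStronglyMeasurable (fun x => B x c) (volume.restrict (half 2))) :
    AEStronglyMeasurable (fun q : (ℝ × ℝ) × ℝ =>
      bme (Real.cos q.2) (Real.sin q.2) (B (P3 q))) (mu.prod nu) := by
  have hcomp : ∀ c i : Fin 3, AEMeasurable (fun q => B (P3 q) c i) (mu.prod nu) := by
    intro c i
    have h3 : AEStronglyMeasurable (fun q => B (P3 q) c) (mu.prod nu) :=
      (hBm c).comp_quasiMeasurePreserving hC.1.quasiMeasurePreserving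
    exact ((EuclideanSpace.proj (𝕜 := ℝ) i).continuous.comp_aestronglyMeasurable h3).aemeasurable
  have hcos : Measurable fun q : (ℝ × ℝ) × ℝ => Real.cos q.2 := by fun_prop
  have hsin : Measurable fun q : (ℝ × ℝ) × ℝ => Real.sin q.2 := by fun_prop
  have hc' := hcos.aemeasurable (μ := mu.prod nu)
  have hs' := hsin.aemeasurable (μ := mu.prod nu)
  have h4 : AEMeasurable (fun q : (ℝ × ℝ) × ℝ => (bme (Real.cos q.2) (Real.sin q.2)
      (B (P3 q))).ofLp) (mu.prod nu) := by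
    rw [aemeasurable_pi_iff]
    intro i
    fin_cases i
    · show AEMeasurable (fun q : (ℝ × ℝ) × ℝ => (Real.cos q.2 ^ 2 - Real.sin q.2 ^ 2) *
        (B (P3 q) 0 0 * Real.cos q.2 + B (P3 q) 0 1 * Real.sin q.2) +
        2 * Real.cos q.2 * Real.sin q.2 *
        (B (P3 q) 1 0 * Real.cos q.2 + B (P3 q) 1 1 * Real.sin q.2)) _
      exact ((hc'.pow_const 2).sub (hs'.pow_const 2)).mul
        (((hcomp 0 0).mul hc').add ((hcomp 0 1).mul hs')) |>.add
        (((hc'.const_mul 2).mul hs').mul (((hcomp 1 0).mul hc').add ((hcomp 1 1).mul hs')))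
    · show AEMeasurable (fun q : (ℝ × ℝ) × ℝ => (Real.cos q.2 ^ 2 - Real.sin q.2 ^ 2) *
        B (P3 q) 0 2 + 2 * Real.cos q.2 * Real.sin q.2 * B (P3 q) 1 2) _
      exact (((hc'.pow_const 2).sub (hs'.pow_const 2)).mul (hcomp 0 2)).add
        (((hc'.const_mul 2).mul hs').mul (hcomp 1 2))
    · show AEMeasurable (fun q : (ℝ × ℝ) × ℝ => B (P3 q) 2 0 * Real.cos q.2 +
        B (P3 q) 2 1 * Real.sin q.2) _
      exact ((hcomp 2 0).mul hc').add ((hcomp 2 1).mul hs')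
    · exact hcomp 2 2
    · show AEMeasurable (fun q : (ℝ × ℝ) × ℝ => -(2 * Real.cos q.2 * Real.sin q.2) *
        (-(B (P3 q) 0 0) * Real.sin q.2 + B (P3 q) 0 1 * Real.cos q.2) +
        (Real.cos q.2 ^ 2 - Real.sin q.2 ^ 2) *
        (-(B (P3 q) 1 0) * Real.sin q.2 + B (P3 q) 1 1 * Real.cos q.2)) _
      exact ((((hc'.const_mul 2).mul hs').neg).mul
        (((hcomp 0 0).neg.mul hs').add ((hcomp 0 1).mul hc'))).add
        (((hc'.pow_const 2).sub (hs'.pow_const 2)).mul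
        (((hcomp 1 0).neg.mul hs').add ((hcomp 1 1).mul hc')))
  have h5 : AEMeasurable (fun q : (ℝ × ℝ) × ℝ => bme (Real.cos q.2) (Real.sin q.2)
      (B (P3 q))) (mu.prod nu) :=
    (PiLp.continuous_toLp 2 (fun _ : Fin 5 => ℝ)).measurable.comp_aemeasurable h4
  exact h5.aestronglyMeasurable

theorem hcube (hC : StmCOV) {B : E 3 → Fin 3 → E 3}
    (hB : ∀ c, MemLp (fun x => B x c) 3 (volume.restrict (half 2))) :
    Integrable (fun q => hs (B (P3 q)) ^ 3) (mu.prod nu) :=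
  (hC.1.integrable_comp (integrable_hs_cube (memLp_hs hB)).aestronglyMeasurable).2
    (integrable_hs_cube (memLp_hs hB))

theorem int_bme (hC : StmCOV) {B : E 3 → Fin 3 → E 3}
    (hB : ∀ c, MemLp (fun x => B x c) 3 (volume.restrict (half 2))) :
    ∀ᵐ p ∂mu, Integrable (fun t => bme (Real.cos t) (Real.sin t) (B (P3 (p, t)))) nu := by
  filter_upwards [(hcube hC hB).prod_right_ae,
    (aesm_bme hC fun c => (hB c).aestronglyMeasurable).prodMk_left] with p h8 h9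
  refine ((integrable_const (1 : ℝ)).add h8).mono' h9 (Eventually.of_forall fun t => ?_)
  refine (bme_le (Real.cos_sq_add_sin_sq t) _).trans ?_
  have h10 := hs_nonneg' (B (P3 (p, t)))
  show hs (B (P3 (p, t))) ≤ 1 + hs (B (P3 (p, t))) ^ 3
  rcases le_total (hs (B (P3 (p, t)))) 1 with h | h
  · have : 0 ≤ hs (B (P3 (p, t))) ^ 3 := by positivity
    linarith
  · have : hs (B (P3 (p, t))) ≤ hs (B (P3 (p, t))) ^ 3 := le_self_pow₀ h (by norm_num)
    linarith

theorem bme_sub (c s : ℝ) (U V : Fin 3 → E 3) : bme c s (U - V) = bme c s U - bme c s V := by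
  ext i
  fin_cases i
  · show (c ^ 2 - s ^ 2) * ((U 0 0 - V 0 0) * c + (U 0 1 - V 0 1) * s) +
      2 * c * s * ((U 1 0 - V 1 0) * c + (U 1 1 - V 1 1) * s) =
      ((c ^ 2 - s ^ 2) * (U 0 0 * c + U 0 1 * s) + 2 * c * s * (U 1 0 * c + U 1 1 * s)) -
      ((c ^ 2 - s ^ 2) * (V 0 0 * c + V 0 1 * s) + 2 * c * s * (V 1 0 * c + V 1 1 * s))
    ring
  · show (c ^ 2 - s ^ 2) * (U 0 2 - V 0 2) + 2 * c * s * (U 1 2 - V 1 2) =
      ((c ^ 2 - s ^ 2) * U 0 2 + 2 * c * s * U 1 2) -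
      ((c ^ 2 - s ^ 2) * V 0 2 + 2 * c * s * V 1 2)
    ring
  · show (U 2 0 - V 2 0) * c + (U 2 1 - V 2 1) * s =
      (U 2 0 * c + U 2 1 * s) - (V 2 0 * c + V 2 1 * s)
    ring
  · rfl
  · show -(2 * c * s) * (-(U 0 0 - V 0 0) * s + (U 0 1 - V 0 1) * c) +
      (c ^ 2 - s ^ 2) * (-(U 1 0 - V 1 0) * s + (U 1 1 - V 1 1) * c) =
      (-(2 * c * s) * (-(U 0 0) * s + U 0 1 * c) +
      (c ^ 2 - s ^ 2) * (-(U 1 0) * s + U 1 1 * c)) -
      (-(2 * c * s) * (-(V 0 0) * s + V 0 1 * c) +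
      (c ^ 2 - s ^ 2) * (-(V 1 0) * s + V 1 1 * c))
    ring

theorem bav_sub (hC : StmCOV) {U V : E 3 → Fin 3 → E 3}
    (hU : ∀ c, MemLp (fun x => U x c) 3 (volume.restrict (half 2)))
    (hV : ∀ c, MemLp (fun x => V x c) 3 (volume.restrict (half 2))) :
    ∀ᵐ p ∂mu, bav U p - bav V p = bav (fun x c => U x c - V x c) p := by
  filter_upwards [int_bme hC hU, int_bme hC hV] with p h1 h2
  unfold bav
  rw [← smul_sub, ← integral_sub h1 h2]
  congr 1
  refine integral_congr_ae (Eventually.of_forall fun t => ?_)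
  exact (bme_sub _ _ (U (P3 (p, t))) (V (P3 (p, t)))).symm

theorem aesm_bav (hC : StmCOV) {B : E 3 → Fin 3 → E 3}
    (hB : ∀ c, MemLp (fun x => B x c) 3 (volume.restrict (half 2))) :
    AEStronglyMeasurable (bav B) mu := by
  have h1 := (aesm_bme hC fun c => (hB c).aestronglyMeasurable).integral_prod_right'
  exact h1.const_smul (1 / (2 * Real.pi))

/-- the constant in the bound of the average -/
noncomputable def C1 : ENNReal := ENNReal.ofReal (1 / (2 * Real.pi)) * C0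

theorem C1_ne_top : C1 ≠ ⊤ := ENNReal.mul_ne_top ENNReal.ofReal_ne_top C0_ne_top

theorem bav_norm (hC : StmCOV) {B : E 3 → Fin 3 → E 3}
    (hB : ∀ c, MemLp (fun x => B x c) 3 (volume.restrict (half 2))) :
    eLpNorm (bav B) 3 mu ≤ C1 * eLpNorm (fun x => hs (B x)) 3 (volume.restrict (half 2)) := by
  have h1 := jensen (aesm_bme hC fun c => (hB c).aestronglyMeasurable)
  have h2 : eLpNorm (fun q : (ℝ × ℝ) × ℝ => bme (Real.cos q.2) (Real.sin q.2) (B (P3 q))) 3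
      (mu.prod nu) ≤ eLpNorm (fun x => hs (B x)) 3 (volume.restrict (half 2)) := by
    rw [← eLpNorm_comp_measurePreserving (memLp_hs hB).aestronglyMeasurable hC.1]
    refine eLpNorm_mono fun q => ?_
    rw [Function.comp_apply, Real.norm_of_nonneg (hs_nonneg' _)]
    exact bme_le (Real.cos_sq_add_sin_sq _) _
  have h3 : eLpNorm (bav B) 3 mu ≤ ENNReal.ofReal (1 / (2 * Real.pi)) *
      eLpNorm (fun p => ∫ t in An, bme (Real.cos t) (Real.sin t) (B (P3 (p, t)))) 3 mu := by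
    refine eLpNorm_le_mul_eLpNorm_of_ae_le_mul (Eventually.of_forall fun p => ?_) 3
    unfold bav
    have := Real.pi_pos
    rw [norm_smul, Real.norm_of_nonneg (by positivity)]
  refine h3.trans ?_
  unfold C1
  rw [mul_assoc]
  gcongr
  exact h1.trans (by gcongr)

theorem memLp_bav (hC : StmCOV) {B : E 3 → Fin 3 → E 3}
    (hB : ∀ c, MemLp (fun x => B x c) 3 (volume.restrict (half 2))) : MemLp (bav B) 3 mu := by
  refine ⟨aesm_bav hC hB, lt_of_le_of_lt (bav_norm hC hB) ?_⟩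
  exact ENNReal.mul_lt_top C1_ne_top.lt_top (memLp_hs hB).eLpNorm_lt_top

/-- scalar averages: `L³` bound -/
theorem scal_norm (hC : StmCOV) {u v : E 3 → ℝ} {a b : ℝ → ℝ} (ha : Continuous a)
    (hb : Continuous b) (ha1 : ∀ t, |a t| ≤ 1) (hb1 : ∀ t, |b t| ≤ 1)
    (hu : MemLp u 3 (volume.restrict (half 2))) (hv : MemLp v 3 (volume.restrict (half 2))) :
    eLpNorm (fun p => ∫ t, (a t * u (P3 (p, t)) + b t * v (P3 (p, t))) ∂nu) 3 mu ≤
      C0 * (eLpNorm u 3 (volume.restrict (half 2)) + eLpNorm v 3 (volume.restrict (half 2))) := by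
  have mu' : ∀ {w : E 3 → ℝ}, MemLp w 3 (volume.restrict (half 2)) →
      AEStronglyMeasurable (fun q => w (P3 q)) (mu.prod nu) := fun hw =>
    hw.aestronglyMeasurable.comp_quasiMeasurePreserving hC.1.quasiMeasurePreserving
  have m1 : AEStronglyMeasurable (fun q : (ℝ × ℝ) × ℝ => a q.2 * u (P3 q)) (mu.prod nu) :=
    (ha.comp continuous_snd).aestronglyMeasurable.mul (mu' hu)
  have m2 : AEStronglyMeasurable (fun q : (ℝ × ℝ) × ℝ => b q.2 * v (P3 q)) (mu.prod nu) :=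
    (hb.comp continuous_snd).aestronglyMeasurable.mul (mu' hv)
  have h1 := jensen (m1.add m2)
  refine h1.trans ?_
  gcongr
  refine (eLpNorm_add_le m1 m2 (by norm_num)).trans ?_
  have h2 : ∀ {w : E 3 → ℝ} {c : ℝ → ℝ}, (∀ t, |c t| ≤ 1) →
      MemLp w 3 (volume.restrict (half 2)) →
      eLpNorm (fun q : (ℝ × ℝ) × ℝ => c q.2 * w (P3 q)) 3 (mu.prod nu) ≤
        eLpNorm w 3 (volume.restrict (half 2)) := by
    intro w c hc hw
    rw [← eLpNorm_comp_measurePreserving hw.aestronglyMeasurable hC.1]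
    refine eLpNorm_mono fun q => ?_
    rw [Function.comp_apply, norm_mul]
    calc ‖c q.2‖ * ‖w (P3 q)‖ ≤ 1 * ‖w (P3 q)‖ :=
          mul_le_mul_of_nonneg_right (hc _) (norm_nonneg _)
      _ = _ := one_mul _
  exact add_le_add (h2 ha1 hu) (h2 hb1 hv)

end AVGx

end Pool.Agent.T6.H20.BV
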