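import Pool.Agent.T6.H20.BV.Avg

/-!
# Project BV, module AVG: end
-/

set_option autoImplicit false

namespace Pool.Agent.T6.H20.BV

open MeasureTheory Set Filter Topology Pool.Agent.T6.H20.BU

namespace AVGx

theorem toReal_eq {E' : Type*} [NormedAddCommGroup E'] {μ : Measure (ℝ × ℝ)} {u : ℝ × ℝ → E'}
    (hu : MemLp u 3 μ) : (∫ p, ‖u p‖ ^ 3 ∂μ) ^ ((1 : ℝ) / 3) = (eLpNorm u 3 μ).toReal := by
  rw [energy_eq hu, ← Real.rpow_natCast, ← Real.rpow_mul ENNReal.toReal_nonneg]
  norm_num

theorem gr_sub {u v : ℝ × ℝ → ℝ} (hu : ContDiff ℝ 1 u) (hv : ContDiff ℝ 1 v) (p : ℝ × ℝ) :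
    gr (fun p => u p - v p) p = gr u p - gr v p := by
  have h : fderiv ℝ (fun p => u p - v p) p = fderiv ℝ u p - fderiv ℝ v p :=
    fderiv_fun_sub (hu.differentiable (by norm_num) p) (hv.differentiable (by norm_num) p)
  unfold gr
  rw [h]
  rfl

instance finBox (k : ℕ) : IsFiniteMeasure (volume.restrict (Box k)) := by
  refine ⟨?_⟩
  rw [Measure.restrict_apply_univ]
  exact (isCompact_Box k).measure_lt_top

/-- uniform convergence on the boxes -/
theorem unif (hM : StmMOR) {w : ℕ → ℝ × ℝ → ℝ} (hw : ∀ j, ContDiff ℝ 1 (w j))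
    {W : ℝ × ℝ → ℝ} (hWm : AEStronglyMeasurable W mu)
    (h1 : Tendsto (fun j => eLpNorm (fun p => w j p - W p) 3 mu) atTop (𝓝 0))
    {P : ℝ × ℝ → ℝ × ℝ} (hP : ∀ k, MemLp P 3 (volume.restrict (Box k)))
    (h2 : ∀ k, Tendsto (fun j => eLpNorm (fun p => gr (w j) p - P p) 3 (volume.restrict (Box k)))
      atTop (𝓝 0)) :
    ∃ v : ℝ × ℝ → ℝ, ∀ k, TendstoUniformlyOn w v atTop (Box k) := by
  have hcauchy : ∀ k, UniformCauchySeqOn w atTop (Box k) := by
    intro k
    obtain ⟨C, hC0, hC⟩ := hM k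
    set V : ℝ := (volume.restrict (Box k) Set.univ ^ (1 / (1 : ENNReal).toReal -
      1 / (3 : ENNReal).toReal)).toReal with hV
    have hV0 : 0 ≤ V := ENNReal.toReal_nonneg
    have hVfin : (volume.restrict (Box k) Set.univ ^ (1 / (1 : ENNReal).toReal -
        1 / (3 : ENNReal).toReal)) ≠ ⊤ :=
      ENNReal.rpow_ne_top_of_nonneg (by norm_num) (measure_ne_top _ _)
    rw [Metric.uniformCauchySeqOn_iff]
    intro ε hε
    set η : ℝ := ε / (2 * C * V + 2 * C + 1) with hη
    have hη0 : 0 < η := by positivity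
    have hηε : C * (2 * η * V) + C * (2 * η) < ε := by
      have h3 : η * (2 * C * V + 2 * C + 1) = ε := by
        rw [hη]
        field_simp
      nlinarith
    have h1' : Tendsto (fun j => ((k : ENNReal) + 2) ^ ((1 : ℝ) / 3) *
        eLpNorm (fun p => w j p - W p) 3 mu) atTop (𝓝 0) := by
      have h4 := ENNReal.Tendsto.const_mul (a := ((k : ENNReal) + 2) ^ ((1 : ℝ) / 3)) h1
        (Or.inr (ENNReal.rpow_ne_top_of_nonneg (by norm_num)
          (ENNReal.add_ne_top.2 ⟨ENNReal.natCast_ne_top k, by norm_num⟩)))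
      rwa [mul_zero] at h4
    have ev1 : ∀ᶠ j in atTop, eLpNorm (fun p => w j p - W p) 3 (volume.restrict (Box k)) ≤
        ENNReal.ofReal η := by
      have h5 := (tendsto_order.1 h1').2 _ (ENNReal.ofReal_pos.2 hη0)
      filter_upwards [h5] with j hj
      exact (eLpNorm_Box_le k _).trans hj.le
    have ev2 : ∀ᶠ j in atTop, eLpNorm (fun p => gr (w j) p - P p) 3 (volume.restrict (Box k)) ≤
        ENNReal.ofReal η := by
      have h5 := (tendsto_order.1 (h2 k)).2 _ (ENNReal.ofReal_pos.2 hη0)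
      filter_upwards [h5] with j hj
      exact hj.le
    obtain ⟨N, hN⟩ := eventually_atTop.1 (ev1.and ev2)
    refine ⟨N, fun j hj l hl p hp => ?_⟩
    have hWk : AEStronglyMeasurable W (volume.restrict (Box k)) :=
      hWm.mono_ac (Measure.absolutelyContinuous_of_le_smul (restrict_Box_le k))
    have mw : ∀ j, AEStronglyMeasurable (w j) (volume.restrict (Box k)) := fun j =>
      (hw j).continuous.aestronglyMeasurable
    have hcd : ContDiff ℝ 1 (fun p => w j p - w l p) := (hw j).sub (hw l)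
    have hgr : ∀ p, gr (fun p => w j p - w l p) p = gr (w j) p - gr (w l) p :=
      gr_sub (hw j) (hw l)
    have hml : ∀ j, MemLp (gr (w j)) 3 (volume.restrict (Box k)) := fun j =>
      memLp_of_continuous (continuous_gr (hw j)).continuousOn k
    have hmw : ∀ j, MemLp (w j) 3 (volume.restrict (Box k)) := fun j =>
      memLp_of_continuous (hw j).continuous.continuousOn k
    have hadd : ENNReal.ofReal η + ENNReal.ofReal η = ENNReal.ofReal (2 * η) := by
      rw [← ENNReal.ofReal_add hη0.le hη0.le]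
      congr 1
      ring
    -- the gradient
    have b1 : eLpNorm (gr (fun p => w j p - w l p)) 3 (volume.restrict (Box k)) ≤
        ENNReal.ofReal (2 * η) := by
      have e1 : gr (fun p => w j p - w l p) =
          (fun p => gr (w j) p - P p) - fun p => gr (w l) p - P p := by
        funext q
        rw [hgr]
        simp
      rw [e1, ← hadd]
      refine (eLpNorm_sub_le ((hml j).sub (hP k)).aestronglyMeasurable
        ((hml l).sub (hP k)).aestronglyMeasurable (by norm_num)).trans ?_
      exact add_le_add (hN j hj).2 (hN l hl).2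
    have b2 : eLpNorm (fun p => w j p - w l p) 3 (volume.restrict (Box k)) ≤
        ENNReal.ofReal (2 * η) := by
      have e1 : (fun p => w j p - w l p) = (fun p => w j p - W p) - fun p => w l p - W p := by
        funext q
        simp
      rw [e1, ← hadd]
      refine (eLpNorm_sub_le ((mw j).sub hWk) ((mw l).sub hWk) (by norm_num)).trans ?_
      exact add_le_add (hN j hj).1 (hN l hl).1
    have c1 : (∫ x in Box k, ‖gr (fun p => w j p - w l p) x‖ ^ 3) ^ ((1 : ℝ) / 3) ≤ 2 * η := by
      have hmm : MemLp (gr (fun p => w j p - w l p)) 3 (volume.restrict (Box k)) :=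
        memLp_of_continuous (continuous_gr hcd).continuousOn k
      rw [toReal_eq hmm]
      exact ENNReal.toReal_le_of_le_ofReal (by positivity) b1
    have c2 : ∫ x in Box k, |w j x - w l x| ≤ 2 * η * V := by
      have hmm : MemLp (fun p => w j p - w l p) 3 (volume.restrict (Box k)) :=
        (hmw j).sub (hmw l)
      have c3 := integral_norm_eq_lintegral_enorm (μ := volume.restrict (Box k))
        (f := fun p => w j p - w l p) hmm.aestronglyMeasurable
      have c4 : ∫ x in Box k, |w j x - w l x| = (∫⁻ x in Box k, ‖w j x - w l x‖ₑ).toReal := c3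
      rw [c4, ← eLpNorm_one_eq_lintegral_enorm]
      have c5 := eLpNorm_le_eLpNorm_mul_rpow_measure_univ (p := 1) (q := 3) (by norm_num)
        hmm.aestronglyMeasurable
      have c6 : eLpNorm (fun p => w j p - w l p) 1 (volume.restrict (Box k)) ≤
          ENNReal.ofReal (2 * η) * (volume.restrict (Box k) Set.univ ^
            (1 / (1 : ENNReal).toReal - 1 / (3 : ENNReal).toReal)) := c5.trans (by gcongr)
      calc _ ≤ (ENNReal.ofReal (2 * η) * (volume.restrict (Box k) Set.univ ^
            (1 / (1 : ENNReal).toReal - 1 / (3 : ENNReal).toReal))).toReal :=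
            ENNReal.toReal_mono (ENNReal.mul_ne_top ENNReal.ofReal_ne_top hVfin) c6
        _ = _ := by
            rw [ENNReal.toReal_mul, ENNReal.toReal_ofReal (by positivity)]
    have h6 := (hC _ hcd).2 p hp
    rw [Real.dist_eq]
    calc |w j p - w l p| ≤ C * (∫ x in Box k, |w j x - w l x|) +
          C * (∫ x in Box k, ‖gr (fun p => w j p - w l p) x‖ ^ 3) ^ ((1 : ℝ) / 3) := h6
      _ ≤ C * (2 * η * V) + C * (2 * η) := by gcongr
      _ < ε := hηε
  classical
  set v : ℝ × ℝ → ℝ := fun p => if h : ∃ l, Tendsto (fun j => w j p) atTop (𝓝 l) then h.choose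
    else 0 with hv
  refine ⟨v, fun k => (hcauchy k).tendstoUniformlyOn_of_tendsto fun p hp => ?_⟩
  have h3 : ∃ l, Tendsto (fun j => w j p) atTop (𝓝 l) := by
    refine cauchySeq_tendsto_of_complete ?_
    rw [Metric.cauchySeq_iff]
    intro ε hε
    obtain ⟨N, hN⟩ := Metric.uniformCauchySeqOn_iff.1 (hcauchy k) ε hε
    exact ⟨N, fun m hm n hn => hN m hm n hn p hp⟩
  have h4 : v p = h3.choose := dif_pos h3
  rw [h4]
  exact h3.choose_spec

/-- convergence of the boundary values on almost all circles -/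
theorem bd_lim (hC : StmCOV) {u : Fin 3 → ℕ → E 3 → ℝ} (hu : ∀ c j, Continuous (u c j))
    {σ : E 2 → Fin 3 → ℝ} (hσ : ∀ c, LocallyIntegrable fun y => σ y c)
    (h3 : ∀ (c : Fin 3) (R : ℝ), Tendsto (fun j => ∫ y in Metric.ball (0 : E 2) R,
      |u c j (bd y) - σ y c|) atTop (𝓝 0)) :
    ∀ᵐ r ∂(volume.restrict (Ioi (0 : ℝ))), ∃ ns : ℕ → ℕ, Tendsto ns atTop atTop ∧
      (∀ c, Integrable (fun t => σ (P2 (r, t)) c) nu) ∧
      ∀ c, Tendsto (fun i => ∫ t, |u c (ns i) (bd (P2 (r, t))) - σ (P2 (r, t)) c| ∂nu)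
        atTop (𝓝 0) := by
  set ν : Measure ℝ := ((volume : Measure ℝ).restrict (Ioi 0)).withDensity ENNReal.ofReal with hν
  have hν1 : ∀ {Q : ℝ → Prop}, (∀ᵐ r ∂ν, Q r) → ∀ᵐ r ∂(volume.restrict (Ioi (0 : ℝ))), Q r := by
    intro Q h
    rw [hν, ae_withDensity_iff (by fun_prop)] at h
    filter_upwards [h, ae_restrict_mem measurableSet_Ioi] with r h1 h2
    exact h1 (by
      have : (0 : ℝ) < r := h2
      simpa using this)
  have hbdc : Continuous (fun y : E 2 => (bd y : E 3)) := by
    unfold bd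
    refine (PiLp.continuous_toLp 2 (fun _ : Fin 3 => ℝ)).comp (continuous_pi fun i => ?_)
    fin_cases i
    · exact (EuclideanSpace.proj (𝕜 := ℝ) (0 : Fin 2)).continuous
    · exact (EuclideanSpace.proj (𝕜 := ℝ) (1 : Fin 2)).continuous
    · exact continuous_const
  have hball : ∀ {r t : ℝ} {n : ℕ}, 0 < r → r < n → P2 (r, t) ∈ Metric.ball (0 : E 2) n := by
    intro r t n hr hn
    rw [mem_ball_zero_iff, EuclideanSpace.norm_eq, Fin.sum_univ_two]
    show Real.sqrt (‖r * Real.cos t‖ ^ 2 + ‖r * Real.sin t‖ ^ 2) < n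
    have h6 : ‖r * Real.cos t‖ ^ 2 + ‖r * Real.sin t‖ ^ 2 = r ^ 2 := by
      rw [Real.norm_eq_abs, Real.norm_eq_abs, sq_abs, sq_abs]
      have := Real.cos_sq_add_sin_sq t
      linear_combination r ^ 2 * this
    rw [h6, Real.sqrt_sq hr.le]
    exact hn
  have hIoi : ∀ᵐ r ∂ν, r ∈ Ioi (0 : ℝ) := by
    refine (withDensity_absolutelyContinuous _ _).ae_le ?_
    exact ae_restrict_mem measurableSet_Ioi
  -- integrability on almost all circles
  have hint : ∀ c, ∀ᵐ r ∂ν, Integrable (fun t => σ (P2 (r, t)) c) nu := by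
    intro c
    have h1 : ∀ n : ℕ, ∀ᵐ r ∂ν, Integrable
        (fun t => (Metric.ball (0 : E 2) n).indicator (fun y => σ y c) (P2 (r, t))) nu := by
      intro n
      have h2 : Integrable ((Metric.ball (0 : E 2) n).indicator (fun y => σ y c)) volume := by
        rw [integrable_indicator_iff measurableSet_ball]
        exact ((hσ c).integrableOn_isCompact (isCompact_closedBall (0 : E 2) n)).mono_set
          Metric.ball_subset_closedBall
      have h3 : Integrable (((Metric.ball (0 : E 2) n).indicator (fun y => σ y c)) ∘ P2)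
          (ν.prod nu) := (hC.2.integrable_comp h2.aestronglyMeasurable).2 h2
      exact h3.prod_right_ae
    filter_upwards [ae_all_iff.2 h1, hIoi] with r hr hr0
    obtain ⟨n, hn⟩ := exists_nat_gt r
    refine (hr n).congr (Eventually.of_forall fun t => ?_)
    exact indicator_of_mem (hball hr0 hn) _
  -- the sum of the differences
  set S : ℕ → ℕ → E 2 → ℝ := fun n j => (Metric.ball (0 : E 2) n).indicator
    (fun y => ∑ c, |u c j (bd y) - σ y c|) with hS
  have hSint : ∀ n j, Integrable (S n j) volume := by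
    intro n j
    rw [hS, integrable_indicator_iff measurableSet_ball]
    refine integrable_finsetSum _ fun c _ => ?_
    have i1 : IntegrableOn (fun y => u c j (bd y)) (Metric.ball (0 : E 2) n) :=
      (((hu c j).comp hbdc).continuousOn.integrableOn_compact
        (isCompact_closedBall (0 : E 2) n)).mono_set Metric.ball_subset_closedBall
    have i2 : IntegrableOn (fun y => σ y c) (Metric.ball (0 : E 2) n) :=
      ((hσ c).integrableOn_isCompact (isCompact_closedBall (0 : E 2) n)).mono_set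
          Metric.ball_subset_closedBall
    exact (i1.sub i2).abs
  have hS0 : ∀ n j y, 0 ≤ S n j y := fun n j y =>
    indicator_nonneg (fun y _ => Finset.sum_nonneg fun c _ => abs_nonneg _) y
  have hSlim : ∀ n, Tendsto (fun j => ∫ y, S n j y) atTop (𝓝 0) := by
    intro n
    have h4 : ∀ j, ∫ y, S n j y = ∑ c, ∫ y in Metric.ball (0 : E 2) n,
        |u c j (bd y) - σ y c| := by
      intro j
      rw [hS, integral_indicator measurableSet_ball]
      refine integral_finsetSum _ fun c _ => ?_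
      have i1 : IntegrableOn (fun y => u c j (bd y)) (Metric.ball (0 : E 2) n) :=
        (((hu c j).comp hbdc).continuousOn.integrableOn_compact
          (isCompact_closedBall (0 : E 2) n)).mono_set Metric.ball_subset_closedBall
      have i2 : IntegrableOn (fun y => σ y c) (Metric.ball (0 : E 2) n) :=
        ((hσ c).integrableOn_isCompact (isCompact_closedBall (0 : E 2) n)).mono_set
            Metric.ball_subset_closedBall
      exact (i1.sub i2).abs
    simp only [h4]
    have h5 := tendsto_finsetSum Finset.univ fun c _ => h3 c n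
    simpa using h5
  -- the integrals over the circles
  have hSP : ∀ n j, Integrable (fun q => S n j (P2 q)) (ν.prod nu) := fun n j =>
    (hC.2.integrable_comp (hSint n j).aestronglyMeasurable).2 (hSint n j)
  have hsub : ∀ n, ∃ ns : ℕ → ℕ, StrictMono ns ∧ ∀ᵐ r ∂ν,
      Tendsto (fun i => ∫ t, S n (ns i) (P2 (r, t)) ∂nu) atTop (𝓝 0) := by
    intro n
    have hD : ∀ j, Integrable (fun r => ∫ t, S n j (P2 (r, t)) ∂nu) ν := fun j =>
      (hSP n j).integral_prod_left
    have h6 : Tendsto (fun j => eLpNorm ((fun r => ∫ t, S n j (P2 (r, t)) ∂nu) - 0) 1 ν)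
        atTop (𝓝 0) := by
      have h7 : ∀ j, eLpNorm ((fun r => ∫ t, S n j (P2 (r, t)) ∂nu) - 0) 1 ν =
          ENNReal.ofReal (∫ y, S n j y) := by
        intro j
        rw [sub_zero, eLpNorm_one_eq_lintegral_enorm]
        have h8 : ∫ y, S n j y = ∫ r, ∫ t, S n j (P2 (r, t)) ∂nu ∂ν := by
          have h9 : AEStronglyMeasurable (S n j) (Measure.map P2 (ν.prod nu)) := by
            rw [hC.2.map_eq]
            exact (hSint n j).aestronglyMeasurable
          rw [← integral_prod _ (hSP n j), ← integral_map hC.2.aemeasurable h9, hC.2.map_eq]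
        rw [h8, ofReal_integral_eq_lintegral_ofReal (hD j)
          (Eventually.of_forall fun r => integral_nonneg fun t => hS0 n j _)]
        refine lintegral_congr fun r => ?_
        rw [Real.enorm_eq_ofReal (integral_nonneg fun t => hS0 n j _)]
      simp only [h7]
      have h7' := (ENNReal.continuous_ofReal.tendsto 0).comp (hSlim n)
      rw [ENNReal.ofReal_zero] at h7'
      exact h7'
    have h10 := tendstoInMeasure_of_tendsto_eLpNorm (p := 1) one_ne_zero
      (fun j => (hD j).aestronglyMeasurable) aestronglyMeasurable_zero h6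
    obtain ⟨ns, hns, hae⟩ := h10.exists_seq_tendsto_ae
    exact ⟨ns, hns, hae⟩
  choose ns hns hnsae using hsub
  refine hν1 ?_
  filter_upwards [hint 0, hint 1, hint 2, ae_all_iff.2 hnsae,
    ae_all_iff.2 fun n => ae_all_iff.2 fun j => (hSP n j).prod_right_ae, hIoi]
    with r i0 i1 i2 h11 h12 hr
  obtain ⟨n, hn⟩ := exists_nat_gt r
  refine ⟨ns n, (hns n).tendsto_atTop, ?_, ?_⟩
  · intro c
    fin_cases c
    · exact i0
    · exact i1
    · exact i2
  · intro c
    refine squeeze_zero (fun i => integral_nonneg fun t => abs_nonneg _) (fun i => ?_) (h11 n)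
    refine integral_mono_of_nonneg (Eventually.of_forall fun t => abs_nonneg _)
      (h12 n (ns n i)) (Eventually.of_forall fun t => ?_)
    show |u c (ns n i) (bd (P2 (r, t))) - σ (P2 (r, t)) c| ≤ S n (ns n i) (P2 (r, t))
    have h13 : S n (ns n i) (P2 (r, t)) =
        ∑ c, |u c (ns n i) (bd (P2 (r, t))) - σ (P2 (r, t)) c| :=
      indicator_of_mem (hball hr hn) _
    rw [h13]
    exact Finset.single_le_sum (f := fun c => |u c (ns n i) (bd (P2 (r, t))) - σ (P2 (r, t)) c|)
      (fun c _ => abs_nonneg _) (Finset.mem_univ c)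

/-- convergence of weighted integrals over a circle -/
theorem circ_lim {u : Fin 3 → ℕ → E 3 → ℝ} (hu : ∀ c j, Continuous (u c j))
    {σ : E 2 → Fin 3 → ℝ} {r : ℝ} {ns : ℕ → ℕ} (hi : ∀ c, Integrable (fun t => σ (P2 (r, t)) c) nu)
    (hl : ∀ c, Tendsto (fun i => ∫ t, |u c (ns i) (bd (P2 (r, t))) - σ (P2 (r, t)) c| ∂nu)
        atTop (𝓝 0)) {a b : ℝ → ℝ} (ha : Continuous a)
    (hb : Continuous b) (ha1 : ∀ t, |a t| ≤ 1) (hb1 : ∀ t, |b t| ≤ 1) (c c' : Fin 3) :
    Tendsto (fun i => ∫ t, (a t * u c (ns i) (bd (P2 (r, t))) +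
      b t * u c' (ns i) (bd (P2 (r, t)))) ∂nu) atTop
      (𝓝 (∫ t, (a t * σ (P2 (r, t)) c + b t * σ (P2 (r, t)) c') ∂nu)) := by
  have hcirc : Continuous (fun t : ℝ => (bd (P2 (r, t)) : E 3)) := by
    unfold bd P2
    refine (PiLp.continuous_toLp 2 (fun _ : Fin 3 => ℝ)).comp (continuous_pi fun i => ?_)
    fin_cases i
    · show Continuous fun t : ℝ => r * Real.cos t
      fun_prop
    · show Continuous fun t : ℝ => r * Real.sin t
      fun_prop
    · exact continuous_const
  have hui : ∀ c j, Integrable (fun t => u c j (bd (P2 (r, t)))) nu := by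
    intro c j
    have h1 : IntegrableOn (fun t => u c j (bd (P2 (r, t)))) (Icc (-Real.pi) Real.pi) :=
      ((hu c j).comp hcirc).continuousOn.integrableOn_compact isCompact_Icc
    exact h1.mono_set Ioo_subset_Icc_self
  have hw : ∀ {k : ℝ → ℝ} {v : ℝ → ℝ}, Continuous k → (∀ t, |k t| ≤ 1) → Integrable v nu →
      Integrable (fun t => k t * v t) nu := fun hk hb hv =>
    hv.bdd_mul (c := 1) hk.aestronglyMeasurable (Eventually.of_forall hb)
  rw [tendsto_iff_dist_tendsto_zero]
  have h0 := (hl c).add (hl c')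
  rw [add_zero] at h0
  refine squeeze_zero (fun i => dist_nonneg) (fun i => ?_) h0
  have j1 : Integrable (fun t => a t * u c (ns i) (bd (P2 (r, t))) +
      b t * u c' (ns i) (bd (P2 (r, t)))) nu := (hw ha ha1 (hui c _)).add (hw hb hb1 (hui c' _))
  have j2 : Integrable (fun t => a t * σ (P2 (r, t)) c + b t * σ (P2 (r, t)) c') nu :=
    (hw ha ha1 (hi c)).add (hw hb hb1 (hi c'))
  have k1 : Integrable (fun t => |u c (ns i) (bd (P2 (r, t))) - σ (P2 (r, t)) c|) nu :=
    ((hui c _).sub (hi c)).abs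
  have k2 : Integrable (fun t => |u c' (ns i) (bd (P2 (r, t))) - σ (P2 (r, t)) c'|) nu :=
    ((hui c' _).sub (hi c')).abs
  rw [Real.dist_eq, ← integral_sub j1 j2, ← integral_add k1 k2, ← Real.norm_eq_abs]
  refine (norm_integral_le_integral_norm _).trans ?_
  refine integral_mono (j1.sub j2).norm (k1.add k2) fun t => ?_
  show |a t * u c (ns i) (bd (P2 (r, t))) + b t * u c' (ns i) (bd (P2 (r, t))) -
    (a t * σ (P2 (r, t)) c + b t * σ (P2 (r, t)) c')| ≤
    |u c (ns i) (bd (P2 (r, t))) - σ (P2 (r, t)) c| +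
      |u c' (ns i) (bd (P2 (r, t))) - σ (P2 (r, t)) c'|
  have e1 : a t * u c (ns i) (bd (P2 (r, t))) + b t * u c' (ns i) (bd (P2 (r, t))) -
    (a t * σ (P2 (r, t)) c + b t * σ (P2 (r, t)) c') =
    a t * (u c (ns i) (bd (P2 (r, t))) - σ (P2 (r, t)) c) +
      b t * (u c' (ns i) (bd (P2 (r, t))) - σ (P2 (r, t)) c') := by ring
  rw [e1]
  refine (abs_add_le _ _).trans (add_le_add ?_ ?_)
  · rw [abs_mul]
    calc _ ≤ 1 * |u c (ns i) (bd (P2 (r, t))) - σ (P2 (r, t)) c| :=
          mul_le_mul_of_nonneg_right (ha1 t) (abs_nonneg _)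
      _ = _ := one_mul _
  · rw [abs_mul]
    calc _ ≤ 1 * |u c' (ns i) (bd (P2 (r, t))) - σ (P2 (r, t)) c'| :=
          mul_le_mul_of_nonneg_right (hb1 t) (abs_nonneg _)
      _ = _ := one_mul _

end AVGx

end Pool.Agent.T6.H20.BV
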