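import Pool.Agent.T6.H20.BV.Avg2

/-!
# Project BV, module AVG: the theorem
-/

set_option autoImplicit false

namespace Pool.Agent.T6.H20.BV

open MeasureTheory Set Filter Topology Pool.Agent.T6.H20.BU

namespace AVGx

theorem continuous_gradient {u : E 3 → ℝ} (hu : ContDiff ℝ 1 u) : Continuous (gradient u) := by
  unfold gradient
  exact (InnerProductSpace.toDual ℝ (E 3)).symm.continuous.comp
    (hu.continuous_fderiv (by norm_num))

theorem hs_norm_le {μ : Measure (E 3)} {A : E 3 → Fin 3 → E 3}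
    (h : ∀ c, AEStronglyMeasurable (fun x => A x c) μ) :
    eLpNorm (fun x => hs (A x)) 3 μ ≤ ∑ c, eLpNorm (fun x => A x c) 3 μ := by
  have h1 : eLpNorm (fun x => hs (A x)) 3 μ ≤
      eLpNorm (((fun x => ‖A x 0‖) + fun x => ‖A x 1‖) + fun x => ‖A x 2‖) 3 μ := by
    refine eLpNorm_mono_real fun x => ?_
    rw [Real.norm_of_nonneg (hs_nonneg' _)]
    exact hs_le_sum _
  refine h1.trans ?_
  refine (eLpNorm_add_le ((h 0).norm.add (h 1).norm) (h 2).norm (by norm_num)).trans ?_
  rw [Fin.sum_univ_three]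
  refine add_le_add ((eLpNorm_add_le (h 0).norm (h 1).norm (by norm_num)).trans ?_) ?_
  · rw [eLpNorm_norm, eLpNorm_norm]
  · rw [eLpNorm_norm]

theorem memLp_of_sub {E' : Type*} [NormedAddCommGroup E'] {μ : Measure (E 3)} {u v : E 3 → E'}
    (hu : AEStronglyMeasurable u μ) (hv : MemLp v 3 μ)
    (h : eLpNorm (fun x => u x - v x) 3 μ < ⊤) : MemLp u 3 μ := by
  have h1 : MemLp (fun x => u x - v x) 3 μ := ⟨hu.sub hv.aestronglyMeasurable, h⟩
  have h2 := h1.add hv
  refine (memLp_congr_ae (Eventually.of_forall fun x => ?_)).1 h2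
  show u x - v x + v x = u x
  abel

end AVGx

open AVGx

theorem avg (hM : StmMOR) (hC : StmCOV) (hS : StmSHM) (hA : StmAVS) (hL : StmLim) :
    StmAVG := by
  intro Φ B σ hW hΦ hB
  choose ψ hψ hψ1 hψ2 hψ3 using fun c => hS (fun x => Φ x c) (fun x => B x c) (fun y => σ y c)
    (hW c) (hΦ c) (hB c)
  -- shift the index so that all norms are finite
  have hev : ∃ J : ℕ, ∀ j, J ≤ j → ∀ c,
      eLpNorm (fun x => ψ c j x - Φ x c) 3 (volume.restrict (half 2)) < ⊤ ∧
      eLpNorm (fun x => gradient (ψ c j) x - B x c) 3 (volume.restrict (half 2)) < ⊤ := by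
    have h1 : ∀ c, ∀ᶠ j in atTop,
        eLpNorm (fun x => ψ c j x - Φ x c) 3 (volume.restrict (half 2)) < ⊤ ∧
        eLpNorm (fun x => gradient (ψ c j) x - B x c) 3 (volume.restrict (half 2)) < ⊤ :=
      fun c => ((tendsto_order.1 (hψ1 c)).2 _ ENNReal.zero_lt_top).and
        ((tendsto_order.1 (hψ2 c)).2 _ ENNReal.zero_lt_top)
    obtain ⟨J, hJ⟩ := eventually_atTop.1 (eventually_all.2 h1)
    exact ⟨J, hJ⟩
  obtain ⟨J, hJ⟩ := hev
  set u : Fin 3 → ℕ → E 3 → ℝ := fun c j => ψ c (j + J) with hu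
  have hshift : Tendsto (fun j : ℕ => j + J) atTop atTop := tendsto_add_atTop_nat J
  have huc : ∀ c j, ContDiff ℝ 1 (u c j) := fun c j => hψ c (j + J)
  have hu1 : ∀ c, Tendsto (fun j => eLpNorm (fun x => u c j x - Φ x c) 3
      (volume.restrict (half 2))) atTop (𝓝 0) := fun c => (hψ1 c).comp hshift
  have hu2 : ∀ c, Tendsto (fun j => eLpNorm (fun x => gradient (u c j) x - B x c) 3
      (volume.restrict (half 2))) atTop (𝓝 0) := fun c => (hψ2 c).comp hshift
  have hu3 : ∀ (c : Fin 3) (R : ℝ), Tendsto (fun j => ∫ y in Metric.ball (0 : E 2) R,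
      |u c j (bd y) - σ y c|) atTop (𝓝 0) := fun c R => (hψ3 c R).comp hshift
  have mu1 : ∀ c j, MemLp (u c j) 3 (volume.restrict (half 2)) := fun c j =>
    memLp_of_sub (huc c j).continuous.aestronglyMeasurable (hΦ c)
      (hJ (j + J) (Nat.le_add_left J j) c).1
  have mu2 : ∀ c j, MemLp (fun x => gradient (u c j) x) 3 (volume.restrict (half 2)) :=
    fun c j => memLp_of_sub (continuous_gradient (huc c j)).aestronglyMeasurable (hB c)
      (hJ (j + J) (Nat.le_add_left J j) c).2
  -- the averages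
  choose φ γ hφ hγ hφe hγe hav using fun j => hA (fun c => u c j) (fun c => huc c j)
  set Bj : ℕ → E 3 → Fin 3 → E 3 := fun j x c => gradient (u c j) x with hBj
  have hdiff : Tendsto (fun j => eLpNorm (fun p => bav (Bj j) p - bav B p) 3 mu) atTop
      (𝓝 0) := by
    have h1 : ∀ j, eLpNorm (fun p => bav (Bj j) p - bav B p) 3 mu ≤
        C1 * ∑ c, eLpNorm (fun x => gradient (u c j) x - B x c) 3 (volume.restrict (half 2)) := by
      intro j
      have h2 := bav_sub hC (U := Bj j) (V := B) (fun c => mu2 c j) hB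
      rw [eLpNorm_congr_ae h2]
      have h3 : ∀ c, MemLp (fun x => (fun x c => Bj j x c - B x c) x c) 3
          (volume.restrict (half 2)) := fun c => (mu2 c j).sub (hB c)
      refine (bav_norm hC h3).trans ?_
      gcongr
      exact hs_norm_le fun c => (h3 c).aestronglyMeasurable
    have h4 : Tendsto (fun j => C1 * ∑ c, eLpNorm (fun x => gradient (u c j) x - B x c) 3
        (volume.restrict (half 2))) atTop (𝓝 0) := by
      have h5 := tendsto_finsetSum Finset.univ fun c _ => hu2 c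
      simp only [Finset.sum_const_zero] at h5
      have h6 := ENNReal.Tendsto.const_mul (a := C1) h5 (Or.inr C1_ne_top)
      rwa [mul_zero] at h6
    exact tendsto_of_tendsto_of_tendsto_of_le_of_le tendsto_const_nhds h4 (fun j => zero_le) h1
  have hb : MemLp (bav B) 3 mu := memLp_bav hC hB
  set P : ℝ × ℝ → ℝ × ℝ := fun p => (bav B p 0, bav B p 1) with hP
  set R : ℝ × ℝ → ℝ × ℝ := fun p => (bav B p 2, bav B p 3) with hR
  have hbB : ∀ k, MemLp (bav B) 3 (volume.restrict (Box k)) := by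
    intro k
    refine (hb.smul_measure (c := (k : ENNReal) + 2) ?_).mono_measure (restrict_Box_le k)
    exact ENNReal.add_ne_top.2 ⟨ENNReal.natCast_ne_top k, by norm_num⟩
  have hcomp : ∀ (k : ℕ) (i j : Fin 5), MemLp (fun p => (bav B p i, bav B p j)) 3
      (volume.restrict (Box k)) := by
    intro k i j
    refine (hbB k).mono ?_ (Eventually.of_forall fun p => norm_pair_le (bav B p) i j)
    have hc : Continuous fun v : V5 => (v i, v j) := by
      fun_prop
    exact hc.comp_aestronglyMeasurable (hbB k).aestronglyMeasurable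
  have hconv : ∀ k, Tendsto (fun j => eLpNorm (fun p => bav (Bj j) p - bav B p) 3
      (volume.restrict (Box k))) atTop (𝓝 0) := by
    intro k
    have h1 : Tendsto (fun j => ((k : ENNReal) + 2) ^ ((1 : ℝ) / 3) *
        eLpNorm (fun p => bav (Bj j) p - bav B p) 3 mu) atTop (𝓝 0) := by
      have h2 := ENNReal.Tendsto.const_mul (a := ((k : ENNReal) + 2) ^ ((1 : ℝ) / 3)) hdiff
        (Or.inr (ENNReal.rpow_ne_top_of_nonneg (by norm_num)
          (ENNReal.add_ne_top.2 ⟨ENNReal.natCast_ne_top k, by norm_num⟩)))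
      rwa [mul_zero] at h2
    exact tendsto_of_tendsto_of_tendsto_of_le_of_le tendsto_const_nhds h1
      (fun j => zero_le) (fun j => eLpNorm_Box_le k _)
  have havc : ∀ (j : ℕ) (p : ℝ × ℝ), 0 < p.1 →
      gr (φ j) p = (bav (Bj j) p 0, bav (Bj j) p 1) ∧
      gr (γ j) p = (bav (Bj j) p 2, bav (Bj j) p 3) ∧
      2 * φ j p / p.1 = bav (Bj j) p 4 := by
    intro j p hp
    have h1 := hav j p hp
    have h2 := av_comp (f := φ j) (F := gr (φ j)) (G := gr (γ j)) p
    rw [h1] at h2
    exact ⟨Prod.ext h2.1.symm h2.2.1.symm, Prod.ext h2.2.2.1.symm h2.2.2.2.1.symm,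
      h2.2.2.2.2.symm⟩
  have hgrφ : ∀ k, Tendsto (fun j => eLpNorm (fun p => gr (φ j) p - P p) 3
      (volume.restrict (Box k))) atTop (𝓝 0) := by
    intro k
    refine tendsto_of_tendsto_of_tendsto_of_le_of_le tendsto_const_nhds (hconv k)
      (fun j => zero_le) (fun j => eLpNorm_mono_ae ?_)
    rw [ae_restrict_iff' (measurableSet_Box k)]
    refine Eventually.of_forall fun p hp => ?_
    rw [(havc j p (Box_sub k hp).1).1]
    exact norm_pair_le (bav (Bj j) p - bav B p) 0 1
  have hgrγ : ∀ k, Tendsto (fun j => eLpNorm (fun p => gr (γ j) p - R p) 3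
      (volume.restrict (Box k))) atTop (𝓝 0) := by
    intro k
    refine tendsto_of_tendsto_of_tendsto_of_le_of_le tendsto_const_nhds (hconv k)
      (fun j => zero_le) (fun j => eLpNorm_mono_ae ?_)
    rw [ae_restrict_iff' (measurableSet_Box k)]
    refine Eventually.of_forall fun p hp => ?_
    rw [(havc j p (Box_sub k hp).1).2.1]
    exact norm_pair_le (bav (Bj j) p - bav B p) 2 3
  -- scalar averages
  have hw1 : Continuous fun t : ℝ => Real.cos t ^ 2 - Real.sin t ^ 2 := by fun_prop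
  have hw2 : Continuous fun t : ℝ => 2 * Real.cos t * Real.sin t := by fun_prop
  have hw1' : ∀ t : ℝ, |Real.cos t ^ 2 - Real.sin t ^ 2| ≤ 1 := by
    intro t
    have := Real.cos_sq_add_sin_sq t
    rw [abs_le]
    constructor <;> nlinarith [sq_nonneg (Real.cos t), sq_nonneg (Real.sin t)]
  have hw2' : ∀ t : ℝ, |2 * Real.cos t * Real.sin t| ≤ 1 := by
    intro t
    have := Real.cos_sq_add_sin_sq t
    rw [abs_le]
    constructor <;> nlinarith [sq_nonneg (Real.cos t + Real.sin t),
      sq_nonneg (Real.cos t - Real.sin t)]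
  -- general statement on scalar averages
  have hscal : ∀ (a b : ℝ → ℝ), Continuous a → Continuous b → (∀ t, |a t| ≤ 1) →
      (∀ t, |b t| ≤ 1) → ∀ (c c' : Fin 3) (w : ℕ → ℝ × ℝ → ℝ),
      (∀ j p, w j p = 1 / (2 * Real.pi) * ∫ t in An, (a t * u c j (P3 (p, t)) +
        b t * u c' j (P3 (p, t)))) →
      ∃ W : ℝ × ℝ → ℝ, AEStronglyMeasurable W mu ∧
        Tendsto (fun j => eLpNorm (fun p => w j p - W p) 3 mu) atTop (𝓝 0) := by
    intro a b ha hb' ha1 hb1 c c' w hw
    have meas : ∀ {v : E 3 → ℝ}, MemLp v 3 (volume.restrict (half 2)) →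
        AEStronglyMeasurable (fun q => v (P3 q)) (mu.prod nu) := fun hv =>
      hv.aestronglyMeasurable.comp_quasiMeasurePreserving hC.1.quasiMeasurePreserving
    have meas2 : ∀ {v v' : E 3 → ℝ}, MemLp v 3 (volume.restrict (half 2)) →
        MemLp v' 3 (volume.restrict (half 2)) → AEStronglyMeasurable (fun q : (ℝ × ℝ) × ℝ =>
          a q.2 * v (P3 q) + b q.2 * v' (P3 q)) (mu.prod nu) := fun hv hv' =>
      ((ha.comp continuous_snd).aestronglyMeasurable.mul (meas hv)).add
        ((hb'.comp continuous_snd).aestronglyMeasurable.mul (meas hv'))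
    -- integrability for almost every `p`
    have intv : ∀ {v v' : E 3 → ℝ}, MemLp v 3 (volume.restrict (half 2)) →
        MemLp v' 3 (volume.restrict (half 2)) → ∀ᵐ p ∂mu, Integrable (fun t =>
          a t * v (P3 (p, t)) + b t * v' (P3 (p, t))) nu := by
      intro v v' hv hv'
      have c1 : ∀ {v : E 3 → ℝ}, MemLp v 3 (volume.restrict (half 2)) →
          Integrable (fun q => ‖v (P3 q)‖ ^ 3) (mu.prod nu) := by
        intro v hv
        have d1 : Integrable (fun x => ‖v x‖ ^ 3) (volume.restrict (half 2)) := by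
          have h := hv.integrable_norm_rpow (by norm_num) (by norm_num)
          refine h.congr (Eventually.of_forall fun p => ?_)
          simp only [ENNReal.toReal_ofNat]
          exact_mod_cast Real.rpow_natCast (‖v p‖) 3
        exact (hC.1.integrable_comp d1.aestronglyMeasurable).2 d1
      filter_upwards [(c1 hv).prod_right_ae, (c1 hv').prod_right_ae,
        (meas2 hv hv').prodMk_left] with p e1 e2 e3
      refine (((integrable_const (1 : ℝ)).add e1).add ((integrable_const (1 : ℝ)).add e2)).mono'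
        e3 (Eventually.of_forall fun t => ?_)
      have k : ∀ s : ℝ, |s| ≤ 1 + |s| ^ 3 := by
        intro s
        rcases le_total |s| 1 with h | h
        · have : 0 ≤ |s| ^ 3 := by positivity
          linarith
        · have : |s| ≤ |s| ^ 3 := le_self_pow₀ h (by norm_num)
          linarith
      show |a t * v (P3 (p, t)) + b t * v' (P3 (p, t))| ≤
        (1 + |v (P3 (p, t))| ^ 3) + (1 + |v' (P3 (p, t))| ^ 3)
      refine (abs_add_le _ _).trans (add_le_add ?_ ?_)
      · rw [abs_mul]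
        calc _ ≤ 1 * |v (P3 (p, t))| := mul_le_mul_of_nonneg_right (ha1 t) (abs_nonneg _)
          _ ≤ _ := by
            rw [one_mul]
            exact k _
      · rw [abs_mul]
        calc _ ≤ 1 * |v' (P3 (p, t))| := mul_le_mul_of_nonneg_right (hb1 t) (abs_nonneg _)
          _ ≤ _ := by
            rw [one_mul]
            exact k _
    refine ⟨fun p => 1 / (2 * Real.pi) * ∫ t in An, (a t * Φ (P3 (p, t)) c +
        b t * Φ (P3 (p, t)) c'), ?_, ?_⟩
    · exact ((meas2 (hΦ c) (hΦ c')).integral_prod_right').const_mul _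
    · have h1 : ∀ j, eLpNorm (fun p => w j p - 1 / (2 * Real.pi) * ∫ t in An,
          (a t * Φ (P3 (p, t)) c + b t * Φ (P3 (p, t)) c')) 3 mu ≤
          ENNReal.ofReal (1 / (2 * Real.pi)) * (C0 *
            (eLpNorm (fun x => u c j x - Φ x c) 3 (volume.restrict (half 2)) +
              eLpNorm (fun x => u c' j x - Φ x c') 3 (volume.restrict (half 2)))) := by
        intro j
        have h2 : ∀ᵐ p ∂mu, ‖w j p - 1 / (2 * Real.pi) * ∫ t in An,
            (a t * Φ (P3 (p, t)) c + b t * Φ (P3 (p, t)) c')‖ ≤ 1 / (2 * Real.pi) *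
            ‖∫ t, (a t * (u c j (P3 (p, t)) - Φ (P3 (p, t)) c) +
              b t * (u c' j (P3 (p, t)) - Φ (P3 (p, t)) c')) ∂nu‖ := by
          filter_upwards [intv (mu1 c j) (mu1 c' j), intv (hΦ c) (hΦ c')] with p e1 e2
          rw [hw, ← mul_sub, ← integral_sub e1 e2, norm_mul, Real.norm_of_nonneg
            (by have := Real.pi_pos; positivity)]
          refine le_of_eq ?_
          congr 2
          refine integral_congr_ae (Eventually.of_forall fun t => ?_)
          show a t * u c j (P3 (p, t)) + b t * u c' j (P3 (p, t)) -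
            (a t * Φ (P3 (p, t)) c + b t * Φ (P3 (p, t)) c') =
            a t * (u c j (P3 (p, t)) - Φ (P3 (p, t)) c) +
              b t * (u c' j (P3 (p, t)) - Φ (P3 (p, t)) c')
          ring
        refine (eLpNorm_le_mul_eLpNorm_of_ae_le_mul h2 3).trans ?_
        gcongr
        exact scal_norm hC (u := fun x => u c j x - Φ x c) (v := fun x => u c' j x - Φ x c')
          ha hb' ha1 hb1 ((mu1 c j).sub (hΦ c)) ((mu1 c' j).sub (hΦ c'))
      have h3 : Tendsto (fun j => ENNReal.ofReal (1 / (2 * Real.pi)) * (C0 *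
          (eLpNorm (fun x => u c j x - Φ x c) 3 (volume.restrict (half 2)) +
            eLpNorm (fun x => u c' j x - Φ x c') 3 (volume.restrict (half 2))))) atTop (𝓝 0) := by
        have h4 := ENNReal.Tendsto.const_mul (a := C0) ((hu1 c).add (hu1 c')) (Or.inr C0_ne_top)
        have h5 := ENNReal.Tendsto.const_mul (a := ENNReal.ofReal (1 / (2 * Real.pi))) h4
          (Or.inr ENNReal.ofReal_ne_top)
        simpa using h5
      exact tendsto_of_tendsto_of_tendsto_of_le_of_le tendsto_const_nhds h3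
        (fun j => zero_le) h1
  obtain ⟨W1, hW1m, hW1⟩ := hscal _ _ hw1 hw2 hw1' hw2' 0 1 φ hφe
  have hγe' : ∀ j p, γ j p = 1 / (2 * Real.pi) * ∫ t in An,
      ((fun _ : ℝ => (1 : ℝ)) t * u 2 j (P3 (p, t)) + (fun _ : ℝ => (0 : ℝ)) t *
        u 2 j (P3 (p, t))) := by
    intro j p
    rw [hγe j p]
    congr 1
    refine integral_congr_ae (Eventually.of_forall fun t => ?_)
    simp
  have h1c : ∀ t : ℝ, |(fun _ : ℝ => (1 : ℝ)) t| ≤ 1 := fun t => by simp
  have h0c : ∀ t : ℝ, |(fun _ : ℝ => (0 : ℝ)) t| ≤ 1 := fun t => by simp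
  obtain ⟨W2', hW2m, hW2⟩ := hscal _ _ continuous_const continuous_const h1c h0c 2 2 γ hγe'
  obtain ⟨φ₀, hφ₀⟩ := unif hM hφ hW1m hW1 (fun k => hcomp k 0 1) hgrφ
  obtain ⟨γ₀, hγ₀⟩ := unif hM hγ hW2m hW2 (fun k => hcomp k 2 3) hgrγ
  have wφ : W2 φ₀ P := hL φ (fun j => gr (φ j)) φ₀ P (fun j => smooth _ (hφ j)) hφ₀
    (fun k => hcomp k 0 1) hgrφ
  have wγ : W2 γ₀ R := hL γ (fun j => gr (γ j)) γ₀ R (fun j => smooth _ (hγ j)) hγ₀
    (fun k => hcomp k 2 3) hgrγ
  have hpt : ∀ {v : ℕ → ℝ × ℝ → ℝ} {v₀ : ℝ × ℝ → ℝ},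
      (∀ k, TendstoUniformlyOn v v₀ atTop (Box k)) → ∀ p ∈ Qc,
      Tendsto (fun j => v j p) atTop (𝓝 (v₀ p)) := by
    intro v v₀ h p hp
    obtain ⟨k, hk⟩ := exists_Box hp
    exact (h k).tendsto_at hk
  have hae : ∀ᵐ p ∂mu, av φ₀ P R p = bav B p := by
    have h1 : TendstoInMeasure mu (fun j => bav (Bj j)) atTop (bav B) :=
      tendstoInMeasure_of_tendsto_eLpNorm (p := 3) (by norm_num)
        (fun j => aesm_bav hC fun c => mu2 c j) hb.aestronglyMeasurable hdiff
    obtain ⟨ns, hns, hae⟩ := h1.exists_seq_tendsto_ae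
    filter_upwards [hae, ae_mu_QQ] with p hp hpQ
    have h4 : Tendsto (fun j => bav (Bj (ns j)) p 4) atTop (𝓝 (bav B p 4)) := by
      have hc : Continuous fun v : V5 => v 4 := by fun_prop
      exact (hc.tendsto _).comp hp
    have h5 : Tendsto (fun j => bav (Bj (ns j)) p 4) atTop (𝓝 (2 * φ₀ p / p.1)) := by
      have h6 := (hpt hφ₀ p (QQ_sub_Qc hpQ)).comp hns.tendsto_atTop
      have h7 := (h6.const_mul 2).div_const p.1
      refine h7.congr fun j => ?_
      exact (havc (ns j) p hpQ.1).2.2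
    have h8 := tendsto_nhds_unique h4 h5
    ext l
    fin_cases l
    · rfl
    · rfl
    · rfl
    · rfl
    · exact h8.symm
  refine ⟨φ₀, γ₀, P, R, wφ, wγ, (memLp_congr_ae hae).2 hb, hae, ?_⟩
  -- the boundary
  filter_upwards [bd_lim hC (fun c j => (huc c j).continuous) (fun c => (hW c).t_int) hu3,
    ae_restrict_mem measurableSet_Ioi] with r hr hr0
  obtain ⟨ns, hns, hi, hl⟩ := hr
  have hrQ : ((r, 0) : ℝ × ℝ) ∈ Qc := ⟨hr0, le_refl _⟩
  constructor
  · have h1 := (hpt hφ₀ _ hrQ).comp hns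
    have h2 := (circ_lim (fun c j => (huc c j).continuous) hi hl hw1 hw2 hw1' hw2' 0 1).const_mul
      (1 / (2 * Real.pi))
    refine tendsto_nhds_unique h1 (h2.congr fun i => ?_)
    show _ = φ (ns i) (r, 0)
    rw [hφe]
    congr 1
    refine integral_congr_ae (Eventually.of_forall fun t => ?_)
    dsimp only
    rw [P3_bd]
  · have h1 := (hpt hγ₀ _ hrQ).comp hns
    have h2 := (circ_lim (fun c j => (huc c j).continuous) hi hl continuous_const
      continuous_const h1c h0c 2 2).const_mul (1 / (2 * Real.pi))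
    have h3 : ∫ t in An, σ (P2 (r, t)) 2 = ∫ t, ((fun _ : ℝ => (1 : ℝ)) t * σ (P2 (r, t)) 2 +
        (fun _ : ℝ => (0 : ℝ)) t * σ (P2 (r, t)) 2) ∂nu := by
      refine integral_congr_ae (Eventually.of_forall fun t => ?_)
      simp
    rw [h3]
    refine tendsto_nhds_unique h1 (h2.congr fun i => ?_)
    show _ = γ (ns i) (r, 0)
    rw [hγe']
    congr 1
    refine integral_congr_ae (Eventually.of_forall fun t => ?_)
    dsimp only
    rw [P3_bd]

end Pool.Agent.T6.H20.BV
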