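import Pool.Agent.T6.H20.BV.Defs

/-!
# Project BV (helper20): module AVS (averages over the angle of `C¹` maps)
-/

set_option autoImplicit false

namespace Pool.Agent.T6.H20.BV

open MeasureTheory Set Filter Topology Pool.Agent.T6.H20.BU

namespace Avs

/-- differentiation of parametric integrals -/
theorem par {F : (ℝ × ℝ) × ℝ → ℝ} (hF : ContDiff ℝ 1 F) :
    ContDiff ℝ 1 (fun p : ℝ × ℝ => ∫ t in Icc (-Real.pi) Real.pi, F (p, t)) ∧
    ∀ p v : ℝ × ℝ, fderiv ℝ (fun p : ℝ × ℝ => ∫ t in Icc (-Real.pi) Real.pi, F (p, t)) p v =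
      ∫ t in Icc (-Real.pi) Real.pi, fderiv ℝ F (p, t) (v, 0) := by
  set F' : ℝ × ℝ → ℝ → (ℝ × ℝ →L[ℝ] ℝ) := fun p t =>
    (fderiv ℝ F (p, t)).comp (ContinuousLinearMap.inl ℝ (ℝ × ℝ) ℝ) with hF'
  have hFc : Continuous F := hF.continuous
  have hdc : Continuous (fderiv ℝ F) := hF.continuous_fderiv one_ne_zero
  have hF'c : Continuous F'.uncurry := by
    have h1 : Continuous fun q : (ℝ × ℝ) × ℝ => fderiv ℝ F q := hdc
    exact h1.clm_comp continuous_const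
  have hder : ∀ p : ℝ × ℝ, HasFDerivAt (fun p : ℝ × ℝ => ∫ t in Icc (-Real.pi) Real.pi, F (p, t))
      (∫ t in Icc (-Real.pi) Real.pi, F' p t) p := by
    intro p₀
    obtain ⟨M, hM⟩ := ((isCompact_closedBall p₀ 1).prod
      (isCompact_Icc (a := -Real.pi) (b := Real.pi))).bddAbove_image hF'c.norm.continuousOn
    refine hasFDerivAt_integral_of_dominated_of_fderiv_le (bound := fun _ => M)
      (F := fun p t => F (p, t)) (F' := F') (Metric.closedBall_mem_nhds p₀ one_pos) ?_ ?_ ?_ ?_ ?_ ?_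
    · filter_upwards with p
      exact Continuous.aestronglyMeasurable (by fun_prop)
    · exact Continuous.integrableOn_Icc (by fun_prop)
    · exact Continuous.aestronglyMeasurable
        (hF'c.comp (continuous_const.prodMk continuous_id))
    · rw [ae_restrict_iff' measurableSet_Icc]
      filter_upwards with t ht p hp
      exact hM (mem_image_of_mem _ (mk_mem_prod hp ht))
    · exact continuous_const.integrableOn_Icc
    · filter_upwards with t p _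
      have h1 : HasFDerivAt F (fderiv ℝ F (p, t)) (p, t) :=
        (hF.differentiable one_ne_zero (p, t)).hasFDerivAt
      exact h1.comp p (hasFDerivAt_prodMk_left p t)
  have hfd : fderiv ℝ (fun p : ℝ × ℝ => ∫ t in Icc (-Real.pi) Real.pi, F (p, t)) =
      fun p => ∫ t in Icc (-Real.pi) Real.pi, F' p t := by
    ext1 p
    exact (hder p).fderiv
  constructor
  · rw [contDiff_one_iff_fderiv]
    refine ⟨fun p => (hder p).differentiableAt, ?_⟩
    rw [hfd]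
    exact continuous_parametric_integral_of_continuous hF'c isCompact_Icc
  · intro p v
    rw [hfd]
    show (∫ t in Icc (-Real.pi) Real.pi, F' p t) v = _
    rw [ContinuousLinearMap.integral_apply]
    · rfl
    · exact Continuous.integrableOn_Icc (hF'c.comp (continuous_const.prodMk continuous_id))

theorem An_eq (f : ℝ → ℝ) : ∫ t in An, f t = ∫ t in Icc (-Real.pi) Real.pi, f t := by
  unfold An
  rw [integral_Icc_eq_integral_Ioo]

/-- the coordinates of the derivative of `P3` -/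
theorem P3_smooth : ContDiff ℝ 1 P3 := by
  rw [contDiff_euclidean]
  intro i
  unfold P3
  fin_cases i
  · simp
    fun_prop
  · simp
    fun_prop
  · simp
    fun_prop

theorem comp_fderiv (q w : (ℝ × ℝ) × ℝ) (i : Fin 3) :
    (fderiv ℝ P3 q w) i = fderiv ℝ (fun x => P3 x i) q w := by
  have h1 : HasFDerivAt P3 (fderiv ℝ P3 q) q := (P3_smooth.differentiable one_ne_zero q).hasFDerivAt
  have h3 : HasFDerivAt (fun x => P3 x i)
      ((EuclideanSpace.proj i : EuclideanSpace ℝ (Fin 3) →L[ℝ] ℝ).comp (fderiv ℝ P3 q)) q :=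
    (EuclideanSpace.proj i : EuclideanSpace ℝ (Fin 3) →L[ℝ] ℝ).hasFDerivAt.comp q h1
  rw [h3.fderiv]
  rfl

theorem P3_0 (q w : (ℝ × ℝ) × ℝ) : (fderiv ℝ P3 q w) 0 =
    w.1.1 * Real.cos q.2 - q.1.1 * Real.sin q.2 * w.2 := by
  rw [comp_fderiv]
  have h1 : HasFDerivAt (fun x : (ℝ × ℝ) × ℝ => x.1.1)
      ((ContinuousLinearMap.fst ℝ ℝ ℝ).comp (ContinuousLinearMap.fst ℝ (ℝ × ℝ) ℝ)) q :=
    ((ContinuousLinearMap.fst ℝ ℝ ℝ).comp (ContinuousLinearMap.fst ℝ (ℝ × ℝ) ℝ)).hasFDerivAt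
  have h2 : HasFDerivAt (fun x : (ℝ × ℝ) × ℝ => Real.cos x.2)
      ((-Real.sin q.2) • ContinuousLinearMap.snd ℝ (ℝ × ℝ) ℝ) q :=
    (Real.hasDerivAt_cos q.2).comp_hasFDerivAt q (ContinuousLinearMap.snd ℝ (ℝ × ℝ) ℝ).hasFDerivAt
  have h3 : (fun x => P3 x 0) = fun x : (ℝ × ℝ) × ℝ => x.1.1 * Real.cos x.2 := by
    ext x
    simp [P3]
  rw [h3, (h1.fun_mul h2).fderiv]
  simp
  ring

theorem P3_1 (q w : (ℝ × ℝ) × ℝ) : (fderiv ℝ P3 q w) 1 =
    w.1.1 * Real.sin q.2 + q.1.1 * Real.cos q.2 * w.2 := by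
  rw [comp_fderiv]
  have h1 : HasFDerivAt (fun x : (ℝ × ℝ) × ℝ => x.1.1)
      ((ContinuousLinearMap.fst ℝ ℝ ℝ).comp (ContinuousLinearMap.fst ℝ (ℝ × ℝ) ℝ)) q :=
    ((ContinuousLinearMap.fst ℝ ℝ ℝ).comp (ContinuousLinearMap.fst ℝ (ℝ × ℝ) ℝ)).hasFDerivAt
  have h2 : HasFDerivAt (fun x : (ℝ × ℝ) × ℝ => Real.sin x.2)
      ((Real.cos q.2) • ContinuousLinearMap.snd ℝ (ℝ × ℝ) ℝ) q :=
    (Real.hasDerivAt_sin q.2).comp_hasFDerivAt q (ContinuousLinearMap.snd ℝ (ℝ × ℝ) ℝ).hasFDerivAt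
  have h3 : (fun x => P3 x 1) = fun x : (ℝ × ℝ) × ℝ => x.1.1 * Real.sin x.2 := by
    ext x
    simp [P3]
  rw [h3, (h1.fun_mul h2).fderiv]
  simp
  ring

theorem P3_2 (q w : (ℝ × ℝ) × ℝ) : (fderiv ℝ P3 q w) 2 = w.1.2 := by
  rw [comp_fderiv]
  have h1 : HasFDerivAt (fun x : (ℝ × ℝ) × ℝ => x.1.2)
      ((ContinuousLinearMap.snd ℝ ℝ ℝ).comp (ContinuousLinearMap.fst ℝ (ℝ × ℝ) ℝ)) q :=
    ((ContinuousLinearMap.snd ℝ ℝ ℝ).comp (ContinuousLinearMap.fst ℝ (ℝ × ℝ) ℝ)).hasFDerivAt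
  have h3 : (fun x => P3 x 2) = fun x : (ℝ × ℝ) × ℝ => x.1.2 := by
    ext x
    simp [P3]
  rw [h3, h1.fderiv]
  simp

/-- the derivative of `ψ ∘ P3` -/
theorem comp_P3 {ψ : E 3 → ℝ} (hψ : ContDiff ℝ 1 ψ) (q w : (ℝ × ℝ) × ℝ) :
    fderiv ℝ (fun q => ψ (P3 q)) q w =
      gradient ψ (P3 q) 0 * (w.1.1 * Real.cos q.2 - q.1.1 * Real.sin q.2 * w.2) +
      gradient ψ (P3 q) 1 * (w.1.1 * Real.sin q.2 + q.1.1 * Real.cos q.2 * w.2) +
      gradient ψ (P3 q) 2 * w.1.2 := by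
  have h1 : HasFDerivAt P3 (fderiv ℝ P3 q) q := (P3_smooth.differentiable one_ne_zero q).hasFDerivAt
  have h2 : HasFDerivAt ψ (fderiv ℝ ψ (P3 q)) (P3 q) :=
    (hψ.differentiable one_ne_zero (P3 q)).hasFDerivAt
  have h3 : HasFDerivAt (fun q => ψ (P3 q)) ((fderiv ℝ ψ (P3 q)).comp (fderiv ℝ P3 q)) q :=
    h2.comp q h1
  rw [h3.fderiv]
  show fderiv ℝ ψ (P3 q) (fderiv ℝ P3 q w) = _
  have h4 : fderiv ℝ ψ (P3 q) (fderiv ℝ P3 q w) =
      inner ℝ (gradient ψ (P3 q)) (fderiv ℝ P3 q w) := by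
    unfold gradient
    rw [InnerProductSpace.toDual_symm_apply]
  rw [h4, PiLp.inner_apply, Fin.sum_univ_three, P3_0, P3_1, P3_2]
  simp
  ring

theorem grad_cont {ψ : E 3 → ℝ} (hψ : ContDiff ℝ 1 ψ) : Continuous (gradient ψ) := by
  unfold gradient
  exact (InnerProductSpace.toDual ℝ (E 3)).symm.continuous.comp (hψ.continuous_fderiv one_ne_zero)

theorem bme_cont_aux (g : Fin 3 → Fin 3 → ℝ → ℝ) (hg : ∀ c i, Continuous (g c i)) :
    Continuous fun t : ℝ => bme (Real.cos t) (Real.sin t)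
      (fun c => WithLp.toLp 2 (fun i => g c i t)) := by
  have h00 := hg 0 0
  have h01 := hg 0 1
  have h02 := hg 0 2
  have h10 := hg 1 0
  have h11 := hg 1 1
  have h12 := hg 1 2
  have h20 := hg 2 0
  have h21 := hg 2 1
  have h22 := hg 2 2
  have hc := Real.continuous_cos
  have hs := Real.continuous_sin
  have hcs : Continuous fun t : ℝ => Real.cos t ^ 2 - Real.sin t ^ 2 := (hc.pow 2).sub (hs.pow 2)
  have hsc : Continuous fun t : ℝ => 2 * Real.cos t * Real.sin t :=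
    (continuous_const.mul hc).mul hs
  unfold bme
  apply (PiLp.continuous_toLp 2 _).comp
  apply continuous_pi
  intro i
  fin_cases i
  · exact (hcs.mul ((h00.mul hc).add (h01.mul hs))).add (hsc.mul ((h10.mul hc).add (h11.mul hs)))
  · exact (hcs.mul h02).add (hsc.mul h12)
  · exact (h20.mul hc).add (h21.mul hs)
  · exact h22
  · exact (hsc.neg.mul ((h00.neg.mul hs).add (h01.mul hc))).add
      (hcs.mul ((h10.neg.mul hs).add (h11.mul hc)))

theorem grad_comp_cont {ψ : E 3 → ℝ} (hψ : ContDiff ℝ 1 ψ) (p : ℝ × ℝ) (i : Fin 3) :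
    Continuous fun t : ℝ => gradient ψ (P3 (p, t)) i := by
  have hP : Continuous fun t : ℝ => P3 (p, t) :=
    P3_smooth.continuous.comp (continuous_const.prodMk continuous_id)
  have h1 : Continuous fun t : ℝ => gradient ψ (P3 (p, t)) := (grad_cont hψ).comp hP
  exact (EuclideanSpace.proj i : EuclideanSpace ℝ (Fin 3) →L[ℝ] ℝ).continuous.comp h1

theorem bme_cont {ψ : Fin 3 → E 3 → ℝ} (hψ : ∀ c, ContDiff ℝ 1 (ψ c)) (p : ℝ × ℝ) :
    Continuous fun t : ℝ => bme (Real.cos t) (Real.sin t)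
      ((fun x c => gradient (ψ c) x) (P3 (p, t))) :=
  bme_cont_aux (fun c i t => gradient (ψ c) (P3 (p, t)) i) (fun c i => grad_comp_cont (hψ c) p i)

theorem bav_apply {ψ : Fin 3 → E 3 → ℝ} (hψ : ∀ c, ContDiff ℝ 1 (ψ c)) (p : ℝ × ℝ) (i : Fin 5) :
    bav (fun x c => gradient (ψ c) x) p i = 1 / (2 * Real.pi) *
      ∫ t in Icc (-Real.pi) Real.pi, bme (Real.cos t) (Real.sin t)
        ((fun x c => gradient (ψ c) x) (P3 (p, t))) i := by
  unfold bav
  rw [PiLp.smul_apply, smul_eq_mul]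
  congr 1
  have h1 := (EuclideanSpace.proj i : EuclideanSpace ℝ (Fin 5) →L[ℝ] ℝ).integral_comp_comm
    (μ := volume.restrict An) (φ := fun t : ℝ => bme (Real.cos t) (Real.sin t)
      ((fun x c => gradient (ψ c) x) (P3 (p, t)))) (by
      have h2 : IntegrableOn (fun t : ℝ => bme (Real.cos t) (Real.sin t)
          ((fun x c => gradient (ψ c) x) (P3 (p, t)))) (Icc (-Real.pi) Real.pi) :=
        (bme_cont hψ p).integrableOn_Icc
      exact h2.mono_set Ioo_subset_Icc_self)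
  have h3 := An_eq (fun t => bme (Real.cos t) (Real.sin t)
        ((fun x c => gradient (ψ c) x) (P3 (p, t))) i)
  rw [← h3]
  exact h1.symm

/-- integration by parts over the period -/
theorem ibp {u₀ u₁ d₀ d₁ : ℝ → ℝ} {r : ℝ} (cd₀ : Continuous d₀) (cd₁ : Continuous d₁)
    (h₀ : ∀ t, HasDerivAt u₀ (r * d₀ t) t) (h₁ : ∀ t, HasDerivAt u₁ (r * d₁ t) t)
    (e₁ : u₁ Real.pi = u₁ (-Real.pi)) :
    r * ∫ t in Icc (-Real.pi) Real.pi, (-(2 * Real.cos t * Real.sin t) * d₀ t +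
      (Real.cos t ^ 2 - Real.sin t ^ 2) * d₁ t) =
    2 * ∫ t in Icc (-Real.pi) Real.pi, ((Real.cos t ^ 2 - Real.sin t ^ 2) * u₀ t +
          2 * Real.cos t * Real.sin t * u₁ t) := by
  have cu₀ : Continuous u₀ := continuous_iff_continuousAt.2 fun t => (h₀ t).continuousAt
  have cu₁ : Continuous u₁ := continuous_iff_continuousAt.2 fun t => (h₁ t).continuousAt
  have hc := Real.continuous_cos
  have hs := Real.continuous_sin
  have hcs : Continuous fun t : ℝ => Real.cos t ^ 2 - Real.sin t ^ 2 := (hc.pow 2).sub (hs.pow 2)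
  have hsc : Continuous fun t : ℝ => 2 * Real.cos t * Real.sin t :=
    (continuous_const.mul hc).mul hs
  have hH : ∀ t : ℝ, HasDerivAt (fun t => -(2 * Real.cos t * Real.sin t) * u₀ t +
      (Real.cos t ^ 2 - Real.sin t ^ 2) * u₁ t)
      (r * (-(2 * Real.cos t * Real.sin t) * d₀ t + (Real.cos t ^ 2 - Real.sin t ^ 2) * d₁ t) -
        2 * ((Real.cos t ^ 2 - Real.sin t ^ 2) * u₀ t + 2 * Real.cos t * Real.sin t * u₁ t)) t := by
    intro t
    have ec := Real.hasDerivAt_cos t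
    have es := Real.hasDerivAt_sin t
    have e2 := ((((ec.const_mul 2).fun_mul es).fun_neg).fun_mul (h₀ t)).fun_add
      (((ec.fun_pow 2).fun_sub (es.fun_pow 2)).fun_mul (h₁ t))
    refine e2.congr_deriv ?_
    simp only [Nat.cast_ofNat, Nat.add_one_sub_one, pow_one]
    ring
  have c1 : Continuous fun t : ℝ => -(2 * Real.cos t * Real.sin t) * d₀ t +
      (Real.cos t ^ 2 - Real.sin t ^ 2) * d₁ t := (hsc.neg.mul cd₀).add (hcs.mul cd₁)
  have c2 : Continuous fun t : ℝ => (Real.cos t ^ 2 - Real.sin t ^ 2) * u₀ t +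
      2 * Real.cos t * Real.sin t * u₁ t := (hcs.mul cu₀).add (hsc.mul cu₁)
  have i1 : IntervalIntegrable (fun t : ℝ => r * (-(2 * Real.cos t * Real.sin t) * d₀ t +
      (Real.cos t ^ 2 - Real.sin t ^ 2) * d₁ t)) volume (-Real.pi) Real.pi :=
    (continuous_const.mul c1).intervalIntegrable _ _
  have i2 : IntervalIntegrable (fun t : ℝ => 2 * ((Real.cos t ^ 2 - Real.sin t ^ 2) * u₀ t +
      2 * Real.cos t * Real.sin t * u₁ t)) volume (-Real.pi) Real.pi :=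
    (continuous_const.mul c2).intervalIntegrable _ _
  have hint := intervalIntegral.integral_eq_sub_of_hasDerivAt (a := -Real.pi) (b := Real.pi)
    (fun t _ => hH t) (i1.sub i2)
  have hend' : -(2 * Real.cos Real.pi * Real.sin Real.pi) * u₀ Real.pi +
      (Real.cos Real.pi ^ 2 - Real.sin Real.pi ^ 2) * u₁ Real.pi -
      (-(2 * Real.cos (-Real.pi) * Real.sin (-Real.pi)) * u₀ (-Real.pi) +
      (Real.cos (-Real.pi) ^ 2 - Real.sin (-Real.pi) ^ 2) * u₁ (-Real.pi)) = 0 := by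
    rw [e₁]
    simp
  rw [hend', intervalIntegral.integral_sub i1 i2, intervalIntegral.integral_const_mul,
    intervalIntegral.integral_const_mul, sub_eq_zero] at hint
  have hpi : -Real.pi ≤ Real.pi := by linarith [Real.pi_pos]
  rw [intervalIntegral.integral_of_le hpi, intervalIntegral.integral_of_le hpi,
    ← integral_Icc_eq_integral_Ioc, ← integral_Icc_eq_integral_Ioc] at hint
  exact hint

theorem der_t {ψ : E 3 → ℝ} (hψ : ContDiff ℝ 1 ψ) (p : ℝ × ℝ) (t : ℝ) :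
    HasDerivAt (fun t => ψ (P3 (p, t))) (p.1 * (-(gradient ψ (P3 (p, t)) 0) * Real.sin t +
      gradient ψ (P3 (p, t)) 1 * Real.cos t)) t := by
  have h1 : HasFDerivAt (fun q => ψ (P3 q)) (fderiv ℝ (fun q => ψ (P3 q)) (p, t)) (p, t) :=
    ((hψ.comp P3_smooth).differentiable one_ne_zero (p, t)).hasFDerivAt
  have h2 : HasDerivAt (fun t : ℝ => (p, t)) ((0 : ℝ × ℝ), (1 : ℝ)) t :=
    (hasDerivAt_const t p).prodMk (hasDerivAt_id t)
  have h3 : HasDerivAt (fun t => ψ (P3 (p, t)))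
      (fderiv ℝ (fun q => ψ (P3 q)) (p, t) ((0 : ℝ × ℝ), (1 : ℝ))) t := h1.comp_hasDerivAt t h2
  rw [comp_P3 hψ] at h3
  refine h3.congr_deriv ?_
  simp only [Prod.fst_zero, Prod.snd_zero]
  ring

theorem parts {ψ₀ ψ₁ : E 3 → ℝ} (h₀ : ContDiff ℝ 1 ψ₀) (h₁ : ContDiff ℝ 1 ψ₁) (p : ℝ × ℝ) :
    p.1 * ∫ t in Icc (-Real.pi) Real.pi, (-(2 * Real.cos t * Real.sin t) *
      (-(gradient ψ₀ (P3 (p, t)) 0) * Real.sin t + gradient ψ₀ (P3 (p, t)) 1 * Real.cos t) +
      (Real.cos t ^ 2 - Real.sin t ^ 2) *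
      (-(gradient ψ₁ (P3 (p, t)) 0) * Real.sin t + gradient ψ₁ (P3 (p, t)) 1 * Real.cos t)) =
    2 * ∫ t in Icc (-Real.pi) Real.pi, ((Real.cos t ^ 2 - Real.sin t ^ 2) * ψ₀ (P3 (p, t)) +
          2 * Real.cos t * Real.sin t * ψ₁ (P3 (p, t))) := by
  have hend : P3 (p, Real.pi) = P3 (p, -Real.pi) := by
    unfold P3
    simp
  have hc := Real.continuous_cos
  have hs := Real.continuous_sin
  exact ibp (u₀ := fun t => ψ₀ (P3 (p, t))) (u₁ := fun t => ψ₁ (P3 (p, t)))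
    (((grad_comp_cont h₀ p 0).neg.mul hs).add ((grad_comp_cont h₀ p 1).mul hc))
    (((grad_comp_cont h₁ p 0).neg.mul hs).add ((grad_comp_cont h₁ p 1).mul hc))
    (der_t h₀ p) (der_t h₁ p) (by
      show ψ₁ (P3 (p, Real.pi)) = ψ₁ (P3 (p, -Real.pi))
      rw [hend])

end Avs

/-- module AVS -/
theorem avs : StmAVS := by
  intro ψ hψ
  have hpi := Real.pi_pos
  set F : (ℝ × ℝ) × ℝ → ℝ := fun q => (Real.cos q.2 ^ 2 - Real.sin q.2 ^ 2) * ψ 0 (P3 q) +
    2 * Real.cos q.2 * Real.sin q.2 * ψ 1 (P3 q) with hF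
  set H : (ℝ × ℝ) × ℝ → ℝ := fun q => ψ 2 (P3 q) with hH
  have hu : ∀ c, ContDiff ℝ 1 (fun q : (ℝ × ℝ) × ℝ => ψ c (P3 q)) :=
    fun c => (hψ c).comp Avs.P3_smooth
  have hc1 : ContDiff ℝ 1 (fun q : (ℝ × ℝ) × ℝ => Real.cos q.2 ^ 2 - Real.sin q.2 ^ 2) := by
    fun_prop
  have hc2 : ContDiff ℝ 1 (fun q : (ℝ × ℝ) × ℝ => 2 * Real.cos q.2 * Real.sin q.2) := by
    fun_prop
  have hFs : ContDiff ℝ 1 F := (hc1.mul (hu 0)).add (hc2.mul (hu 1))
  have hHs : ContDiff ℝ 1 H := hu 2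
  obtain ⟨hF1, hF2⟩ := Avs.par hFs
  obtain ⟨hH1, hH2⟩ := Avs.par hHs
  set φ : ℝ × ℝ → ℝ := fun p => 1 / (2 * Real.pi) * ∫ t in Icc (-Real.pi) Real.pi, F (p, t)
    with hφ
  set γ : ℝ × ℝ → ℝ := fun p => 1 / (2 * Real.pi) * ∫ t in Icc (-Real.pi) Real.pi, H (p, t)
    with hγ
  have hφs : ContDiff ℝ 1 φ := contDiff_const.mul hF1
  have hγs : ContDiff ℝ 1 γ := contDiff_const.mul hH1
  have hφd : ∀ p v : ℝ × ℝ, fderiv ℝ φ p v = 1 / (2 * Real.pi) *
      ∫ t in Icc (-Real.pi) Real.pi, fderiv ℝ F (p, t) (v, 0) := by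
    intro p v
    rw [hφ, fderiv_const_mul (hF1.differentiable one_ne_zero p), smul_apply,
      smul_eq_mul, hF2]
  have hγd : ∀ p v : ℝ × ℝ, fderiv ℝ γ p v = 1 / (2 * Real.pi) *
      ∫ t in Icc (-Real.pi) Real.pi, fderiv ℝ H (p, t) (v, 0) := by
    intro p v
    rw [hγ, fderiv_const_mul (hH1.differentiable one_ne_zero p), smul_apply,
      smul_eq_mul, hH2]
  have hco : ∀ (a : ℝ → ℝ) (a' : ℝ) (q : (ℝ × ℝ) × ℝ), HasDerivAt a a' q.2 →
      HasFDerivAt (fun x : (ℝ × ℝ) × ℝ => a x.2) (a' • ContinuousLinearMap.snd ℝ (ℝ × ℝ) ℝ) q :=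
    fun a a' q h => h.comp_hasFDerivAt q (ContinuousLinearMap.snd ℝ (ℝ × ℝ) ℝ).hasFDerivAt
  have hFd : ∀ (p v : ℝ × ℝ) (t : ℝ), fderiv ℝ F (p, t) (v, 0) =
      (Real.cos t ^ 2 - Real.sin t ^ 2) * fderiv ℝ (fun q => ψ 0 (P3 q)) (p, t) (v, 0) +
      2 * Real.cos t * Real.sin t * fderiv ℝ (fun q => ψ 1 (P3 q)) (p, t) (v, 0) := by
    intro p v t
    have e0 := ((hu 0).differentiable one_ne_zero (p, t)).hasFDerivAt
    have e1 := ((hu 1).differentiable one_ne_zero (p, t)).hasFDerivAt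
    have ec := Real.hasDerivAt_cos t
    have es := Real.hasDerivAt_sin t
    have h1 := ((hco _ _ (p, t) ((ec.fun_pow 2).fun_sub (es.fun_pow 2))).fun_mul e0).fun_add
      ((hco _ _ (p, t) ((ec.const_mul 2).fun_mul es)).fun_mul e1)
    rw [h1.fderiv]
    simp
  refine ⟨φ, γ, hφs, hγs, ?_, ?_, ?_⟩
  · intro p
    rw [Avs.An_eq]
  · intro p
    rw [Avs.An_eq]
  · intro p hp
    have hb := Avs.bav_apply hψ p
    ext i
    rw [hb i]
    fin_cases i
    · show fderiv ℝ φ p (1, 0) = _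
      rw [hφd]
      congr 1
      refine integral_congr_ae (Eventually.of_forall fun t => ?_)
      simp only
      rw [hFd, Avs.comp_P3 (hψ 0), Avs.comp_P3 (hψ 1)]
      simp [bme]
    · show fderiv ℝ φ p (0, 1) = _
      rw [hφd]
      congr 1
      refine integral_congr_ae (Eventually.of_forall fun t => ?_)
      simp only
      rw [hFd, Avs.comp_P3 (hψ 0), Avs.comp_P3 (hψ 1)]
      simp [bme]
    · show fderiv ℝ γ p (1, 0) = _
      rw [hγd]
      congr 1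
      refine integral_congr_ae (Eventually.of_forall fun t => ?_)
      simp only [hH]
      rw [Avs.comp_P3 (hψ 2)]
      simp [bme]
    · show fderiv ℝ γ p (0, 1) = _
      rw [hγd]
      congr 1
      refine integral_congr_ae (Eventually.of_forall fun t => ?_)
      simp only [hH]
      rw [Avs.comp_P3 (hψ 2)]
      simp [bme]
    · show 2 * φ p / p.1 = _
      have h1 := Avs.parts (hψ 0) (hψ 1) p
      have h2 : 2 * φ p = 1 / (2 * Real.pi) * (2 * ∫ t in Icc (-Real.pi) Real.pi,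
          ((Real.cos t ^ 2 - Real.sin t ^ 2) * ψ 0 (P3 (p, t)) +
          2 * Real.cos t * Real.sin t * ψ 1 (P3 (p, t)))) := by
        simp only [hφ, hF]
        ring
      rw [h2, ← h1, mul_div_assoc, mul_div_cancel_left₀ _ hp.ne']
      congr 1

end Pool.Agent.T6.H20.BV
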