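import Pool.Agent.T6.H20.BV.Chn

/-!
# Project BV: the chain rule for `W2`
-/

set_option autoImplicit false

namespace Pool.Agent.T6.H20.BV

open MeasureTheory Set Filter Topology Pool.Agent.T6.H20.BU

theorem gr_comp {n : ℕ} {T : (Fin n → ℝ) → ℝ} (hT : ContDiff ℝ 1 T) {h : Fin n → ℝ × ℝ → ℝ}
    (hh : ∀ i, ContDiff ℝ 1 (h i)) (p : ℝ × ℝ) :
    gr (fun p => T (fun i => h i p)) p =
      ∑ i, fderiv ℝ T (fun j => h j p) (Pi.single i 1) • gr (h i) p := by
  have hd : ∀ v : ℝ × ℝ, fderiv ℝ (fun p => T (fun i => h i p)) p v =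
      ∑ i, fderiv ℝ T (fun j => h j p) (Pi.single i 1) * fderiv ℝ (h i) p v := by
    intro v
    have h1 : HasFDerivAt (fun p => fun i => h i p)
        (ContinuousLinearMap.pi fun i => fderiv ℝ (h i) p) p :=
      hasFDerivAt_pi.2 fun i => ((hh i).differentiable (by norm_num) p).hasFDerivAt
    have h2 : HasFDerivAt T (fderiv ℝ T (fun i => h i p)) (fun i => h i p) :=
      (hT.differentiable (by norm_num) _).hasFDerivAt
    have h3 := h2.comp p h1
    have h4 : fderiv ℝ (fun p => T (fun i => h i p)) p =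
        (fderiv ℝ T (fun i => h i p)).comp (ContinuousLinearMap.pi fun i => fderiv ℝ (h i) p) :=
      h3.fderiv
    rw [h4, ContinuousLinearMap.comp_apply]
    have h5 : (ContinuousLinearMap.pi fun i => fderiv ℝ (h i) p) v =
        ∑ i, (fderiv ℝ (h i) p v) • (Pi.single i (1 : ℝ) : Fin n → ℝ) := by
      funext j
      simp [Finset.sum_apply, Pi.single_apply]
    rw [h5, map_sum]
    refine Finset.sum_congr rfl fun i _ => ?_
    rw [map_smul, smul_eq_mul, mul_comm]
  have e1 : (gr (fun p => T (fun i => h i p)) p).1 =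
      fderiv ℝ (fun p => T (fun i => h i p)) p (1, 0) := rfl
  have e2 : (gr (fun p => T (fun i => h i p)) p).2 =
      fderiv ℝ (fun p => T (fun i => h i p)) p (0, 1) := rfl
  refine Prod.ext ?_ ?_
  · rw [e1, hd, Prod.fst_sum]
    rfl
  · rw [e2, hd, Prod.snd_sum]
    rfl

theorem chain1 (n : ℕ) (u : Fin n → ℝ × ℝ → ℝ) (U : Fin n → ℝ × ℝ → ℝ × ℝ)
    (T : (Fin n → ℝ) → ℝ) (hT : ContDiff ℝ 1 T) (hW : ∀ i, W2 (u i) (U i)) :
    W2 (fun p => T (fun i => u i p))
      (fun p => ∑ i, fderiv ℝ T (fun j => u j p) (Pi.single i 1) • U i p) := by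
  have hbdd : ∀ k, ∃ M : ℝ, 0 ≤ M ∧ ∀ i, ∀ p ∈ Box k, |u i p| ≤ M := by
    intro k
    choose C hC using fun i => (isCompact_Box k).exists_bound_of_continuousOn (contOn_Box (hW i) k)
    refine ⟨∑ i, |C i|, Finset.sum_nonneg fun i _ => abs_nonneg _, fun i p hp => ?_⟩
    calc |u i p| ≤ C i := hC i p hp
      _ ≤ |C i| := le_abs_self _
      _ ≤ _ := Finset.single_le_sum (f := fun i => |C i|) (fun i _ => abs_nonneg _)
          (Finset.mem_univ i)
  have hDc : Continuous (fderiv ℝ T) := hT.continuous_fderiv (by norm_num)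
  have hball : ∀ (M : ℝ) (x : Fin n → ℝ), 0 ≤ M → (∀ i, |x i| ≤ M) → x ∈ Metric.closedBall 0 M := by
    intro M x hM h
    rw [mem_closedBall_zero_iff, pi_norm_le_iff_of_nonneg hM]
    exact h
  have he : ∀ i : Fin n, ‖(Pi.single i (1 : ℝ) : Fin n → ℝ)‖ ≤ 1 := by
    intro i
    rw [pi_norm_le_iff_of_nonneg zero_le_one]
    intro j
    by_cases h : j = i
    · subst h
      simp
    · simp [h]
  refine ⟨fun k => ?_, fun k ε hε => ?_⟩
  · obtain ⟨M, hM, hu⟩ := hbdd k
    obtain ⟨C, hC⟩ := (isCompact_closedBall (0 : Fin n → ℝ) M).exists_bound_of_continuousOn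
      hDc.continuousOn
    refine memLp_finsetSum _ fun i _ => ?_
    have hcu : ContinuousOn (fun p => fun j => u j p) (Box k) :=
      continuousOn_pi.2 fun j => contOn_Box (hW j) k
    have hcD : ContinuousOn (fun p => fderiv ℝ T (fun j => u j p) (Pi.single i 1)) (Box k) :=
      (hDc.comp_continuousOn hcu).clm_apply continuousOn_const
    refine ((hW i).mem k).of_le_mul (c := C) ?_ ?_
    · exact (hcD.aestronglyMeasurable_of_isCompact (isCompact_Box k) (measurableSet_Box k)).smul
        ((hW i).mem k).aestronglyMeasurable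
    · rw [ae_restrict_iff' (measurableSet_Box k)]
      refine Eventually.of_forall fun p hp => ?_
      rw [norm_smul]
      refine mul_le_mul_of_nonneg_right ?_ (norm_nonneg _)
      have h1 := hC (fun j => u j p) (hball M _ hM fun j => hu j p hp)
      calc ‖fderiv ℝ T (fun j => u j p) (Pi.single i 1)‖
          ≤ ‖fderiv ℝ T (fun j => u j p)‖ * ‖(Pi.single i (1 : ℝ) : Fin n → ℝ)‖ :=
            ContinuousLinearMap.le_opNorm _ _
        _ ≤ C * 1 := mul_le_mul h1 (he i) (norm_nonneg _) ((norm_nonneg _).trans h1)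
        _ = C := mul_one _
  · obtain ⟨M, hM, hu⟩ := hbdd k
    set B := Metric.closedBall (0 : Fin n → ℝ) (M + 1) with hBdef
    have hBc : IsCompact B := isCompact_closedBall _ _
    obtain ⟨C, hC⟩ := hBc.exists_bound_of_continuousOn hDc.continuousOn
    have h0B : (0 : Fin n → ℝ) ∈ B := Metric.mem_closedBall_self (by linarith)
    have hC0 : 0 ≤ C := (norm_nonneg _).trans (hC 0 h0B)
    have uT := hBc.uniformContinuousOn_of_continuous hT.continuous.continuousOn
    have uD := hBc.uniformContinuousOn_of_continuous hDc.continuousOn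
    rw [Metric.uniformContinuousOn_iff] at uT uD
    set A : ℝ := ∑ i, (eLpNorm (U i) 3 (volume.restrict (Box k))).toReal with hA
    have hA0 : 0 ≤ A := Finset.sum_nonneg fun i _ => ENNReal.toReal_nonneg
    set om : ℝ := ε / (2 * (A + 1)) with hom
    have hom0 : 0 < om := by positivity
    obtain ⟨δ₁, hδ₁, hD⟩ := uD om hom0
    obtain ⟨δ₂, hδ₂, hTu⟩ := uT ε hε
    set δ : ℝ := min (min (δ₁ / 2) (δ₂ / 2)) (min 1 (ε / (2 * (n * C + 1)))) with hδdef
    have hδ : 0 < δ := by
      refine lt_min (lt_min (by positivity) (by positivity)) (lt_min one_pos ?_)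
      positivity
    choose h hh h1 h2 using fun i => (hW i).app k δ hδ
    have hδ1 : δ ≤ 1 := (min_le_right _ _).trans (min_le_left _ _)
    have hδA : δ < δ₁ := lt_of_le_of_lt ((min_le_left _ _).trans (min_le_left _ _)) (by linarith)
    have hδB : δ < δ₂ := lt_of_le_of_lt ((min_le_left _ _).trans (min_le_right _ _)) (by linarith)
    have hδC : δ * (n * C) ≤ ε / 2 := by
      have h3 : δ ≤ ε / (2 * (n * C + 1)) := (min_le_right _ _).trans (min_le_right _ _)
      have h4 : 0 ≤ (n : ℝ) * C := by positivity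
      rw [le_div_iff₀ (by positivity)] at h3
      nlinarith
    have huB : ∀ p ∈ Box k, (fun j => u j p) ∈ B := fun p hp =>
      hball _ _ (by linarith) fun j => (hu j p hp).trans (by linarith)
    have hhB : ∀ p ∈ Box k, (fun j => h j p) ∈ B := by
      intro p hp
      refine hball _ _ (by linarith) fun j => ?_
      have h3 := h1 j p hp
      have h4 := hu j p hp
      calc |h j p| = |u j p - (u j p - h j p)| := by ring_nf
        _ ≤ |u j p| + |u j p - h j p| := abs_sub _ _
        _ ≤ M + 1 := by linarith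
    have hdist : ∀ p ∈ Box k, dist (fun j => u j p) (fun j => h j p) ≤ δ := by
      intro p hp
      rw [dist_pi_le_iff hδ.le]
      intro j
      rw [Real.dist_eq]
      exact h1 j p hp
    refine ⟨fun p => T (fun i => h i p), hT.comp (contDiff_pi.2 hh), fun p hp => ?_, ?_⟩
    · have h3 := hTu _ (huB p hp) _ (hhB p hp) (lt_of_le_of_lt (hdist p hp) hδB)
      rw [Real.dist_eq] at h3
      exact h3.le
    · have hpt : ∀ᵐ p ∂(volume.restrict (Box k)),
          ‖(∑ i, fderiv ℝ T (fun j => u j p) (Pi.single i 1) • U i p) -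
            gr (fun p => T (fun i => h i p)) p‖ ≤
          (∑ i : Fin n, ((fun p => om * ‖U i p‖) + fun p => C * ‖U i p - gr (h i) p‖)) p := by
        rw [ae_restrict_iff' (measurableSet_Box k)]
        refine Eventually.of_forall fun p hp => ?_
        rw [gr_comp hT hh, ← Finset.sum_sub_distrib, Finset.sum_apply]
        refine (norm_sum_le _ _).trans (Finset.sum_le_sum fun i _ => ?_)
        have e1 : fderiv ℝ T (fun j => u j p) (Pi.single i 1) • U i p -
            fderiv ℝ T (fun j => h j p) (Pi.single i 1) • gr (h i) p =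
            (fderiv ℝ T (fun j => u j p) - fderiv ℝ T (fun j => h j p)) (Pi.single i 1) • U i p +
              fderiv ℝ T (fun j => h j p) (Pi.single i 1) • (U i p - gr (h i) p) := by
          rw [sub_apply, sub_smul, smul_sub]
          abel
        rw [e1]
        refine (norm_add_le _ _).trans (add_le_add ?_ ?_)
        · rw [norm_smul]
          refine mul_le_mul_of_nonneg_right ?_ (norm_nonneg _)
          have h3 := hD _ (huB p hp) _ (hhB p hp) (lt_of_le_of_lt (hdist p hp) hδA)
          rw [dist_eq_norm] at h3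
          calc _ ≤ ‖fderiv ℝ T (fun j => u j p) - fderiv ℝ T (fun j => h j p)‖ *
                ‖(Pi.single i (1 : ℝ) : Fin n → ℝ)‖ := ContinuousLinearMap.le_opNorm _ _
            _ ≤ om * 1 := mul_le_mul h3.le (he i) (norm_nonneg _) hom0.le
            _ = om := mul_one _
        · rw [norm_smul]
          refine mul_le_mul_of_nonneg_right ?_ (norm_nonneg _)
          have h3 := hC _ (hhB p hp)
          calc _ ≤ ‖fderiv ℝ T (fun j => h j p)‖ * ‖(Pi.single i (1 : ℝ) : Fin n → ℝ)‖ :=
                ContinuousLinearMap.le_opNorm _ _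
            _ ≤ C * 1 := mul_le_mul h3 (he i) (norm_nonneg _) hC0
            _ = C := mul_one _
      have hgm : ∀ i, MemLp (gr (h i)) 3 (volume.restrict (Box k)) := fun i =>
        memLp_of_continuous (continuous_gr (hh i)).continuousOn k
      have m1 : ∀ i, AEStronglyMeasurable (fun p => om * ‖U i p‖) (volume.restrict (Box k)) :=
        fun i => (((hW i).mem k).aestronglyMeasurable.norm).const_mul om
      have m2 : ∀ i, AEStronglyMeasurable (fun p => C * ‖U i p - gr (h i) p‖)
          (volume.restrict (Box k)) := fun i =>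
        ((((hW i).mem k).aestronglyMeasurable.sub (hgm i).aestronglyMeasurable).norm).const_mul C
      refine (eLpNorm_mono_ae_real hpt).trans ?_
      refine (eLpNorm_sum_le (fun i _ => (m1 i).add (m2 i)) (by norm_num)).trans ?_
      have b : ∀ i, eLpNorm ((fun p => om * ‖U i p‖) + fun p => C * ‖U i p - gr (h i) p‖) 3
          (volume.restrict (Box k)) ≤
          ENNReal.ofReal (om * (eLpNorm (U i) 3 (volume.restrict (Box k))).toReal + C * δ) := by
        intro i
        refine (eLpNorm_add_le (m1 i) (m2 i) (by norm_num)).trans ?_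
        rw [ENNReal.ofReal_add (by positivity) (by positivity)]
        refine add_le_add ?_ ?_
        · refine (eLpNorm_le_mul_eLpNorm_of_ae_le_mul (c := om) (g := U i)
            (Eventually.of_forall fun p => ?_) 3).trans ?_
          · rw [norm_mul, norm_norm, Real.norm_of_nonneg hom0.le]
          · rw [ENNReal.ofReal_mul hom0.le, ENNReal.ofReal_toReal ((hW i).mem k).eLpNorm_ne_top]
        · refine (eLpNorm_le_mul_eLpNorm_of_ae_le_mul (c := C)
            (g := fun p => U i p - gr (h i) p) (Eventually.of_forall fun p => ?_) 3).trans ?_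
          · rw [norm_mul, norm_norm, Real.norm_of_nonneg hC0]
          · rw [ENNReal.ofReal_mul hC0]
            gcongr
            exact h2 i
      refine (Finset.sum_le_sum fun i _ => b i).trans ?_
      rw [← ENNReal.ofReal_sum_of_nonneg (fun i _ => by positivity)]
      refine ENNReal.ofReal_le_ofReal ?_
      rw [Finset.sum_add_distrib, ← Finset.mul_sum, Finset.sum_const, Finset.card_univ,
        Fintype.card_fin, nsmul_eq_mul, ← hA]
      have h5 : om * A ≤ ε / 2 := by
        rw [hom, div_mul_eq_mul_div, div_le_iff₀ (by positivity)]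
        nlinarith
      have h6 : (n : ℝ) * (C * δ) = δ * (n * C) := by ring
      rw [h6]
      linarith

theorem chain : StmChain := by
  refine ⟨chain1, fun f g F G a b hf hg => ?_⟩
  have hT : ContDiff ℝ 1 (fun x : Fin 2 → ℝ => a * x 0 + b * x 1) := by fun_prop
  have h1 := chain1 2 ![f, g] ![F, G] (fun x => a * x 0 + b * x 1) hT (by
    intro i
    fin_cases i
    · exact hf
    · exact hg)
  have hd : ∀ x : Fin 2 → ℝ, fderiv ℝ (fun x : Fin 2 → ℝ => a * x 0 + b * x 1) x =
      a • (ContinuousLinearMap.proj 0 : (Fin 2 → ℝ) →L[ℝ] ℝ) +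
        b • (ContinuousLinearMap.proj 1 : (Fin 2 → ℝ) →L[ℝ] ℝ) := by
    intro x
    have h2 : HasFDerivAt (fun x : Fin 2 → ℝ => a * x 0 + b * x 1)
        (a • (ContinuousLinearMap.proj 0 : (Fin 2 → ℝ) →L[ℝ] ℝ) +
        b • (ContinuousLinearMap.proj 1 : (Fin 2 → ℝ) →L[ℝ] ℝ)) x :=
      (((ContinuousLinearMap.proj (R := ℝ) (φ := fun _ : Fin 2 => ℝ) 0).hasFDerivAt).const_mul
        a).add (((ContinuousLinearMap.proj (R := ℝ) (φ := fun _ : Fin 2 => ℝ)
          1).hasFDerivAt).const_mul b)
    exact h2.fderiv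
  have e1 : (fun p => ∑ i, (fderiv ℝ (fun x : Fin 2 → ℝ => a * x 0 + b * x 1)
      fun j => (![f, g] : Fin 2 → ℝ × ℝ → ℝ) j p) (Pi.single i 1) •
        (![F, G] : Fin 2 → ℝ × ℝ → ℝ × ℝ) i p) = fun p => a • F p + b • G p := by
    funext p
    rw [Fin.sum_univ_two, hd]
    simp
  rw [e1] at h1
  exact h1

end Pool.Agent.T6.H20.BV
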