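import Pool.Agent.T6.H20.BV.Exi

/-!
# Project BV: the calculus of `W2`
-/

set_option autoImplicit false

namespace Pool.Agent.T6.H20.BV

open MeasureTheory Set Filter Topology Pool.Agent.T6.H20.BU

theorem continuous_gr {h : ℝ × ℝ → ℝ} (hh : ContDiff ℝ 1 h) : Continuous (gr h) := by
  have h1 : Continuous (fderiv ℝ h) := hh.continuous_fderiv (by norm_num)
  unfold gr
  exact (h1.clm_apply continuous_const).prodMk (h1.clm_apply continuous_const)

theorem memLp_of_continuous {E' : Type*} [NormedAddCommGroup E'] {u : ℝ × ℝ → E'}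
    (hu : ContinuousOn u Qc) (k : ℕ) : MemLp u 3 (volume.restrict (Box k)) := by
  obtain ⟨C, hC⟩ := (isCompact_Box k).exists_bound_of_continuousOn (hu.mono (Box_sub k))
  have hfin : IsFiniteMeasure (volume.restrict (Box k)) := by
    refine ⟨?_⟩
    rw [Measure.restrict_apply_univ]
    exact (isCompact_Box k).measure_lt_top
  refine MemLp.of_bound ((hu.mono (Box_sub k)).aestronglyMeasurable_of_isCompact
    (isCompact_Box k) (measurableSet_Box k)) C ?_
  rw [ae_restrict_iff' (measurableSet_Box k)]
  exact Eventually.of_forall hC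

theorem smooth : StmSmooth := by
  intro h hh
  refine ⟨fun k => memLp_of_continuous (continuous_gr hh).continuousOn k, fun k ε hε => ?_⟩
  refine ⟨h, hh, fun p _ => ?_, ?_⟩
  · simp [hε.le]
  · have h1 : (fun p => gr h p - gr h p) = (0 : ℝ × ℝ → ℝ × ℝ) := by
      funext p
      simp
    rw [h1, eLpNorm_zero]
    exact zero_le

theorem contOn_Box {f : ℝ × ℝ → ℝ} {F : ℝ × ℝ → ℝ × ℝ} (hf : W2 f F) (k : ℕ) :
    ContinuousOn f (Box k) := by
  refine continuousOn_of_uniform_approx_of_continuousOn fun u hu => ?_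
  obtain ⟨ε, hε, hεu⟩ := Metric.mem_uniformity_dist.1 hu
  obtain ⟨h, hh, h1, -⟩ := hf.app k (ε / 2) (by positivity)
  refine ⟨h, hh.continuous.continuousOn, fun y hy => hεu ?_⟩
  rw [Real.dist_eq]
  have := h1 y hy
  linarith

theorem cont : StmCont := by
  intro f F hf x hx
  obtain ⟨k, hk⟩ := exists_Box hx
  -- a larger box is a neighbourhood
  have h1 : Box (k + 1) ∈ 𝓝[Qc] x := by
    have hU : IsOpen {p : ℝ × ℝ | (1 : ℝ) / ((k : ℝ) + 3) < p.1 ∧ p.1 < (k : ℝ) + 3 ∧
        p.2 < (k : ℝ) + 2} := by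
      have a1 : IsOpen {p : ℝ × ℝ | (1 : ℝ) / ((k : ℝ) + 3) < p.1} :=
        isOpen_lt continuous_const continuous_fst
      have a2 : IsOpen {p : ℝ × ℝ | p.1 < (k : ℝ) + 3} := isOpen_lt continuous_fst continuous_const
      have a3 : IsOpen {p : ℝ × ℝ | p.2 < (k : ℝ) + 2} := isOpen_lt continuous_snd continuous_const
      exact a1.inter (a2.inter a3)
    refine mem_nhdsWithin.2 ⟨_, hU, ?_, ?_⟩
    · obtain ⟨h2, h3⟩ := hk
      refine ⟨lt_of_lt_of_le ?_ h2.1, ?_, ?_⟩
      · apply one_div_lt_one_div_of_lt (by positivity)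
        linarith
      · linarith [h2.2]
      · linarith [h3.2]
    · rintro p ⟨⟨h2, h3, h4⟩, h5⟩
      refine ⟨⟨?_, ?_⟩, h5.2, ?_⟩
      · push_cast
        have e : (k : ℝ) + 1 + 2 = k + 3 := by ring
        rw [e]
        exact h2.le
      · push_cast
        linarith
      · push_cast
        linarith
  exact ((contOn_Box hf (k + 1)) x (by
    exact mem_of_mem_nhdsWithin hx h1)).mono_of_mem_nhdsWithin h1

theorem lim : StmLim := by
  intro u U f F hW hu hF hU
  refine ⟨hF, fun k ε hε => ?_⟩
  have h1 := (Metric.tendstoUniformlyOn_iff.1 (hu k)) (ε / 2) (by positivity)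
  have h2 : ∀ᶠ j in atTop, eLpNorm (fun p => U j p - F p) 3 (volume.restrict (Box k)) <
      ENNReal.ofReal (ε / 2) :=
    (tendsto_order.1 (hU k)).2 _ (ENNReal.ofReal_pos.2 (by positivity))
  obtain ⟨j, hj1, hj2⟩ := (h1.and h2).exists
  obtain ⟨h, hh, h3, h4⟩ := (hW j).app k (ε / 2) (by positivity)
  refine ⟨h, hh, fun p hp => ?_, ?_⟩
  · have h5 := hj1 p hp
    have h6 := h3 p hp
    rw [Real.dist_eq] at h5
    calc |f p - h p| = |(f p - u j p) + (u j p - h p)| := by ring_nf
      _ ≤ |f p - u j p| + |u j p - h p| := abs_add_le _ _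
      _ ≤ ε := by linarith
  · have h5 : (fun p => F p - gr h p) = (fun p => F p - U j p) + fun p => U j p - gr h p := by
      funext p
      simp
    have hg := memLp_of_continuous (continuous_gr hh).continuousOn k
    rw [h5]
    refine (eLpNorm_add_le ((hF k).sub ((hW j).mem k)).aestronglyMeasurable
      (((hW j).mem k).sub hg).aestronglyMeasurable (by norm_num)).trans ?_
    have h6 : eLpNorm (fun p => F p - U j p) 3 (volume.restrict (Box k)) ≤
        ENNReal.ofReal (ε / 2) := by
      have h7 : (fun p => F p - U j p) = -(fun p => U j p - F p) := by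
        funext p
        simp
      rw [h7, eLpNorm_neg]
      exact hj2.le
    calc _ ≤ ENNReal.ofReal (ε / 2) + ENNReal.ofReal (ε / 2) := add_le_add h6 h4
      _ = ENNReal.ofReal ε := by
        rw [← ENNReal.ofReal_add (by positivity) (by positivity)]
        congr 1
        ring

/-- a compact subset of `QQ` is contained in a box -/
theorem exists_Box_of_compact {K : Set (ℝ × ℝ)} (hK : IsCompact K) (hKQ : K ⊆ QQ) :
    ∃ k, K ⊆ Box k := by
  rcases K.eq_empty_or_nonempty with rfl | hne
  · exact ⟨0, empty_subset _⟩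
  have hc : ContinuousOn (fun p : ℝ × ℝ => max (1 / p.1) (max p.1 p.2)) K := by
    have c1 : ContinuousOn (fun p : ℝ × ℝ => 1 / p.1) K :=
      continuousOn_const.div continuous_fst.continuousOn fun p hp => (hKQ hp).1.ne'
    have c2 : ContinuousOn (fun p : ℝ × ℝ => max p.1 p.2) K :=
      (continuous_fst.max continuous_snd).continuousOn
    exact c1.sup c2
  obtain ⟨C, hC⟩ := hK.exists_bound_of_continuousOn hc
  obtain ⟨k, hk⟩ := exists_nat_ge C
  refine ⟨k, fun p hp => ?_⟩
  have h1 := (le_abs_self _).trans (hC p hp)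
  have h2 := (hKQ hp).1
  have hk1 : 1 / p.1 ≤ k := (le_max_left _ _).trans (h1.trans hk)
  have hk2 : p.1 ≤ k := (le_max_left _ _).trans ((le_max_right _ _).trans (h1.trans hk))
  have hk3 : p.2 ≤ k := (le_max_right _ _).trans ((le_max_right _ _).trans (h1.trans hk))
  refine ⟨⟨?_, by linarith⟩, (hKQ hp).2.le, by linarith⟩
  have hk0 : (0 : ℝ) < (k : ℝ) + 2 := by positivity
  rw [div_le_iff₀ hk0]
  rw [div_le_iff₀ h2] at hk1
  nlinarith

/-- integration by parts, in the direction `v`; `L` is the coordinate functional of `v` -/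
theorem weak_dir {f : ℝ × ℝ → ℝ} {F : ℝ × ℝ → ℝ × ℝ} (hf : W2 f F) {η : ℝ × ℝ → ℝ}
    (hη : ContDiff ℝ 1 η) (hc : HasCompactSupport η) (hs : tsupport η ⊆ QQ) (v : ℝ × ℝ)
    (L : ℝ × ℝ →L[ℝ] ℝ) (hL : ∀ h : ℝ × ℝ → ℝ, ∀ p, L (gr h p) = fderiv ℝ h p v) :
    ∫ p, f p * fderiv ℝ η p v = -∫ p, L (F p) * η p := by
  obtain ⟨k, hk⟩ := exists_Box_of_compact hc.isCompact hs
  have hcη : Continuous η := hη.continuous
  have hcd : Continuous fun p => fderiv ℝ η p v :=
    (hη.continuous_fderiv (by norm_num)).clm_apply continuous_const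
  obtain ⟨B, hB⟩ := hcη.bounded_above_of_compact_support hc
  have hcs' : HasCompactSupport fun p => fderiv ℝ η p v := by
    refine HasCompactSupport.intro hc.isCompact fun p hp => ?_
    have : fderiv ℝ η p = 0 := by
      by_contra h
      exact hp (support_fderiv_subset ℝ h)
    simp [this]
  have hz : ∀ p, p ∉ Box k → η p = 0 := fun p hp =>
    image_eq_zero_of_notMem_tsupport fun h => hp (hk h)
  have hz' : ∀ p, p ∉ Box k → fderiv ℝ η p v = 0 := by
    intro p hp
    have : fderiv ℝ η p = 0 := by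
      by_contra h
      exact hp (hk (support_fderiv_subset ℝ h))
    simp [this]
  have hfinK : IsFiniteMeasure (volume.restrict (Box k)) := by
    refine ⟨?_⟩
    rw [Measure.restrict_apply_univ]
    exact (isCompact_Box k).measure_lt_top
  -- integrals over the box
  have e1 : ∀ w : ℝ × ℝ → ℝ, ∫ p, w p * fderiv ℝ η p v = ∫ p in Box k, w p * fderiv ℝ η p v := by
    intro w
    refine (setIntegral_eq_integral_of_forall_compl_eq_zero fun p hp => ?_).symm
    rw [hz' p hp, mul_zero]
  have e2 : ∀ w : ℝ × ℝ → ℝ, ∫ p, w p * η p = ∫ p in Box k, w p * η p := by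
    intro w
    refine (setIntegral_eq_integral_of_forall_compl_eq_zero fun p hp => ?_).symm
    rw [hz p hp, mul_zero]
  set D : ℝ := ∫ p in Box k, |fderiv ℝ η p v| with hD
  have hD0 : 0 ≤ D := integral_nonneg fun p => abs_nonneg _
  set V : ENNReal := volume.restrict (Box k) Set.univ ^ (1 / (1 : ENNReal).toReal -
    1 / (3 : ENNReal).toReal) with hV
  have hVfin : V ≠ ⊤ := by
    refine ENNReal.rpow_ne_top_of_nonneg ?_ (measure_ne_top _ _)
    norm_num
  have hB0 : 0 ≤ B := (norm_nonneg _).trans (hB 0)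
  have key : ∀ ε : ℝ, 0 < ε →
      |(∫ p, f p * fderiv ℝ η p v) + ∫ p, L (F p) * η p| ≤ ε * (D + B * ‖L‖ * V.toReal) := by
    intro ε hε
    obtain ⟨h, hh, h1, h2⟩ := hf.app k ε hε
    have hgr := memLp_of_continuous (continuous_gr hh).continuousOn k
    have hhd : Continuous fun p => fderiv ℝ h p v :=
      (hh.continuous_fderiv (by norm_num)).clm_apply continuous_const
    have ibp : ∫ p, h p * fderiv ℝ η p v = - ∫ p, fderiv ℝ h p v * η p := by
      refine integral_mul_fderiv_eq_neg_fderiv_mul_of_integrable ?_ ?_ ?_ ?_ ?_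
      · exact (hhd.mul hcη).integrable_of_hasCompactSupport hc.mul_left
      · exact (hh.continuous.mul hcd).integrable_of_hasCompactSupport hcs'.mul_left
      · exact (hh.continuous.mul hcη).integrable_of_hasCompactSupport hc.mul_left
      · exact fun x _ => (hh.differentiable (by norm_num)) x
      · exact fun x _ => (hη.differentiable (by norm_num)) x
    have hcf := contOn_Box hf k
    have i1 : IntegrableOn (fun p => f p * fderiv ℝ η p v) (Box k) :=
      (hcf.mul hcd.continuousOn).integrableOn_compact (isCompact_Box k)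
    have i2 : IntegrableOn (fun p => h p * fderiv ℝ η p v) (Box k) :=
      (hh.continuous.mul hcd).continuousOn.integrableOn_compact (isCompact_Box k)
    have iF : Integrable F (volume.restrict (Box k)) := (hf.mem k).integrable (by norm_num)
    have ig : Integrable (gr h) (volume.restrict (Box k)) := hgr.integrable (by norm_num)
    have i3 : IntegrableOn (fun p => L (F p) * η p) (Box k) := by
      refine (L.integrable_comp iF).mul_bdd (c := B) hcη.aestronglyMeasurable (Eventually.of_forall hB)
    have i4 : IntegrableOn (fun p => fderiv ℝ h p v * η p) (Box k) :=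
      (hhd.mul hcη).continuousOn.integrableOn_compact (isCompact_Box k)
    have e3 : (∫ p, f p * fderiv ℝ η p v) + ∫ p, L (F p) * η p =
        (∫ p in Box k, (f p * fderiv ℝ η p v - h p * fderiv ℝ η p v)) +
          ∫ p in Box k, (L (F p) * η p - fderiv ℝ h p v * η p) := by
      rw [integral_sub i1 i2, integral_sub i3 i4, ← e1 f, ← e1 h, ← e2 (fun p => L (F p)),
        ← e2 (fun p => fderiv ℝ h p v), ibp]
      ring
    rw [e3]
    have b1 : |∫ p in Box k, (f p * fderiv ℝ η p v - h p * fderiv ℝ η p v)| ≤ ε * D := by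
      rw [hD, ← integral_const_mul, ← Real.norm_eq_abs]
      refine (norm_integral_le_integral_norm _).trans ?_
      refine setIntegral_mono_on (i1.sub i2).norm ?_ (measurableSet_Box k) fun p hp => ?_
      · exact (hcd.abs.continuousOn.integrableOn_compact (isCompact_Box k)).const_mul ε
      · rw [← sub_mul, norm_mul, Real.norm_eq_abs, Real.norm_eq_abs]
        exact mul_le_mul_of_nonneg_right (h1 p hp) (abs_nonneg _)
    have b2 : |∫ p in Box k, (L (F p) * η p - fderiv ℝ h p v * η p)| ≤
        ε * (B * ‖L‖ * V.toReal) := by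
      have c1 : ∫ p in Box k, ‖F p - gr h p‖ ≤ ε * V.toReal := by
        have c2 := integral_norm_eq_lintegral_enorm (μ := volume.restrict (Box k))
          (f := fun p => F p - gr h p) (iF.sub ig).aestronglyMeasurable
        rw [c2, ← eLpNorm_one_eq_lintegral_enorm]
        have c3 := eLpNorm_le_eLpNorm_mul_rpow_measure_univ (p := 1) (q := 3) (by norm_num)
          (iF.sub ig).aestronglyMeasurable
        have c4 : eLpNorm (fun p => F p - gr h p) 1 (volume.restrict (Box k)) ≤
            ENNReal.ofReal ε * V := c3.trans (by gcongr; exact h2)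
        calc _ ≤ (ENNReal.ofReal ε * V).toReal :=
              ENNReal.toReal_mono (ENNReal.mul_ne_top ENNReal.ofReal_ne_top hVfin) c4
          _ = ε * V.toReal := by
              rw [ENNReal.toReal_mul, ENNReal.toReal_ofReal hε.le]
      rw [← Real.norm_eq_abs]
      refine (norm_integral_le_integral_norm _).trans ?_
      calc ∫ p in Box k, ‖L (F p) * η p - fderiv ℝ h p v * η p‖
          ≤ ∫ p in Box k, (B * ‖L‖) * ‖F p - gr h p‖ := by
            refine integral_mono (i3.sub i4).norm ((iF.sub ig).norm.const_mul _) fun p => ?_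
            show ‖L (F p) * η p - fderiv ℝ h p v * η p‖ ≤ B * ‖L‖ * ‖F p - gr h p‖
            rw [← sub_mul, ← hL h p, ← map_sub, norm_mul]
            calc ‖L (F p - gr h p)‖ * ‖η p‖ ≤ (‖L‖ * ‖F p - gr h p‖) * B :=
                  mul_le_mul (L.le_opNorm _) (hB p) (norm_nonneg _) (by positivity)
              _ = _ := by ring
        _ = (B * ‖L‖) * ∫ p in Box k, ‖F p - gr h p‖ := integral_const_mul _ _
        _ ≤ (B * ‖L‖) * (ε * V.toReal) := mul_le_mul_of_nonneg_left c1 (by positivity)
        _ = _ := by ring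
    calc _ ≤ _ := abs_add_le _ _
      _ ≤ ε * D + ε * (B * ‖L‖ * V.toReal) := add_le_add b1 b2
      _ = _ := by ring
  have h0 : |(∫ p, f p * fderiv ℝ η p v) + ∫ p, L (F p) * η p| ≤ 0 := by
    set c := D + B * ‖L‖ * V.toReal with hcdef
    have hc0 : 0 ≤ c := by positivity
    refine le_of_forall_pos_le_add fun δ hδ => ?_
    have := key (δ / (c + 1)) (by positivity)
    rw [zero_add]
    refine this.trans ?_
    rw [div_mul_eq_mul_div, div_le_iff₀ (by positivity)]
    nlinarith
  have h1 := abs_nonpos_iff.1 h0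
  linarith

theorem weak_fst {f : ℝ × ℝ → ℝ} {F : ℝ × ℝ → ℝ × ℝ} (hf : W2 f F) {η : ℝ × ℝ → ℝ}
    (hη : ContDiff ℝ 1 η) (hc : HasCompactSupport η) (hs : tsupport η ⊆ QQ) :
    ∫ p, f p * (gr η p).1 = -∫ p, (F p).1 * η p :=
  weak_dir hf hη hc hs (1, 0) (ContinuousLinearMap.fst ℝ ℝ ℝ) fun _ _ => rfl

theorem weak_snd {f : ℝ × ℝ → ℝ} {F : ℝ × ℝ → ℝ × ℝ} (hf : W2 f F) {η : ℝ × ℝ → ℝ}
    (hη : ContDiff ℝ 1 η) (hc : HasCompactSupport η) (hs : tsupport η ⊆ QQ) :
    ∫ p, f p * (gr η p).2 = -∫ p, (F p).2 * η p :=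
  weak_dir hf hη hc hs (0, 1) (ContinuousLinearMap.snd ℝ ℝ ℝ) fun _ _ => rfl

theorem ae_mu_iff {P : ℝ × ℝ → Prop} :
    (∀ᵐ p ∂mu, P p) ↔ ∀ᵐ p ∂(volume : Measure (ℝ × ℝ)), p ∈ QQ → P p := by
  unfold mu
  rw [ae_withDensity_iff (by fun_prop), ae_restrict_iff' isOpen_QQ.measurableSet]
  constructor
  · intro h
    filter_upwards [h] with p hp hQ
    exact hp hQ (by
      have : 0 < p.1 := hQ.1
      simpa using this)
  · intro h
    filter_upwards [h] with p hp hQ _
    exact hp hQ

theorem ae_Box_of_ae_mu {P : ℝ × ℝ → Prop} (h : ∀ᵐ p ∂mu, P p) (k : ℕ) :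
    ∀ᵐ p ∂(volume.restrict (Box k)), P p :=
  (Measure.absolutelyContinuous_of_le_smul (restrict_Box_le k)).ae_le h

theorem unq : StmUnq := by
  constructor
  · intro f f' F F' hf hf' hff
    have hloc : ∀ (L : ℝ × ℝ →L[ℝ] ℝ), LocallyIntegrableOn (fun p => L (F p) - L (F' p)) QQ := by
      intro L
      rw [locallyIntegrableOn_iff isOpen_QQ.isLocallyClosed]
      intro K hK hKc
      obtain ⟨k, hk⟩ := exists_Box_of_compact hKc hK
      have hfinK : IsFiniteMeasure (volume.restrict (Box k)) := by
        refine ⟨?_⟩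
        rw [Measure.restrict_apply_univ]
        exact (isCompact_Box k).measure_lt_top
      have i1 : Integrable F (volume.restrict (Box k)) := (hf.mem k).integrable (by norm_num)
      have i2 : Integrable F' (volume.restrict (Box k)) := (hf'.mem k).integrable (by norm_num)
      have i3 : IntegrableOn (fun p => L (F p) - L (F' p)) (Box k) :=
        (L.integrable_comp i1).sub (L.integrable_comp i2)
      exact i3.mono_set hk
    have hmain : ∀ (v : ℝ × ℝ) (L : ℝ × ℝ →L[ℝ] ℝ),
        (∀ h : ℝ × ℝ → ℝ, ∀ p, L (gr h p) = fderiv ℝ h p v) →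
        ∀ᵐ p ∂(volume : Measure (ℝ × ℝ)), p ∈ QQ → L (F p) - L (F' p) = 0 := by
      intro v L hL
      refine isOpen_QQ.ae_eq_zero_of_integral_contDiff_smul_eq_zero (hloc L) ?_
      intro η hη hc hs
      have hη1 : ContDiff ℝ 1 η := hη.of_le (by exact_mod_cast le_top)
      have a1 := weak_dir hf hη1 hc hs v L hL
      have a2 := weak_dir hf' hη1 hc hs v L hL
      have a3 : ∫ p, f p * fderiv ℝ η p v = ∫ p, f' p * fderiv ℝ η p v := by
        refine integral_congr_ae (Eventually.of_forall fun p => ?_)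
        show f p * fderiv ℝ η p v = f' p * fderiv ℝ η p v
        by_cases hp : p ∈ tsupport η
        · rw [hff p (QQ_sub_Qc (hs hp))]
        · have : fderiv ℝ η p = 0 := by
            by_contra h
            exact hp (support_fderiv_subset ℝ h)
          simp [this]
      have hint : ∀ {H : ℝ × ℝ → ℝ × ℝ} {h : ℝ × ℝ → ℝ}, W2 h H →
          Integrable (fun p => L (H p) * η p) := by
        intro H h hW
        obtain ⟨k, hk⟩ := exists_Box_of_compact hc.isCompact hs
        have hfinK : IsFiniteMeasure (volume.restrict (Box k)) := by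
          refine ⟨?_⟩
          rw [Measure.restrict_apply_univ]
          exact (isCompact_Box k).measure_lt_top
        have iF : Integrable H (volume.restrict (Box k)) := (hW.mem k).integrable (by norm_num)
        obtain ⟨B, hB⟩ := hη1.continuous.bounded_above_of_compact_support hc
        have i3 : IntegrableOn (fun p => L (H p) * η p) (Box k) := by
          refine (L.integrable_comp iF).mul_bdd (c := B) hη1.continuous.aestronglyMeasurable
            (Eventually.of_forall hB)
        refine (integrableOn_iff_integrable_of_support_subset ?_).1 i3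
        intro p hp
        refine hk ?_
        by_contra h
        refine hp ?_
        show L (H p) * η p = 0
        rw [image_eq_zero_of_notMem_tsupport h, mul_zero]
      have a4 : ∫ p, η p • (L (F p) - L (F' p)) = (∫ p, L (F p) * η p) - ∫ p, L (F' p) * η p := by
        rw [← integral_sub (hint hf) (hint hf')]
        refine integral_congr_ae (Eventually.of_forall fun p => ?_)
        show η p * (L (F p) - L (F' p)) = L (F p) * η p - L (F' p) * η p
        ring
      rw [a4]
      linarith
    rw [ae_mu_iff]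
    have m1 := hmain (1, 0) (ContinuousLinearMap.fst ℝ ℝ ℝ) (fun _ _ => rfl)
    have m2 := hmain (0, 1) (ContinuousLinearMap.snd ℝ ℝ ℝ) (fun _ _ => rfl)
    filter_upwards [m1, m2] with p h1 h2 hp
    have b1 : (F p).1 - (F' p).1 = 0 := h1 hp
    have b2 : (F p).2 - (F' p).2 = 0 := h2 hp
    exact Prod.ext (by linarith) (by linarith)
  · intro f f' F F' hf hff hFF
    have hk : ∀ k, F =ᵐ[volume.restrict (Box k)] F' := fun k => ae_Box_of_ae_mu hFF k
    refine ⟨fun k => (memLp_congr_ae (hk k)).1 (hf.mem k), fun k ε hε => ?_⟩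
    obtain ⟨h, hh, h1, h2⟩ := hf.app k ε hε
    refine ⟨h, hh, fun p hp => ?_, ?_⟩
    · rw [← hff p (Box_sub k hp)]
      exact h1 p hp
    · refine le_trans (le_of_eq ?_) h2
      refine eLpNorm_congr_ae ?_
      filter_upwards [hk k] with p hp
      rw [hp]

end Pool.Agent.T6.H20.BV
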