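import Pool.Agent.T6.H20.BV.Defs

set_option autoImplicit false

/-!
# Module CLK: forward convex combinations converge in `L³`
-/

namespace Pool.Agent.T6.H20.BV

open MeasureTheory Set Filter Topology

namespace ModCLK

theorem real_ineq {p q s t : ℝ} (hp : 0 ≤ p) (hq : 0 ≤ q) (hs : 0 ≤ s) (ht : 0 ≤ t)
    (h : p ^ 2 + q ^ 2 = 2 * (s ^ 2 + t ^ 2)) : p ^ 3 + q ^ 3 ≤ 4 * (s ^ 3 + t ^ 3) := by
  have h1 : (p ^ 3 + q ^ 3) ^ 2 ≤ (p ^ 2 + q ^ 2) ^ 3 := by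
    have e : (p ^ 2 + q ^ 2) ^ 3 - (p ^ 3 + q ^ 3) ^ 2 =
        (p * q) ^ 2 * (2 * p ^ 2 + 2 * q ^ 2 + (p - q) ^ 2) := by ring
    have : 0 ≤ (p * q) ^ 2 * (2 * p ^ 2 + 2 * q ^ 2 + (p - q) ^ 2) := by positivity
    linarith
  have h2 : (s ^ 2 + t ^ 2) ^ 3 ≤ 2 * (s ^ 3 + t ^ 3) ^ 2 := by
    have e : 2 * (s ^ 3 + t ^ 3) ^ 2 - (s ^ 2 + t ^ 2) ^ 3 =
        (s - t) ^ 2 * (s ^ 4 + 2 * s ^ 3 * t + 2 * s * t ^ 3 + t ^ 4) := by ring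
    have : 0 ≤ (s - t) ^ 2 * (s ^ 4 + 2 * s ^ 3 * t + 2 * s * t ^ 3 + t ^ 4) := by positivity
    linarith
  rw [h] at h1
  have h3 : (p ^ 3 + q ^ 3) ^ 2 ≤ (4 * (s ^ 3 + t ^ 3)) ^ 2 := by nlinarith
  exact (sq_le_sq₀ (by positivity) (by positivity)).mp h3

theorem pointwise (x y : V5) : ‖x + y‖ ^ 3 + ‖x - y‖ ^ 3 ≤ 4 * (‖x‖ ^ 3 + ‖y‖ ^ 3) := by
  apply real_ineq (norm_nonneg _) (norm_nonneg _) (norm_nonneg _) (norm_nonneg _)
  have := parallelogram_law_with_norm ℝ x y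
  nlinarith

variable {μ : Measure (ℝ × ℝ)}

local instance fact3 : Fact ((1 : ENNReal) ≤ 3) := ⟨by norm_num⟩

theorem norm_cube (f : Lp V5 3 μ) : ‖f‖ ^ 3 = ∫ x, ‖f x‖ ^ 3 ∂μ := by
  have h1 := MemLp.eLpNorm_eq_integral_rpow_norm (p := 3) (by norm_num) (by norm_num) (Lp.memLp f)
  have h2 : (3 : ENNReal).toReal = (3 : ℕ) := by norm_num
  rw [h2] at h1
  simp only [Real.rpow_natCast] at h1
  have h3 : 0 ≤ ∫ x, ‖f x‖ ^ 3 ∂μ := integral_nonneg fun x => by positivity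
  rw [Lp.norm_def, h1, ENNReal.toReal_ofReal (Real.rpow_nonneg h3 _)]
  exact Real.rpow_inv_natCast_pow h3 (by norm_num)

theorem clarkson (f g : Lp V5 3 μ) :
    ‖(2 : ℝ)⁻¹ • (f + g)‖ ^ 3 + ‖(2 : ℝ)⁻¹ • (f - g)‖ ^ 3 ≤ (‖f‖ ^ 3 + ‖g‖ ^ 3) / 2 := by
  have hi : ∀ h : Lp V5 3 μ, Integrable (fun x => ‖h x‖ ^ 3) μ := by
    intro h
    have := (Lp.memLp h).integrable_norm_pow (p := 3) (by norm_num)
    exact this
  have h1 : ‖f + g‖ ^ 3 + ‖f - g‖ ^ 3 ≤ 4 * (‖f‖ ^ 3 + ‖g‖ ^ 3) := by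
    rw [norm_cube, norm_cube, norm_cube, norm_cube, ← integral_add (hi _) (hi _),
      ← integral_add (hi _) (hi _), ← integral_const_mul]
    apply integral_mono_ae ((hi _).add (hi _)) (((hi f).add (hi g)).const_mul 4)
    filter_upwards [Lp.coeFn_add f g, Lp.coeFn_sub f g] with x hx1 hx2
    rw [Pi.add_apply] at hx1
    rw [Pi.sub_apply] at hx2
    show ‖(f + g) x‖ ^ 3 + ‖(f - g) x‖ ^ 3 ≤ _
    rw [hx1, hx2]
    exact pointwise _ _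
  rw [norm_smul, norm_smul, Real.norm_of_nonneg (by norm_num)]
  nlinarith

theorem coe_sum (a : ℕ → ℝ × ℝ → V5) (ha : ∀ j, MemLp (a j) 3 μ) (w : ℕ → ℝ) (s : Finset ℕ) :
    ((∑ i ∈ s, w i • (ha i).toLp : Lp V5 3 μ) : ℝ × ℝ → V5) =ᵐ[μ] fun x => ∑ i ∈ s, w i • a i x := by
  classical
  induction s using Finset.induction with
  | empty =>
    simp only [Finset.sum_empty]
    exact Lp.coeFn_zero V5 3 μ
  | insert i s hi ih =>
    rw [Finset.sum_insert hi]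
    filter_upwards [Lp.coeFn_add (w i • (ha i).toLp) (∑ i ∈ s, w i • (ha i).toLp : Lp V5 3 μ),
      Lp.coeFn_smul (w i) (ha i).toLp, (ha i).coeFn_toLp, ih] with x h1 h2 h3 h4
    rw [h1, Pi.add_apply, h2, Pi.smul_apply, h3, h4, Finset.sum_insert hi]

/-- weights -/
theorem weights {E : Type*} [AddCommGroup E] [Module ℝ E] (A : ℕ → E) (j : ℕ) (x : E)
    (hx : x ∈ convexHull ℝ (A '' Ici j)) :
    ∃ (N : ℕ) (w : ℕ → ℝ), (∀ i, 0 ≤ w i) ∧ ∑ i ∈ Finset.Icc j N, w i = 1 ∧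
      ∑ i ∈ Finset.Icc j N, w i • A i = x := by
  classical
  obtain ⟨ι, _, w, z, hw, hw1, hz, rfl⟩ := mem_convexHull_iff_exists_fintype.mp hx
  choose g hg1 hg2 using hz
  obtain ⟨N, hN⟩ := (Set.finite_range g).bddAbove
  have hmaps : ∀ i ∈ (Finset.univ : Finset ι), g i ∈ Finset.Icc j N := fun i _ =>
    Finset.mem_Icc.mpr ⟨hg1 i, hN ⟨i, rfl⟩⟩
  refine ⟨N, fun n => ∑ i with g i = n, w i, fun n => Finset.sum_nonneg fun i _ => hw i, ?_, ?_⟩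
  · rw [Finset.sum_fiberwise_of_maps_to hmaps, hw1]
  · rw [← Finset.sum_fiberwise_of_maps_to hmaps (fun i => w i • z i)]
    refine Finset.sum_congr rfl fun n _ => ?_
    rw [Finset.sum_smul]
    refine Finset.sum_congr rfl fun i hi => ?_
    rw [← hg2 i, (Finset.mem_filter.mp hi).2]

theorem cauchy {E : Type*} [NormedAddCommGroup E] [NormedSpace ℝ E]
    (hE : ∀ x y : E, ‖(2 : ℝ)⁻¹ • (x + y)‖ ^ 3 + ‖(2 : ℝ)⁻¹ • (x - y)‖ ^ 3 ≤ (‖x‖ ^ 3 + ‖y‖ ^ 3) / 2)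
    (A : ℕ → E) (M : ℝ) (hM : ∀ j, ‖A j‖ ≤ M) :
    ∃ b : ℕ → E, (∀ j, b j ∈ convexHull ℝ (A '' Ici j)) ∧ CauchySeq b := by
  have hne : ∀ j, A j ∈ convexHull ℝ (A '' Ici j) := fun j =>
    subset_convexHull ℝ _ ⟨j, Set.mem_Ici.mpr le_rfl, rfl⟩
  have hanti : ∀ j l, j ≤ l → convexHull ℝ (A '' Ici l) ⊆ convexHull ℝ (A '' Ici j) := fun j l h =>
    convexHull_mono (Set.image_mono (Set.Ici_subset_Ici.mpr h))
  obtain ⟨δ, hδ⟩ : ∃ δ : ℕ → ℝ, δ = fun j => sInf (norm '' (convexHull ℝ (A '' Ici j))) := ⟨_, rfl⟩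
  have hbb : ∀ j, BddBelow (norm '' (convexHull ℝ (A '' Ici j))) := fun j =>
    ⟨0, by rintro _ ⟨x, _, rfl⟩; exact norm_nonneg x⟩
  have hnn : ∀ j, (norm '' (convexHull ℝ (A '' Ici j))).Nonempty := fun j => ⟨_, A j, hne j, rfl⟩
  have hδle : ∀ j, ∀ x ∈ convexHull ℝ (A '' Ici j), δ j ≤ ‖x‖ := by
    intro j x hx
    rw [hδ]
    exact csInf_le (hbb j) ⟨x, hx, rfl⟩
  have hδ0 : ∀ j, 0 ≤ δ j := by
    intro j
    rw [hδ]
    apply le_csInf (hnn j)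
    rintro _ ⟨x, _, rfl⟩
    exact norm_nonneg x
  have hδM : ∀ j, δ j ≤ M := fun j => (hδle j (A j) (hne j)).trans (hM j)
  have hmono : Monotone δ := by
    intro j l hjl
    have : δ l = sInf (norm '' (convexHull ℝ (A '' Ici l))) := by rw [hδ]
    rw [this]
    apply le_csInf (hnn l)
    rintro _ ⟨x, hx, rfl⟩
    exact hδle j x (hanti j l hjl hx)
  have hb : ∀ j : ℕ, ∃ x ∈ convexHull ℝ (A '' Ici j), ‖x‖ < δ j + 1 / ((j : ℝ) + 1) := by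
    intro j
    have h1 : sInf (norm '' (convexHull ℝ (A '' Ici j))) < δ j + 1 / ((j : ℝ) + 1) := by
      rw [hδ]
      have : (0 : ℝ) < 1 / ((j : ℝ) + 1) := by positivity
      simp only
      linarith
    obtain ⟨_, ⟨x, hx, rfl⟩, hlt⟩ := exists_lt_of_csInf_lt (hnn j) h1
    exact ⟨x, hx, hlt⟩
  choose b hb1 hb2 using hb
  refine ⟨b, hb1, ?_⟩
  have hlim := tendsto_atTop_ciSup hmono ⟨M, by rintro _ ⟨j, rfl⟩; exact hδM j⟩
  obtain ⟨D, hD⟩ : ∃ D, D = ⨆ i, δ i := ⟨_, rfl⟩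
  rw [← hD] at hlim
  have hδD : ∀ j, δ j ≤ D := fun j => by
    rw [hD]
    exact le_ciSup (f := δ) ⟨M, by rintro _ ⟨j, rfl⟩; exact hδM j⟩ j
  have hη : Tendsto (fun j : ℕ => 2 * ((D + 1 / ((j : ℝ) + 1)) ^ 3 - δ j ^ 3) ^ ((1 : ℝ) / 3)) atTop
      (𝓝 0) := by
    have h1 : Tendsto (fun j : ℕ => (D + 1 / ((j : ℝ) + 1)) ^ 3 - δ j ^ 3) atTop
        (𝓝 ((D + 0) ^ 3 - D ^ 3)) :=
      ((tendsto_const_nhds.add tendsto_one_div_add_atTop_nhds_zero_nat).pow 3).sub (hlim.pow 3)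
    rw [add_zero, sub_self] at h1
    have h2 := ((Real.continuousAt_rpow_const 0 ((1 : ℝ) / 3) (Or.inr (by norm_num))).tendsto.comp
      h1).const_mul 2
    rw [Real.zero_rpow (by norm_num), mul_zero] at h2
    exact h2
  refine cauchySeq_of_le_tendsto_0' _ (fun j l hjl => ?_) hη
  rw [dist_eq_norm]
  have hjp : (0 : ℝ) < (j : ℝ) + 1 := by positivity
  have hlj : 1 / ((l : ℝ) + 1) ≤ 1 / ((j : ℝ) + 1) := by
    apply one_div_le_one_div_of_le hjp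
    have : (j : ℝ) ≤ l := by exact_mod_cast hjl
    linarith
  have h1 : ‖b j‖ ≤ D + 1 / ((j : ℝ) + 1) := (hb2 j).le.trans (by linarith [hδD j])
  have h2 : ‖b l‖ ≤ D + 1 / ((j : ℝ) + 1) := (hb2 l).le.trans (by linarith [hδD l])
  have h3 : δ j ≤ ‖(2 : ℝ)⁻¹ • (b j + b l)‖ := by
    apply hδle j
    have hl : b l ∈ convexHull ℝ (A '' Ici j) := hanti j l hjl (hb1 l)
    have := (convex_convexHull ℝ (A '' Ici j)) (hb1 j) hl (a := 2⁻¹) (b := 2⁻¹) (by norm_num)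
      (by norm_num) (by norm_num)
    rw [smul_add]
    exact this
  have h4 : ‖b j‖ ^ 3 ≤ (D + 1 / ((j : ℝ) + 1)) ^ 3 := pow_le_pow_left₀ (norm_nonneg _) h1 3
  have h5 : ‖b l‖ ^ 3 ≤ (D + 1 / ((j : ℝ) + 1)) ^ 3 := pow_le_pow_left₀ (norm_nonneg _) h2 3
  have h6 : δ j ^ 3 ≤ ‖(2 : ℝ)⁻¹ • (b j + b l)‖ ^ 3 := pow_le_pow_left₀ (hδ0 j) h3 3
  have h7 := hE (b j) (b l)
  have h8 : ‖(2 : ℝ)⁻¹ • (b j - b l)‖ ^ 3 ≤ (D + 1 / ((j : ℝ) + 1)) ^ 3 - δ j ^ 3 := by linarith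
  have h9 : ‖(2 : ℝ)⁻¹ • (b j - b l)‖ ≤ ((D + 1 / ((j : ℝ) + 1)) ^ 3 - δ j ^ 3) ^ ((1 : ℝ) / 3) := by
    have e : ‖(2 : ℝ)⁻¹ • (b j - b l)‖ = (‖(2 : ℝ)⁻¹ • (b j - b l)‖ ^ 3) ^ ((1 : ℝ) / 3) := by
      rw [one_div]
      exact (Real.pow_rpow_inv_natCast (norm_nonneg _) (by norm_num)).symm
    rw [e]
    exact Real.rpow_le_rpow (by positivity) h8 (by norm_num)
  rw [norm_smul, Real.norm_of_nonneg (by norm_num)] at h9
  linarith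

end ModCLK

open ModCLK in
theorem clk : StmCLK := by
  intro μ a M hM ha haM
  have : Fact ((1 : ENNReal) ≤ 3) := ⟨by norm_num⟩
  have hA : ∀ j, ‖((ha j).toLp : Lp V5 3 μ)‖ = (eLpNorm (a j) 3 μ).toReal := fun j =>
    Lp.norm_toLp (a j) (ha j)
  obtain ⟨b, hb, hc⟩ := cauchy (E := Lp V5 3 μ) clarkson (fun j => (ha j).toLp) M.toReal (by
    intro j
    rw [hA j]
    exact ENNReal.toReal_mono hM (haM j))
  obtain ⟨B, hB⟩ := cauchySeq_tendsto_of_complete hc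
  choose N w hw hw1 hw2 using fun j => weights _ j (b j) (hb j)
  refine ⟨N, w, B, hw, hw1, Lp.memLp B, ?_, ?_⟩
  · have h1 : ∀ j, eLpNorm (fun x => (∑ i ∈ Finset.Icc j (N j), w j i • a i x) - B x) 3 μ =
        ENNReal.ofReal ‖b j - B‖ := by
      intro j
      rw [Lp.norm_def, ENNReal.ofReal_toReal (Lp.eLpNorm_ne_top _)]
      apply eLpNorm_congr_ae
      filter_upwards [Lp.coeFn_sub (b j) B, coe_sum a ha (w j) (Finset.Icc j (N j))] with x h2 h3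
      rw [h2, Pi.sub_apply, ← hw2 j, h3]
    simp_rw [h1]
    have h2 : Tendsto (fun j => ‖b j - B‖) atTop (𝓝 0) := tendsto_iff_norm_sub_tendsto_zero.mp hB
    have h3 := ENNReal.tendsto_ofReal h2
    rw [ENNReal.ofReal_zero] at h3
    exact h3
  · rintro M' ⟨j₀, hj₀⟩
    by_cases hM' : M' = ⊤
    · rw [hM']
      exact le_top
    have h1 : ∀ j, j₀ ≤ j → ‖b j‖ ≤ M'.toReal := by
      intro j hj
      have h2 : convexHull ℝ ((fun j => ((ha j).toLp : Lp V5 3 μ)) '' Ici j) ⊆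
          Metric.closedBall 0 M'.toReal := by
        apply convexHull_min _ (convex_closedBall _ _)
        rintro _ ⟨i, hi, rfl⟩
        rw [mem_closedBall_zero_iff]
        simp only
        rw [hA i]
        exact ENNReal.toReal_mono hM' (hj₀ i (hj.trans hi))
      exact mem_closedBall_zero_iff.mp (h2 (hb j))
    have h2 : ‖B‖ ≤ M'.toReal := le_of_tendsto hB.norm (Filter.eventually_atTop.mpr ⟨j₀, h1⟩)
    have h3 : eLpNorm B 3 μ = ENNReal.ofReal ‖B‖ := by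
      rw [Lp.norm_def, ENNReal.ofReal_toReal (Lp.eLpNorm_ne_top _)]
    rw [h3]
    exact ENNReal.ofReal_le_of_le_toReal h2

end Pool.Agent.T6.H20.BV
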