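import Pool.Agent.T6.H20.BV.Defs

/-!
# Project BV, module CMP (helper82): the explicit competitor
-/

set_option autoImplicit false

namespace Pool.Agent.T6.H20.BV

open MeasureTheory Set Filter Topology Pool.Agent.T6.H20.BU

namespace CMPx

/-- `1 + r² + z²` -/
noncomputable def D (p : ℝ × ℝ) : ℝ := 1 + p.1 ^ 2 + p.2 ^ 2

/-- `2 r / D` -/
noncomputable def v (p : ℝ × ℝ) : ℝ := 2 * p.1 / D p

/-- `2 / D - 1` -/
noncomputable def u (p : ℝ × ℝ) : ℝ := (1 - p.1 ^ 2 - p.2 ^ 2) / D p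

/-- the first component -/
noncomputable def f (p : ℝ × ℝ) : ℝ := v p ^ 2

/-- the second component -/
noncomputable def g (p : ℝ × ℝ) : ℝ := u p * Real.sqrt (1 + v p ^ 2)

lemma D_pos (p : ℝ × ℝ) : 0 < D p := by unfold D; positivity

lemma D_ne (p : ℝ × ℝ) : D p ≠ 0 := (D_pos p).ne'

lemma D_cd : ContDiff ℝ 1 D := by unfold D; fun_prop

lemma v_cd : ContDiff ℝ 1 v := by
  unfold v
  exact (contDiff_const.mul contDiff_fst).div D_cd D_ne

lemma u_cd : ContDiff ℝ 1 u := by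
  unfold u
  exact ((contDiff_const.sub (contDiff_fst.pow 2)).sub (contDiff_snd.pow 2)).div D_cd D_ne

lemma f_cd : ContDiff ℝ 1 f := by
  unfold f
  exact v_cd.pow 2

lemma g_cd : ContDiff ℝ 1 g := by
  unfold g
  exact u_cd.mul (((contDiff_const.add (v_cd.pow 2))).sqrt (fun p => by positivity))

/-- the gradient is computed from two one-dimensional derivatives -/
lemma gr_eq {h : ℝ × ℝ → ℝ} {p : ℝ × ℝ} {a b : ℝ} (hd : DifferentiableAt ℝ h p)
    (ha : HasDerivAt (fun t => h (t, p.2)) a p.1) (hb : HasDerivAt (fun t => h (p.1, t)) b p.2) :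
    gr h p = (a, b) := by
  have h1 : HasDerivAt (fun t : ℝ => ((t, p.2) : ℝ × ℝ)) (1, 0) p.1 :=
    (hasDerivAt_id p.1).prodMk (hasDerivAt_const p.1 p.2)
  have h2 : HasDerivAt (fun t : ℝ => ((p.1, t) : ℝ × ℝ)) (0, 1) p.2 :=
    (hasDerivAt_const p.2 p.1).prodMk (hasDerivAt_id p.2)
  have h1' := (HasFDerivAt.comp_hasDerivAt (x := p.1) (f := fun t : ℝ => ((t, p.2) : ℝ × ℝ))
    (l := h) (l' := fderiv ℝ h p) hd.hasFDerivAt h1)
  have h2' := (HasFDerivAt.comp_hasDerivAt (x := p.2) (f := fun t : ℝ => ((p.1, t) : ℝ × ℝ))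
    (l := h) (l' := fderiv ℝ h p) hd.hasFDerivAt h2)
  unfold gr
  rw [Prod.mk.injEq]
  exact ⟨h1'.unique ha, h2'.unique hb⟩

lemma D_r (p : ℝ × ℝ) : HasDerivAt (fun t => D (t, p.2)) (2 * p.1) p.1 := by
  have := ((hasDerivAt_id p.1).pow 2).const_add 1 |>.add_const (p.2 ^ 2)
  simpa [D] using this

lemma D_z (p : ℝ × ℝ) : HasDerivAt (fun t => D (p.1, t)) (2 * p.2) p.2 := by
  have := ((hasDerivAt_id p.2).pow 2).const_add (1 + p.1 ^ 2)
  simpa [D] using this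

lemma v_r (p : ℝ × ℝ) :
    HasDerivAt (fun t => v (t, p.2)) (2 / D p - 4 * p.1 ^ 2 / D p ^ 2) p.1 := by
  have h := ((hasDerivAt_id p.1).const_mul 2).div (D_r p) (D_ne _)
  have hD := D_ne p
  refine h.congr_deriv ?_
  simp only [id]
  field_simp
  ring

lemma v_z (p : ℝ × ℝ) :
    HasDerivAt (fun t => v (p.1, t)) (-(4 * p.1 * p.2) / D p ^ 2) p.2 := by
  have h := (hasDerivAt_const p.2 (2 * p.1)).div (D_z p) (D_ne _)
  have hD := D_ne p
  refine h.congr_deriv ?_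
  field_simp
  ring

lemma u_eq (p : ℝ × ℝ) : u p = 2 / D p - 1 := by
  have hD := D_ne p
  unfold u
  rw [eq_sub_iff_add_eq, div_add_one hD]
  congr 1
  unfold D; ring

lemma u_r (p : ℝ × ℝ) :
    HasDerivAt (fun t => u (t, p.2)) (-(4 * p.1) / D p ^ 2) p.1 := by
  have h := ((hasDerivAt_const p.1 (2 : ℝ)).div (D_r p) (D_ne _)).sub_const 1
  have hD := D_ne p
  refine (h.congr_deriv ?_).congr_of_eventuallyEq (Eventually.of_forall fun t => ?_)
  · field_simp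
    ring
  · exact u_eq _

lemma u_z (p : ℝ × ℝ) :
    HasDerivAt (fun t => u (p.1, t)) (-(4 * p.2) / D p ^ 2) p.2 := by
  have h := ((hasDerivAt_const p.2 (2 : ℝ)).div (D_z p) (D_ne _)).sub_const 1
  have hD := D_ne p
  refine (h.congr_deriv ?_).congr_of_eventuallyEq (Eventually.of_forall fun t => ?_)
  · field_simp
    ring
  · exact u_eq _

lemma abs_div_le {a b : ℝ} {p : ℝ × ℝ} (h : |a| * D p ≤ b * D p ^ 2) : |a / D p ^ 2| ≤ b / D p := by
  have hD := D_pos p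
  rw [abs_div, abs_of_pos (pow_pos hD 2), div_le_div_iff₀ (pow_pos hD 2) hD]
  exact h

lemma v_abs (p : ℝ × ℝ) : |v p| ≤ 1 := by
  have hD := D_pos p
  unfold v
  rw [abs_div, abs_of_pos hD, div_le_one hD]
  unfold D
  rw [abs_le]
  constructor <;> nlinarith [sq_nonneg (p.1 + 1), sq_nonneg (p.1 - 1), sq_nonneg p.2]

lemma u_abs (p : ℝ × ℝ) : |u p| ≤ 1 := by
  have hD := D_pos p
  unfold u
  rw [abs_div, abs_of_pos hD, div_le_one hD]
  unfold D
  rw [abs_le]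
  constructor <;> nlinarith [sq_nonneg p.1, sq_nonneg p.2]

lemma vr_abs (p : ℝ × ℝ) : |2 / D p - 4 * p.1 ^ 2 / D p ^ 2| ≤ 2 / D p := by
  have hD := D_pos p
  have e : 2 / D p - 4 * p.1 ^ 2 / D p ^ 2 = (2 * D p - 4 * p.1 ^ 2) / D p ^ 2 := by
    field_simp
  rw [e]
  apply abs_div_le
  have : |2 * D p - 4 * p.1 ^ 2| ≤ 2 * D p := by
    rw [abs_le]
    constructor <;> unfold D <;> nlinarith [sq_nonneg p.1, sq_nonneg p.2]
  nlinarith

lemma vz_abs (p : ℝ × ℝ) : |-(4 * p.1 * p.2) / D p ^ 2| ≤ 2 / D p := by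
  have hD := D_pos p
  apply abs_div_le
  have : |-(4 * p.1 * p.2)| ≤ 2 * D p := by
    rw [abs_le]
    constructor <;> unfold D <;> nlinarith [sq_nonneg (p.1 + p.2), sq_nonneg (p.1 - p.2)]
  nlinarith

lemma ur_abs (p : ℝ × ℝ) : |-(4 * p.1) / D p ^ 2| ≤ 2 / D p := by
  have hD := D_pos p
  apply abs_div_le
  have : |-(4 * p.1)| ≤ 2 * D p := by
    rw [abs_le]
    constructor <;> unfold D <;>
      nlinarith [sq_nonneg (p.1 + 1), sq_nonneg (p.1 - 1), sq_nonneg p.2]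
  nlinarith

lemma uz_abs (p : ℝ × ℝ) : |-(4 * p.2) / D p ^ 2| ≤ 2 / D p := by
  have hD := D_pos p
  apply abs_div_le
  have : |-(4 * p.2)| ≤ 2 * D p := by
    rw [abs_le]
    constructor <;> unfold D <;>
      nlinarith [sq_nonneg (p.2 + 1), sq_nonneg (p.2 - 1), sq_nonneg p.1]
  nlinarith

/-- bound of a derivative of `f` -/
lemma f_der {y y' c : ℝ} (hy : |y| ≤ 1) (hy' : |y'| ≤ c) : |2 * y * y'| ≤ 2 * c := by
  have hc : 0 ≤ c := (abs_nonneg _).trans hy'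
  rw [abs_mul, abs_mul, abs_two]
  calc 2 * |y| * |y'| ≤ 2 * 1 * c := by gcongr
    _ = 2 * c := by ring

lemma sqrt_bd {y : ℝ} (hy : |y| ≤ 1) : Real.sqrt (1 + y ^ 2) ≤ 2 := by
  rw [Real.sqrt_le_left (by norm_num)]
  nlinarith [abs_le.1 hy, sq_abs y, abs_nonneg y]

lemma sqrt_lb (y : ℝ) : 1 ≤ Real.sqrt (1 + y ^ 2) := by
  rw [Real.one_le_sqrt]
  nlinarith [sq_nonneg y]

/-- bound of a derivative of `g` -/
lemma g_der {x x' y y' c : ℝ} (hx : |x| ≤ 1) (hx' : |x'| ≤ c) (hy : |y| ≤ 1) (hy' : |y'| ≤ c) :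
    |x' * Real.sqrt (1 + y ^ 2) + x * (2 * y * y' / (2 * Real.sqrt (1 + y ^ 2)))| ≤ 3 * c := by
  have hc : 0 ≤ c := (abs_nonneg _).trans hy'
  have h1 := sqrt_lb y
  have h2 := sqrt_bd hy
  have h3 : |2 * y * y' / (2 * Real.sqrt (1 + y ^ 2))| ≤ c := by
    rw [abs_div, abs_of_pos (by positivity : 0 < 2 * Real.sqrt (1 + y ^ 2)), div_le_iff₀ (by positivity)]
    have := f_der hy hy'
    nlinarith
  calc |x' * Real.sqrt (1 + y ^ 2) + x * (2 * y * y' / (2 * Real.sqrt (1 + y ^ 2)))|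
      ≤ |x' * Real.sqrt (1 + y ^ 2)| + |x * (2 * y * y' / (2 * Real.sqrt (1 + y ^ 2)))| :=
        abs_add_le _ _
    _ = |x'| * Real.sqrt (1 + y ^ 2) + |x| * |2 * y * y' / (2 * Real.sqrt (1 + y ^ 2))| := by
        rw [abs_mul, abs_mul, abs_of_nonneg (Real.sqrt_nonneg _)]
    _ ≤ c * 2 + 1 * c := by gcongr
    _ = 3 * c := by ring

lemma gr_f (p : ℝ × ℝ) : |(gr f p).1| ≤ 6 / D p ∧ |(gr f p).2| ≤ 6 / D p := by
  have hD := D_pos p
  have h := gr_eq (h := f) (p := p) (f_cd.differentiable one_ne_zero p)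
    (((v_r p).pow 2)) ((v_z p).pow 2)
  rw [h]
  have hb : 2 * (2 / D p) ≤ 6 / D p := by
    rw [show 2 * (2 / D p) = 4 / D p by ring]; gcongr; norm_num
  constructor
  · have := f_der (v_abs p) (vr_abs p)
    simp only [Nat.cast_ofNat, Nat.add_one_sub_one, pow_one]
    exact this.trans hb
  · have := f_der (v_abs p) (vz_abs p)
    simp only [Nat.cast_ofNat, Nat.add_one_sub_one, pow_one]
    exact this.trans hb

lemma gr_g (p : ℝ × ℝ) : |(gr g p).1| ≤ 6 / D p ∧ |(gr g p).2| ≤ 6 / D p := by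
  have hD := D_pos p
  have hpos : ∀ q, 1 + v q ^ 2 ≠ 0 := fun q => by positivity
  have h := gr_eq (h := g) (p := p) (g_cd.differentiable one_ne_zero p)
    ((u_r p).mul ((((v_r p).pow 2).const_add 1).sqrt (hpos _)))
    ((u_z p).mul ((((v_z p).pow 2).const_add 1).sqrt (hpos _)))
  rw [h]
  have hb : 3 * (2 / D p) ≤ 6 / D p := le_of_eq (by ring)
  constructor
  · have := g_der (u_abs p) (ur_abs p) (v_abs p) (vr_abs p)
    simp only [Nat.cast_ofNat, Nat.add_one_sub_one, pow_one]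
    exact this.trans hb
  · have := g_der (u_abs p) (uz_abs p) (v_abs p) (vz_abs p)
    simp only [Nat.cast_ofNat, Nat.add_one_sub_one, pow_one]
    exact this.trans hb

lemma f_div (p : ℝ × ℝ) : |2 * f p / p.1| ≤ 6 / D p := by
  have hD := D_pos p
  rcases eq_or_ne p.1 0 with h0 | h0
  · rw [h0, div_zero, abs_zero]; positivity
  · have e : 2 * f p / p.1 = 8 * p.1 / D p ^ 2 := by
      unfold f v
      field_simp
      ring
    rw [e]
    have h : |8 * p.1 / D p ^ 2| ≤ 4 / D p := by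
      apply abs_div_le
      have : |8 * p.1| ≤ 4 * D p := by
        rw [abs_le]
        constructor <;> unfold D <;>
          nlinarith [sq_nonneg (p.1 + 1), sq_nonneg (p.1 - 1), sq_nonneg p.2]
      nlinarith
    refine h.trans ?_
    gcongr
    norm_num

lemma av_norm (p : ℝ × ℝ) : ‖av f (gr f) (gr g) p‖ ≤ 14 / D p := by
  have hD := D_pos p
  have hc : 0 ≤ 6 / D p := by positivity
  have hsq : ∀ {a c : ℝ}, |a| ≤ c → a ^ 2 ≤ c ^ 2 := fun {a c} h => by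
    rw [← sq_abs]; exact pow_le_pow_left₀ (abs_nonneg _) h 2
  rw [EuclideanSpace.norm_eq, Real.sqrt_le_left (by positivity), Fin.sum_univ_five]
  have e1 := hsq (gr_f p).1
  have e2 := hsq (gr_f p).2
  have e3 := hsq (gr_g p).1
  have e4 := hsq (gr_g p).2
  have e5 := hsq (f_div p)
  have e6 : (14 / D p) ^ 2 = 196 * (1 / D p) ^ 2 := by ring
  have e7 : (6 / D p) ^ 2 = 36 * (1 / D p) ^ 2 := by ring
  rw [e6]
  rw [e7] at e1 e2 e3 e4 e5
  simp only [av, Real.norm_eq_abs, sq_abs]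
  have e8 : 0 ≤ (1 / D p) ^ 2 := by positivity
  simp
  simp at e1 e2 e3 e4 e5 e8
  nlinarith

lemma meas_gr {h : ℝ × ℝ → ℝ} (hh : ContDiff ℝ 1 h) : Measurable (gr h) := by
  have hc : Continuous (fderiv ℝ h) := hh.continuous_fderiv one_ne_zero
  have : Continuous (gr h) := by
    unfold gr
    exact (hc.clm_apply continuous_const).prodMk (hc.clm_apply continuous_const)
  exact this.measurable

lemma meas_av {f : ℝ × ℝ → ℝ} {F G : ℝ × ℝ → ℝ × ℝ} (hf : Measurable f) (hF : Measurable F)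
    (hG : Measurable G) : Measurable (av f F G) := by
  unfold av
  have : Measurable (fun p : ℝ × ℝ => (![(F p).1, (F p).2, (G p).1, (G p).2, 2 * f p / p.1] :
      Fin 5 → ℝ)) := by
    rw [measurable_pi_iff]
    intro i
    fin_cases i
    · exact hF.fst
    · exact hF.snd
    · exact hG.fst
    · exact hG.snd
    · exact (hf.const_mul 2).div measurable_fst
  exact (WithLp.measurable_toLp 2 (Fin 5 → ℝ)).comp this

lemma ineq (p : ℝ × ℝ) (hp : 0 < p.1) :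
    (14 / D p) ^ 3 * p.1 ≤ 14 ^ 3 * 8 * (1 + ‖p‖) ^ (-(5 : ℝ)) := by
  have hw : 0 < 1 + ‖p‖ := by positivity
  have h1 : p.1 ≤ 1 + ‖p‖ := by
    have := norm_fst_le p
    rw [Real.norm_eq_abs] at this
    linarith [le_abs_self p.1]
  have h2 : (1 + ‖p‖) ^ 2 / 2 ≤ D p := by
    have h3 : ‖p‖ ^ 2 ≤ p.1 ^ 2 + p.2 ^ 2 := by
      rw [Prod.norm_def]
      rcases max_choice ‖p.1‖ ‖p.2‖ with h | h <;> rw [h, Real.norm_eq_abs, sq_abs] <;>
        nlinarith [sq_nonneg p.1, sq_nonneg p.2]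
    unfold D
    nlinarith [sq_nonneg (1 - ‖p‖)]
  have h4 : (1 + ‖p‖) ^ (-(5 : ℝ)) = ((1 + ‖p‖) ^ 5)⁻¹ := by
    rw [Real.rpow_neg hw.le]
    congr 1
    exact_mod_cast Real.rpow_natCast (1 + ‖p‖) 5
  rw [h4]
  have hD : 0 ≤ 14 / D p := div_nonneg (by norm_num) (D_pos p).le
  calc (14 / D p) ^ 3 * p.1 ≤ (14 / ((1 + ‖p‖) ^ 2 / 2)) ^ 3 * (1 + ‖p‖) := by gcongr
    _ = 14 ^ 3 * 8 * ((1 + ‖p‖) ^ 5)⁻¹ := by
      field_simp
      ring

lemma memLp_av : MemLp (av f (gr f) (gr g)) 3 mu := by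
  have hm : Measurable (av f (gr f) (gr g)) :=
    meas_av f_cd.continuous.measurable (meas_gr f_cd) (meas_gr g_cd)
  rw [← integrable_norm_rpow_iff hm.aestronglyMeasurable (by norm_num) (by norm_num)]
  unfold mu
  rw [integrable_withDensity_iff (by fun_prop) (Eventually.of_forall fun _ => ENNReal.ofReal_lt_top)]
  have hi : Integrable (fun p : ℝ × ℝ => 14 ^ 3 * 8 * (1 + ‖p‖) ^ (-(5 : ℝ)))
      (volume.restrict QQ) := by
    refine Integrable.restrict ?_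
    refine Integrable.const_mul ?_ _
    refine integrable_one_add_norm ?_
    simp
    norm_num
  have hQ : MeasurableSet QQ :=
    (measurableSet_lt measurable_const measurable_fst).inter
      (measurableSet_lt measurable_const measurable_snd)
  refine hi.mono' ?_ ?_
  · refine Measurable.aestronglyMeasurable ?_
    exact (hm.norm.pow_const _).mul (by fun_prop)
  · refine (ae_restrict_iff' hQ).2 (Eventually.of_forall fun p hp => ?_)
    rw [ENNReal.toReal_ofReal hp.1.le, Real.norm_eq_abs, abs_of_nonneg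
      (mul_nonneg (Real.rpow_nonneg (norm_nonneg _) _) hp.1.le)]
    refine le_trans ?_ (ineq p hp.1)
    have e : ENNReal.toReal 3 = ((3 : ℕ) : ℝ) := by norm_num
    rw [e, Real.rpow_natCast]
    exact mul_le_mul_of_nonneg_right (pow_le_pow_left₀ (norm_nonneg _) (av_norm p) 3) hp.1.le

lemma vJ (p : ℝ × ℝ) (hp : p ∈ Qc) : v (JJ p) = v p := by
  have h1 : 0 < p.1 := hp.1
  have hs : 0 < p.1 ^ 2 + p.2 ^ 2 := by positivity
  unfold v D JJ
  simp only
  have h2 : 1 + (p.1 / (p.1 ^ 2 + p.2 ^ 2)) ^ 2 + (p.2 / (p.1 ^ 2 + p.2 ^ 2)) ^ 2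
      = (1 + p.1 ^ 2 + p.2 ^ 2) / (p.1 ^ 2 + p.2 ^ 2) := by
    field_simp
    ring
  rw [h2]
  have h3 : 0 < 1 + p.1 ^ 2 + p.2 ^ 2 := by positivity
  field_simp

lemma uJ (p : ℝ × ℝ) (hp : p ∈ Qc) : u (JJ p) = -u p := by
  have h1 : 0 < p.1 := hp.1
  have hs : 0 < p.1 ^ 2 + p.2 ^ 2 := by positivity
  rw [u_eq, u_eq]
  unfold D JJ
  simp only
  have h2 : 1 + (p.1 / (p.1 ^ 2 + p.2 ^ 2)) ^ 2 + (p.2 / (p.1 ^ 2 + p.2 ^ 2)) ^ 2
      = (1 + p.1 ^ 2 + p.2 ^ 2) / (p.1 ^ 2 + p.2 ^ 2) := by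
    field_simp
    ring
  rw [h2]
  have h3 : 0 < 1 + p.1 ^ 2 + p.2 ^ 2 := by positivity
  field_simp
  ring

lemma bdyx (r : ℝ) : u (r, 0) ^ 2 + v (r, 0) ^ 2 = 1 := by
  unfold u v D
  simp only
  have : 0 < 1 + r ^ 2 + 0 ^ 2 := by positivity
  field_simp
  ring

end CMPx

open CMPx in
theorem cmp (hS : StmSmooth) : StmCMP := by
  refine ⟨f, g, gr f, gr g, hS f f_cd, hS g g_cd, memLp_av, ?_, ?_, ?_⟩
  · intro r _
    have h := bdyx r
    have h2 : 0 ≤ 1 + v (r, 0) ^ 2 := by positivity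
    unfold f g
    rw [mul_pow, Real.sq_sqrt h2]
    have h3 : u (r, 0) ^ 2 = 1 - v (r, 0) ^ 2 := by linarith
    rw [h3]; ring
  · intro p hp
    unfold f
    rw [vJ p hp]
  · intro p hp
    unfold g
    rw [vJ p hp, uJ p hp]; ring

end Pool.Agent.T6.H20.BV
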