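import Pool.Agent.T6.H20.BV.Defs

set_option autoImplicit false

/-!
# Module COV: cylindrical and polar coordinates
-/

namespace Pool.Agent.T6.H20.BV

open MeasureTheory Set Filter Topology Pool.Agent.T6.H20.BU

namespace ModCOV

/-- polar coordinates of the plane -/
noncomputable def PP (q : ℝ × ℝ) : ℝ × ℝ := (q.1 * Real.cos q.2, q.1 * Real.sin q.2)

theorem PP_meas : Measurable PP := by
  unfold PP
  fun_prop

/-- the measure `r dr` -/
noncomputable def A1 : Measure ℝ := (volume.restrict (Ioi 0)).withDensity ENNReal.ofReal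

instance : SFinite A1 := by
  unfold A1
  infer_instance

theorem pp_pres : MeasurePreserving PP (A1.prod (volume.restrict An)) volume := by
  refine ⟨PP_meas, ?_⟩
  have h1 : A1.prod (volume.restrict An) =
      ((volume : Measure (ℝ × ℝ)).restrict polarCoord.target).withDensity
        (fun z => ENNReal.ofReal z.1) := by
    unfold A1
    rw [prod_withDensity_left ENNReal.measurable_ofReal, Measure.prod_restrict]
    rfl
  rw [h1]
  ext s hs
  rw [Measure.map_apply PP_meas hs, withDensity_apply _ (PP_meas hs),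
    ← lintegral_indicator (PP_meas hs)]
  have h2 := lintegral_comp_polarCoord_symm (s.indicator 1)
  rw [lintegral_indicator_one hs] at h2
  rw [← h2]
  refine lintegral_congr fun p => ?_
  have h3 : polarCoord.symm p = PP p := rfl
  rw [h3]
  by_cases hp : PP p ∈ s
  · have hp' : p ∈ PP ⁻¹' s := hp
    rw [Set.indicator_of_mem hp', Set.indicator_of_mem hp]
    simp
  · have hp' : p ∉ PP ⁻¹' s := hp
    rw [Set.indicator_of_notMem hp', Set.indicator_of_notMem hp]
    simp

theorem two_pres : MeasurePreserving (fun q : ℝ × ℝ => (![q.1, q.2] : Fin 2 → ℝ)) volume volume :=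
  (volume_preserving_finTwoArrow ℝ).symm _

theorem three_pres : MeasurePreserving (fun q : (ℝ × ℝ) × ℝ => (![q.1.1, q.1.2, q.2] : Fin 3 → ℝ))
    ((volume : Measure (ℝ × ℝ)).prod (volume : Measure ℝ)) volume := by
  have h1 := (volume_preserving_piFinSuccAbove (fun _ : Fin (2 + 1) => ℝ) (Fin.last 2)).symm _
  have h2 : MeasurePreserving (Prod.map id (fun q : ℝ × ℝ => (![q.1, q.2] : Fin 2 → ℝ)))
      ((volume : Measure ℝ).prod (volume : Measure (ℝ × ℝ))) (volume.prod volume) :=
    (MeasurePreserving.id _).prod two_pres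
  have h3 : MeasurePreserving Prod.swap ((volume : Measure (ℝ × ℝ)).prod (volume : Measure ℝ))
      (volume.prod volume) := Measure.measurePreserving_swap
  have h4 := h1.comp (h2.comp h3)
  have e : (fun q : (ℝ × ℝ) × ℝ => (![q.1.1, q.1.2, q.2] : Fin 3 → ℝ)) =
      (MeasurableEquiv.piFinSuccAbove (fun _ : Fin (2 + 1) => ℝ) (Fin.last 2)).symm ∘
        (Prod.map id (fun q : ℝ × ℝ => (![q.1, q.2] : Fin 2 → ℝ))) ∘ Prod.swap := by
    funext q
    ext i
    fin_cases i
    · rfl
    · rfl
    · rfl
  rw [e]
  exact h4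

end ModCOV

open ModCOV in
theorem cov : StmCOV := by
  constructor
  · -- cylindrical coordinates
    have hmu : mu = A1.prod (volume.restrict (Ioi (0 : ℝ))) := by
      have hQ : QQ = Ioi (0 : ℝ) ×ˢ Ioi (0 : ℝ) := rfl
      unfold mu A1
      rw [prod_withDensity_left ENNReal.measurable_ofReal, Measure.prod_restrict, hQ]
      rfl
    rw [hmu]
    -- rearrangement
    have h1 : MeasurePreserving (fun q : (ℝ × ℝ) × ℝ => ((q.1.1, q.2), q.1.2))
        ((A1.prod (volume.restrict (Ioi (0 : ℝ)))).prod (volume.restrict An))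
        ((A1.prod (volume.restrict An)).prod (volume.restrict (Ioi (0 : ℝ)))) := by
      have a1 := measurePreserving_prodAssoc A1 (volume.restrict (Ioi (0 : ℝ)))
        (volume.restrict An)
      have a2 : MeasurePreserving (Prod.map id Prod.swap)
          (A1.prod ((volume.restrict (Ioi (0 : ℝ))).prod (volume.restrict An)))
          (A1.prod ((volume.restrict An).prod (volume.restrict (Ioi (0 : ℝ))))) :=
        (MeasurePreserving.id _).prod Measure.measurePreserving_swap
      have a3 := (measurePreserving_prodAssoc A1 (volume.restrict An)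
        (volume.restrict (Ioi (0 : ℝ)))).symm _
      exact a3.comp (a2.comp a1)
    have h2 : MeasurePreserving (Prod.map ModCOV.PP id)
        ((A1.prod (volume.restrict An)).prod (volume.restrict (Ioi (0 : ℝ))))
        ((volume : Measure (ℝ × ℝ)).prod (volume.restrict (Ioi (0 : ℝ)))) :=
      pp_pres.prod (MeasurePreserving.id _)
    have h3 : MeasurePreserving (WithLp.toLp 2 : (Fin 3 → ℝ) → E 3) volume volume :=
      PiLp.volume_preserving_toLp (Fin 3)
    have h4 := h3.comp three_pres
    have hm : MeasurableSet (half 2) := by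
      have : half 2 = (fun x : E 3 => x (Fin.last 2)) ⁻¹' Ioi 0 := rfl
      rw [this]
      exact measurableSet_preimage (by fun_prop) measurableSet_Ioi
    have h5 := h4.restrict_preimage hm
    have h6 : ((volume : Measure (ℝ × ℝ)).prod (volume : Measure ℝ)).restrict
        (((WithLp.toLp 2 : (Fin 3 → ℝ) → E 3) ∘
          fun q : (ℝ × ℝ) × ℝ => (![q.1.1, q.1.2, q.2] : Fin 3 → ℝ)) ⁻¹' half 2) =
        (volume : Measure (ℝ × ℝ)).prod (volume.restrict (Ioi (0 : ℝ))) := by
      have e : (((WithLp.toLp 2 : (Fin 3 → ℝ) → E 3) ∘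
          fun q : (ℝ × ℝ) × ℝ => (![q.1.1, q.1.2, q.2] : Fin 3 → ℝ)) ⁻¹' half 2) =
          (univ : Set (ℝ × ℝ)) ×ˢ Ioi (0 : ℝ) := by
        ext q
        constructor
        · intro h
          exact ⟨mem_univ _, h⟩
        · rintro ⟨_, h⟩
          exact h
      rw [e, ← Measure.prod_restrict, Measure.restrict_univ]
    rw [h6] at h5
    exact h5.comp (h2.comp h1)
  · have h3 : MeasurePreserving (WithLp.toLp 2 : (Fin 2 → ℝ) → E 2) volume volume :=
      PiLp.volume_preserving_toLp (Fin 2)
    exact (h3.comp two_pres).comp pp_pres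

end Pool.Agent.T6.H20.BV
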