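import Pool.Agent.T6.H20.BU.Bub

/-!
# Project BV (helper20): a non-conformal bubble on the half-space of `ℝ³` (MP_138ac9_an, `n = 3`)

The bubble is the minimiser of the 3-energy among the maps
`ω(x) = (f(r,z) cos 2θ, f(r,z) sin 2θ, g(r,z))`, `(r, θ, z)` cylindrical coordinates, `f ∘ J = f`,
`g ∘ J = -g`, `J p = p / |p|²`, `|ω| = 1` on the boundary.
-/

set_option autoImplicit false

namespace Pool.Agent.T6.H20.BV

open MeasureTheory Set Filter Topology Pool.Agent.T6.H20.BU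

/-! ## Functions of `(r, z)` -/

/-- the open quarter plane `r > 0`, `z > 0` -/
def QQ : Set (ℝ × ℝ) := {p | 0 < p.1 ∧ 0 < p.2}

/-- the set `r > 0`, `z ≥ 0` -/
def Qc : Set (ℝ × ℝ) := {p | 0 < p.1 ∧ 0 ≤ p.2}

/-- the boxes `1/(k+2) ≤ r ≤ k+2`, `0 ≤ z ≤ k+1` (an exhaustion of `Qc`) -/
def Box (k : ℕ) : Set (ℝ × ℝ) := Icc (1 / ((k : ℝ) + 2)) ((k : ℝ) + 2) ×ˢ Icc (0 : ℝ) ((k : ℝ) + 1)

/-- the gradient of a function of `(r, z)` -/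
noncomputable def gr (h : ℝ × ℝ → ℝ) (p : ℝ × ℝ) : ℝ × ℝ :=
  (fderiv ℝ h p (1, 0), fderiv ℝ h p (0, 1))

/-- `f` is continuous on `Qc` and weakly differentiable with gradient `F ∈ L³_loc(Qc)`: on every box
it is a limit of `C¹` functions, uniformly, with the gradients in `L³`. -/
structure W2 (f : ℝ × ℝ → ℝ) (F : ℝ × ℝ → ℝ × ℝ) : Prop where
  mem : ∀ k : ℕ, MemLp F 3 (volume.restrict (Box k))
  app : ∀ k : ℕ, ∀ ε : ℝ, 0 < ε → ∃ h : ℝ × ℝ → ℝ, ContDiff ℝ 1 h ∧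
    (∀ p ∈ Box k, |f p - h p| ≤ ε) ∧
    eLpNorm (fun p => F p - gr h p) 3 (volume.restrict (Box k)) ≤ ENNReal.ofReal ε

/-- the measure `r dr dz` on the quarter plane -/
noncomputable def mu : Measure (ℝ × ℝ) :=
  (volume.restrict QQ).withDensity (fun p => ENNReal.ofReal p.1)

/-- `ℝ⁵` -/
abbrev V5 : Type := EuclideanSpace ℝ (Fin 5)

/-- the differential of `ω` in cylindrical coordinates: `(f_r, f_z, g_r, g_z, 2 f / r)` -/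
noncomputable def av (f : ℝ × ℝ → ℝ) (F G : ℝ × ℝ → ℝ × ℝ) (p : ℝ × ℝ) : V5 :=
  !₂[(F p).1, (F p).2, (G p).1, (G p).2, 2 * f p / p.1]

/-- the inversion `p ↦ p / |p|²` -/
noncomputable def JJ (p : ℝ × ℝ) : ℝ × ℝ := (p.1 / (p.1 ^ 2 + p.2 ^ 2), p.2 / (p.1 ^ 2 + p.2 ^ 2))

/-- the gradient of `f ∘ J`, `F` the gradient of `f`: `|p|^(-2) (F(Jp) - 2 |p|^(-2) ⟨p, F(Jp)⟩ p)` -/
noncomputable def GJ (F : ℝ × ℝ → ℝ × ℝ) (p : ℝ × ℝ) : ℝ × ℝ :=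
  (1 / (p.1 ^ 2 + p.2 ^ 2)) •
    (F (JJ p) - (2 * (p.1 * (F (JJ p)).1 + p.2 * (F (JJ p)).2) / (p.1 ^ 2 + p.2 ^ 2)) • p)

/-- the admissible pairs -/
structure Adm (f g : ℝ × ℝ → ℝ) (F G : ℝ × ℝ → ℝ × ℝ) : Prop where
  wf : W2 f F
  wg : W2 g G
  mem : MemLp (av f F G) 3 mu
  bdy : ∀ r : ℝ, 0 < r → f (r, 0) ^ 2 + g (r, 0) ^ 2 = 1
  jf : ∀ p ∈ Qc, f (JJ p) = f p
  jg : ∀ p ∈ Qc, g (JJ p) = -g p

/-- a minimiser of the energy, bounded by `2` -/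
def IsMin (f g : ℝ × ℝ → ℝ) (F G : ℝ × ℝ → ℝ × ℝ) : Prop :=
  Adm f g F G ∧ (∀ p ∈ Qc, f p ^ 2 + g p ^ 2 ≤ 4) ∧
    ∀ (f' g' : ℝ × ℝ → ℝ) (F' G' : ℝ × ℝ → ℝ × ℝ), Adm f' g' F' G' →
      ∫ p, ‖av f F G p‖ ^ 3 ∂mu ≤ ∫ p, ‖av f' F' G' p‖ ^ 3 ∂mu

/-! ### The calculus of `W2` (module CHN) -/

/-- MODULE CHN, part 1: `C¹` functions. -/
def StmSmooth : Prop := ∀ h : ℝ × ℝ → ℝ, ContDiff ℝ 1 h → W2 h (gr h)

/-- MODULE CHN, part 2: continuity (uniform limit of continuous functions on every box). -/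
def StmCont : Prop := ∀ (f : ℝ × ℝ → ℝ) (F : ℝ × ℝ → ℝ × ℝ), W2 f F → ContinuousOn f Qc

/-- MODULE CHN, part 3: limits. -/
def StmLim : Prop :=
  ∀ (u : ℕ → ℝ × ℝ → ℝ) (U : ℕ → ℝ × ℝ → ℝ × ℝ) (f : ℝ × ℝ → ℝ) (F : ℝ × ℝ → ℝ × ℝ),
    (∀ j, W2 (u j) (U j)) → (∀ k, TendstoUniformlyOn u f atTop (Box k)) →
      (∀ k, MemLp F 3 (volume.restrict (Box k))) →
      (∀ k, Tendsto (fun j => eLpNorm (fun p => U j p - F p) 3 (volume.restrict (Box k)))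
        atTop (𝓝 0)) → W2 f F

/-- MODULE CHN, part 4: the weak gradient is unique (`∫ F η = -lim ∫ h_j ∂η`, `η ∈ C_c^∞(QQ)`, and
`ae_eq_zero_of_integral_contDiff_smul_eq_zero`-type lemmas of Mathlib), and `W2` only depends on `f`
on `Qc` and on `F` up to null sets. -/
def StmUnq : Prop :=
  (∀ (f f' : ℝ × ℝ → ℝ) (F F' : ℝ × ℝ → ℝ × ℝ), W2 f F → W2 f' F' → (∀ p ∈ Qc, f p = f' p) →
    ∀ᵐ p ∂mu, F p = F' p) ∧
  (∀ (f f' : ℝ × ℝ → ℝ) (F F' : ℝ × ℝ → ℝ × ℝ), W2 f F → (∀ p ∈ Qc, f p = f' p) →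
    (∀ᵐ p ∂mu, F p = F' p) → W2 f' F')

/-- MODULE CHN, part 5: the chain rule for `C¹` functions `T` of finitely many variables (on a box all
functions are bounded; `T(h) → T(u)` uniformly, `∂_i T(h) ∇h_i → ∂_i T(u) U_i` in `L³`), and linear
combinations. -/
def StmChain : Prop :=
  (∀ (n : ℕ) (u : Fin n → ℝ × ℝ → ℝ) (U : Fin n → ℝ × ℝ → ℝ × ℝ) (T : (Fin n → ℝ) → ℝ),
    ContDiff ℝ 1 T → (∀ i, W2 (u i) (U i)) →
      W2 (fun p => T (fun i => u i p))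
        (fun p => ∑ i, fderiv ℝ T (fun j => u j p) (Pi.single i 1) • U i p)) ∧
  (∀ (f g : ℝ × ℝ → ℝ) (F G : ℝ × ℝ → ℝ × ℝ) (a b : ℝ), W2 f F → W2 g G →
    W2 (fun p => a * f p + b * g p) (fun p => a • F p + b • G p))

/-! ### Compactness -/

/-- MODULE MOR.  Morrey's inequality on a box, for `C¹` functions: for a square `S` of side `ℓ` in the
box which contains `p`, `|h(p) - mean_S h| ≤ C ℓ^(1/3) ‖∇h‖_{L³(S)}` (integrate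
`h(p) - h(x) = ∫₀¹ ∇h(x + t (p - x)) (p - x) dt` over `x ∈ S`, substitute `y = x + t (p - x)`, Hölder
on the square of side `(1-t) ℓ`). -/
def StmMOR : Prop :=
  ∀ k : ℕ, ∃ C : ℝ, 0 ≤ C ∧ ∀ h : ℝ × ℝ → ℝ, ContDiff ℝ 1 h →
    (∀ p ∈ Box k, ∀ q ∈ Box k,
      |h p - h q| ≤ C * (∫ x in Box k, ‖gr h x‖ ^ 3) ^ ((1 : ℝ) / 3) * dist p q ^ ((1 : ℝ) / 3)) ∧
    (∀ p ∈ Box k,
      |h p| ≤ C * (∫ x in Box k, |h x|) + C * (∫ x in Box k, ‖gr h x‖ ^ 3) ^ ((1 : ℝ) / 3))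

/-- MODULE MOW.  The same for `W2` functions, by approximation. -/
def StmMOW : Prop :=
  ∀ k : ℕ, ∃ C : ℝ, 0 ≤ C ∧ ∀ (f : ℝ × ℝ → ℝ) (F : ℝ × ℝ → ℝ × ℝ), W2 f F →
    ∀ p ∈ Box k, ∀ q ∈ Box k,
      |f p - f q| ≤ C * (∫ x in Box k, ‖F x‖ ^ 3) ^ ((1 : ℝ) / 3) * dist p q ^ ((1 : ℝ) / 3)

/-- MODULE AAD.  Arzelà–Ascoli and a diagonal sequence. -/
def StmAAD : Prop :=
  ∀ (u : ℕ → ℝ × ℝ → ℝ) (M : ℝ) (C : ℕ → ℝ), (∀ j, ∀ p ∈ Qc, |u j p| ≤ M) →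
    (∀ k j, ∀ p ∈ Box k, ∀ q ∈ Box k, |u j p - u j q| ≤ C k * dist p q ^ ((1 : ℝ) / 3)) →
      ∃ (s : ℕ → ℕ) (f : ℝ × ℝ → ℝ), StrictMono s ∧
        ∀ k, TendstoUniformlyOn (fun j => u (s j)) f atTop (Box k)

/-- MODULE CLK.  Forward convex combinations converge in `L³`.  Pointwise
`‖a + b‖³ + ‖a - b‖³ ≤ 4 (‖a‖³ + ‖b‖³)`; let `δ_j` be the infimum of the norms on the convex hull of
the `a_i`, `i ≥ j` (increasing, bounded), choose `b_j` in this hull with `‖b_j‖ ≤ δ_j + 1/(j+1)`; then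
`‖(b_j - b_l)/2‖³ ≤ (‖b_j‖³ + ‖b_l‖³)/2 - ‖(b_j + b_l)/2‖³ → 0`, so it is a Cauchy sequence. -/
def StmCLK : Prop :=
  ∀ (μ : Measure (ℝ × ℝ)) (a : ℕ → ℝ × ℝ → V5) (M : ENNReal), M ≠ ⊤ → (∀ j, MemLp (a j) 3 μ) →
    (∀ j, eLpNorm (a j) 3 μ ≤ M) →
      ∃ (N : ℕ → ℕ) (w : ℕ → ℕ → ℝ) (b : ℝ × ℝ → V5), (∀ j i, 0 ≤ w j i) ∧
        (∀ j, ∑ i ∈ Finset.Icc j (N j), w j i = 1) ∧ MemLp b 3 μ ∧
        Tendsto (fun j => eLpNorm (fun x => (∑ i ∈ Finset.Icc j (N j), w j i • a i x) - b x) 3 μ)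
          atTop (𝓝 0) ∧
        ∀ M' : ENNReal, (∃ j₀, ∀ i, j₀ ≤ i → eLpNorm (a i) 3 μ ≤ M') → eLpNorm b 3 μ ≤ M'

/-- MODULE CMP.  The competitor `f = v²`, `g = u √(1 + v²)`, `v = 2 r / (1 + r² + z²)`,
`u = (1 - r² - z²) / (1 + r² + z²)` (`u² + v² = 1` for `z = 0`; `|∇u|, |∇v| ≤ C / (1 + r² + z²)`). -/
def StmCMP : Prop := ∃ (f g : ℝ × ℝ → ℝ) (F G : ℝ × ℝ → ℝ × ℝ), Adm f g F G

/-- MODULE TRU.  Truncation: `T(y) = κ(|y|²) y`, `κ(s) = 1` for `s ≤ 1` and `2/√s - 1/s` for `s ≥ 1`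
is `C¹`, the norm of `T'(y)` is at most `1`, `|T| ≤ 2`, `T(y) = y` for `|y| = 1`; apply the chain rule
to `T(f, g)`. -/
def StmTRU : Prop :=
  ∀ (f g : ℝ × ℝ → ℝ) (F G : ℝ × ℝ → ℝ × ℝ), Adm f g F G →
    ∃ (f' g' : ℝ × ℝ → ℝ) (F' G' : ℝ × ℝ → ℝ × ℝ), Adm f' g' F' G' ∧
      (∀ p ∈ Qc, f' p ^ 2 + g' p ^ 2 ≤ 4) ∧
      ∫ p, ‖av f' F' G' p‖ ^ 3 ∂mu ≤ ∫ p, ‖av f F G p‖ ^ 3 ∂mu

/-- MODULE EXI.  Existence: minimising sequence, `TRU`, `MOW` and `AAD` (subsequence with `f_j → f`,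
`g_j → g` locally uniformly), `CLK` for `av f_j F_j G_j` (the forward convex combinations of `f_j`,
`g_j` still converge to `f`, `g`), `StmLim`. -/
def StmEXI : Prop := ∃ (f g : ℝ × ℝ → ℝ) (F G : ℝ × ℝ → ℝ × ℝ), IsMin f g F G

/-! ### The Euler–Lagrange equation -/

/-- the test pairs: `φ`, `γ` of finite energy, `f φ + g γ = 0` on the boundary -/
structure Test (f g φ γ : ℝ × ℝ → ℝ) (P R : ℝ × ℝ → ℝ × ℝ) : Prop where
  wφ : W2 φ P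
  wγ : W2 γ R
  mem : MemLp (av φ P R) 3 mu
  bdy : ∀ r : ℝ, 0 < r → f (r, 0) * φ (r, 0) + g (r, 0) * γ (r, 0) = 0

/-- the weak equation for the test pair with the first component `φ` and the gradients `P`, `R` -/
def Eqn (f : ℝ × ℝ → ℝ) (F G : ℝ × ℝ → ℝ × ℝ) (φ : ℝ × ℝ → ℝ) (P R : ℝ × ℝ → ℝ × ℝ) : Prop :=
  ∫ p, ‖av f F G p‖ * inner ℝ (av f F G p) (av φ P R p) ∂mu = 0

/-- the equation for bounded symmetric tests -/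
def EqSB (f g : ℝ × ℝ → ℝ) (F G : ℝ × ℝ → ℝ × ℝ) : Prop :=
  ∀ (φ γ : ℝ × ℝ → ℝ) (P R : ℝ × ℝ → ℝ × ℝ), Test f g φ γ P R →
    (∃ M : ℝ, ∀ p ∈ Qc, |φ p| ≤ M ∧ |γ p| ≤ M) → (∀ p ∈ Qc, φ (JJ p) = φ p) →
      (∀ p ∈ Qc, γ (JJ p) = -γ p) → Eqn f F G φ P R

/-- the equation for bounded tests -/
def EqB (f g : ℝ × ℝ → ℝ) (F G : ℝ × ℝ → ℝ × ℝ) : Prop :=
  ∀ (φ γ : ℝ × ℝ → ℝ) (P R : ℝ × ℝ → ℝ × ℝ), Test f g φ γ P R →
    (∃ M : ℝ, ∀ p ∈ Qc, |φ p| ≤ M ∧ |γ p| ≤ M) → Eqn f F G φ P R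

/-- the equation for all tests -/
def EqA (f g : ℝ × ℝ → ℝ) (F G : ℝ × ℝ → ℝ × ℝ) : Prop :=
  ∀ (φ γ : ℝ × ℝ → ℝ) (P R : ℝ × ℝ → ℝ × ℝ), Test f g φ γ P R → Eqn f F G φ P R

/-- MODULE VAR.  First variation with `(f + s φ, g + s γ) / √(1 + s² (φ² + γ²))` (chain rule), which
is admissible; `av` of it is `av f F G + s av φ P R + O(s²)(‖av f F G‖ + ‖av φ P R‖)` because `f`, `g`,
`φ`, `γ` are bounded; `| ‖v + w‖³ - ‖v‖³ - 3 ‖v‖ ⟨v, w⟩ | ≤ 4 (‖v‖ ‖w‖² + ‖w‖³)`; `s → 0±`. -/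
def StmVAR : Prop :=
  ∀ (f g : ℝ × ℝ → ℝ) (F G : ℝ × ℝ → ℝ × ℝ), IsMin f g F G → EqSB f g F G

/-- MODULE JIN, part 1: the inversion preserves `W2` (approximate by `h ∘ J`, `h` cut off at infinity;
`J` maps boxes into larger boxes). -/
def StmJW : Prop := ∀ (f : ℝ × ℝ → ℝ) (F : ℝ × ℝ → ℝ × ℝ), W2 f F → W2 (fun p => f (JJ p)) (GJ F)

/-- MODULE JIN, part 2: change of variables (`|det J'(p)| = |p|^(-4)`, `r(Jp) = r/|p|²`). -/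
def StmJmu : Prop :=
  Measurable JJ ∧
    Measure.map JJ (mu.withDensity fun p => ENNReal.ofReal (((p.1 ^ 2 + p.2 ^ 2) ^ 3)⁻¹)) = mu

/-- MODULE SYM.  Averaging with the inversion: for a bounded test `(φ, γ)` the pairs
`(φ ∘ J, -γ ∘ J)` and `((φ + φ ∘ J)/2, (γ - γ ∘ J)/2)` are bounded tests, the second is symmetric, and
the integrals of the first and of `(φ, γ)` agree (`GJ F = F`, `GJ G = -G` almost everywhere by
uniqueness; `JIN`). -/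
def StmSYM : Prop :=
  ∀ (f g : ℝ × ℝ → ℝ) (F G : ℝ × ℝ → ℝ × ℝ), Adm f g F G → EqSB f g F G → EqB f g F G

/-- MODULE TRT.  Truncation of the tests: `(φ, γ) / √(1 + (φ² + γ²)/N²)` is a bounded test, its `av`
is bounded by `2 ‖av φ P R‖` and converges to `av φ P R` pointwise, `N → ∞`; dominated
convergence. -/
def StmTRT : Prop :=
  ∀ (f g : ℝ × ℝ → ℝ) (F G : ℝ × ℝ → ℝ × ℝ), Adm f g F G → EqB f g F G → EqA f g F G

/-! ### Cylindrical coordinates -/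

/-- cylindrical coordinates -/
noncomputable def P3 (q : (ℝ × ℝ) × ℝ) : E 3 := !₂[q.1.1 * Real.cos q.2, q.1.1 * Real.sin q.2, q.1.2]

/-- polar coordinates of the boundary -/
noncomputable def P2 (q : ℝ × ℝ) : E 2 := !₂[q.1 * Real.cos q.2, q.1 * Real.sin q.2]

/-- the distance to the axis -/
noncomputable def rr (x : E 3) : ℝ := Real.sqrt (x 0 ^ 2 + x 1 ^ 2)

/-- `(r, z)` -/
noncomputable def rz (x : E 3) : ℝ × ℝ := (rr x, x 2)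

/-- `cos θ` -/
noncomputable def c1 (x : E 3) : ℝ := x 0 / rr x

/-- `sin θ` -/
noncomputable def s1 (x : E 3) : ℝ := x 1 / rr x

/-- the map `ω = (f cos 2θ, f sin 2θ, g)` -/
noncomputable def om (f g : ℝ × ℝ → ℝ) (x : E 3) : Fin 3 → ℝ :=
  ![(c1 x ^ 2 - s1 x ^ 2) * f (rz x), (2 * c1 x * s1 x) * f (rz x), g (rz x)]

/-- the matrix with the rows
`cos 2θ (a₀ e_r + a₁ e_z) - sin 2θ a₄ e_θ`, `sin 2θ (a₀ e_r + a₁ e_z) + cos 2θ a₄ e_θ`,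
`a₂ e_r + a₃ e_z`; here `c = cos θ`, `s = sin θ`, `e_r = (c, s, 0)`, `e_θ = (-s, c, 0)` -/
noncomputable def emb (c s : ℝ) (a : V5) : Fin 3 → E 3 :=
  ![!₂[(c ^ 2 - s ^ 2) * a 0 * c + 2 * c * s * a 4 * s,
      (c ^ 2 - s ^ 2) * a 0 * s - 2 * c * s * a 4 * c, (c ^ 2 - s ^ 2) * a 1],
    !₂[2 * c * s * a 0 * c - (c ^ 2 - s ^ 2) * a 4 * s,
      2 * c * s * a 0 * s + (c ^ 2 - s ^ 2) * a 4 * c, 2 * c * s * a 1],
    !₂[a 2 * c, a 2 * s, a 3]]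

/-- the transposed map -/
noncomputable def bme (c s : ℝ) (B : Fin 3 → E 3) : V5 :=
  !₂[(c ^ 2 - s ^ 2) * (B 0 0 * c + B 0 1 * s) + 2 * c * s * (B 1 0 * c + B 1 1 * s),
    (c ^ 2 - s ^ 2) * B 0 2 + 2 * c * s * B 1 2,
    B 2 0 * c + B 2 1 * s, B 2 2,
    -(2 * c * s) * (-(B 0 0) * s + B 0 1 * c) + (c ^ 2 - s ^ 2) * (-(B 1 0) * s + B 1 1 * c)]

/-- the differential of `ω` -/
noncomputable def dm (f : ℝ × ℝ → ℝ) (F G : ℝ × ℝ → ℝ × ℝ) (x : E 3) : Fin 3 → E 3 :=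
  emb (c1 x) (s1 x) (av f F G (rz x))

/-- the interval of angles -/
def An : Set ℝ := Ioo (-Real.pi) Real.pi

/-- MODULE COV.  Cylindrical coordinates in the half-space and polar coordinates in its boundary
(`polarCoord` of Mathlib and Fubini). -/
def StmCOV : Prop :=
  MeasurePreserving P3 (mu.prod (volume.restrict An)) (volume.restrict (half 2)) ∧
  MeasurePreserving P2
    ((((volume : Measure ℝ).restrict (Ioi 0)).withDensity ENNReal.ofReal).prod (volume.restrict An))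
    (volume : Measure (E 2))

/-- MODULE SHM.  Shift and mollify: `ψ_j(x) = ∫ f(x + e_n/j - y) ρ_j(y) dy`, `ρ_j` supported in the
ball of radius `1/(2j)`, extended to a `C¹` function on `E 3` (e.g. with `f` extended by `0`, one has
`ψ_j` smooth on `E 3`, and `∇ψ_j = (G * ρ_j)(x + e_n/j)` on `x_n > -1/(2j)` by Green's formula with
test functions supported in the open half-space).  Traces: Green's formula for `f` and for `ψ_j`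
(`green`), or `ψ_j(y, 0) - τ(y)` is the integral of `∂_n` over a short segment. -/
def StmSHM : Prop :=
  ∀ (f : E 3 → ℝ) (G : E 3 → E 3) (τ : E 2 → ℝ), WeakDiff 2 f G τ →
    MemLp f 3 (volume.restrict (half 2)) → MemLp G 3 (volume.restrict (half 2)) →
      ∃ ψ : ℕ → E 3 → ℝ, (∀ j, ContDiff ℝ 1 (ψ j)) ∧
        Tendsto (fun j => eLpNorm (fun x => ψ j x - f x) 3 (volume.restrict (half 2)))
          atTop (𝓝 0) ∧
        Tendsto (fun j => eLpNorm (fun x => gradient (ψ j) x - G x) 3 (volume.restrict (half 2)))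
          atTop (𝓝 0) ∧
        ∀ R : ℝ, Tendsto (fun j => ∫ y in Metric.ball (0 : E 2) R, |ψ j (bd y) - τ y|) atTop (𝓝 0)

/-- the average of the field `B` over the angle -/
noncomputable def bav (B : E 3 → Fin 3 → E 3) (p : ℝ × ℝ) : V5 :=
  (1 / (2 * Real.pi)) • ∫ t in An, bme (Real.cos t) (Real.sin t) (B (P3 (p, t)))

/-- MODULE AVS.  Averages of `C¹` maps: the functions `φ = mean of ψ₀ cos 2θ + ψ₁ sin 2θ`,
`γ = mean of ψ₂` are `C¹` on the plane, and `av φ (gr φ) (gr γ) = bav ∇ψ` for `r > 0` (for the last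
component integrate by parts in `θ`). -/
def StmAVS : Prop :=
  ∀ ψ : Fin 3 → E 3 → ℝ, (∀ c, ContDiff ℝ 1 (ψ c)) →
    ∃ φ γ : ℝ × ℝ → ℝ, ContDiff ℝ 1 φ ∧ ContDiff ℝ 1 γ ∧
      (∀ p : ℝ × ℝ, φ p = 1 / (2 * Real.pi) * ∫ t in An,
        ((Real.cos t ^ 2 - Real.sin t ^ 2) * ψ 0 (P3 (p, t)) +
          2 * Real.cos t * Real.sin t * ψ 1 (P3 (p, t)))) ∧
      (∀ p : ℝ × ℝ, γ p = 1 / (2 * Real.pi) * ∫ t in An, ψ 2 (P3 (p, t))) ∧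
      ∀ p : ℝ × ℝ, 0 < p.1 → av φ (gr φ) (gr γ) p = bav (fun x c => gradient (ψ c) x) p

/-- MODULE AVG.  Averages of test maps of the bubble equation: approximate with `SHM`, average with
`AVS`; by Jensen and `COV` the averages of the gradients converge in `L³(mu)`, hence in `L³` of the
boxes, and by `MOR` (second part) the functions converge uniformly on the boxes. -/
def StmAVG : Prop :=
  ∀ (Φ : E 3 → Fin 3 → ℝ) (B : E 3 → Fin 3 → E 3) (σ : E 2 → Fin 3 → ℝ),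
    (∀ c, WeakDiff 2 (fun x => Φ x c) (fun x => B x c) (fun y => σ y c)) →
    (∀ c, MemLp (fun x => Φ x c) 3 (volume.restrict (half 2))) →
    (∀ c, MemLp (fun x => B x c) 3 (volume.restrict (half 2))) →
      ∃ (φ γ : ℝ × ℝ → ℝ) (P R : ℝ × ℝ → ℝ × ℝ), W2 φ P ∧ W2 γ R ∧ MemLp (av φ P R) 3 mu ∧
        (∀ᵐ p ∂mu, av φ P R p = bav B p) ∧
        ∀ᵐ r ∂(volume.restrict (Ioi (0 : ℝ))),
          φ (r, 0) = 1 / (2 * Real.pi) * ∫ t in An,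
            ((Real.cos t ^ 2 - Real.sin t ^ 2) * σ (P2 (r, t)) 0 +
              2 * Real.cos t * Real.sin t * σ (P2 (r, t)) 1) ∧
          γ (r, 0) = 1 / (2 * Real.pi) * ∫ t in An, σ (P2 (r, t)) 2

/-- MODULE T3D.  The map `ω` is weakly differentiable.  For test functions with support off the axis
approximate `f`, `g` by `C¹` functions (then `ω` is `C¹` off the axis; `BU.green`); the axis is
removable because `ω` is bounded (cut off in the tube of radius `ε`: `|∇χ| ≤ C/ε`, volume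
`O(ε²)`). -/
def StmT3D : Prop :=
  ∀ (f g : ℝ × ℝ → ℝ) (F G : ℝ × ℝ → ℝ × ℝ), W2 f F → W2 g G → MemLp (av f F G) 3 mu →
    (∃ M : ℝ, ∀ p ∈ Qc, |f p| ≤ M ∧ |g p| ≤ M) →
      ∀ c : Fin 3, WeakDiff 2 (fun x => om f g x c) (fun x => dm f F G x c)
        (fun y => om f g (bd y) c)

/-! ### The minimiser is not conformal -/

/-- MODULE NCA.  If the equation holds and `|∇f|² = |∇g|² = 4 f²/r²` then `f` is weakly harmonic: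
test with `(ζ / √(f² + ε²), 0)`; `‖av f F G‖ = 2 √3 |f| / r`; `ε → 0` (`∇f = 0` a.e. where
`f = 0`). -/
def StmNCA : Prop :=
  ∀ (f g : ℝ × ℝ → ℝ) (F G : ℝ × ℝ → ℝ × ℝ), Adm f g F G → EqA f g F G →
    (∀ᵐ p ∂mu, (F p).1 ^ 2 + (F p).2 ^ 2 = 4 * f p ^ 2 / p.1 ^ 2 ∧
      (G p).1 ^ 2 + (G p).2 ^ 2 = 4 * f p ^ 2 / p.1 ^ 2) →
    ∀ ζ : ℝ × ℝ → ℝ, ContDiff ℝ ((⊤ : ℕ∞) : WithTop ℕ∞) ζ → HasCompactSupport ζ → tsupport ζ ⊆ QQ →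
      ∫ p in QQ, ((F p).1 * (gr ζ p).1 + (F p).2 * (gr ζ p).2) = 0

/-- MODULE NCB.  `F₁ - i F₂` is weakly holomorphic (`Pool.Agent.FinVol2.WE.weyl` with `k = 1`), so `f`
is a smooth harmonic function on `QQ` with `|∇f|² = 4 f²/r²`; for `G = |∇f|²` one has
`G ΔG = |∇G|²`, with `G = 4 f²/r²` this gives `16 f⁴ r^(-6) (2 - 2·4) = 0`, so `f = 0`. -/
def StmNCB : Prop :=
  ∀ (f : ℝ × ℝ → ℝ) (F : ℝ × ℝ → ℝ × ℝ), W2 f F →
    (∀ᵐ p ∂mu, (F p).1 ^ 2 + (F p).2 ^ 2 = 4 * f p ^ 2 / p.1 ^ 2) →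
    (∀ ζ : ℝ × ℝ → ℝ, ContDiff ℝ ((⊤ : ℕ∞) : WithTop ℕ∞) ζ → HasCompactSupport ζ →
      tsupport ζ ⊆ QQ → ∫ p in QQ, ((F p).1 * (gr ζ p).1 + (F p).2 * (gr ζ p).2) = 0) →
    ∀ p ∈ QQ, f p = 0

end Pool.Agent.T6.H20.BV
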