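import Pool.Agent.T6.H20.BV.Defs

/-!
# Project BV: existence of a minimiser
-/

set_option autoImplicit false

namespace Pool.Agent.T6.H20.BV

open MeasureTheory Set Filter Topology Pool.Agent.T6.H20.BU

theorem isOpen_QQ : IsOpen QQ := by
  have h1 : IsOpen {p : ℝ × ℝ | 0 < p.1} := isOpen_lt continuous_const continuous_fst
  have h2 : IsOpen {p : ℝ × ℝ | 0 < p.2} := isOpen_lt continuous_const continuous_snd
  exact h1.inter h2

theorem isCompact_Box (k : ℕ) : IsCompact (Box k) := isCompact_Icc.prod isCompact_Icc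

theorem measurableSet_Box (k : ℕ) : MeasurableSet (Box k) := (isCompact_Box k).measurableSet

theorem Box_sub (k : ℕ) : Box k ⊆ Qc := by
  rintro p ⟨h1, h2⟩
  refine ⟨lt_of_lt_of_le ?_ h1.1, h2.1⟩
  positivity

theorem exists_Box {p : ℝ × ℝ} (hp : p ∈ Qc) : ∃ k, p ∈ Box k := by
  obtain ⟨h1, h2⟩ := hp
  obtain ⟨k, hk⟩ := exists_nat_ge (max (1 / p.1) (max p.1 p.2))
  have hk1 : 1 / p.1 ≤ k := (le_max_left _ _).trans hk
  have hk2 : p.1 ≤ k := (le_max_left _ _).trans ((le_max_right _ _).trans hk)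
  have hk3 : p.2 ≤ k := (le_max_right _ _).trans ((le_max_right _ _).trans hk)
  refine ⟨k, ⟨?_, by linarith⟩, h2, by linarith⟩
  have hk0 : (0 : ℝ) < (k : ℝ) + 2 := by positivity
  rw [div_le_iff₀ hk0]
  rw [div_le_iff₀ h1] at hk1
  nlinarith

theorem QQ_sub_Qc : QQ ⊆ Qc := fun _ hp => ⟨hp.1, hp.2.le⟩

/-- Lebesgue measure on a box is bounded by a multiple of `mu` -/
theorem restrict_Box_le (k : ℕ) :
    (volume.restrict (Box k) : Measure (ℝ × ℝ)) ≤ ((k : ENNReal) + 2) • mu := by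
  refine Measure.le_iff.2 fun s hs => ?_
  rw [Measure.restrict_apply hs, Measure.smul_apply, smul_eq_mul]
  unfold mu
  rw [withDensity_apply _ hs, Measure.restrict_restrict hs]
  have hnull : (volume : Measure (ℝ × ℝ)) {p | p.2 = 0} = 0 := by
    have h1 : {p : ℝ × ℝ | p.2 = 0} = Set.univ ×ˢ ({0} : Set ℝ) := by
      ext p
      simp
    rw [h1, Measure.volume_eq_prod, Measure.prod_prod]
    simp
  have h2 : (volume : Measure (ℝ × ℝ)) (s ∩ Box k) ≤ volume ((s ∩ QQ) ∩ Box k) := by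
    have h3 : s ∩ Box k ⊆ ((s ∩ QQ) ∩ Box k) ∪ {p | p.2 = 0} := by
      rintro p ⟨hp, hb⟩
      by_cases h0 : p.2 = 0
      · exact Or.inr h0
      · left
        refine ⟨⟨hp, (Box_sub k hb).1, ?_⟩, hb⟩
        exact lt_of_le_of_ne (Box_sub k hb).2 (Ne.symm h0)
    calc (volume : Measure (ℝ × ℝ)) (s ∩ Box k) ≤ volume (((s ∩ QQ) ∩ Box k) ∪ {p | p.2 = 0}) :=
          measure_mono h3
      _ ≤ volume ((s ∩ QQ) ∩ Box k) + volume {p : ℝ × ℝ | p.2 = 0} := measure_union_le _ _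
      _ = _ := by rw [hnull, add_zero]
  refine h2.trans ?_
  have hms : MeasurableSet ((s ∩ QQ) ∩ Box k) :=
    (hs.inter isOpen_QQ.measurableSet).inter (measurableSet_Box k)
  have h4 : ENNReal.ofReal (1 / ((k : ℝ) + 2)) * volume ((s ∩ QQ) ∩ Box k) ≤
      ∫⁻ p in s ∩ QQ, ENNReal.ofReal p.1 := by
    calc ENNReal.ofReal (1 / ((k : ℝ) + 2)) * volume ((s ∩ QQ) ∩ Box k)
        = ∫⁻ _p in (s ∩ QQ) ∩ Box k, ENNReal.ofReal (1 / ((k : ℝ) + 2)) := by
          rw [setLIntegral_const]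
      _ ≤ ∫⁻ p in (s ∩ QQ) ∩ Box k, ENNReal.ofReal p.1 := by
          refine setLIntegral_mono' hms fun p hp => ?_
          exact ENNReal.ofReal_le_ofReal hp.2.1.1
      _ ≤ _ := lintegral_mono_set inter_subset_left
  have h5 : ((k : ENNReal) + 2) * ENNReal.ofReal (1 / ((k : ℝ) + 2)) = 1 := by
    have h6 : ((k : ENNReal) + 2) = ENNReal.ofReal ((k : ℝ) + 2) := by
      rw [ENNReal.ofReal_add (by positivity) (by norm_num), ENNReal.ofReal_natCast]
      norm_num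
    rw [h6, ← ENNReal.ofReal_mul (by positivity), mul_one_div_cancel (by positivity),
      ENNReal.ofReal_one]
  calc (volume : Measure (ℝ × ℝ)) ((s ∩ QQ) ∩ Box k)
      = ((k : ENNReal) + 2) * (ENNReal.ofReal (1 / ((k : ℝ) + 2)) *
          volume ((s ∩ QQ) ∩ Box k)) := by
        rw [← mul_assoc, h5, one_mul]
    _ ≤ _ := by gcongr

theorem eLpNorm_Box_le {E' : Type*} [NormedAddCommGroup E'] (k : ℕ) (u : ℝ × ℝ → E') :
    eLpNorm u 3 (volume.restrict (Box k)) ≤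
      ((k : ENNReal) + 2) ^ ((1 : ℝ) / 3) * eLpNorm u 3 mu := by
  refine (eLpNorm_mono_measure u (restrict_Box_le k)).trans ?_
  rw [eLpNorm_smul_measure_of_ne_top (by norm_num)]
  simp

theorem energy_eq {E' : Type*} [NormedAddCommGroup E'] {μ : Measure (ℝ × ℝ)} {u : ℝ × ℝ → E'}
    (hu : MemLp u 3 μ) : ∫ p, ‖u p‖ ^ 3 ∂μ = (eLpNorm u 3 μ).toReal ^ 3 := by
  rw [hu.eLpNorm_eq_integral_rpow_norm (by norm_num) (by norm_num)]
  have h0 : 0 ≤ ∫ p, ‖u p‖ ^ 3 ∂μ := integral_nonneg fun p => by positivity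
  have h1 : (∫ a, ‖u a‖ ^ (3 : ENNReal).toReal ∂μ) = ∫ p, ‖u p‖ ^ 3 ∂μ := by
    refine integral_congr_ae (Eventually.of_forall fun p => ?_)
    simp only [ENNReal.toReal_ofNat]
    exact_mod_cast Real.rpow_natCast (‖u p‖) 3
  rw [h1, ENNReal.toReal_ofReal (Real.rpow_nonneg h0 _), ← Real.rpow_natCast, ← Real.rpow_mul h0]
  norm_num

theorem av_comp {f : ℝ × ℝ → ℝ} {F G : ℝ × ℝ → ℝ × ℝ} (p : ℝ × ℝ) :
    av f F G p 0 = (F p).1 ∧ av f F G p 1 = (F p).2 ∧ av f F G p 2 = (G p).1 ∧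
      av f F G p 3 = (G p).2 ∧ av f F G p 4 = 2 * f p / p.1 := by
  unfold av
  refine ⟨rfl, rfl, rfl, rfl, rfl⟩

theorem norm_pair_le (v : V5) (i j : Fin 5) : ‖((v i, v j) : ℝ × ℝ)‖ ≤ ‖v‖ := by
  rw [Prod.norm_def]
  exact max_le (PiLp.norm_apply_le v i) (PiLp.norm_apply_le v j)

theorem norm_F_le (f : ℝ × ℝ → ℝ) (F G : ℝ × ℝ → ℝ × ℝ) (p : ℝ × ℝ) :
    ‖F p‖ ≤ ‖av f F G p‖ ∧ ‖G p‖ ≤ ‖av f F G p‖ := by
  have h := av_comp (f := f) (F := F) (G := G) p
  constructor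
  · have := norm_pair_le (av f F G p) 0 1
    rwa [h.1, h.2.1] at this
  · have := norm_pair_le (av f F G p) 2 3
    rwa [h.2.2.1, h.2.2.2.1] at this

theorem gr_zero : gr (fun _ => (0 : ℝ)) = fun _ => (0 : ℝ × ℝ) := by
  funext p
  unfold gr
  simp

theorem W2_sum (hS : StmSmooth) (hC : StmChain) {ι : Type*} (t : Finset ι) (c : ι → ℝ)
    (u : ι → ℝ × ℝ → ℝ) (U : ι → ℝ × ℝ → ℝ × ℝ) (h : ∀ i, W2 (u i) (U i)) :
    W2 (fun p => ∑ i ∈ t, c i * u i p) (fun p => ∑ i ∈ t, c i • U i p) := by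
  classical
  induction t using Finset.induction_on with
  | empty =>
    simp only [Finset.sum_empty]
    rw [← gr_zero]
    exact hS _ contDiff_const
  | insert a s ha ih =>
    simp only [Finset.sum_insert ha]
    have := hC.2 (u a) (fun p => ∑ i ∈ s, c i * u i p) (U a) (fun p => ∑ i ∈ s, c i • U i p)
      (c a) 1 (h a) ih
    simpa using this

/-- forward convex combinations of a uniformly convergent sequence -/
theorem unif_comb {K : Set (ℝ × ℝ)} {u : ℕ → ℝ × ℝ → ℝ} {f : ℝ × ℝ → ℝ}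
    (hu : TendstoUniformlyOn u f atTop K) {N : ℕ → ℕ} {w : ℕ → ℕ → ℝ} (hw : ∀ j i, 0 ≤ w j i)
    (hw1 : ∀ j, ∑ i ∈ Finset.Icc j (N j), w j i = 1) :
    TendstoUniformlyOn (fun j p => ∑ i ∈ Finset.Icc j (N j), w j i * u i p) f atTop K := by
  rw [Metric.tendstoUniformlyOn_iff] at hu ⊢
  intro ε hε
  obtain ⟨J, hJ⟩ := eventually_atTop.1 (hu (ε / 2) (by positivity))
  refine eventually_atTop.2 ⟨J, fun j hj p hp => ?_⟩
  have h1 : f p - ∑ i ∈ Finset.Icc j (N j), w j i * u i p =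
      ∑ i ∈ Finset.Icc j (N j), w j i * (f p - u i p) := by
    simp_rw [mul_sub]
    rw [Finset.sum_sub_distrib, ← Finset.sum_mul, hw1, one_mul]
  rw [Real.dist_eq, h1]
  calc |∑ i ∈ Finset.Icc j (N j), w j i * (f p - u i p)|
      ≤ ∑ i ∈ Finset.Icc j (N j), |w j i * (f p - u i p)| := Finset.abs_sum_le_sum_abs _ _
    _ ≤ ∑ i ∈ Finset.Icc j (N j), w j i * (ε / 2) := by
        refine Finset.sum_le_sum fun i hi => ?_
        rw [abs_mul, abs_of_nonneg (hw j i)]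
        refine mul_le_mul_of_nonneg_left ?_ (hw j i)
        have := hJ i (hj.trans (Finset.mem_Icc.1 hi).1) p hp
        rw [Real.dist_eq] at this
        exact this.le
    _ = ε / 2 := by rw [← Finset.sum_mul, hw1, one_mul]
    _ < ε := by linarith

theorem JJ_mem {p : ℝ × ℝ} (hp : p ∈ Qc) : JJ p ∈ Qc := by
  obtain ⟨h1, h2⟩ := hp
  unfold JJ
  constructor
  · show 0 < p.1 / (p.1 ^ 2 + p.2 ^ 2)
    positivity
  · show 0 ≤ p.2 / (p.1 ^ 2 + p.2 ^ 2)
    positivity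

theorem exi (hS : StmSmooth) (hL : StmLim) (hC : StmChain) (hMW : StmMOW) (hA : StmAAD)
    (hK : StmCLK) (hP : StmCMP) (hT : StmTRU) : StmEXI := by
  -- the infimum
  set S : Set ℝ := {e | ∃ (f g : ℝ × ℝ → ℝ) (F G : ℝ × ℝ → ℝ × ℝ), Adm f g F G ∧
    e = ∫ p, ‖av f F G p‖ ^ 3 ∂mu} with hSdef
  have hne : S.Nonempty := by
    obtain ⟨f, g, F, G, h⟩ := hP
    exact ⟨_, f, g, F, G, h, rfl⟩
  have hbd : BddBelow S := by
    refine ⟨0, ?_⟩
    rintro e ⟨f, g, F, G, h, rfl⟩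
    exact integral_nonneg fun p => by positivity
  set I : ℝ := sInf S with hI
  have hI0 : 0 ≤ I := by
    refine le_csInf hne ?_
    rintro e ⟨f, g, F, G, h, rfl⟩
    exact integral_nonneg fun p => by positivity
  have hch : ∀ j : ℕ, ∃ (f g : ℝ × ℝ → ℝ) (F G : ℝ × ℝ → ℝ × ℝ), Adm f g F G ∧
      (∀ p ∈ Qc, f p ^ 2 + g p ^ 2 ≤ 4) ∧
      ∫ p, ‖av f F G p‖ ^ 3 ∂mu ≤ I + 1 / ((j : ℝ) + 1) := by
    intro j
    have hlt : I < I + 1 / ((j : ℝ) + 1) := by
      have : (0 : ℝ) < 1 / ((j : ℝ) + 1) := by positivity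
      linarith
    obtain ⟨e, ⟨f, g, F, G, h, rfl⟩, he⟩ := exists_lt_of_csInf_lt hne hlt
    obtain ⟨f', g', F', G', h1, h2, h3⟩ := hT f g F G h
    exact ⟨f', g', F', G', h1, h2, h3.trans he.le⟩
  choose f g F G hAdm hB hE using hch
  -- norms
  have hnorm : ∀ j, eLpNorm (av (f j) (F j) (G j)) 3 mu ≤
      ENNReal.ofReal ((I + 1 / ((j : ℝ) + 1)) ^ ((1 : ℝ) / 3)) := by
    intro j
    have h1 := (hAdm j).mem
    have h2 := energy_eq h1
    have h3 := hE j
    rw [h2] at h3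
    rw [← ENNReal.ofReal_toReal h1.eLpNorm_ne_top]
    refine ENNReal.ofReal_le_ofReal ?_
    have h4 : (0 : ℝ) ≤ (eLpNorm (av (f j) (F j) (G j)) 3 mu).toReal := ENNReal.toReal_nonneg
    calc (eLpNorm (av (f j) (F j) (G j)) 3 mu).toReal
        = ((eLpNorm (av (f j) (F j) (G j)) 3 mu).toReal ^ 3) ^ ((1 : ℝ) / 3) := by
          rw [← Real.rpow_natCast, ← Real.rpow_mul h4]
          norm_num
      _ ≤ _ := Real.rpow_le_rpow (by positivity) h3 (by norm_num)
  have hnorm1 : ∀ j, eLpNorm (av (f j) (F j) (G j)) 3 mu ≤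
      ENNReal.ofReal ((I + 1) ^ ((1 : ℝ) / 3)) := by
    intro j
    refine (hnorm j).trans (ENNReal.ofReal_le_ofReal ?_)
    refine Real.rpow_le_rpow (by positivity) ?_ (by norm_num)
    have : 1 / ((j : ℝ) + 1) ≤ 1 := by
      rw [div_le_one (by positivity)]
      have : (0 : ℝ) ≤ j := Nat.cast_nonneg j
      linarith
    linarith
  -- equicontinuity
  choose Ck hCk0 hCk using hMW
  set Mk : ℕ → ℝ := fun k => ((((k : ENNReal) + 2) ^ ((1 : ℝ) / 3) *
    ENNReal.ofReal ((I + 1) ^ ((1 : ℝ) / 3))).toReal) ^ 3 with hMk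
  have hfin : ∀ k : ℕ, ((k : ENNReal) + 2) ^ ((1 : ℝ) / 3) *
      ENNReal.ofReal ((I + 1) ^ ((1 : ℝ) / 3)) ≠ ⊤ := by
    intro k
    refine ENNReal.mul_ne_top (ENNReal.rpow_ne_top_of_nonneg (by norm_num) ?_) ENNReal.ofReal_ne_top
    exact ENNReal.add_ne_top.2 ⟨ENNReal.natCast_ne_top k, by norm_num⟩
  have hint : ∀ (k : ℕ) (U : ℝ × ℝ → ℝ × ℝ) (a : ℝ × ℝ → V5), MemLp U 3 (volume.restrict (Box k)) →
      (∀ p, ‖U p‖ ≤ ‖a p‖) → eLpNorm a 3 mu ≤ ENNReal.ofReal ((I + 1) ^ ((1 : ℝ) / 3)) →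
      ∫ x in Box k, ‖U x‖ ^ 3 ≤ Mk k := by
    intro k U a hU hle ha
    rw [energy_eq hU]
    refine pow_le_pow_left₀ ENNReal.toReal_nonneg ?_ 3
    refine ENNReal.toReal_mono (hfin k) ?_
    calc eLpNorm U 3 (volume.restrict (Box k)) ≤ eLpNorm a 3 (volume.restrict (Box k)) :=
          eLpNorm_mono hle
      _ ≤ ((k : ENNReal) + 2) ^ ((1 : ℝ) / 3) * eLpNorm a 3 mu := eLpNorm_Box_le k a
      _ ≤ _ := by gcongr
  have hequi : ∀ (u : ℕ → ℝ × ℝ → ℝ) (U : ℕ → ℝ × ℝ → ℝ × ℝ), (∀ j, W2 (u j) (U j)) →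
      (∀ j p, ‖U j p‖ ≤ ‖av (f j) (F j) (G j) p‖) →
      ∀ k j, ∀ p ∈ Box k, ∀ q ∈ Box k,
        |u j p - u j q| ≤ (Ck k * Mk k ^ ((1 : ℝ) / 3)) * dist p q ^ ((1 : ℝ) / 3) := by
    intro u U hW hle k j p hp q hq
    refine (hCk k (u j) (U j) (hW j) p hp q hq).trans ?_
    refine mul_le_mul_of_nonneg_right ?_ (by positivity)
    refine mul_le_mul_of_nonneg_left ?_ (hCk0 k)
    refine Real.rpow_le_rpow (integral_nonneg fun x => by positivity) ?_ (by norm_num)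
    exact hint k (U j) _ ((hW j).mem k) (hle j) (hnorm1 j)
  have hbf : ∀ j, ∀ p ∈ Qc, |f j p| ≤ 2 := by
    intro j p hp
    refine abs_le_of_sq_le_sq ?_ (by norm_num)
    have := hB j p hp
    nlinarith [sq_nonneg (g j p)]
  have hbg : ∀ j, ∀ p ∈ Qc, |g j p| ≤ 2 := by
    intro j p hp
    refine abs_le_of_sq_le_sq ?_ (by norm_num)
    have := hB j p hp
    nlinarith [sq_nonneg (f j p)]
  obtain ⟨s₁, f₀, hs₁, hf₀⟩ := hA f 2 _ hbf (hequi f F (fun j => (hAdm j).wf)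
    fun j p => (norm_F_le _ _ _ p).1)
  obtain ⟨s₂, g₀, hs₂, hg₀⟩ := hA (fun j => g (s₁ j)) 2
    (fun k => Ck k * Mk k ^ ((1 : ℝ) / 3)) (fun j => hbg (s₁ j))
    (fun k j => hequi g G (fun j => (hAdm j).wg) (fun j p => (norm_F_le _ _ _ p).2) k (s₁ j))
  set s : ℕ → ℕ := fun j => s₁ (s₂ j) with hsdef
  have hs : StrictMono s := hs₁.comp hs₂
  have huf : ∀ k, TendstoUniformlyOn (fun j => f (s j)) f₀ atTop (Box k) := by
    intro k
    exact fun v hv => hs₂.tendsto_atTop.eventually (hf₀ k v hv)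
  have hug : ∀ k, TendstoUniformlyOn (fun j => g (s j)) g₀ atTop (Box k) := hg₀
  -- forward convex combinations
  obtain ⟨N, w, b, hw0, hw1, hb, hlim, hbn⟩ := hK mu
    (fun j => av (f (s j)) (F (s j)) (G (s j))) (ENNReal.ofReal ((I + 1) ^ ((1 : ℝ) / 3)))
    ENNReal.ofReal_ne_top (fun j => (hAdm (s j)).mem) (fun j => hnorm1 (s j))
  set F₀ : ℝ × ℝ → ℝ × ℝ := fun p => (b p 0, b p 1) with hF₀
  set G₀ : ℝ × ℝ → ℝ × ℝ := fun p => (b p 2, b p 3) with hG₀
  have hbB : ∀ k, MemLp b 3 (volume.restrict (Box k)) := by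
    intro k
    refine (hb.smul_measure (c := (k : ENNReal) + 2) ?_).mono_measure (restrict_Box_le k)
    exact ENNReal.add_ne_top.2 ⟨ENNReal.natCast_ne_top k, by norm_num⟩
  have hcomp : ∀ (k : ℕ) (i j : Fin 5), MemLp (fun p => (b p i, b p j)) 3
      (volume.restrict (Box k)) := by
    intro k i j
    refine (hbB k).mono ?_ (Eventually.of_forall fun p => norm_pair_le (b p) i j)
    have hc : Continuous fun v : V5 => (v i, v j) := by
      fun_prop
    exact hc.comp_aestronglyMeasurable (hbB k).aestronglyMeasurable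
  have hsumav : ∀ j p, (∑ i ∈ Finset.Icc j (N j), w j i • av (f (s i)) (F (s i)) (G (s i)) p) =
      av (fun p => ∑ i ∈ Finset.Icc j (N j), w j i * f (s i) p)
        (fun p => ∑ i ∈ Finset.Icc j (N j), w j i • F (s i) p)
        (fun p => ∑ i ∈ Finset.Icc j (N j), w j i • G (s i) p) p := by
    intro j p
    ext l
    have h0 : ∀ l : Fin 5, (∑ i ∈ Finset.Icc j (N j),
        w j i • av (f (s i)) (F (s i)) (G (s i)) p) l =
        ∑ i ∈ Finset.Icc j (N j), w j i * av (f (s i)) (F (s i)) (G (s i)) p l := by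
      intro l
      rw [WithLp.ofLp_sum, Finset.sum_apply]
      rfl
    rw [h0]
    fin_cases l
    · show ∑ i ∈ Finset.Icc j (N j), w j i * (F (s i) p).1 =
        (∑ i ∈ Finset.Icc j (N j), w j i • F (s i) p).1
      rw [Prod.fst_sum]
      rfl
    · show ∑ i ∈ Finset.Icc j (N j), w j i * (F (s i) p).2 =
        (∑ i ∈ Finset.Icc j (N j), w j i • F (s i) p).2
      rw [Prod.snd_sum]
      rfl
    · show ∑ i ∈ Finset.Icc j (N j), w j i * (G (s i) p).1 =
        (∑ i ∈ Finset.Icc j (N j), w j i • G (s i) p).1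
      rw [Prod.fst_sum]
      rfl
    · show ∑ i ∈ Finset.Icc j (N j), w j i * (G (s i) p).2 =
        (∑ i ∈ Finset.Icc j (N j), w j i • G (s i) p).2
      rw [Prod.snd_sum]
      rfl
    · show ∑ i ∈ Finset.Icc j (N j), w j i * (2 * f (s i) p / p.1) =
        2 * (∑ i ∈ Finset.Icc j (N j), w j i * f (s i) p) / p.1
      rw [Finset.mul_sum, Finset.sum_div]
      refine Finset.sum_congr rfl fun i _ => ?_
      ring
  have hconv : ∀ k, Tendsto (fun j => eLpNorm (fun x => (∑ i ∈ Finset.Icc j (N j),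
      w j i • av (f (s i)) (F (s i)) (G (s i)) x) - b x) 3 (volume.restrict (Box k)))
      atTop (𝓝 0) := by
    intro k
    have h1 : Tendsto (fun j => ((k : ENNReal) + 2) ^ ((1 : ℝ) / 3) *
        eLpNorm (fun x => (∑ i ∈ Finset.Icc j (N j),
          w j i • av (f (s i)) (F (s i)) (G (s i)) x) - b x) 3 mu) atTop (𝓝 0) := by
      have h2 := ENNReal.Tendsto.const_mul (a := ((k : ENNReal) + 2) ^ ((1 : ℝ) / 3)) hlim
        (Or.inr (ENNReal.rpow_ne_top_of_nonneg (by norm_num)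
          (ENNReal.add_ne_top.2 ⟨ENNReal.natCast_ne_top k, by norm_num⟩)))
      rwa [mul_zero] at h2
    exact tendsto_of_tendsto_of_tendsto_of_le_of_le tendsto_const_nhds h1
      (fun j => zero_le) (fun j => eLpNorm_Box_le k _)
  have hWf : W2 f₀ F₀ := by
    refine hL (fun j p => ∑ i ∈ Finset.Icc j (N j), w j i * f (s i) p)
      (fun j p => ∑ i ∈ Finset.Icc j (N j), w j i • F (s i) p) f₀ F₀
      (fun j => W2_sum hS hC _ _ _ _ fun i => (hAdm (s i)).wf)
      (fun k => unif_comb (huf k) hw0 hw1) (fun k => hcomp k 0 1) (fun k => ?_)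
    refine tendsto_of_tendsto_of_tendsto_of_le_of_le tendsto_const_nhds (hconv k)
      (fun j => zero_le) (fun j => eLpNorm_mono fun p => ?_)
    have h1 := norm_pair_le ((∑ i ∈ Finset.Icc j (N j),
      w j i • av (f (s i)) (F (s i)) (G (s i)) p) - b p) 0 1
    refine le_trans (le_of_eq ?_) h1
    congr 1
    rw [hsumav]
    rfl
  have hWg : W2 g₀ G₀ := by
    refine hL (fun j p => ∑ i ∈ Finset.Icc j (N j), w j i * g (s i) p)
      (fun j p => ∑ i ∈ Finset.Icc j (N j), w j i • G (s i) p) g₀ G₀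
      (fun j => W2_sum hS hC _ _ _ _ fun i => (hAdm (s i)).wg)
      (fun k => unif_comb (hug k) hw0 hw1) (fun k => hcomp k 2 3) (fun k => ?_)
    refine tendsto_of_tendsto_of_tendsto_of_le_of_le tendsto_const_nhds (hconv k)
      (fun j => zero_le) (fun j => eLpNorm_mono fun p => ?_)
    have h1 := norm_pair_le ((∑ i ∈ Finset.Icc j (N j),
      w j i • av (f (s i)) (F (s i)) (G (s i)) p) - b p) 2 3
    refine le_trans (le_of_eq ?_) h1
    congr 1
    rw [hsumav]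
    rfl
  have hpt : ∀ {u : ℕ → ℝ × ℝ → ℝ} {v : ℝ × ℝ → ℝ},
      (∀ k, TendstoUniformlyOn u v atTop (Box k)) → ∀ p ∈ Qc,
      Tendsto (fun j => u j p) atTop (𝓝 (v p)) := by
    intro u v h p hp
    obtain ⟨k, hk⟩ := exists_Box hp
    exact (h k).tendsto_at hk
  have hae : ∀ᵐ p ∂mu, av f₀ F₀ G₀ p = b p := by
    have h1 : TendstoInMeasure mu (fun j x => (∑ i ∈ Finset.Icc j (N j),
        w j i • av (f (s i)) (F (s i)) (G (s i)) x)) atTop b := by
      refine tendstoInMeasure_of_tendsto_eLpNorm (p := 3) (by norm_num) (fun j => ?_)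
        hb.aestronglyMeasurable hlim
      refine (Finset.aestronglyMeasurable_fun_sum _ fun i _ => ?_)
      exact ((hAdm (s i)).mem.aestronglyMeasurable).const_smul (w j i)
    obtain ⟨ns, hns, hae⟩ := h1.exists_seq_tendsto_ae
    have hQ : ∀ᵐ p ∂mu, p ∈ QQ := by
      unfold mu
      refine (withDensity_absolutelyContinuous _ _).ae_le ?_
      exact ae_restrict_mem isOpen_QQ.measurableSet
    filter_upwards [hae, hQ] with p hp hpQ
    have h4 : Tendsto (fun j => (∑ i ∈ Finset.Icc (ns j) (N (ns j)),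
        w (ns j) i • av (f (s i)) (F (s i)) (G (s i)) p) 4) atTop (𝓝 (b p 4)) := by
      have hc : Continuous fun v : V5 => v 4 := by fun_prop
      exact (hc.tendsto _).comp hp
    have h5 : Tendsto (fun j => (∑ i ∈ Finset.Icc (ns j) (N (ns j)),
        w (ns j) i • av (f (s i)) (F (s i)) (G (s i)) p) 4) atTop (𝓝 (2 * f₀ p / p.1)) := by
      have h6 := (hpt (fun k => unif_comb (huf k) hw0 hw1) p (QQ_sub_Qc hpQ)).comp
        hns.tendsto_atTop
      have h7 := (h6.const_mul 2).div_const p.1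
      refine h7.congr fun j => ?_
      rw [hsumav]
      rfl
    have h8 := tendsto_nhds_unique h4 h5
    ext l
    fin_cases l
    · rfl
    · rfl
    · rfl
    · rfl
    · exact h8.symm
  have hAdm₀ : Adm f₀ g₀ F₀ G₀ := by
    refine ⟨hWf, hWg, ?_, ?_, ?_, ?_⟩
    · exact (memLp_congr_ae hae).2 hb
    · intro r hr
      have hp : ((r, 0) : ℝ × ℝ) ∈ Qc := ⟨hr, le_refl _⟩
      have h1 := ((hpt huf _ hp).pow 2).add ((hpt hug _ hp).pow 2)
      refine tendsto_nhds_unique h1 ?_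
      refine tendsto_const_nhds.congr fun j => ?_
      exact ((hAdm (s j)).bdy r hr).symm
    · intro p hp
      refine tendsto_nhds_unique (hpt huf _ (JJ_mem hp)) ?_
      refine (hpt huf _ hp).congr fun j => ?_
      exact ((hAdm (s j)).jf p hp).symm
    · intro p hp
      refine tendsto_nhds_unique (hpt hug _ (JJ_mem hp)) ?_
      refine (hpt hug _ hp).neg.congr fun j => ?_
      exact ((hAdm (s j)).jg p hp).symm
  refine ⟨f₀, g₀, F₀, G₀, hAdm₀, ?_, ?_⟩
  · intro p hp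
    have h1 := ((hpt huf _ hp).pow 2).add ((hpt hug _ hp).pow 2)
    exact le_of_tendsto' h1 fun j => hB (s j) p hp
  · intro f' g' F' G' h'
    have hle : ∫ p, ‖av f₀ F₀ G₀ p‖ ^ 3 ∂mu ≤ I := by
      have h1 : ∀ ε : ℝ, 0 < ε → ∫ p, ‖av f₀ F₀ G₀ p‖ ^ 3 ∂mu ≤ I + ε := by
        intro ε hε
        have h2 : eLpNorm b 3 mu ≤ ENNReal.ofReal ((I + ε) ^ ((1 : ℝ) / 3)) := by
          refine hbn _ ?_
          obtain ⟨j₀, hj₀⟩ := exists_nat_one_div_lt hε
          refine ⟨j₀, fun i hi => (hnorm (s i)).trans (ENNReal.ofReal_le_ofReal ?_)⟩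
          refine Real.rpow_le_rpow (by positivity) ?_ (by norm_num)
          have h3 : (j₀ : ℝ) ≤ (s i : ℝ) := by
            have := hs.id_le i
            exact_mod_cast hi.trans this
          have h4 : 1 / ((s i : ℝ) + 1) ≤ 1 / ((j₀ : ℝ) + 1) := by
            apply one_div_le_one_div_of_le (by positivity)
            linarith
          linarith
        have h3 : ∫ p, ‖av f₀ F₀ G₀ p‖ ^ 3 ∂mu = ∫ p, ‖b p‖ ^ 3 ∂mu := by
          refine integral_congr_ae ?_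
          filter_upwards [hae] with p hp
          rw [hp]
        rw [h3, energy_eq hb]
        have h5 : (eLpNorm b 3 mu).toReal ≤ (I + ε) ^ ((1 : ℝ) / 3) := by
          refine ENNReal.toReal_le_of_le_ofReal (by positivity) h2
        calc (eLpNorm b 3 mu).toReal ^ 3 ≤ ((I + ε) ^ ((1 : ℝ) / 3)) ^ 3 :=
              pow_le_pow_left₀ ENNReal.toReal_nonneg h5 3
          _ = I + ε := by
              rw [← Real.rpow_natCast, ← Real.rpow_mul (by linarith)]
              norm_num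
      exact le_of_forall_pos_le_add h1
    exact hle.trans (csInf_le hbd ⟨f', g', F', G', h', rfl⟩)

end Pool.Agent.T6.H20.BV
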