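import Pool.Agent.T6.H20.BV.Asm

/-!
# Project BV: the minimiser is a bubble
-/

set_option autoImplicit false

namespace Pool.Agent.T6.H20.BV

open MeasureTheory Set Filter Topology Pool.Agent.T6.H20.BU

theorem aesm_half {E' : Type*} [NormedAddCommGroup E'] {u : E 3 → E'}
    (h : ∀ R : ℝ, IntegrableOn u (half 2 ∩ Metric.ball 0 R)) :
    AEStronglyMeasurable u (volume.restrict (half 2)) := by
  have h1 : half 2 = ⋃ n : ℕ, half 2 ∩ Metric.ball 0 (n : ℝ) := by
    ext x
    simp only [mem_iUnion, mem_inter_iff, mem_ball_zero_iff]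
    constructor
    · intro hx
      obtain ⟨n, hn⟩ := exists_nat_gt ‖x‖
      exact ⟨n, hx, hn⟩
    · rintro ⟨n, hx, -⟩
      exact hx
  rw [h1, aestronglyMeasurable_iUnion_iff]
  exact fun n => (h n).aestronglyMeasurable

theorem continuous_rr : Continuous rr := by
  unfold rr
  fun_prop

theorem ae_rr_pos (hC : StmCOV) : ∀ᵐ x ∂(volume.restrict (half 2)), 0 < rr x := by
  rw [← hC.1.map_eq, ae_map_iff hC.1.aemeasurable
    (isOpen_lt continuous_const continuous_rr).measurableSet]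
  have h1 : ∀ᵐ q ∂(mu.prod (volume.restrict An)), q.1 ∈ QQ :=
    Measure.quasiMeasurePreserving_fst.ae ae_mu_QQ
  filter_upwards [h1] with q hq
  have h2 : rr (P3 (q.1, q.2)) = q.1.1 := rr_P3 hq.1 q.2
  rw [show q = (q.1, q.2) from rfl, h2]
  exact hq.1

theorem c1_le {x : E 3} (hx : 0 < rr x) :
    |c1 x ^ 2 - s1 x ^ 2| ≤ 1 ∧ |2 * c1 x * s1 x| ≤ 1 := by
  have h := c1_sq_add hx.ne'
  constructor
  · rw [abs_le]
    constructor <;> nlinarith [sq_nonneg (c1 x), sq_nonneg (s1 x)]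
  · rw [abs_le]
    constructor <;> nlinarith [sq_nonneg (c1 x + s1 x), sq_nonneg (c1 x - s1 x)]

theorem om_le {f g : ℝ × ℝ → ℝ} (hB : ∀ p ∈ Qc, f p ^ 2 + g p ^ 2 ≤ 4) {x : E 3}
    (hx : 0 < rr x) (hz : 0 ≤ x 2) (c : Fin 3) : |om f g x c| ≤ 2 := by
  have hQ : rz x ∈ Qc := ⟨hx, hz⟩
  have h1 := hB _ hQ
  have hf : |f (rz x)| ≤ 2 := by
    refine abs_le_of_sq_le_sq ?_ (by norm_num)
    nlinarith [sq_nonneg (g (rz x))]
  have hg : |g (rz x)| ≤ 2 := by
    refine abs_le_of_sq_le_sq ?_ (by norm_num)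
    nlinarith [sq_nonneg (f (rz x))]
  have h2 := c1_le hx
  fin_cases c
  · show |(c1 x ^ 2 - s1 x ^ 2) * f (rz x)| ≤ 2
    rw [abs_mul]
    calc _ ≤ 1 * 2 := mul_le_mul h2.1 hf (abs_nonneg _) zero_le_one
      _ = 2 := by norm_num
  · show |2 * c1 x * s1 x * f (rz x)| ≤ 2
    rw [abs_mul]
    calc _ ≤ 1 * 2 := mul_le_mul h2.2 hf (abs_nonneg _) zero_le_one
      _ = 2 := by norm_num
  · exact hg

theorem om_sq {f g : ℝ × ℝ → ℝ} {x : E 3} (hx : 0 < rr x) :
    ∑ c, om f g x c ^ 2 = f (rz x) ^ 2 + g (rz x) ^ 2 := by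
  have h := c1_sq_add hx.ne'
  rw [Fin.sum_univ_three]
  show ((c1 x ^ 2 - s1 x ^ 2) * f (rz x)) ^ 2 + (2 * c1 x * s1 x * f (rz x)) ^ 2 +
    g (rz x) ^ 2 = _
  linear_combination (f (rz x) ^ 2 * (c1 x ^ 2 + s1 x ^ 2 + 1)) * h

theorem rr_bd (y : E 2) : rr (bd y) = Real.sqrt (y 0 ^ 2 + y 1 ^ 2) := rfl

theorem rz_bd (y : E 2) : rz (bd y) = (rr (bd y), 0) := rfl

theorem rr_bd_pos {y : E 2} (hy : y ≠ 0) : 0 < rr (bd y) := by
  rw [rr_bd, Real.sqrt_pos]
  by_contra h'
  have h := not_lt.1 h'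
  apply hy
  have h0 : y 0 = 0 := by nlinarith [sq_nonneg (y 0), sq_nonneg (y 1)]
  have h1 : y 1 = 0 := by nlinarith [sq_nonneg (y 0), sq_nonneg (y 1)]
  ext i
  fin_cases i
  · exact h0
  · exact h1

theorem hs_nonneg' {n d : ℕ} (A : Fin d → E n) : 0 ≤ hs A := Real.sqrt_nonneg _

theorem hs_sq {n d : ℕ} (A : Fin d → E n) : hs A ^ 2 = ∑ c, ‖A c‖ ^ 2 :=
  Real.sq_sqrt (Finset.sum_nonneg fun c _ => by positivity)

theorem sum_inner_le {n d : ℕ} (A B : Fin d → E n) :
    |∑ c, inner ℝ (A c) (B c)| ≤ hs A * hs B := by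
  have h1 : |∑ c, inner ℝ (A c) (B c)| ≤ ∑ c, ‖A c‖ * ‖B c‖ :=
    (Finset.abs_sum_le_sum_abs _ _).trans (Finset.sum_le_sum fun c _ => abs_real_inner_le_norm _ _)
  refine h1.trans ?_
  unfold hs
  exact Real.sum_mul_le_sqrt_mul_sqrt _ _ _

theorem bme_le {c s : ℝ} (h : c ^ 2 + s ^ 2 = 1) (B : Fin 3 → E 3) : ‖bme c s B‖ ≤ hs B := by
  have h1 := emb_inner c s (bme c s B) B
  rw [real_inner_self_eq_norm_sq] at h1
  have h2 := sum_inner_le (emb c s (bme c s B)) B
  rw [h1, emb_hs h, abs_of_nonneg (by positivity)] at h2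
  by_contra h3'
  have h3 := not_le.1 h3'
  have h4 : 0 ≤ hs B := hs_nonneg' B
  have h5 : 0 < ‖bme c s B‖ := lt_of_le_of_lt h4 h3
  nlinarith

theorem hs_le_sum (B : Fin 3 → E 3) : hs B ≤ ‖B 0‖ + ‖B 1‖ + ‖B 2‖ := by
  unfold hs
  refine Real.sqrt_le_iff.2 ⟨by positivity, ?_⟩
  rw [Fin.sum_univ_three]
  nlinarith [mul_nonneg (norm_nonneg (B 0)) (norm_nonneg (B 1)),
    mul_nonneg (norm_nonneg (B 0)) (norm_nonneg (B 2)),
    mul_nonneg (norm_nonneg (B 1)) (norm_nonneg (B 2))]

/-- measurability of the Hilbert-Schmidt norm -/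
theorem aesm_hs {μ : Measure (E 3)} {A : E 3 → Fin 3 → E 3}
    (h : ∀ c, AEStronglyMeasurable (fun x => A x c) μ) :
    AEStronglyMeasurable (fun x => hs (A x)) μ := by
  unfold hs
  refine Real.continuous_sqrt.comp_aestronglyMeasurable ?_
  exact Finset.aestronglyMeasurable_fun_sum _ fun c _ => ((h c).norm.pow 2)

theorem memLp_hs {μ : Measure (E 3)} {A : E 3 → Fin 3 → E 3}
    (h : ∀ c, MemLp (fun x => A x c) 3 μ) : MemLp (fun x => hs (A x)) 3 μ := by
  have h1 : MemLp (fun x => ‖A x 0‖ + ‖A x 1‖ + ‖A x 2‖) 3 μ :=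
    ((h 0).norm.add (h 1).norm).add (h 2).norm
  refine h1.mono (aesm_hs fun c => (h c).aestronglyMeasurable) (Eventually.of_forall fun x => ?_)
  rw [Real.norm_of_nonneg (hs_nonneg' _), Real.norm_of_nonneg (by positivity)]
  exact hs_le_sum _

theorem integrable_hs_cube {μ : Measure (E 3)} {A : E 3 → Fin 3 → E 3}
    (h : MemLp (fun x => hs (A x)) 3 μ) : Integrable (fun x => hs (A x) ^ 3) μ := by
  have h1 := h.integrable_norm_rpow (by norm_num) (by norm_num)
  refine h1.congr (Eventually.of_forall fun p => ?_)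
  simp only [ENNReal.toReal_ofNat, Real.norm_of_nonneg (hs_nonneg' _)]
  exact_mod_cast Real.rpow_natCast (hs (A p)) 3

instance : IsFiniteMeasure (volume.restrict An : Measure ℝ) := by
  refine ⟨?_⟩
  rw [Measure.restrict_apply_univ, An, Real.volume_Ioo]
  exact ENNReal.ofReal_lt_top

/-- the energy is finite -/
theorem energy3 (hC : StmCOV) {f : ℝ × ℝ → ℝ} {F G : ℝ × ℝ → ℝ × ℝ} (hm : MemLp (av f F G) 3 mu)
    (hd : ∀ c, AEStronglyMeasurable (fun x => dm f F G x c) (volume.restrict (half 2))) :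
    Integrable (fun x => hs (dm f F G x) ^ 3) (volume.restrict (half 2)) := by
  have hmeas : AEStronglyMeasurable (fun x => hs (dm f F G x) ^ 3) (volume.restrict (half 2)) :=
    (aesm_hs hd).pow 3
  refine (hC.1.integrable_comp hmeas).1 ?_
  have h1 : Integrable (fun q : (ℝ × ℝ) × ℝ => ‖av f F G q.1‖ ^ 3)
      (mu.prod (volume.restrict An)) := (integrable_cube hm).comp_fst _
  refine h1.congr ?_
  have h2 : ∀ᵐ q ∂(mu.prod (volume.restrict An)), q.1 ∈ QQ :=
    Measure.quasiMeasurePreserving_fst.ae ae_mu_QQ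
  filter_upwards [h2] with q hq
  show _ = hs (dm f F G (P3 (q.1, q.2))) ^ 3
  rw [dm_P3 f F G hq.1, emb_hs (Real.cos_sq_add_sin_sq _)]

/-- the boundary relation of the averaged test -/
theorem bdry3 (hC : StmCOV) {f g φ γ : ℝ × ℝ → ℝ} (hf : ContinuousOn f Qc)
    (hg : ContinuousOn g Qc) (hφ : ContinuousOn φ Qc) (hγ : ContinuousOn γ Qc)
    {σ : E 2 → Fin 3 → ℝ} (hσ : ∀ c, LocallyIntegrable fun y => σ y c)
    (hort : ∀ᵐ y : E 2, ∑ c, σ y c * om f g (bd y) c = 0)
    (hav : ∀ᵐ r ∂(volume.restrict (Ioi (0 : ℝ))),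
      φ (r, 0) = 1 / (2 * Real.pi) * ∫ t in An,
        ((Real.cos t ^ 2 - Real.sin t ^ 2) * σ (P2 (r, t)) 0 +
          2 * Real.cos t * Real.sin t * σ (P2 (r, t)) 1) ∧
      γ (r, 0) = 1 / (2 * Real.pi) * ∫ t in An, σ (P2 (r, t)) 2) :
    ∀ r : ℝ, 0 < r → f (r, 0) * φ (r, 0) + g (r, 0) * γ (r, 0) = 0 := by
  set ν : Measure ℝ := ((volume : Measure ℝ).restrict (Ioi 0)).withDensity ENNReal.ofReal with hν
  have hν1 : ∀ {Q : ℝ → Prop}, (∀ᵐ r ∂ν, Q r) → ∀ᵐ r ∂(volume.restrict (Ioi (0 : ℝ))), Q r := by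
    intro Q h
    rw [hν, ae_withDensity_iff (by fun_prop)] at h
    filter_upwards [h, ae_restrict_mem measurableSet_Ioi] with r h1 h2
    exact h1 (by
      have : (0 : ℝ) < r := h2
      simpa using this)
  -- integrability on almost all circles
  have hint : ∀ c, ∀ᵐ r ∂ν, Integrable (fun t => σ (P2 (r, t)) c) (volume.restrict An) := by
    intro c
    have h1 : ∀ n : ℕ, ∀ᵐ r ∂ν, Integrable
        (fun t => (Metric.ball (0 : E 2) n).indicator (fun y => σ y c) (P2 (r, t)))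
        (volume.restrict An) := by
      intro n
      have h2 : Integrable ((Metric.ball (0 : E 2) n).indicator (fun y => σ y c)) volume := by
        rw [integrable_indicator_iff measurableSet_ball]
        exact ((hσ c).integrableOn_isCompact (isCompact_closedBall (0 : E 2) n)).mono_set
          Metric.ball_subset_closedBall
      have h3 : Integrable (((Metric.ball (0 : E 2) n).indicator (fun y => σ y c)) ∘ P2)
          (ν.prod (volume.restrict An)) := (hC.2.integrable_comp h2.aestronglyMeasurable).2 h2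
      exact h3.prod_right_ae
    have h4 := ae_all_iff.2 h1
    have h5 : ∀ᵐ r ∂ν, r ∈ Ioi (0 : ℝ) := by
      refine (withDensity_absolutelyContinuous _ _).ae_le ?_
      exact ae_restrict_mem measurableSet_Ioi
    filter_upwards [h4, h5] with r hr hr0
    have hr0' : 0 < r := hr0
    obtain ⟨n, hn⟩ := exists_nat_gt r
    refine (hr n).congr (Eventually.of_forall fun t => ?_)
    refine indicator_of_mem ?_ _
    rw [mem_ball_zero_iff, EuclideanSpace.norm_eq, Fin.sum_univ_two]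
    show Real.sqrt (‖r * Real.cos t‖ ^ 2 + ‖r * Real.sin t‖ ^ 2) < n
    have h6 : ‖r * Real.cos t‖ ^ 2 + ‖r * Real.sin t‖ ^ 2 = r ^ 2 := by
      rw [Real.norm_eq_abs, Real.norm_eq_abs, sq_abs, sq_abs]
      have := Real.cos_sq_add_sin_sq t
      linear_combination r ^ 2 * this
    rw [h6, Real.sqrt_sq hr0'.le]
    exact hn
  -- orthogonality on almost all circles
  have hort' : ∀ᵐ r ∂ν, ∀ᵐ t ∂(volume.restrict An),
      ∑ c, σ (P2 (r, t)) c * om f g (bd (P2 (r, t))) c = 0 := by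
    have h1 : ∀ᵐ q ∂(ν.prod (volume.restrict An)),
        ∑ c, σ (P2 q) c * om f g (bd (P2 q)) c = 0 := hC.2.quasiMeasurePreserving.ae hort
    exact Measure.ae_ae_of_ae_prod h1
  have key : ∀ᵐ r ∂(volume.restrict (Ioi (0 : ℝ))),
      f (r, 0) * φ (r, 0) + g (r, 0) * γ (r, 0) = 0 := by
    filter_upwards [hav, hν1 (hint 0), hν1 (hint 1), hν1 (hint 2), hν1 hort',
      ae_restrict_mem measurableSet_Ioi] with r h1 i0 i1 i2 h2 hr
    have hr0 : (0 : ℝ) < r := hr
    rw [h1.1, h1.2]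
    have bc : ∀ {u : ℝ → ℝ} {w : ℝ → ℝ}, Continuous u → (∀ t, |u t| ≤ 2) →
        Integrable w (volume.restrict An) → Integrable (fun t => u t * w t)
          (volume.restrict An) := by
      intro u w hu hb hw
      exact hw.bdd_mul (c := 2) hu.aestronglyMeasurable (Eventually.of_forall hb)
    have hcs : ∀ t : ℝ, |Real.cos t ^ 2 - Real.sin t ^ 2| ≤ 2 := by
      intro t
      have := Real.cos_sq_add_sin_sq t
      rw [abs_le]
      constructor <;> nlinarith [sq_nonneg (Real.cos t), sq_nonneg (Real.sin t)]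
    have hcs2 : ∀ t : ℝ, |2 * Real.cos t * Real.sin t| ≤ 2 := by
      intro t
      have := Real.cos_sq_add_sin_sq t
      rw [abs_le]
      constructor <;> nlinarith [sq_nonneg (Real.cos t + Real.sin t),
        sq_nonneg (Real.cos t - Real.sin t)]
    have j0 : Integrable (fun t => (Real.cos t ^ 2 - Real.sin t ^ 2) * σ (P2 (r, t)) 0)
        (volume.restrict An) := bc (by fun_prop) hcs i0
    have j1 : Integrable (fun t => 2 * Real.cos t * Real.sin t * σ (P2 (r, t)) 1)
        (volume.restrict An) := bc (by fun_prop) hcs2 i1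
    have h3 : f (r, 0) * (∫ t in An, ((Real.cos t ^ 2 - Real.sin t ^ 2) * σ (P2 (r, t)) 0 +
          2 * Real.cos t * Real.sin t * σ (P2 (r, t)) 1)) +
        g (r, 0) * (∫ t in An, σ (P2 (r, t)) 2) = 0 := by
      have j01 : Integrable (fun t => (Real.cos t ^ 2 - Real.sin t ^ 2) * σ (P2 (r, t)) 0 +
          2 * Real.cos t * Real.sin t * σ (P2 (r, t)) 1) (volume.restrict An) := j0.add j1
      rw [← integral_const_mul, ← integral_const_mul, ← integral_add (j01.const_mul _)
        (i2.const_mul _)]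
      refine (integral_congr_ae ?_).trans (integral_zero _ _)
      filter_upwards [h2] with t ht
      rw [Fin.sum_univ_three] at ht
      have hp : (0 : ℝ) < ((r, 0) : ℝ × ℝ).1 := hr0
      have e1 : rz (bd (P2 (r, t))) = (r, 0) := by
        rw [← P3_bd]
        exact rz_P3 hp t
      have e2 : c1 (bd (P2 (r, t))) = Real.cos t := by
        rw [← P3_bd]
        exact c1_P3 hp t
      have e3 : s1 (bd (P2 (r, t))) = Real.sin t := by
        rw [← P3_bd]
        exact s1_P3 hp t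
      have o0 : om f g (bd (P2 (r, t))) 0 = (Real.cos t ^ 2 - Real.sin t ^ 2) * f (r, 0) := by
        show (c1 (bd (P2 (r, t))) ^ 2 - s1 (bd (P2 (r, t))) ^ 2) * f (rz (bd (P2 (r, t)))) = _
        rw [e1, e2, e3]
      have o1 : om f g (bd (P2 (r, t))) 1 = (2 * Real.cos t * Real.sin t) * f (r, 0) := by
        show (2 * c1 (bd (P2 (r, t))) * s1 (bd (P2 (r, t)))) * f (rz (bd (P2 (r, t)))) = _
        rw [e1, e2, e3]
      have o2 : om f g (bd (P2 (r, t))) 2 = g (r, 0) := by
        show g (rz (bd (P2 (r, t)))) = _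
        rw [e1]
      rw [o0, o1, o2] at ht
      linarith
    linear_combination (1 / (2 * Real.pi)) * h3
  -- continuity
  have hmap : ∀ {u : ℝ × ℝ → ℝ}, ContinuousOn u Qc →
      ContinuousOn (fun r : ℝ => u (r, 0)) (Ioi 0) := by
    intro u hu
    refine hu.comp (by fun_prop) fun r hr => ?_
    exact ⟨hr, le_refl _⟩
  have hcont : ContinuousOn (fun r : ℝ => f (r, 0) * φ (r, 0) + g (r, 0) * γ (r, 0)) (Ioi 0) :=
    ((hmap hf).mul (hmap hφ)).add ((hmap hg).mul (hmap hγ))
  have h9 := Measure.eqOn_open_of_ae_eq (μ := (volume : Measure ℝ)) (f := fun r : ℝ =>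
    f (r, 0) * φ (r, 0) + g (r, 0) * γ (r, 0)) (g := fun _ => (0 : ℝ)) key isOpen_Ioi hcont
    continuousOn_const
  exact fun r hr => h9 hr

/-- the weak equation in `ℝ³` -/
theorem weak3 (hC : StmCOV) {f : ℝ × ℝ → ℝ} {F G : ℝ × ℝ → ℝ × ℝ} (hm : MemLp (av f F G) 3 mu)
    (hd : ∀ c, AEStronglyMeasurable (fun x => dm f F G x c) (volume.restrict (half 2)))
    {B : E 3 → Fin 3 → E 3} (hB : ∀ c, MemLp (fun x => B x c) 3 (volume.restrict (half 2)))
    {φ : ℝ × ℝ → ℝ} {P R : ℝ × ℝ → ℝ × ℝ} (hav : ∀ᵐ p ∂mu, av φ P R p = bav B p)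
    (hE : Eqn f F G φ P R) :
    IntegrableOn (fun x => pair 2 (dm f F G x) (B x)) (half 2) ∧
      ∫ x in half 2, pair 2 (dm f F G x) (B x) = 0 := by
  have hBm : ∀ c, AEStronglyMeasurable (fun x => B x c) (volume.restrict (half 2)) :=
    fun c => (hB c).aestronglyMeasurable
  have hmeas : AEStronglyMeasurable (fun x => pair 2 (dm f F G x) (B x))
      (volume.restrict (half 2)) := by
    unfold pair
    refine ((aesm_hs hd).pow _).mul ?_
    exact Finset.aestronglyMeasurable_fun_sum _ fun c _ => (hd c).inner (hBm c)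
  have hint : Integrable (fun x => pair 2 (dm f F G x) (B x)) (volume.restrict (half 2)) := by
    refine ((energy3 hC hm hd).add (integrable_hs_cube (memLp_hs hB))).mono' hmeas
      (Eventually.of_forall fun x => ?_)
    unfold pair
    rw [norm_mul, Real.norm_eq_abs, Real.norm_eq_abs]
    have h1 := sum_inner_le (dm f F G x) (B x)
    have h2 := hs_nonneg' (dm f F G x)
    have h3 := hs_nonneg' (B x)
    have h4 : |hs (dm f F G x) ^ (2 - 1)| = hs (dm f F G x) := by
      rw [show 2 - 1 = 1 from rfl, pow_one, abs_of_nonneg h2]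
    rw [h4]
    calc hs (dm f F G x) * |∑ c, inner ℝ (dm f F G x c) (B x c)|
        ≤ hs (dm f F G x) * (hs (dm f F G x) * hs (B x)) := mul_le_mul_of_nonneg_left h1 h2
      _ ≤ _ := sq_mul_le _ _ h2 h3
  refine ⟨hint, ?_⟩
  -- change to cylindrical coordinates
  have h1 : ∫ x in half 2, pair 2 (dm f F G x) (B x) =
      ∫ q, pair 2 (dm f F G (P3 q)) (B (P3 q)) ∂(mu.prod (volume.restrict An)) := by
    have h2 : AEStronglyMeasurable (fun x => pair 2 (dm f F G x) (B x))
        (Measure.map P3 (mu.prod (volume.restrict An))) := by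
      rw [hC.1.map_eq]
      exact hmeas
    rw [← integral_map hC.1.aemeasurable h2, hC.1.map_eq]
  have hint' : Integrable (fun q => pair 2 (dm f F G (P3 q)) (B (P3 q)))
      (mu.prod (volume.restrict An)) := (hC.1.integrable_comp hmeas).2 hint
  rw [h1, integral_prod _ hint']
  -- the averages are integrable
  have hcomp : ∀ c i : Fin 3, AEMeasurable (fun q => B (P3 q) c i)
      (mu.prod (volume.restrict An)) := by
    intro c i
    have h3 : AEStronglyMeasurable (fun q => B (P3 q) c) (mu.prod (volume.restrict An)) :=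
      (hBm c).comp_quasiMeasurePreserving hC.1.quasiMeasurePreserving
    exact ((EuclideanSpace.proj (𝕜 := ℝ) i).continuous.comp_aestronglyMeasurable h3).aemeasurable
  have hX : AEStronglyMeasurable (fun q : (ℝ × ℝ) × ℝ =>
      bme (Real.cos q.2) (Real.sin q.2) (B (P3 q))) (mu.prod (volume.restrict An)) := by
    have hcos : Measurable fun q : (ℝ × ℝ) × ℝ => Real.cos q.2 := by fun_prop
    have hsin : Measurable fun q : (ℝ × ℝ) × ℝ => Real.sin q.2 := by fun_prop
    have hc' := hcos.aemeasurable (μ := mu.prod (volume.restrict An))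
    have hs' := hsin.aemeasurable (μ := mu.prod (volume.restrict An))
    have h4 : AEMeasurable (fun q : (ℝ × ℝ) × ℝ => (bme (Real.cos q.2) (Real.sin q.2)
        (B (P3 q))).ofLp) (mu.prod (volume.restrict An)) := by
      rw [aemeasurable_pi_iff]
      intro i
      fin_cases i
      · show AEMeasurable (fun q : (ℝ × ℝ) × ℝ => (Real.cos q.2 ^ 2 - Real.sin q.2 ^ 2) *
          (B (P3 q) 0 0 * Real.cos q.2 + B (P3 q) 0 1 * Real.sin q.2) +
          2 * Real.cos q.2 * Real.sin q.2 *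
          (B (P3 q) 1 0 * Real.cos q.2 + B (P3 q) 1 1 * Real.sin q.2)) _
        exact ((hc'.pow_const 2).sub (hs'.pow_const 2)).mul
          (((hcomp 0 0).mul hc').add ((hcomp 0 1).mul hs')) |>.add
          (((hc'.const_mul 2).mul hs').mul (((hcomp 1 0).mul hc').add ((hcomp 1 1).mul hs')))
      · show AEMeasurable (fun q : (ℝ × ℝ) × ℝ => (Real.cos q.2 ^ 2 - Real.sin q.2 ^ 2) *
          B (P3 q) 0 2 + 2 * Real.cos q.2 * Real.sin q.2 * B (P3 q) 1 2) _
        exact (((hc'.pow_const 2).sub (hs'.pow_const 2)).mul (hcomp 0 2)).add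
          (((hc'.const_mul 2).mul hs').mul (hcomp 1 2))
      · show AEMeasurable (fun q : (ℝ × ℝ) × ℝ => B (P3 q) 2 0 * Real.cos q.2 +
          B (P3 q) 2 1 * Real.sin q.2) _
        exact ((hcomp 2 0).mul hc').add ((hcomp 2 1).mul hs')
      · exact hcomp 2 2
      · show AEMeasurable (fun q : (ℝ × ℝ) × ℝ => -(2 * Real.cos q.2 * Real.sin q.2) *
          (-(B (P3 q) 0 0) * Real.sin q.2 + B (P3 q) 0 1 * Real.cos q.2) +
          (Real.cos q.2 ^ 2 - Real.sin q.2 ^ 2) *
          (-(B (P3 q) 1 0) * Real.sin q.2 + B (P3 q) 1 1 * Real.cos q.2)) _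
        exact ((((hc'.const_mul 2).mul hs').neg).mul
          (((hcomp 0 0).neg.mul hs').add ((hcomp 0 1).mul hc'))).add
          (((hc'.pow_const 2).sub (hs'.pow_const 2)).mul
          (((hcomp 1 0).neg.mul hs').add ((hcomp 1 1).mul hc')))
    have h5 : AEMeasurable (fun q : (ℝ × ℝ) × ℝ => bme (Real.cos q.2) (Real.sin q.2)
        (B (P3 q))) (mu.prod (volume.restrict An)) :=
      (PiLp.continuous_toLp 2 (fun _ : Fin 5 => ℝ)).measurable.comp_aemeasurable h4
    exact h5.aestronglyMeasurable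
  have hcube : Integrable (fun q => hs (B (P3 q)) ^ 3) (mu.prod (volume.restrict An)) :=
    (hC.1.integrable_comp (integrable_hs_cube (memLp_hs hB)).aestronglyMeasurable).2
      (integrable_hs_cube (memLp_hs hB))
  have hXint : ∀ᵐ p ∂mu, Integrable (fun t => bme (Real.cos t) (Real.sin t) (B (P3 (p, t))))
      (volume.restrict An) := by
    have h6 := hcube.prod_right_ae
    have h7 := hX.prodMk_left
    filter_upwards [h6, h7] with p h8 h9
    refine ((integrable_const (1 : ℝ)).add h8).mono' h9 (Eventually.of_forall fun t => ?_)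
    refine (bme_le (Real.cos_sq_add_sin_sq t) _).trans ?_
    have h10 := hs_nonneg' (B (P3 (p, t)))
    show hs (B (P3 (p, t))) ≤ 1 + hs (B (P3 (p, t))) ^ 3
    rcases le_total (hs (B (P3 (p, t)))) 1 with h | h
    · have : 0 ≤ hs (B (P3 (p, t))) ^ 3 := by positivity
      linarith
    · have : hs (B (P3 (p, t))) ≤ hs (B (P3 (p, t))) ^ 3 := le_self_pow₀ h (by norm_num)
      linarith
  have h11 : ∫ p, (∫ t in An, pair 2 (dm f F G (P3 (p, t))) (B (P3 (p, t)))) ∂mu =
      ∫ p, (2 * Real.pi) * (‖av f F G p‖ * inner ℝ (av f F G p) (av φ P R p)) ∂mu := by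
    refine integral_congr_ae ?_
    filter_upwards [hXint, hav, ae_mu_QQ] with p hp hp2 hpQ
    have h12 : ∀ t, pair 2 (dm f F G (P3 (p, t))) (B (P3 (p, t))) =
        ‖av f F G p‖ * inner ℝ (av f F G p)
          (bme (Real.cos t) (Real.sin t) (B (P3 (p, t)))) := by
      intro t
      unfold pair
      rw [dm_P3 f F G hpQ.1, emb_hs (Real.cos_sq_add_sin_sq t), emb_inner,
        show 2 - 1 = 1 from rfl, pow_one]
    simp only [h12]
    rw [integral_const_mul, integral_inner hp, hp2]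
    unfold bav
    rw [inner_smul_right]
    have := Real.pi_pos
    field_simp
  have h13 : ∫ p, (∫ t in An, pair 2 (dm f F G (P3 (p, t))) (B (P3 (p, t)))) ∂mu = 0 := by
    rw [h11, integral_const_mul]
    unfold Eqn at hE
    rw [hE, mul_zero]
  exact h13

theorem bubble3 (hC : StmCOV) (hV : StmAVG) (hT : StmT3D) {f g : ℝ × ℝ → ℝ}
    {F G : ℝ × ℝ → ℝ × ℝ} (hAdm : Adm f g F G) (hB : ∀ p ∈ Qc, f p ^ 2 + g p ^ 2 ≤ 4)
    (hE : EqA f g F G) :
    IsBubble 2 3 (om f g) (dm f F G) (fun y => om f g (bd y)) := by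
  have hbd : ∃ M : ℝ, ∀ p ∈ Qc, |f p| ≤ M ∧ |g p| ≤ M := by
    refine ⟨2, fun p hp => ?_⟩
    have := hB p hp
    constructor
    · refine abs_le_of_sq_le_sq ?_ (by norm_num)
      nlinarith [sq_nonneg (g p)]
    · refine abs_le_of_sq_le_sq ?_ (by norm_num)
      nlinarith [sq_nonneg (f p)]
  have hW := hT f g F G hAdm.wf hAdm.wg hAdm.mem hbd
  have hd : ∀ c, AEStronglyMeasurable (fun x => dm f F G x c) (volume.restrict (half 2)) :=
    fun c => aesm_half (hW c).G_int
  refine ⟨hW, ?_, ?_, ?_, ?_⟩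
  · intro c R
    have hfin : IsFiniteMeasure (volume.restrict (half 2 ∩ Metric.ball (0 : E 3) R)) := by
      refine ⟨?_⟩
      rw [Measure.restrict_apply_univ]
      exact lt_of_le_of_lt (measure_mono Set.inter_subset_right) measure_ball_lt_top
    refine MemLp.of_bound ((hW c).f_int R).aestronglyMeasurable 2 ?_
    have h1 : ∀ᵐ x ∂(volume.restrict (half 2 ∩ Metric.ball (0 : E 3) R)), 0 < rr x :=
      (ae_mono (Measure.restrict_mono inter_subset_left le_rfl)) (ae_rr_pos hC)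
    filter_upwards [h1, ae_restrict_mem (measurableSet_half.inter measurableSet_ball)]
      with x hx hx2
    have h2 : (0 : ℝ) < x 2 := hx2.1
    exact om_le hB hx h2.le c
  · exact energy3 hC hAdm.mem hd
  · have h1 : ∀ᵐ y : E 2, y ≠ 0 := by
      rw [ae_iff]
      simp
    filter_upwards [h1] with y hy
    have h2 := rr_bd_pos hy
    rw [om_sq h2, rz_bd]
    exact hAdm.bdy _ h2
  · intro Φ B σ hTst
    have h3 : (((2 : ℕ) : ENNReal) + 1) = 3 := by norm_num
    have hval : ∀ c, MemLp (fun x => Φ x c) 3 (volume.restrict (half 2)) := by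
      intro c
      have := hTst.val c
      rwa [h3] at this
    have hgrad : ∀ c, MemLp (fun x => B x c) 3 (volume.restrict (half 2)) := by
      intro c
      have := hTst.grad c
      rwa [h3] at this
    obtain ⟨φ, γ, P, R, wφ, wγ, hm, hav, hbr⟩ := hV Φ B σ hTst.diff hval hgrad
    have htest : Test f g φ γ P R := by
      refine ⟨wφ, wγ, hm, ?_⟩
      exact bdry3 hC (cont f F hAdm.wf) (cont g G hAdm.wg) (cont φ P wφ) (cont γ R wγ)
        (fun c => (hTst.diff c).t_int) hTst.bdry hbr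
    exact weak3 hC hAdm.mem hd hgrad hav (hE φ γ P R htest)

end Pool.Agent.T6.H20.BV
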