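import Pool.Agent.T6.H20.BV.Defs

/-!
# Project BV, module JIN: the inversion in the plane
-/

set_option autoImplicit false

namespace Pool.Agent.T6.H20.BV

open MeasureTheory Set Filter Topology

namespace Jin

/-- the square of the distance to the origin -/
def rho (p : ℝ × ℝ) : ℝ := p.1 ^ 2 + p.2 ^ 2

lemma rho_pos {p : ℝ × ℝ} (h : 0 < p.1) : 0 < rho p := by
  unfold rho
  positivity

lemma JJ_fst (p : ℝ × ℝ) : (JJ p).1 = p.1 / rho p := rfl

lemma JJ_snd (p : ℝ × ℝ) : (JJ p).2 = p.2 / rho p := rfl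

lemma rho_JJ {p : ℝ × ℝ} (h : rho p ≠ 0) : rho (JJ p) = (rho p)⁻¹ := by
  have h2 : rho p = p.1 ^ 2 + p.2 ^ 2 := rfl
  have : rho (JJ p) = (p.1 / rho p) ^ 2 + (p.2 / rho p) ^ 2 := rfl
  rw [this]
  field_simp
  rw [h2]

lemma JJ_JJ {p : ℝ × ℝ} (h : rho p ≠ 0) : JJ (JJ p) = p := by
  have h1 := rho_JJ h
  ext
  · rw [JJ_fst, h1, JJ_fst]
    field_simp
  · rw [JJ_snd, h1, JJ_snd]
    field_simp

lemma JJ_QQ {p : ℝ × ℝ} (h : p ∈ QQ) : JJ p ∈ QQ := by
  have h1 := rho_pos h.1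
  exact ⟨by rw [JJ_fst]; exact div_pos h.1 h1, by rw [JJ_snd]; exact div_pos h.2 h1⟩

/-- the derivative of the inversion -/
noncomputable def JD (p : ℝ × ℝ) : ℝ × ℝ →L[ℝ] ℝ × ℝ :=
  (Matrix.toLin (.finTwoProd ℝ) (.finTwoProd ℝ)
    !![(p.2 ^ 2 - p.1 ^ 2) / rho p ^ 2, -(2 * p.1 * p.2) / rho p ^ 2;
      -(2 * p.1 * p.2) / rho p ^ 2, (p.1 ^ 2 - p.2 ^ 2) / rho p ^ 2]).toContinuousLinearMap

lemma JD_det {p : ℝ × ℝ} (h : rho p ≠ 0) : (JD p).det = -(rho p ^ 2)⁻¹ := by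
  unfold JD
  rw [LinearMap.det_toContinuousLinearMap, LinearMap.det_toLin, Matrix.det_fin_two_of]
  field_simp
  unfold rho
  ring

lemma JD_apply (p v : ℝ × ℝ) : JD p v =
    ((p.2 ^ 2 - p.1 ^ 2) / rho p ^ 2 * v.1 + -(2 * p.1 * p.2) / rho p ^ 2 * v.2,
      -(2 * p.1 * p.2) / rho p ^ 2 * v.1 + (p.1 ^ 2 - p.2 ^ 2) / rho p ^ 2 * v.2) := by
  unfold JD
  rw [Matrix.toLin_finTwoProd_toContinuousLinearMap]
  simp

lemma hasFDerivAt_JJ {p : ℝ × ℝ} (h : rho p ≠ 0) : HasFDerivAt JJ (JD p) p := by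
  have h1 : HasFDerivAt (fun q : ℝ × ℝ => q.1) (ContinuousLinearMap.fst ℝ ℝ ℝ) p :=
    hasFDerivAt_fst
  have h2 : HasFDerivAt (fun q : ℝ × ℝ => q.2) (ContinuousLinearMap.snd ℝ ℝ ℝ) p :=
    hasFDerivAt_snd
  have h3 : HasFDerivAt (fun q : ℝ × ℝ => q.1 ^ 2 + q.2 ^ 2) _ p := (h1.pow 2).add (h2.pow 2)
  have hr : p.1 ^ 2 + p.2 ^ 2 ≠ 0 := h
  have h5 : HasFDerivAt (fun q : ℝ × ℝ => (q.1 ^ 2 + q.2 ^ 2)⁻¹) _ p :=
    (hasDerivAt_inv hr).comp_hasFDerivAt p h3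
  have h4 := (h1.mul h5).prodMk (h2.mul h5)
  have h6 : JJ = fun q : ℝ × ℝ => (((fun q : ℝ × ℝ => q.1) * fun q : ℝ × ℝ =>
      (q.1 ^ 2 + q.2 ^ 2)⁻¹) q, ((fun q : ℝ × ℝ => q.2) * fun q : ℝ × ℝ =>
      (q.1 ^ 2 + q.2 ^ 2)⁻¹) q) := by
    funext q
    simp [JJ, div_eq_mul_inv]
  rw [h6]
  refine h4.congr_fderiv ?_
  ext
  · simp only [ContinuousLinearMap.comp_apply, ContinuousLinearMap.inl_apply, JD_apply,
      ContinuousLinearMap.prod_apply]
    simp [rho]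
    field_simp
    ring
  · simp only [ContinuousLinearMap.comp_apply, ContinuousLinearMap.inl_apply, JD_apply,
      ContinuousLinearMap.prod_apply]
    simp [rho]
    field_simp
  · simp only [ContinuousLinearMap.comp_apply, ContinuousLinearMap.inr_apply, JD_apply,
      ContinuousLinearMap.prod_apply]
    simp [rho]
    field_simp
  · simp only [ContinuousLinearMap.comp_apply, ContinuousLinearMap.inr_apply, JD_apply,
      ContinuousLinearMap.prod_apply]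
    simp [rho]
    field_simp
    ring

lemma meas_JJ : Measurable JJ := by
  unfold JJ
  fun_prop

lemma meas_QQ : MeasurableSet QQ := by
  have : QQ = Ioi (0 : ℝ) ×ˢ Ioi (0 : ℝ) := by
    ext p
    simp [QQ]
  rw [this]
  exact measurableSet_Ioi.prod measurableSet_Ioi

end Jin

open Jin

theorem jmu : StmJmu := by
  refine ⟨meas_JJ, ?_⟩
  ext A hA
  have hm : MeasurableSet (JJ ⁻¹' A) := meas_JJ hA
  rw [Measure.map_apply meas_JJ hA]
  have hs : MeasurableSet (JJ ⁻¹' A ∩ QQ) := hm.inter meas_QQ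
  have himg : JJ '' (JJ ⁻¹' A ∩ QQ) = A ∩ QQ := by
    ext q
    constructor
    · rintro ⟨p, ⟨hp1, hp2⟩, rfl⟩
      exact ⟨hp1, JJ_QQ hp2⟩
    · rintro ⟨hq1, hq2⟩
      refine ⟨JJ q, ⟨?_, JJ_QQ hq2⟩, JJ_JJ (rho_pos hq2.1).ne'⟩
      change JJ (JJ q) ∈ A
      rw [JJ_JJ (rho_pos hq2.1).ne']
      exact hq1
  have hinj : InjOn JJ (JJ ⁻¹' A ∩ QQ) := by
    intro p hp q hq h
    rw [← JJ_JJ (rho_pos hp.2.1).ne', h, JJ_JJ (rho_pos hq.2.1).ne']
  have hcv := lintegral_image_eq_lintegral_abs_det_fderiv_mul volume hs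
    (fun p hp => (hasFDerivAt_JJ (rho_pos hp.2.1).ne').hasFDerivWithinAt) hinj
    (fun q => ENNReal.ofReal q.1)
  rw [himg] at hcv
  have hd1 : Measurable (fun p : ℝ × ℝ => ENNReal.ofReal p.1) := by fun_prop
  have hd2 : Measurable (fun p : ℝ × ℝ => ENNReal.ofReal (((p.1 ^ 2 + p.2 ^ 2) ^ 3)⁻¹)) := by
    fun_prop
  unfold mu
  rw [withDensity_apply _ hm, withDensity_apply _ hA,
    setLIntegral_withDensity_eq_setLIntegral_mul _ hd1 hd2 hm,
    Measure.restrict_restrict hm, Measure.restrict_restrict hA, hcv]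
  refine setLIntegral_congr_fun hs fun p hp => ?_
  have hr := rho_pos hp.2.1
  rw [JD_det hr.ne', JJ_fst]
  simp only [Pi.mul_apply]
  rw [← ENNReal.ofReal_mul hp.2.1.le, ← ENNReal.ofReal_mul (abs_nonneg _)]
  congr 1
  rw [abs_neg, abs_of_nonneg (by positivity)]
  change p.1 * (rho p ^ 3)⁻¹ = _
  field_simp

namespace Jin

lemma box_rho {k : ℕ} {p : ℝ × ℝ} (hp : p ∈ Box k) :
    1 / ((k : ℝ) + 2) ^ 2 ≤ rho p ∧ rho p ≤ 2 * ((k : ℝ) + 2) ^ 2 := by
  obtain ⟨⟨h1, h2⟩, h3, h4⟩ := hp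
  have hk : (0 : ℝ) < (k : ℝ) + 2 := by positivity
  have h0 : 0 < p.1 := lt_of_lt_of_le (by positivity) h1
  constructor
  · have : (1 / ((k : ℝ) + 2)) ^ 2 ≤ p.1 ^ 2 := by
      apply pow_le_pow_left₀ (by positivity) h1
    rw [div_pow, one_pow] at this
    unfold rho
    nlinarith [sq_nonneg p.2]
  · have h5 : p.1 ^ 2 ≤ ((k : ℝ) + 2) ^ 2 := pow_le_pow_left₀ h0.le h2 2
    have h6 : p.2 ^ 2 ≤ ((k : ℝ) + 2) ^ 2 := pow_le_pow_left₀ h3 (by linarith) 2
    unfold rho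
    linarith

lemma box_maps (k : ℕ) {p : ℝ × ℝ} (hp : p ∈ Box k) : JJ p ∈ Box (2 * (k + 2) ^ 3) := by
  obtain ⟨hr1, hr2⟩ := box_rho hp
  obtain ⟨⟨h1, h2⟩, h3, h4⟩ := hp
  have hk : (0 : ℝ) < (k : ℝ) + 2 := by positivity
  have h0 : 0 < p.1 := lt_of_lt_of_le (by positivity) h1
  have hr0 : 0 < rho p := lt_of_lt_of_le (by positivity) hr1
  have hr1' : 1 ≤ rho p * ((k : ℝ) + 2) ^ 2 := by
    rw [div_le_iff₀ (by positivity)] at hr1
    exact hr1
  have h1' : 1 ≤ p.1 * ((k : ℝ) + 2) := by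
    rw [div_le_iff₀ hk] at h1
    exact h1
  refine ⟨⟨?_, ?_⟩, ?_, ?_⟩
  · rw [JJ_fst, div_le_div_iff₀ (by positivity) hr0]
    push_cast
    have e1 : ((k : ℝ) + 2) ^ 2 ≤ p.1 * ((k : ℝ) + 2) * ((k : ℝ) + 2) ^ 2 := by
      have := mul_le_mul_of_nonneg_right h1' (by positivity : (0 : ℝ) ≤ ((k : ℝ) + 2) ^ 2)
      linarith
    nlinarith
  · rw [JJ_fst, div_le_iff₀ hr0]
    push_cast
    have e1 : ((k : ℝ) + 2) ≤ ((k : ℝ) + 2) * (rho p * ((k : ℝ) + 2) ^ 2) := by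
      have := mul_le_mul_of_nonneg_left hr1' hk.le
      linarith
    nlinarith [mul_pos hr0 (pow_pos hk 3)]
  · rw [JJ_snd]
    exact div_nonneg h3 hr0.le
  · rw [JJ_snd, div_le_iff₀ hr0]
    push_cast
    have e1 : ((k : ℝ) + 2) ≤ ((k : ℝ) + 2) * (rho p * ((k : ℝ) + 2) ^ 2) := by
      have := mul_le_mul_of_nonneg_left hr1' hk.le
      linarith
    nlinarith [mul_pos hr0 (pow_pos hk 3)]

lemma meas_box (k : ℕ) : MeasurableSet (Box k) := measurableSet_Icc.prod measurableSet_Icc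

lemma meas_rho : Measurable rho := by
  unfold rho
  fun_prop

lemma box_map (k : ℕ) : Measure.map JJ (volume.restrict (Box k)) ≤
    ENNReal.ofReal (4 * ((k : ℝ) + 2) ^ 4) • volume.restrict (Box (2 * (k + 2) ^ 3)) := by
  have hk : (0 : ℝ) < (k : ℝ) + 2 := by positivity
  refine Measure.le_iff.2 fun A hA => ?_
  rw [Measure.map_apply meas_JJ hA, Measure.restrict_apply (meas_JJ hA), Measure.smul_apply,
    Measure.restrict_apply hA, smul_eq_mul]
  set s : Set (ℝ × ℝ) := (A ∩ Box (2 * (k + 2) ^ 3)) ∩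
    {q | 1 / (2 * ((k : ℝ) + 2) ^ 2) ≤ rho q} with hs
  have hsm : MeasurableSet s :=
    (hA.inter (meas_box _)).inter (measurableSet_le measurable_const meas_rho)
  have hsub : JJ ⁻¹' A ∩ Box k ⊆ JJ '' s := by
    rintro p ⟨hp1, hp2⟩
    obtain ⟨hr1, hr2⟩ := box_rho hp2
    have hr0 : 0 < rho p := lt_of_lt_of_le (by positivity) hr1
    refine ⟨JJ p, ⟨⟨hp1, box_maps k hp2⟩, ?_⟩, JJ_JJ hr0.ne'⟩
    change 1 / (2 * ((k : ℝ) + 2) ^ 2) ≤ rho (JJ p)
    rw [rho_JJ hr0.ne', one_div]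
    exact inv_anti₀ hr0 hr2
  have hs0 : ∀ q ∈ s, 0 < rho q := fun q hq => lt_of_lt_of_le (by positivity) hq.2
  calc volume (JJ ⁻¹' A ∩ Box k) ≤ volume (JJ '' s) := measure_mono hsub
    _ ≤ ∫⁻ q in s, ENNReal.ofReal |(JD q).det| :=
        addHaar_image_le_lintegral_abs_det_fderiv volume hsm
          fun q hq => (hasFDerivAt_JJ (hs0 q hq).ne').hasFDerivWithinAt
    _ ≤ ∫⁻ _ in s, ENNReal.ofReal (4 * ((k : ℝ) + 2) ^ 4) := by
        refine setLIntegral_mono measurable_const fun q hq => ?_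
        have h1 := hs0 q hq
        have h2 : 1 / (2 * ((k : ℝ) + 2) ^ 2) ≤ rho q := hq.2
        apply ENNReal.ofReal_le_ofReal
        rw [JD_det h1.ne', abs_neg, abs_of_nonneg (by positivity)]
        have h3 : (rho q)⁻¹ ≤ 2 * ((k : ℝ) + 2) ^ 2 := by
          rw [one_div] at h2
          have := inv_anti₀ (by positivity) h2
          rwa [inv_inv] at this
        rw [← inv_pow]
        calc (rho q)⁻¹ ^ 2 ≤ (2 * ((k : ℝ) + 2) ^ 2) ^ 2 :=
              pow_le_pow_left₀ (by positivity) h3 2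
          _ = 4 * ((k : ℝ) + 2) ^ 4 := by ring
    _ = ENNReal.ofReal (4 * ((k : ℝ) + 2) ^ 4) * volume s := by
        rw [setLIntegral_const]
    _ ≤ _ := by gcongr; exact inter_subset_left

lemma GJ_fst (U : ℝ × ℝ → ℝ × ℝ) (p : ℝ × ℝ) : (GJ U p).1 =
    (1 / rho p) * ((U (JJ p)).1 - (2 * (p.1 * (U (JJ p)).1 + p.2 * (U (JJ p)).2) / rho p) * p.1) :=
  rfl

lemma GJ_snd (U : ℝ × ℝ → ℝ × ℝ) (p : ℝ × ℝ) : (GJ U p).2 =
    (1 / rho p) * ((U (JJ p)).2 - (2 * (p.1 * (U (JJ p)).1 + p.2 * (U (JJ p)).2) / rho p) * p.2) :=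
  rfl

lemma GJ_sub (U V : ℝ × ℝ → ℝ × ℝ) (p : ℝ × ℝ) : GJ U p - GJ V p = GJ (fun q => U q - V q) p := by
  ext
  · rw [Prod.fst_sub, GJ_fst, GJ_fst, GJ_fst]
    simp only [Prod.fst_sub, Prod.snd_sub]
    ring
  · rw [Prod.snd_sub, GJ_snd, GJ_snd, GJ_snd]
    simp only [Prod.fst_sub, Prod.snd_sub]
    ring

lemma norm_GJ (U : ℝ × ℝ → ℝ × ℝ) {p : ℝ × ℝ} (hp : 0 < rho p) :
    ‖GJ U p‖ ≤ 2 / rho p * ‖U (JJ p)‖ := by
  set M := ‖U (JJ p)‖ with hM
  have h1 : |(U (JJ p)).1| ≤ M := by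
    rw [← Real.norm_eq_abs]
    exact norm_fst_le _
  have h2 : |(U (JJ p)).2| ≤ M := by
    rw [← Real.norm_eq_abs]
    exact norm_snd_le _
  have hM0 : 0 ≤ M := norm_nonneg _
  have hr : rho p = p.1 ^ 2 + p.2 ^ 2 := rfl
  have e1 : |rho p - 2 * p.1 ^ 2| ≤ rho p := by
    rw [abs_le]; constructor <;> nlinarith [sq_nonneg p.1, sq_nonneg p.2]
  have e2 : |2 * p.1 * p.2| ≤ rho p := by
    rw [abs_le]; constructor <;> nlinarith [sq_nonneg (p.1 - p.2), sq_nonneg (p.1 + p.2)]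
  have e3 : |rho p - 2 * p.2 ^ 2| ≤ rho p := by
    rw [abs_le]; constructor <;> nlinarith [sq_nonneg p.1, sq_nonneg p.2]
  have key : ∀ x y : ℝ, |x| ≤ rho p → |y| ≤ rho p → ∀ u v : ℝ, |u| ≤ M → |v| ≤ M →
      |(x * u - y * v) / rho p ^ 2| ≤ 2 / rho p * M := by
    intro x y hx hy u v hu hv
    rw [abs_div, abs_of_pos (pow_pos hp 2), div_le_iff₀ (pow_pos hp 2)]
    have : |x * u - y * v| ≤ rho p * M + rho p * M := by
      refine (abs_sub _ _).trans (add_le_add ?_ ?_)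
      · rw [abs_mul]
        exact mul_le_mul hx hu (abs_nonneg _) hp.le
      · rw [abs_mul]
        exact mul_le_mul hy hv (abs_nonneg _) hp.le
    refine this.trans (le_of_eq ?_)
    field_simp
    ring
  refine norm_prod_le_iff.2 ⟨?_, ?_⟩
  · rw [GJ_fst, Real.norm_eq_abs]
    have : (1 / rho p) * ((U (JJ p)).1 - (2 * (p.1 * (U (JJ p)).1 + p.2 * (U (JJ p)).2) / rho p)
        * p.1) = ((rho p - 2 * p.1 ^ 2) * (U (JJ p)).1 - (2 * p.1 * p.2) * (U (JJ p)).2) /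
        rho p ^ 2 := by
      field_simp
      ring
    rw [this]
    exact key _ _ e1 e2 _ _ h1 h2
  · rw [GJ_snd, Real.norm_eq_abs]
    have : (1 / rho p) * ((U (JJ p)).2 - (2 * (p.1 * (U (JJ p)).1 + p.2 * (U (JJ p)).2) / rho p)
        * p.2) = ((rho p - 2 * p.2 ^ 2) * (U (JJ p)).2 - (2 * p.1 * p.2) * (U (JJ p)).1) /
        rho p ^ 2 := by
      field_simp
      ring
    rw [this]
    exact key _ _ e3 e2 _ _ h2 h1

lemma meas_GJ {U : ℝ × ℝ → ℝ × ℝ} {μ : Measure (ℝ × ℝ)}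
    (h : AEStronglyMeasurable (fun p => U (JJ p)) μ) : AEStronglyMeasurable (GJ U) μ := by
  have h0 : AEMeasurable (fun p => U (JJ p)) μ := h.aemeasurable
  have h1 : AEMeasurable (fun p => (U (JJ p)).1) μ := measurable_fst.comp_aemeasurable h0
  have h2 : AEMeasurable (fun p => (U (JJ p)).2) μ := measurable_snd.comp_aemeasurable h0
  have hr : AEMeasurable (fun p : ℝ × ℝ => p.1 ^ 2 + p.2 ^ 2) μ := by fun_prop
  have hp1 : AEMeasurable (fun p : ℝ × ℝ => p.1) μ := by fun_prop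
  have hp2 : AEMeasurable (fun p : ℝ × ℝ => p.2) μ := by fun_prop
  refine AEMeasurable.aestronglyMeasurable ?_
  unfold GJ
  exact (aemeasurable_const.div hr).smul (h0.sub (((((hp1.mul h1).add (hp2.mul h2)).const_mul
    2).div hr).smul aemeasurable_id))

/-- the constant of the transformation of the `L³` norms -/
noncomputable def CC (k : ℕ) : ENNReal :=
  ENNReal.ofReal (2 * ((k : ℝ) + 2) ^ 2) *
    (ENNReal.ofReal (4 * ((k : ℝ) + 2) ^ 4)) ^ (1 / (3 : ENNReal)).toReal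

lemma CC_ne_top (k : ℕ) : CC k ≠ ⊤ := by
  unfold CC
  refine ENNReal.mul_ne_top ENNReal.ofReal_ne_top (ENNReal.rpow_ne_top_of_nonneg ?_
    ENNReal.ofReal_ne_top)
  exact ENNReal.toReal_nonneg

lemma GJ_Lp {U : ℝ × ℝ → ℝ × ℝ} (k : ℕ)
    (h : AEStronglyMeasurable U (volume.restrict (Box (2 * (k + 2) ^ 3)))) :
    AEStronglyMeasurable (GJ U) (volume.restrict (Box k)) ∧
      eLpNorm (GJ U) 3 (volume.restrict (Box k)) ≤
        CC k * eLpNorm U 3 (volume.restrict (Box (2 * (k + 2) ^ 3))) := by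
  have hac : Measure.map JJ (volume.restrict (Box k)) ≪
      volume.restrict (Box (2 * (k + 2) ^ 3)) :=
    (Measure.absolutelyContinuous_of_le (box_map k)).trans Measure.smul_absolutelyContinuous
  have h1 : AEStronglyMeasurable U (Measure.map JJ (volume.restrict (Box k))) := h.mono_ac hac
  have h2 : AEStronglyMeasurable (fun p => U (JJ p)) (volume.restrict (Box k)) :=
    h1.comp_measurable meas_JJ
  refine ⟨meas_GJ h2, ?_⟩
  have h3 : ∀ᵐ p ∂(volume.restrict (Box k)), ‖GJ U p‖ ≤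
      2 * ((k : ℝ) + 2) ^ 2 * ‖(fun p => U (JJ p)) p‖ := by
    refine (ae_restrict_iff' (meas_box k)).2 (Eventually.of_forall fun p hp => ?_)
    obtain ⟨hr1, hr2⟩ := box_rho hp
    have hr0 : 0 < rho p := lt_of_lt_of_le (by positivity) hr1
    refine (norm_GJ U hr0).trans ?_
    refine mul_le_mul_of_nonneg_right ?_ (norm_nonneg _)
    rw [div_le_iff₀ hr0]
    rw [div_le_iff₀ (by positivity)] at hr1
    nlinarith
  have h4 := eLpNorm_le_mul_eLpNorm_of_ae_le_mul h3 3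
  refine h4.trans ?_
  have h5 : eLpNorm (fun p => U (JJ p)) 3 (volume.restrict (Box k)) =
      eLpNorm U 3 (Measure.map JJ (volume.restrict (Box k))) :=
    (eLpNorm_map_measure h1 meas_JJ.aemeasurable).symm
  rw [h5]
  have h6 := eLpNorm_mono_measure (p := 3) U (box_map k)
  rw [eLpNorm_smul_measure_of_ne_top (by norm_num)] at h6
  unfold CC
  rw [mul_assoc]
  gcongr
  exact h6

/-- the cut off -/
noncomputable def cut (k : ℕ) (p : ℝ × ℝ) : ℝ :=
  Real.smoothTransition (4 * ((k : ℝ) + 2) ^ 2 * rho p - 2)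

lemma contDiff_rho : ContDiff ℝ 1 rho := by
  unfold rho
  fun_prop

lemma contDiff_cut (k : ℕ) : ContDiff ℝ 1 (cut k) := by
  unfold cut
  exact Real.smoothTransition.contDiff.comp ((contDiff_const.mul contDiff_rho).sub contDiff_const)

lemma contDiffAt_JJ {p : ℝ × ℝ} (h : rho p ≠ 0) : ContDiffAt ℝ 1 JJ p := by
  unfold JJ
  exact (contDiffAt_fst.div contDiff_rho.contDiffAt h).prodMk
    (contDiffAt_snd.div contDiff_rho.contDiffAt h)

lemma contDiff_cutJ (k : ℕ) {h : ℝ × ℝ → ℝ} (hh : ContDiff ℝ 1 h) :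
    ContDiff ℝ 1 (fun p => cut k p * h (JJ p)) := by
  rw [contDiff_iff_contDiffAt]
  intro p
  by_cases hp : 4 * ((k : ℝ) + 2) ^ 2 * rho p - 2 < 0
  · have : (fun p => cut k p * h (JJ p)) =ᶠ[𝓝 p] fun _ => 0 := by
      have hopen : IsOpen {q : ℝ × ℝ | 4 * ((k : ℝ) + 2) ^ 2 * rho q - 2 < 0} :=
        isOpen_lt (by have := contDiff_rho.continuous; fun_prop) continuous_const
      filter_upwards [hopen.mem_nhds hp] with q hq
      unfold cut
      rw [Real.smoothTransition.zero_of_nonpos (le_of_lt hq), zero_mul]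
    exact contDiffAt_const.congr_of_eventuallyEq this
  · have hr : rho p ≠ 0 := by
      intro h0
      rw [h0] at hp
      norm_num at hp
    exact (contDiff_cut k).contDiffAt.mul (hh.contDiffAt.comp p (contDiffAt_JJ hr))

lemma cut_eventually (k : ℕ) {p : ℝ × ℝ} (hp : p ∈ Box k) : ∀ᶠ q in 𝓝 p, cut k q = 1 := by
  obtain ⟨hr1, hr2⟩ := box_rho hp
  have hopen : IsOpen {q : ℝ × ℝ | 1 < 4 * ((k : ℝ) + 2) ^ 2 * rho q - 2} :=
    isOpen_lt continuous_const (by have := contDiff_rho.continuous; fun_prop)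
  have hmem : 1 < 4 * ((k : ℝ) + 2) ^ 2 * rho p - 2 := by
    rw [div_le_iff₀ (by positivity)] at hr1
    nlinarith
  filter_upwards [hopen.mem_nhds hmem] with q hq
  exact Real.smoothTransition.one_of_one_le (le_of_lt hq)

lemma fderiv_gr (h : ℝ × ℝ → ℝ) (q v : ℝ × ℝ) :
    fderiv ℝ h q v = v.1 * (gr h q).1 + v.2 * (gr h q).2 := by
  have : v = v.1 • ((1 : ℝ), (0 : ℝ)) + v.2 • ((0 : ℝ), (1 : ℝ)) := by ext <;> simp
  conv_lhs => rw [this]
  rw [map_add, map_smul, map_smul]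
  rfl

lemma gr_cutJ (k : ℕ) {h : ℝ × ℝ → ℝ} (hh : ContDiff ℝ 1 h) {p : ℝ × ℝ} (hp : p ∈ Box k) :
    gr (fun p => cut k p * h (JJ p)) p = GJ (gr h) p := by
  obtain ⟨hr1, hr2⟩ := box_rho hp
  have hr0 : 0 < rho p := lt_of_lt_of_le (by positivity) hr1
  have he : (fun p => cut k p * h (JJ p)) =ᶠ[𝓝 p] (h ∘ JJ) := by
    filter_upwards [cut_eventually k hp] with q hq
    rw [hq, one_mul]
    rfl
  have hf : fderiv ℝ (fun p => cut k p * h (JJ p)) p = (fderiv ℝ h (JJ p)).comp (JD p) := by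
    rw [he.fderiv_eq]
    exact (((hh.differentiable (by norm_num)) (JJ p)).hasFDerivAt.comp p
      (hasFDerivAt_JJ hr0.ne')).fderiv
  have hrr : rho p = p.1 ^ 2 + p.2 ^ 2 := rfl
  ext
  · change fderiv ℝ (fun p => cut k p * h (JJ p)) p (1, 0) = _
    rw [hf, ContinuousLinearMap.comp_apply, fderiv_gr, JD_apply, GJ_fst]
    simp only []
    field_simp
    rw [hrr]
    ring
  · change fderiv ℝ (fun p => cut k p * h (JJ p)) p (0, 1) = _
    rw [hf, ContinuousLinearMap.comp_apply, fderiv_gr, JD_apply, GJ_snd]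
    simp only []
    field_simp
    rw [hrr]
    ring

lemma continuous_gr {h : ℝ × ℝ → ℝ} (hh : ContDiff ℝ 1 h) : Continuous (gr h) := by
  have := hh.continuous_fderiv (by norm_num)
  unfold gr
  fun_prop

end Jin

open Jin

theorem jw : StmJW := by
  intro f F hf
  constructor
  · intro k
    obtain ⟨h1, h2⟩ := GJ_Lp k (hf.mem (2 * (k + 2) ^ 3)).aestronglyMeasurable
    exact ⟨h1, h2.trans_lt (ENNReal.mul_lt_top (CC_ne_top k).lt_top (hf.mem _).2)⟩
  · intro k ε hε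
    have hδ : 0 < min ε (ε / ((CC k).toReal + 1)) :=
      lt_min hε (div_pos hε (by positivity))
    obtain ⟨h, hh, happ, hgr⟩ := hf.app (2 * (k + 2) ^ 3) _ hδ
    refine ⟨fun p => cut k p * h (JJ p), contDiff_cutJ k hh, ?_, ?_⟩
    · intro p hp
      change |f (JJ p) - cut k p * h (JJ p)| ≤ ε
      rw [(cut_eventually k hp).self_of_nhds, one_mul]
      exact (happ _ (box_maps k hp)).trans (min_le_left _ _)
    · have hc : eLpNorm (fun p => GJ F p - gr (fun p => cut k p * h (JJ p)) p) 3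
          (volume.restrict (Box k)) =
          eLpNorm (GJ (fun q => F q - gr h q)) 3 (volume.restrict (Box k)) := by
        refine eLpNorm_congr_ae ?_
        refine (ae_restrict_iff' (meas_box k)).2 (Eventually.of_forall fun p hp => ?_)
        change GJ F p - gr (fun p => cut k p * h (JJ p)) p = _
        rw [gr_cutJ k hh hp, GJ_sub]
      rw [hc]
      obtain ⟨-, h2⟩ := GJ_Lp (U := fun q => F q - gr h q) k
        ((hf.mem (2 * (k + 2) ^ 3)).aestronglyMeasurable.sub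
          (continuous_gr hh).aestronglyMeasurable)
      refine h2.trans ?_
      calc CC k * eLpNorm (fun q => F q - gr h q) 3 (volume.restrict (Box (2 * (k + 2) ^ 3)))
          ≤ CC k * ENNReal.ofReal (min ε (ε / ((CC k).toReal + 1))) := by gcongr
        _ ≤ CC k * ENNReal.ofReal (ε / ((CC k).toReal + 1)) := by
            gcongr
            exact min_le_right _ _
        _ = ENNReal.ofReal (CC k).toReal * ENNReal.ofReal (ε / ((CC k).toReal + 1)) := by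
            rw [ENNReal.ofReal_toReal (CC_ne_top k)]
        _ = ENNReal.ofReal ((CC k).toReal * (ε / ((CC k).toReal + 1))) := by
            rw [ENNReal.ofReal_mul ENNReal.toReal_nonneg]
        _ ≤ ENNReal.ofReal ε := by
            apply ENNReal.ofReal_le_ofReal
            have : 0 ≤ (CC k).toReal := ENNReal.toReal_nonneg
            rw [mul_div_assoc', div_le_iff₀ (by positivity)]
            nlinarith

end Pool.Agent.T6.H20.BV
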