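import Pool.Agent.T6.H20.BV.Defs

/-! Module MOR of project BV (helper20), written by helper55: Morrey's inequality on a rectangle. -/

set_option autoImplicit false

namespace Pool.Agent.T6.H20.BV

open MeasureTheory Set Filter Topology Pool.Agent.T6.H20.BU

namespace ModMOR

theorem box_compact (k : ℕ) : IsCompact (Box k) := isCompact_Icc.prod isCompact_Icc

theorem box_meas (k : ℕ) : MeasurableSet (Box k) := (box_compact k).measurableSet

theorem box_convex (k : ℕ) : Convex ℝ (Box k) := (convex_Icc _ _).prod (convex_Icc _ _)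

theorem box_lt (k : ℕ) : 1 / ((k : ℝ) + 2) < (k : ℝ) + 2 := by
  have h : (0 : ℝ) ≤ k := Nat.cast_nonneg k
  rw [div_lt_iff₀ (by positivity)]
  nlinarith

theorem box_vol_pos (k : ℕ) : 0 < (volume (Box k)).toReal := by
  have h : (0 : ℝ) ≤ k := Nat.cast_nonneg k
  have h1 := box_lt k
  have : volume (Box k) = ENNReal.ofReal (((k : ℝ) + 2) - 1 / ((k : ℝ) + 2)) *
      ENNReal.ofReal (((k : ℝ) + 1) - 0) := by
    rw [Box, Measure.volume_eq_prod, Measure.prod_prod, Real.volume_Icc, Real.volume_Icc]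
  rw [this, ENNReal.toReal_mul, ENNReal.toReal_ofReal (by linarith), ENNReal.toReal_ofReal (by linarith)]
  have : 0 < ((k : ℝ) + 2) - 1 / ((k : ℝ) + 2) := by linarith
  have : 0 < ((k : ℝ) + 1) - 0 := by linarith
  positivity

theorem box_vol_lt (k : ℕ) : volume (Box k) < ⊤ := (box_compact k).measure_lt_top

theorem gr_cont {h : ℝ × ℝ → ℝ} (hh : ContDiff ℝ 1 h) : Continuous (gr h) := by
  have h1 : Continuous (fderiv ℝ h) := hh.continuous_fderiv one_ne_zero
  exact (h1.clm_apply continuous_const).prodMk (h1.clm_apply continuous_const)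

theorem fderiv_le (h : ℝ × ℝ → ℝ) (x v : ℝ × ℝ) :
    |fderiv ℝ h x v| ≤ 2 * ‖gr h x‖ * ‖v‖ := by
  have hv : v = v.1 • ((1 : ℝ), (0 : ℝ)) + v.2 • ((0 : ℝ), (1 : ℝ)) := by
    ext <;> simp
  have h1 : fderiv ℝ h x v = v.1 * (gr h x).1 + v.2 * (gr h x).2 := by
    conv_lhs => rw [hv]
    rw [map_add, map_smul, map_smul]
    simp [gr]
  rw [h1]
  have a1 : |v.1| ≤ ‖v‖ := by simpa using norm_fst_le v
  have a2 : |v.2| ≤ ‖v‖ := by simpa using norm_snd_le v
  have a3 : |(gr h x).1| ≤ ‖gr h x‖ := by simpa using norm_fst_le (gr h x)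
  have a4 : |(gr h x).2| ≤ ‖gr h x‖ := by simpa using norm_snd_le (gr h x)
  calc |v.1 * (gr h x).1 + v.2 * (gr h x).2| ≤ |v.1 * (gr h x).1| + |v.2 * (gr h x).2| := abs_add_le _ _
    _ = |v.1| * |(gr h x).1| + |v.2| * |(gr h x).2| := by rw [abs_mul, abs_mul]
    _ ≤ ‖v‖ * ‖gr h x‖ + ‖v‖ * ‖gr h x‖ := by gcongr
    _ = 2 * ‖gr h x‖ * ‖v‖ := by ring

/-- change of variables under a homothety of the box -/
theorem homot (k : ℕ) (G : ℝ × ℝ → ℝ) (hG : Continuous G) (h0 : ∀ x, 0 ≤ G x) (p : ℝ × ℝ)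
    (hp : p ∈ Box k) (s : ℝ) (hs : 0 < s) (hs1 : s ≤ 1) :
    ∫ x in Box k, G (p + s • (x - p)) ≤ (s ^ 2)⁻¹ * ∫ x in Box k, G x := by
  set c : ℝ × ℝ := (1 - s) • p with hc
  have e1 : ∀ x : ℝ × ℝ, p + s • (x - p) = s • x + c := by
    intro x
    rw [hc, smul_sub, sub_smul, one_smul]
    abel
  have hint : Integrable ((Box k).indicator G) :=
    (hG.continuousOn.integrableOn_compact (box_compact k)).integrable_indicator (box_meas k)
  set F : ℝ × ℝ → ℝ := fun y => (Box k).indicator G (y + c) with hF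
  have hFi : Integrable F := hint.comp_add_right c
  have hFs : Integrable (fun x => F (s • x)) := hFi.comp_smul hs.ne'
  have e2 : ∫ x, F (s • x) = (s ^ 2)⁻¹ * ∫ x in Box k, G x := by
    rw [Measure.integral_comp_smul]
    have : Module.finrank ℝ (ℝ × ℝ) = 2 := by simp
    rw [this, abs_of_pos (by positivity), smul_eq_mul]
    congr 1
    rw [hF]
    rw [integral_add_right_eq_self (fun y => (Box k).indicator G y) c,
      integral_indicator (box_meas k)]
  rw [← e2, ← integral_indicator (box_meas k)]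
  apply integral_mono
  · have : Continuous (fun x => G (p + s • (x - p))) := by fun_prop
    exact (this.continuousOn.integrableOn_compact (box_compact k)).integrable_indicator (box_meas k)
  · exact hFs
  · intro x
    by_cases hx : x ∈ Box k
    · have hm : p + s • (x - p) ∈ Box k :=
        (box_convex k).add_smul_sub_mem hp hx ⟨hs.le, hs1⟩
      simp only [hF, indicator_of_mem hx]
      rw [← e1 x, indicator_of_mem hm]
    · simp only [indicator_of_notMem hx, hF]
      exact indicator_nonneg (fun y _ => h0 y) _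

theorem holder (k : ℕ) (g : ℝ × ℝ → ℝ) (hg : Continuous g) (h0 : ∀ x, 0 ≤ g x) :
    ∫ x in Box k, g x ≤ (∫ x in Box k, g x ^ 3) ^ ((1 : ℝ) / 3) *
      (volume (Box k)).toReal ^ ((2 : ℝ) / 3) := by
  have hpq : Real.HolderConjugate 3 ((3 : ℝ) / 2) := by
    rw [Real.holderConjugate_iff]
    norm_num
  have : IsFiniteMeasure (volume.restrict (Box k)) := ⟨by
    rw [Measure.restrict_apply_univ]; exact box_vol_lt k⟩
  have hb : ∃ M, ∀ x ∈ Box k, ‖g x‖ ≤ M := (box_compact k).exists_bound_of_continuousOn hg.continuousOn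
  obtain ⟨M, hM⟩ := hb
  have hf : MemLp g (ENNReal.ofReal 3) (volume.restrict (Box k)) :=
    MemLp.of_bound hg.aestronglyMeasurable M (by
      rw [ae_restrict_iff' (box_meas k)]
      exact Eventually.of_forall hM)
  have h1 : MemLp (fun _ : ℝ × ℝ => (1 : ℝ)) (ENNReal.ofReal (3 / 2)) (volume.restrict (Box k)) :=
    memLp_const 1
  have := integral_mul_le_Lp_mul_Lq_of_nonneg hpq (μ := volume.restrict (Box k)) (f := g)
    (g := fun _ => (1 : ℝ)) (Eventually.of_forall h0) (Eventually.of_forall fun _ => zero_le_one)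
    hf h1
  simp only [mul_one, Real.one_rpow] at this
  refine this.trans (le_of_eq ?_)
  congr 1
  · congr 1
    apply integral_congr_ae
    refine Eventually.of_forall fun x => ?_
    show g x ^ (3 : ℝ) = g x ^ 3
    rw [← Real.rpow_natCast]
    norm_num
  · rw [setIntegral_const, smul_eq_mul, mul_one]
    norm_num
    rfl

/-- the norm -/
noncomputable def NN (k : ℕ) (h : ℝ × ℝ → ℝ) : ℝ := (∫ x in Box k, ‖gr h x‖ ^ 3) ^ ((1 : ℝ) / 3)

theorem lemA (k : ℕ) (h : ℝ × ℝ → ℝ) (hh : ContDiff ℝ 1 h) (p : ℝ × ℝ) (hp : p ∈ Box k) (s : ℝ)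
    (hs : 0 < s) (hs1 : s ≤ 1) :
    ∫ x in Box k, ‖gr h (p + s • (x - p))‖ ≤
      s ^ (-((2 : ℝ) / 3)) * ((volume (Box k)).toReal ^ ((2 : ℝ) / 3) * NN k h) := by
  have hc : Continuous (fun x => ‖gr h (p + s • (x - p))‖) :=
    (gr_cont hh).norm.comp (by fun_prop)
  have h1 := holder k _ hc (fun x => norm_nonneg _)
  have h2 := homot k (fun x => ‖gr h x‖ ^ 3) ((gr_cont hh).norm.pow 3)
    (fun x => by positivity) p hp s hs hs1
  have h3 : 0 ≤ ∫ x in Box k, ‖gr h (p + s • (x - p))‖ ^ 3 :=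
    integral_nonneg fun x => by positivity
  have h4 : 0 ≤ ∫ x in Box k, ‖gr h x‖ ^ 3 := integral_nonneg fun x => by positivity
  have h5 : (∫ x in Box k, ‖gr h (p + s • (x - p))‖ ^ 3) ^ ((1 : ℝ) / 3) ≤
      s ^ (-((2 : ℝ) / 3)) * NN k h := by
    calc (∫ x in Box k, ‖gr h (p + s • (x - p))‖ ^ 3) ^ ((1 : ℝ) / 3)
        ≤ ((s ^ 2)⁻¹ * ∫ x in Box k, ‖gr h x‖ ^ 3) ^ ((1 : ℝ) / 3) :=
          Real.rpow_le_rpow h3 h2 (by norm_num)
      _ = ((s ^ 2)⁻¹) ^ ((1 : ℝ) / 3) * NN k h := Real.mul_rpow (by positivity) h4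
      _ = s ^ (-((2 : ℝ) / 3)) * NN k h := by
          congr 1
          rw [← Real.rpow_natCast, ← Real.rpow_neg hs.le, ← Real.rpow_mul hs.le]
          congr 1
          norm_num
  have hV : 0 ≤ (volume (Box k)).toReal ^ ((2 : ℝ) / 3) := by positivity
  calc _ ≤ _ := h1
    _ ≤ (s ^ (-((2 : ℝ) / 3)) * NN k h) * (volume (Box k)).toReal ^ ((2 : ℝ) / 3) := by gcongr
    _ = _ := by ring

theorem ftc (h : ℝ × ℝ → ℝ) (hh : ContDiff ℝ 1 h) (u v : ℝ × ℝ) :
    |h v - h u| ≤ 2 * ‖v - u‖ * ∫ s in (0 : ℝ)..1, ‖gr h (u + s • (v - u))‖ := by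
  have hd : ∀ s : ℝ, HasDerivAt (fun s : ℝ => h (u + s • (v - u)))
      (fderiv ℝ h (u + s • (v - u)) (v - u)) s := by
    intro s
    have h1 : HasFDerivAt h (fderiv ℝ h (u + s • (v - u))) (u + s • (v - u)) :=
      (hh.differentiable one_ne_zero _).hasFDerivAt
    have h2 : HasDerivAt (fun s : ℝ => u + s • (v - u)) (v - u) s := by
      simpa using ((hasDerivAt_id s).smul_const (v - u)).const_add u
    exact h1.comp_hasDerivAt s h2
  have hcont : Continuous (fun s : ℝ => fderiv ℝ h (u + s • (v - u)) (v - u)) :=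
    (((hh.continuous_fderiv one_ne_zero).comp (by fun_prop :
      Continuous fun s : ℝ => u + s • (v - u))).clm_apply continuous_const)
  have h3 := intervalIntegral.integral_eq_sub_of_hasDerivAt (a := 0) (b := 1) (fun s _ => hd s)
    (hcont.intervalIntegrable 0 1)
  simp only [one_smul, zero_smul, add_zero, add_sub_cancel] at h3
  rw [← h3, ← intervalIntegral.integral_const_mul]
  have hc2 : Continuous fun s : ℝ => 2 * ‖v - u‖ * ‖gr h (u + s • (v - u))‖ :=
    continuous_const.mul ((gr_cont hh).norm.comp (by fun_prop))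
  calc |∫ s in (0 : ℝ)..1, fderiv ℝ h (u + s • (v - u)) (v - u)|
      ≤ ∫ s in (0 : ℝ)..1, |fderiv ℝ h (u + s • (v - u)) (v - u)| :=
        intervalIntegral.abs_integral_le_integral_abs zero_le_one
    _ ≤ _ := by
        apply intervalIntegral.integral_mono_on zero_le_one (hcont.abs.intervalIntegrable 0 1)
          (hc2.intervalIntegrable 0 1)
        intro s _
        have := fderiv_le h (u + s • (v - u)) (v - u)
        linarith

/-- Fubini and `lemA` -/
theorem lemD (k : ℕ) (h : ℝ × ℝ → ℝ) (hh : ContDiff ℝ 1 h) (P : ℝ → ℝ × ℝ) (τ : ℝ → ℝ)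
    (hP : Continuous P) (hτ : Continuous τ) (hPm : ∀ s ∈ Ioc (0 : ℝ) 1, P s ∈ Box k)
    (hτ0 : ∀ s ∈ Ioc (0 : ℝ) 1, 0 < τ s ∧ τ s ≤ 1)
    (hi : IntervalIntegrable (fun s => τ s ^ (-((2 : ℝ) / 3))) volume 0 1) :
    ∫ x in Box k, ∫ s in (0 : ℝ)..1, ‖gr h (P s + τ s • (x - P s))‖ ≤
      (∫ s in (0 : ℝ)..1, τ s ^ (-((2 : ℝ) / 3))) *
        ((volume (Box k)).toReal ^ ((2 : ℝ) / 3) * NN k h) := by
  have hcont : Continuous (fun z : (ℝ × ℝ) × ℝ => ‖gr h (P z.2 + τ z.2 • (z.1 - P z.2))‖) :=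
    (gr_cont hh).norm.comp (by fun_prop)
  have hint : Integrable (fun z : (ℝ × ℝ) × ℝ => ‖gr h (P z.2 + τ z.2 • (z.1 - P z.2))‖)
      ((volume.restrict (Box k)).prod (volume.restrict (Ioc (0 : ℝ) 1))) := by
    rw [Measure.prod_restrict]
    have h1 : IntegrableOn (fun z : (ℝ × ℝ) × ℝ => ‖gr h (P z.2 + τ z.2 • (z.1 - P z.2))‖)
        (Box k ×ˢ Icc (0 : ℝ) 1) (volume.prod volume) :=
      hcont.continuousOn.integrableOn_compact ((box_compact k).prod isCompact_Icc)
    exact h1.mono_set (prod_mono_right Ioc_subset_Icc_self)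
  simp only [intervalIntegral.integral_of_le zero_le_one]
  rw [integral_integral_swap (f := fun x s => ‖gr h (P s + τ s • (x - P s))‖) hint]
  rw [← integral_mul_const]
  apply setIntegral_mono_on
  · exact hint.integral_prod_right
  · exact (((intervalIntegrable_iff_integrableOn_Ioc_of_le zero_le_one).1 hi)).mul_const _
  · exact measurableSet_Ioc
  · intro s hs
    exact lemA k h hh (P s) (hPm s hs) (τ s) (hτ0 s hs).1 (hτ0 s hs).2

theorem int23 (t : ℝ) (ht : 0 < t) :
    IntervalIntegrable (fun s => (s * t) ^ (-((2 : ℝ) / 3))) volume 0 1 ∧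
      ∫ s in (0 : ℝ)..1, (s * t) ^ (-((2 : ℝ) / 3)) = 3 * t ^ (-((2 : ℝ) / 3)) := by
  have e : ∀ s ∈ uIcc (0 : ℝ) 1, (s * t) ^ (-((2 : ℝ) / 3)) =
      s ^ (-((2 : ℝ) / 3)) * t ^ (-((2 : ℝ) / 3)) := by
    intro s hs
    rw [uIcc_of_le zero_le_one] at hs
    exact Real.mul_rpow hs.1 ht.le
  have h1 : IntervalIntegrable (fun s : ℝ => s ^ (-((2 : ℝ) / 3))) volume 0 1 :=
    intervalIntegral.intervalIntegrable_rpow' (by norm_num)
  constructor
  · refine (h1.mul_const (t ^ (-((2 : ℝ) / 3)))).congr ?_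
    intro s hs
    exact (e s (uIoc_subset_uIcc hs)).symm
  · rw [intervalIntegral.integral_congr e, intervalIntegral.integral_mul_const,
      integral_rpow (Or.inl (by norm_num))]
    norm_num

theorem dist_box (k : ℕ) (p q : ℝ × ℝ) (hp : p ∈ Box k) (hq : q ∈ Box k) : ‖q - p‖ ≤ (k : ℝ) + 2 := by
  have h : (0 : ℝ) ≤ k := Nat.cast_nonneg k
  have h0 : 0 < 1 / ((k : ℝ) + 2) := by positivity
  obtain ⟨⟨a1, a2⟩, a3, a4⟩ := hp
  obtain ⟨⟨b1, b2⟩, b3, b4⟩ := hq
  rw [Prod.norm_def]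
  apply max_le
  · rw [Prod.fst_sub, Real.norm_eq_abs, abs_le]
    constructor <;> linarith
  · rw [Prod.snd_sub, Real.norm_eq_abs, abs_le]
    constructor <;> linarith

theorem intK (k : ℕ) (g : ℝ × ℝ → ℝ) (hg : Continuous g) : IntegrableOn g (Box k) :=
  hg.continuousOn.integrableOn_compact (box_compact k)

theorem intKs (k : ℕ) (g : (ℝ × ℝ) × ℝ → ℝ) (hg : Continuous g) :
    IntegrableOn (fun x => ∫ s in (0 : ℝ)..1, g (x, s)) (Box k) := by
  apply intK
  exact intervalIntegral.continuous_parametric_intervalIntegral_of_continuous' (by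
    simpa [Function.uncurry_def] using hg) 0 1

theorem part1 (k : ℕ) (h : ℝ × ℝ → ℝ) (hh : ContDiff ℝ 1 h) (p : ℝ × ℝ) (hp : p ∈ Box k) (t : ℝ)
    (ht : 0 < t) (ht1 : t ≤ 1) :
    |(∫ x in Box k, h (p + t • (x - p))) - (volume (Box k)).toReal * h p| ≤
      6 * ((k : ℝ) + 2) * t ^ ((1 : ℝ) / 3) * ((volume (Box k)).toReal ^ ((2 : ℝ) / 3) * NN k h) := by
  have hk : (0 : ℝ) ≤ k := Nat.cast_nonneg k
  have hc1 : Continuous fun x : ℝ × ℝ => h (p + t • (x - p)) := hh.continuous.comp (by fun_prop)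
  have e1 : (∫ x in Box k, h (p + t • (x - p))) - (volume (Box k)).toReal * h p =
      ∫ x in Box k, (h (p + t • (x - p)) - h p) := by
    rw [integral_sub (intK k _ hc1) (intK k _ continuous_const), setIntegral_const, smul_eq_mul]
    rfl
  rw [e1]
  have hg : Continuous fun z : (ℝ × ℝ) × ℝ => ‖gr h (p + (z.2 * t) • (z.1 - p))‖ :=
    (gr_cont hh).norm.comp (by fun_prop)
  have hD := lemD k h hh (fun _ => p) (fun s => s * t) continuous_const (by fun_prop)
    (fun _ _ => hp) (fun s hs => ⟨mul_pos hs.1 ht, mul_le_one₀ hs.2 ht.le ht1⟩) (int23 t ht).1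
  rw [(int23 t ht).2] at hD
  calc |∫ x in Box k, (h (p + t • (x - p)) - h p)|
      ≤ ∫ x in Box k, |h (p + t • (x - p)) - h p| := abs_integral_le_integral_abs
    _ ≤ ∫ x in Box k, (2 * t * ((k : ℝ) + 2)) *
          ∫ s in (0 : ℝ)..1, ‖gr h (p + (s * t) • (x - p))‖ := by
        apply setIntegral_mono_on
        · exact intK k _ (hc1.sub continuous_const).abs
        · exact (intKs k _ hg).const_mul _
        · exact box_meas k
        · intro x hx
          have h1 := ftc h hh p (p + t • (x - p))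
          simp only [add_sub_cancel_left] at h1
          have h2 : ‖t • (x - p)‖ ≤ t * ((k : ℝ) + 2) := by
            rw [norm_smul, Real.norm_eq_abs, abs_of_pos ht]
            exact mul_le_mul_of_nonneg_left (dist_box k p x hp hx) ht.le
          have h3 : ∀ s : ℝ, p + s • t • (x - p) = p + (s * t) • (x - p) := by
            intro s
            rw [smul_smul]
          simp only [h3] at h1
          have h4 : 0 ≤ ∫ s in (0 : ℝ)..1, ‖gr h (p + (s * t) • (x - p))‖ :=
            intervalIntegral.integral_nonneg zero_le_one fun s _ => norm_nonneg _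
          calc _ ≤ _ := h1
            _ ≤ 2 * (t * ((k : ℝ) + 2)) * ∫ s in (0 : ℝ)..1, ‖gr h (p + (s * t) • (x - p))‖ := by
                gcongr
            _ = _ := by ring
    _ = (2 * t * ((k : ℝ) + 2)) * ∫ x in Box k,
          ∫ s in (0 : ℝ)..1, ‖gr h (p + (s * t) • (x - p))‖ := integral_const_mul _ _
    _ ≤ (2 * t * ((k : ℝ) + 2)) * (3 * t ^ (-((2 : ℝ) / 3)) *
          ((volume (Box k)).toReal ^ ((2 : ℝ) / 3) * NN k h)) := by
        apply mul_le_mul_of_nonneg_left hD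
        positivity
    _ = _ := by
        have : t * t ^ (-((2 : ℝ) / 3)) = t ^ ((1 : ℝ) / 3) := by
          nth_rewrite 1 [← Real.rpow_one t]
          rw [← Real.rpow_add ht]
          norm_num
        rw [← this]
        ring

theorem part2 (k : ℕ) (h : ℝ × ℝ → ℝ) (hh : ContDiff ℝ 1 h) (p q : ℝ × ℝ) (hp : p ∈ Box k)
    (hq : q ∈ Box k) (t : ℝ) (ht : 0 < t) (ht1 : t ≤ 1) :
    |(∫ x in Box k, h (q + t • (x - q))) - ∫ x in Box k, h (p + t • (x - p))| ≤
      2 * ‖q - p‖ * t ^ (-((2 : ℝ) / 3)) *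
        ((volume (Box k)).toReal ^ ((2 : ℝ) / 3) * NN k h) := by
  have hc1 : ∀ p : ℝ × ℝ, Continuous fun x : ℝ × ℝ => h (p + t • (x - p)) :=
    fun p => hh.continuous.comp (by fun_prop)
  rw [← integral_sub (intK k _ (hc1 q)) (intK k _ (hc1 p))]
  have hg : Continuous fun z : (ℝ × ℝ) × ℝ =>
      ‖gr h ((p + z.2 • (q - p)) + t • (z.1 - (p + z.2 • (q - p))))‖ :=
    (gr_cont hh).norm.comp (by fun_prop)
  have hD := lemD k h hh (fun s => p + s • (q - p)) (fun _ => t) (by fun_prop) continuous_const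
    (fun s hs => (box_convex k).add_smul_sub_mem hp hq ⟨hs.1.le, hs.2⟩) (fun s hs => ⟨ht, ht1⟩)
    intervalIntegrable_const
  rw [intervalIntegral.integral_const, sub_zero, one_smul] at hD
  calc |∫ x in Box k, (h (q + t • (x - q)) - h (p + t • (x - p)))|
      ≤ ∫ x in Box k, |h (q + t • (x - q)) - h (p + t • (x - p))| := abs_integral_le_integral_abs
    _ ≤ ∫ x in Box k, (2 * ‖q - p‖) *
          ∫ s in (0 : ℝ)..1, ‖gr h ((p + s • (q - p)) + t • (x - (p + s • (q - p))))‖ := by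
        apply setIntegral_mono_on
        · exact intK k _ ((hc1 q).sub (hc1 p)).abs
        · exact (intKs k _ hg).const_mul _
        · exact box_meas k
        · intro x hx
          have h1 := ftc h hh (p + t • (x - p)) (q + t • (x - q))
          have h0 : q + t • (x - q) - (p + t • (x - p)) = (1 - t) • (q - p) := by
            module
          rw [h0] at h1
          have h2 : ‖(1 - t) • (q - p)‖ ≤ ‖q - p‖ := by
            rw [norm_smul, Real.norm_eq_abs, abs_of_nonneg (by linarith)]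
            have := norm_nonneg (q - p)
            nlinarith
          have h3 : ∀ s : ℝ, p + t • (x - p) + s • (1 - t) • (q - p) =
              (p + s • (q - p)) + t • (x - (p + s • (q - p))) := by
            intro s
            module
          simp only [h3] at h1
          have h4 : 0 ≤ ∫ s in (0 : ℝ)..1,
              ‖gr h ((p + s • (q - p)) + t • (x - (p + s • (q - p))))‖ :=
            intervalIntegral.integral_nonneg zero_le_one fun s _ => norm_nonneg _
          calc _ ≤ _ := h1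
            _ ≤ 2 * ‖q - p‖ * ∫ s in (0 : ℝ)..1,
                  ‖gr h ((p + s • (q - p)) + t • (x - (p + s • (q - p))))‖ := by
                gcongr
    _ = (2 * ‖q - p‖) * ∫ x in Box k,
          ∫ s in (0 : ℝ)..1, ‖gr h ((p + s • (q - p)) + t • (x - (p + s • (q - p))))‖ :=
        integral_const_mul _ _
    _ ≤ (2 * ‖q - p‖) * (t ^ (-((2 : ℝ) / 3)) *
          ((volume (Box k)).toReal ^ ((2 : ℝ) / 3) * NN k h)) := by
        apply mul_le_mul_of_nonneg_left hD
        positivity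
    _ = _ := by ring

end ModMOR

open ModMOR in
theorem mor : StmMOR := by
  intro k
  have hk : (0 : ℝ) ≤ k := Nat.cast_nonneg k
  set V : ℝ := (volume (Box k)).toReal with hV
  have hVp : 0 < V := box_vol_pos k
  refine ⟨V⁻¹ + 14 * ((k : ℝ) + 2) * V ^ ((2 : ℝ) / 3) * V⁻¹, by positivity, ?_⟩
  intro h hh
  have hN : 0 ≤ NN k h := by
    unfold NN
    exact Real.rpow_nonneg (integral_nonneg fun x => by positivity) _
  have hN' : (∫ x in Box k, ‖gr h x‖ ^ 3) ^ ((1 : ℝ) / 3) = NN k h := rfl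
  constructor
  · intro p hp q hq
    rw [hN']
    by_cases hpq : p = q
    · subst hpq
      simp only [sub_self, abs_zero]
      positivity
    have hd : 0 < dist p q := dist_pos.2 hpq
    have hdn : dist p q = ‖q - p‖ := by rw [dist_comm, dist_eq_norm]
    set t : ℝ := dist p q / ((k : ℝ) + 2) with ht
    have ht0 : 0 < t := by positivity
    have ht1 : t ≤ 1 := by
      rw [ht, div_le_one (by positivity), hdn]
      exact dist_box k p q hp hq
    have a1 := part1 k h hh p hp t ht0 ht1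
    have a2 := part1 k h hh q hq t ht0 ht1
    have a3 := part2 k h hh p q hp hq t ht0 ht1
    have e1 : ‖q - p‖ * t ^ (-((2 : ℝ) / 3)) = ((k : ℝ) + 2) * t ^ ((1 : ℝ) / 3) := by
      have : ‖q - p‖ = ((k : ℝ) + 2) * t := by
        rw [← hdn, ht]
        field_simp
      rw [this, mul_assoc]
      congr 1
      nth_rewrite 1 [← Real.rpow_one t]
      rw [← Real.rpow_add ht0]
      norm_num
    have e2 : t ^ ((1 : ℝ) / 3) ≤ dist p q ^ ((1 : ℝ) / 3) := by
      apply Real.rpow_le_rpow ht0.le _ (by norm_num)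
      rw [ht]
      exact div_le_self hd.le (by linarith)
    have hW : 0 ≤ V ^ ((2 : ℝ) / 3) * NN k h := by positivity
    have a4 : V * |h p - h q| ≤ 14 * ((k : ℝ) + 2) * t ^ ((1 : ℝ) / 3) * (V ^ ((2 : ℝ) / 3) * NN k h) := by
      have e3 : 2 * ‖q - p‖ * t ^ (-((2 : ℝ) / 3)) * (V ^ ((2 : ℝ) / 3) * NN k h) =
          2 * ((k : ℝ) + 2) * t ^ ((1 : ℝ) / 3) * (V ^ ((2 : ℝ) / 3) * NN k h) := by
        rw [mul_assoc 2, e1]
        ring
      rw [← hV] at a1 a2 a3
      rw [e3] at a3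
      rw [← abs_of_pos hVp, ← abs_mul, abs_of_pos hVp]
      rw [abs_le] at a1 a2 a3 ⊢
      constructor
      · nlinarith [a1.1, a1.2, a2.1, a2.2, a3.1, a3.2]
      · nlinarith [a1.1, a1.2, a2.1, a2.2, a3.1, a3.2]
    have a5 : |h p - h q| ≤ V⁻¹ * (14 * ((k : ℝ) + 2) * t ^ ((1 : ℝ) / 3) *
        (V ^ ((2 : ℝ) / 3) * NN k h)) := by
      rw [← div_eq_inv_mul, le_div_iff₀ hVp]
      linarith
    calc |h p - h q| ≤ _ := a5
      _ = (14 * ((k : ℝ) + 2) * V ^ ((2 : ℝ) / 3) * V⁻¹) * NN k h * t ^ ((1 : ℝ) / 3) := by ring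
      _ ≤ (V⁻¹ + 14 * ((k : ℝ) + 2) * V ^ ((2 : ℝ) / 3) * V⁻¹) * NN k h *
          dist p q ^ ((1 : ℝ) / 3) := by
        have : 0 ≤ V⁻¹ := by positivity
        gcongr
        linarith
  · intro p hp
    rw [hN']
    have a1 := part1 k h hh p hp 1 one_pos le_rfl
    rw [← hV] at a1
    simp only [one_smul, add_sub_cancel, Real.one_rpow, mul_one] at a1
    have a2 : |∫ x in Box k, h x| ≤ ∫ x in Box k, |h x| := abs_integral_le_integral_abs
    have hW : 0 ≤ V ^ ((2 : ℝ) / 3) * NN k h := by positivity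
    have a0 : 0 ≤ ∫ x in Box k, |h x| := integral_nonneg fun x => abs_nonneg _
    have a4 : V * |h p| ≤ (∫ x in Box k, |h x|) + 6 * ((k : ℝ) + 2) * (V ^ ((2 : ℝ) / 3) * NN k h) := by
      rw [← abs_of_pos hVp, ← abs_mul, abs_of_pos hVp]
      rw [abs_le] at a1 a2 ⊢
      constructor
      · linarith [a1.1, a1.2, a2.1, a2.2]
      · linarith [a1.1, a1.2, a2.1, a2.2]
    have a5 : |h p| ≤ V⁻¹ * ((∫ x in Box k, |h x|) +
        6 * ((k : ℝ) + 2) * (V ^ ((2 : ℝ) / 3) * NN k h)) := by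
      rw [← div_eq_inv_mul, le_div_iff₀ hVp]
      linarith
    have b1 : V⁻¹ * (∫ x in Box k, |h x|) ≤
        (V⁻¹ + 14 * ((k : ℝ) + 2) * V ^ ((2 : ℝ) / 3) * V⁻¹) * (∫ x in Box k, |h x|) := by
      apply mul_le_mul_of_nonneg_right _ a0
      have : 0 ≤ 14 * ((k : ℝ) + 2) * V ^ ((2 : ℝ) / 3) * V⁻¹ := by positivity
      linarith
    have b2 : V⁻¹ * (6 * ((k : ℝ) + 2) * (V ^ ((2 : ℝ) / 3) * NN k h)) ≤
        (V⁻¹ + 14 * ((k : ℝ) + 2) * V ^ ((2 : ℝ) / 3) * V⁻¹) * NN k h := by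
      have h1 : V⁻¹ * (6 * ((k : ℝ) + 2) * (V ^ ((2 : ℝ) / 3) * NN k h)) =
          (6 * ((k : ℝ) + 2) * V ^ ((2 : ℝ) / 3) * V⁻¹) * NN k h := by ring
      rw [h1]
      apply mul_le_mul_of_nonneg_right _ hN
      have h2 : 0 ≤ ((k : ℝ) + 2) * V ^ ((2 : ℝ) / 3) * V⁻¹ := by positivity
      have h3 : 0 ≤ V⁻¹ := by positivity
      nlinarith
    calc |h p| ≤ _ := a5
      _ = V⁻¹ * (∫ x in Box k, |h x|) + V⁻¹ * (6 * ((k : ℝ) + 2) * (V ^ ((2 : ℝ) / 3) * NN k h)) := by
        ring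
      _ ≤ _ := add_le_add b1 b2

end Pool.Agent.T6.H20.BV
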