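import Pool.Agent.T6.H20.BV.Chn
import Pool.Agent.T6.H20.BV.Var

/-!
# Project BV, module NCA (helper43)
-/

set_option autoImplicit false

namespace Pool.Agent.T6.H20.BV.ModNCA

open MeasureTheory Set Filter Topology Pool.Agent.T6.H20.BU Pool.Agent.T6.H20.BV
open scoped ContDiff

/-- `√(y² + ε²)` -/
noncomputable def nn (ε y : ℝ) : ℝ := Real.sqrt (y ^ 2 + ε ^ 2)

theorem nn_pos {ε : ℝ} (hε : 0 < ε) (y : ℝ) : 0 < nn ε y := Real.sqrt_pos.2 (by positivity)

theorem nn_sq (ε y : ℝ) : nn ε y ^ 2 = y ^ 2 + ε ^ 2 := Real.sq_sqrt (by positivity)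

theorem abs_le_nn (ε y : ℝ) : |y| ≤ nn ε y := by
  unfold nn
  rw [← Real.sqrt_sq_eq_abs]
  exact Real.sqrt_le_sqrt (by nlinarith [sq_nonneg ε])

theorem le_nn {ε : ℝ} (hε : 0 < ε) (y : ℝ) : ε ≤ nn ε y := by
  unfold nn
  rw [Real.le_sqrt hε.le (by positivity)]
  nlinarith [sq_nonneg y]

theorem inv_nn_hasDeriv {ε : ℝ} (hε : 0 < ε) (y : ℝ) :
    HasDerivAt (fun y => (nn ε y)⁻¹) (-y / nn ε y ^ 3) y := by
  have h1 : HasDerivAt (fun y : ℝ => y ^ 2 + ε ^ 2) (2 * y) y := by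
    simpa using (hasDerivAt_pow 2 y).add_const (ε ^ 2)
  have h2 : HasDerivAt (fun y => nn ε y) (2 * y / (2 * nn ε y)) y :=
    h1.sqrt (by positivity)
  have hn := (nn_pos hε y).ne'
  have h3 : HasDerivAt (fun y => (nn ε y)⁻¹) (-(2 * y / (2 * nn ε y)) / nn ε y ^ 2) y :=
    h2.inv hn
  have h4 : -(2 * y / (2 * nn ε y)) / nn ε y ^ 2 = -y / nn ε y ^ 3 := by
    field_simp
  rwa [h4] at h3

/-- the composition -/
theorem W2_quot (hC : StmChain) {f ζ : ℝ × ℝ → ℝ} {F Z : ℝ × ℝ → ℝ × ℝ} (hf : W2 f F)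
    (hζ : W2 ζ Z) {ε : ℝ} (hε : 0 < ε) :
    W2 (fun p => ζ p * (nn ε (f p))⁻¹)
      (fun p => (nn ε (f p))⁻¹ • Z p + (ζ p * (-f p / nn ε (f p) ^ 3)) • F p) := by
  have hT : ContDiff ℝ 1 (fun x : Fin 2 → ℝ => x 0 * (nn ε (x 1))⁻¹) := by
    unfold nn
    refine ContDiff.mul (by fun_prop) (ContDiff.inv (ContDiff.sqrt (by fun_prop) ?_) ?_)
    · intro x; positivity
    · intro x; exact (nn_pos hε (x 1)).ne'
  have h1 := hC.1 2 ![ζ, f] ![Z, F] (fun x => x 0 * (nn ε (x 1))⁻¹) hT (by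
    intro i
    fin_cases i
    · exact hζ
    · exact hf)
  have hfd : ∀ (x v : Fin 2 → ℝ), fderiv ℝ (fun x : Fin 2 → ℝ => x 0 * (nn ε (x 1))⁻¹) x v =
      x 0 * ((-x 1 / nn ε (x 1) ^ 3) * v 1) + (nn ε (x 1))⁻¹ * v 0 := by
    intro x v
    have g0 : HasFDerivAt (fun x : Fin 2 → ℝ => x 0)
        (ContinuousLinearMap.proj (R := ℝ) (φ := fun _ : Fin 2 => ℝ) 0) x := hasFDerivAt_apply 0 x
    have g1 : HasFDerivAt (fun x : Fin 2 → ℝ => x 1)
        (ContinuousLinearMap.proj (R := ℝ) (φ := fun _ : Fin 2 => ℝ) 1) x := hasFDerivAt_apply 1 x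
    have g2 := (inv_nn_hasDeriv hε (x 1)).comp_hasFDerivAt x g1
    have g3 := g0.mul g2
    have g4 : fderiv ℝ (fun x : Fin 2 → ℝ => x 0 * (nn ε (x 1))⁻¹) x = _ := g3.fderiv
    rw [g4]
    simp
  have e : (fun p => ∑ i : Fin 2, fderiv ℝ (fun x : Fin 2 → ℝ => x 0 * (nn ε (x 1))⁻¹)
      (fun j => (![ζ, f] : Fin 2 → ℝ × ℝ → ℝ) j p) (Pi.single i 1) •
        (![Z, F] : Fin 2 → ℝ × ℝ → ℝ × ℝ) i p) =
      (fun p => (nn ε (f p))⁻¹ • Z p + (ζ p * (-f p / nn ε (f p) ^ 3)) • F p) := by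
    funext p
    rw [Fin.sum_univ_two, hfd, hfd]
    simp
  rw [e] at h1
  exact h1

/-- values -/
theorem norm_av_sq {f : ℝ × ℝ → ℝ} {F G : ℝ × ℝ → ℝ × ℝ} (p : ℝ × ℝ) :
    ‖av f F G p‖ ^ 2 = (F p).1 ^ 2 + (F p).2 ^ 2 + (G p).1 ^ 2 + (G p).2 ^ 2 +
      (2 * f p / p.1) ^ 2 := by
  rw [EuclideanSpace.norm_sq_eq, Fin.sum_univ_five]
  simp only [Real.norm_eq_abs, sq_abs]
  rfl

theorem inner_av {f φ : ℝ × ℝ → ℝ} {F G P R : ℝ × ℝ → ℝ × ℝ} (p : ℝ × ℝ) :
    inner ℝ (av f F G p) (av φ P R p) = (F p).1 * (P p).1 + (F p).2 * (P p).2 +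
      (G p).1 * (R p).1 + (G p).2 * (R p).2 + (2 * f p / p.1) * (2 * φ p / p.1) := by
  rw [PiLp.inner_apply, Fin.sum_univ_five]
  simp [av]
  ring

/-- the pointwise value of the integrand (divided by `√12`) -/
noncomputable def JJ' (ε r f z a b c : ℝ) : ℝ :=
  |f| / r * (a * (nn ε f)⁻¹ + z * (-f / nn ε f ^ 3) * b + c * (nn ε f)⁻¹)

theorem pt_eq {f ζ : ℝ × ℝ → ℝ} {F G Z : ℝ × ℝ → ℝ × ℝ} {p : ℝ × ℝ} {ε : ℝ} (hε : 0 < ε)
    (hp : 0 < p.1)
    (h1 : (F p).1 ^ 2 + (F p).2 ^ 2 = 4 * f p ^ 2 / p.1 ^ 2)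
    (h2 : (G p).1 ^ 2 + (G p).2 ^ 2 = 4 * f p ^ 2 / p.1 ^ 2) :
    ‖av f F G p‖ * inner ℝ (av f F G p) (av (fun p => ζ p * (nn ε (f p))⁻¹)
      (fun p => (nn ε (f p))⁻¹ • Z p + (ζ p * (-f p / nn ε (f p) ^ 3)) • F p)
      (fun _ => (0 : ℝ × ℝ)) p) =
    Real.sqrt 12 * JJ' ε p.1 (f p) (ζ p) ((F p).1 * (Z p).1 + (F p).2 * (Z p).2)
      (4 * f p ^ 2 / p.1 ^ 2) (4 * f p * ζ p / p.1 ^ 2) := by
  have e1 : ‖av f F G p‖ = Real.sqrt 12 * (|f p| / p.1) := by
    have h3 : ‖av f F G p‖ ^ 2 = 12 * (|f p| / p.1) ^ 2 := by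
      rw [norm_av_sq, h1, add_assoc (4 * f p ^ 2 / p.1 ^ 2), h2, div_pow, div_pow, sq_abs]
      ring
    have h4 : 0 ≤ |f p| / p.1 := by positivity
    rw [← Real.sqrt_sq (norm_nonneg (av f F G p)), h3, Real.sqrt_mul (by norm_num),
      Real.sqrt_sq h4]
  rw [e1, inner_av, JJ', ← h1]
  simp only [Prod.fst_add, Prod.snd_add, Prod.smul_fst, Prod.smul_snd, smul_eq_mul, Prod.fst_zero,
    Prod.snd_zero, mul_zero]
  have hn := (nn_pos hε (f p)).ne'
  field_simp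
  ring

theorem JJ'_bound {ε r f z a b c : ℝ} (hε : 0 < ε) (hr : 0 < r)
    (hb : b = 4 * f ^ 2 / r ^ 2) (hc : c = 4 * f * z / r ^ 2) :
    |JJ' ε r f z a b c| ≤ (|a| + 8 * |f| * |z| / r ^ 2) / r := by
  have hn := nn_pos hε f
  have h1 := abs_le_nn ε f
  set n := nn ε f with hn_def
  have hq : |f| / n ≤ 1 := (div_le_one hn).2 h1
  have hq0 : 0 ≤ |f| / n := by positivity
  have e : JJ' ε r f z a b c = (|f| / n * a + (-(z * f * (|f| / n) * (f / n) ^ 2 * 4 / r ^ 2)) +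
      (|f| / n) * (4 * f * z / r ^ 2)) / r := by
    rw [JJ', hb, hc, ← hn_def]
    field_simp
  rw [e, abs_div, abs_of_pos hr]
  refine div_le_div_of_nonneg_right ?_ hr.le
  refine (abs_add_le _ _).trans ?_
  refine (add_le_add (abs_add_le _ _) le_rfl).trans ?_
  rw [abs_neg]
  have i1 : |(|f| / n) * a| ≤ |a| := by
    rw [abs_mul, abs_of_nonneg hq0]
    exact mul_le_of_le_one_left (abs_nonneg _) hq
  have i2 : |(|f| / n) * (4 * f * z / r ^ 2)| ≤ 4 * |f| * |z| / r ^ 2 := by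
    rw [abs_mul, abs_of_nonneg hq0]
    have : |4 * f * z / r ^ 2| = 4 * |f| * |z| / r ^ 2 := by
      rw [abs_div, abs_mul, abs_mul, abs_of_pos (by positivity : (0:ℝ) < r ^ 2)]
      norm_num
    rw [this]
    exact mul_le_of_le_one_left (by positivity) hq
  have i3 : |z * f * (|f| / n) * (f / n) ^ 2 * 4 / r ^ 2| ≤ 4 * |f| * |z| / r ^ 2 := by
    have : |z * f * (|f| / n) * (f / n) ^ 2 * 4 / r ^ 2| =
        (|f| / n) ^ 3 * (4 * |f| * |z| / r ^ 2) := by
      simp only [abs_div, abs_mul, abs_pow, abs_abs, abs_of_pos hn, abs_of_pos hr]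
      norm_num
      ring
    rw [this]
    exact mul_le_of_le_one_left (by positivity) (pow_le_one₀ hq0 hq)
  have : |a| + 8 * |f| * |z| / r ^ 2 = |a| + 4 * |f| * |z| / r ^ 2 + 4 * |f| * |z| / r ^ 2 := by ring
  rw [this]
  exact add_le_add (add_le_add i1 i3) i2

theorem JJ'_lim {r f z a b c : ℝ} (hr : 0 < r)
    (hb : b = 4 * f ^ 2 / r ^ 2) (hc : c = 4 * f * z / r ^ 2) (ha : f = 0 → a = 0) :
    Tendsto (fun n : ℕ => JJ' (1 / ((n : ℝ) + 1)) r f z a b c) atTop (𝓝 (a / r)) := by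
  by_cases hf : f = 0
  · have e : ∀ n : ℕ, JJ' (1 / ((n : ℝ) + 1)) r f z a b c = a / r := by
      intro n
      rw [JJ', hf, ha hf]
      simp
    simp only [e]
    exact tendsto_const_nhds
  · have h0 : Tendsto (fun n : ℕ => 1 / ((n : ℝ) + 1)) atTop (𝓝 0) :=
      tendsto_one_div_add_atTop_nhds_zero_nat
    have h1 : Tendsto (fun n : ℕ => nn (1 / ((n : ℝ) + 1)) f) atTop (𝓝 |f|) := by
      have h2 : Tendsto (fun n : ℕ => Real.sqrt (f ^ 2 + (1 / ((n : ℝ) + 1)) ^ 2)) atTop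
          (𝓝 (Real.sqrt (f ^ 2 + 0 ^ 2))) :=
        (Real.continuous_sqrt.tendsto _).comp ((h0.pow 2).const_add _)
      have h3 : Real.sqrt (f ^ 2 + 0 ^ 2) = |f| := by
        rw [zero_pow two_ne_zero, add_zero, Real.sqrt_sq_eq_abs]
      rwa [h3] at h2
    have hf' : |f| ≠ 0 := abs_ne_zero.2 hf
    have h4 := ((((h1.inv₀ hf').const_mul a).add (((tendsto_const_nhds (x := -f)).div (h1.pow 3)
      (pow_ne_zero 3 hf')).const_mul z |>.mul_const b)).add ((h1.inv₀ hf').const_mul c)).const_mul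
      (|f| / r)
    have h5 : |f| / r * (a * |f|⁻¹ + z * (-f / |f| ^ 3) * b + c * |f|⁻¹) = a / r := by
      have h6 : |f| ^ 2 = f ^ 2 := sq_abs f
      rw [hb, hc, ← h6]
      field_simp
      ring
    rw [h5] at h4
    exact h4

theorem locFin : IsLocallyFiniteMeasure mu := by
  unfold mu
  exact IsLocallyFiniteMeasure.withDensity_ofReal continuous_fst

theorem intQ (A : ℝ × ℝ → ℝ) : ∫ p, A p ∂mu = ∫ p in QQ, p.1 * A p := by
  unfold mu
  rw [integral_withDensity_eq_integral_toReal_smul (by fun_prop)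
    (Eventually.of_forall fun p => ENNReal.ofReal_lt_top)]
  refine integral_congr_ae ?_
  filter_upwards [ae_restrict_mem isOpen_QQ.measurableSet] with p hp
  rw [ENNReal.toReal_ofReal (le_of_lt hp.1), smul_eq_mul]

theorem gr_support {ζ : ℝ × ℝ → ℝ} {p : ℝ × ℝ} (hp : p ∉ tsupport ζ) : gr ζ p = 0 := by
  have : fderiv ℝ ζ p = 0 := by
    by_contra h
    exact hp (support_fderiv_subset ℝ h)
  simp [gr, this]

theorem test {f g ζ : ℝ × ℝ → ℝ} {F G : ℝ × ℝ → ℝ × ℝ} (hC : StmChain) (hS : StmSmooth)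
    (hA : Adm f g F G) (hζ : ContDiff ℝ ∞ ζ) (hζc : HasCompactSupport ζ) (hζs : tsupport ζ ⊆ QQ)
    {ε : ℝ} (hε : 0 < ε) :
    Test f g (fun p => ζ p * (nn ε (f p))⁻¹) (fun _ => 0)
      (fun p => (nn ε (f p))⁻¹ • gr ζ p + (ζ p * (-f p / nn ε (f p) ^ 3)) • F p)
      (fun _ => (0 : ℝ × ℝ)) := by
  have hζ1 : ContDiff ℝ 1 ζ := hζ.of_le (by simp)
  have hW : W2 (fun p => ζ p * (nn ε (f p))⁻¹)
      (fun p => (nn ε (f p))⁻¹ • gr ζ p + (ζ p * (-f p / nn ε (f p) ^ 3)) • F p) :=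
    W2_quot hC hA.wf (hS ζ hζ1) hε
  have hW0 : W2 (fun _ : ℝ × ℝ => (0 : ℝ)) (fun _ => (0 : ℝ × ℝ)) := by
    have h1 := hS (fun _ => 0) contDiff_const
    rwa [gr_zero] at h1
  refine ⟨hW, hW0, ?_, ?_⟩
  · have hlf := locFin
    obtain ⟨M, hM⟩ := hζ.continuous.bounded_above_of_compact_support hζc
    have hM0 : 0 ≤ M := (norm_nonneg _).trans (hM 0)
    have hfin : mu (tsupport ζ) ≠ ⊤ := hζc.isCompact.measure_lt_top.ne
    -- the bounded part
    have hcb : ContinuousOn (fun p : ℝ × ℝ => ‖gr ζ p‖ * 2 / ε + 2 * |ζ p| / (p.1 * ε))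
        (tsupport ζ) := by
      have c1 : Continuous (gr ζ) := continuous_gr hζ1
      have c2 : ContinuousOn (fun p : ℝ × ℝ => 2 * |ζ p| / (p.1 * ε)) (tsupport ζ) := by
        refine ContinuousOn.div ?_ ?_ fun p hp => ?_
        · exact (continuous_const.mul hζ.continuous.abs).continuousOn
        · exact (continuous_fst.mul continuous_const).continuousOn
        · have : 0 < p.1 := (hζs hp).1
          positivity
      exact ((c1.norm.mul continuous_const).div_const _).continuousOn.add c2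
    obtain ⟨N, hN⟩ := hζc.isCompact.exists_bound_of_continuousOn hcb
    have hN0 : 0 ≤ |N| := abs_nonneg N
    have hb1 : MemLp ((tsupport ζ).indicator fun _ => |N|) 3 mu :=
      memLp_indicator_const 3 (isClosed_tsupport ζ).measurableSet |N| (Or.inr hfin)
    have hb2 : MemLp (fun p => (M * (2 / ε ^ 2)) * ‖av f F G p‖) 3 mu := hA.mem.norm.const_mul _
    have hsum := hb1.add hb2
    refine hsum.mono' (ModVar.aesm_av hW hW0) ?_
    filter_upwards [ModVar.ae_QQ] with p hpQ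
    have hp1 : 0 < p.1 := hpQ.1
    have hn := nn_pos hε (f p)
    have hn1 := le_nn hε (f p)
    have hn2 := abs_le_nn ε (f p)
    -- norm of a vector by its components
    have hnorm : ∀ v : V5, ‖v‖ ≤ |v 0| + |v 1| + |v 2| + |v 3| + |v 4| := by
      intro v
      have h1 : ‖v‖ ^ 2 ≤ (|v 0| + |v 1| + |v 2| + |v 3| + |v 4|) ^ 2 := by
        rw [EuclideanSpace.norm_sq_eq, Fin.sum_univ_five]
        simp only [Real.norm_eq_abs]
        have a0 := abs_nonneg (v 0)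
        have a1 := abs_nonneg (v 1)
        have a2 := abs_nonneg (v 2)
        have a3 := abs_nonneg (v 3)
        have a4 := abs_nonneg (v 4)
        nlinarith [mul_nonneg a0 a1, mul_nonneg a0 a2, mul_nonneg a0 a3, mul_nonneg a0 a4,
          mul_nonneg a1 a2, mul_nonneg a1 a3, mul_nonneg a1 a4, mul_nonneg a2 a3,
          mul_nonneg a2 a4, mul_nonneg a3 a4]
      exact (abs_le_of_sq_le_sq' h1 (by positivity)).2
    refine (hnorm _).trans ?_
    have hv : ∀ (φ : ℝ × ℝ → ℝ) (P : ℝ × ℝ → ℝ × ℝ),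
        |av φ P (fun _ => (0 : ℝ × ℝ)) p 0| + |av φ P (fun _ => (0 : ℝ × ℝ)) p 1| +
        |av φ P (fun _ => (0 : ℝ × ℝ)) p 2| + |av φ P (fun _ => (0 : ℝ × ℝ)) p 3| +
        |av φ P (fun _ => (0 : ℝ × ℝ)) p 4| = |(P p).1| + |(P p).2| + |2 * φ p / p.1| := by
      intro φ P
      have e0 : av φ P (fun _ => (0 : ℝ × ℝ)) p 0 = (P p).1 := rfl
      have e1 : av φ P (fun _ => (0 : ℝ × ℝ)) p 1 = (P p).2 := rfl
      have e2 : av φ P (fun _ => (0 : ℝ × ℝ)) p 2 = 0 := rfl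
      have e3 : av φ P (fun _ => (0 : ℝ × ℝ)) p 3 = 0 := rfl
      have e4 : av φ P (fun _ => (0 : ℝ × ℝ)) p 4 = 2 * φ p / p.1 := rfl
      rw [e0, e1, e2, e3, e4]
      simp
    rw [hv]
    by_cases hps : p ∈ tsupport ζ
    · have hNp := hN p hps
      rw [Real.norm_eq_abs] at hNp
      have hNp' : ‖gr ζ p‖ * 2 / ε + 2 * |ζ p| / (p.1 * ε) ≤ |N| :=
        ((le_abs_self _).trans hNp).trans (le_abs_self _)
      have hFn := (norm_F_le f F G p).1
      have hζp : |ζ p| ≤ M := hM p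
      have key : ∀ x y : ℝ, |x| ≤ ‖gr ζ p‖ → |y| ≤ ‖av f F G p‖ →
          |(nn ε (f p))⁻¹ * x + (ζ p * (-f p / nn ε (f p) ^ 3)) * y| ≤
            ‖gr ζ p‖ / ε + M * (1 / ε ^ 2) * ‖av f F G p‖ := by
        intro x y hx hy
        refine (abs_add_le _ _).trans (add_le_add ?_ ?_)
        · rw [abs_mul, abs_inv, abs_of_pos hn, div_eq_inv_mul]
          exact mul_le_mul (inv_anti₀ hε hn1) hx (abs_nonneg _) (by positivity)
        · rw [abs_mul, abs_mul]
          refine mul_le_mul (mul_le_mul hζp ?_ (abs_nonneg _) hM0) hy (abs_nonneg _)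
            (by positivity)
          rw [abs_div, abs_neg, abs_of_pos (by positivity : (0:ℝ) < nn ε (f p) ^ 3)]
          rw [div_le_div_iff₀ (by positivity) (by positivity), one_mul]
          calc |f p| * ε ^ 2 ≤ nn ε (f p) * nn ε (f p) ^ 2 := by gcongr
            _ = nn ε (f p) ^ 3 := by ring
      have k1 := key (gr ζ p).1 (F p).1 (norm_fst_le (gr ζ p)) ((norm_fst_le (F p)).trans hFn)
      have k2 := key (gr ζ p).2 (F p).2 (norm_snd_le (gr ζ p)) ((norm_snd_le (F p)).trans hFn)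
      have k3 : |2 * (ζ p * (nn ε (f p))⁻¹) / p.1| ≤ 2 * |ζ p| / (p.1 * ε) := by
        rw [abs_div, abs_mul, abs_mul, abs_inv, abs_of_pos hn, abs_of_pos hp1, abs_two]
        rw [div_le_div_iff₀ hp1 (by positivity)]
        have : (nn ε (f p))⁻¹ * ε ≤ 1 := by
          rw [inv_mul_le_iff₀ hn]; linarith
        calc 2 * (|ζ p| * (nn ε (f p))⁻¹) * (p.1 * ε) =
            2 * |ζ p| * p.1 * ((nn ε (f p))⁻¹ * ε) := by ring
          _ ≤ 2 * |ζ p| * p.1 * 1 := by gcongr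
          _ = 2 * |ζ p| * p.1 := by ring
      rw [Pi.add_apply, indicator_of_mem hps]
      simp only [Prod.fst_add, Prod.snd_add, Prod.smul_fst, Prod.smul_snd, smul_eq_mul]
      have e5 : ‖gr ζ p‖ / ε + M * (1 / ε ^ 2) * ‖av f F G p‖ +
          (‖gr ζ p‖ / ε + M * (1 / ε ^ 2) * ‖av f F G p‖) =
          ‖gr ζ p‖ * 2 / ε + M * (2 / ε ^ 2) * ‖av f F G p‖ := by ring
      linarith
    · have e1 := gr_support hps
      have e2 : ζ p = 0 := image_eq_zero_of_notMem_tsupport hps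
      rw [e1, e2]
      simp only [smul_zero, zero_mul, zero_smul, add_zero, Prod.fst_zero, Prod.snd_zero, abs_zero,
        mul_zero, zero_div]
      rw [Pi.add_apply, indicator_of_notMem hps]
      positivity
  · intro r hr
    have : ζ (r, 0) = 0 := by
      refine image_eq_zero_of_notMem_tsupport fun h => ?_
      have := (hζs h).2
      simp at this
    simp [this]

end Pool.Agent.T6.H20.BV.ModNCA

namespace Pool.Agent.T6.H20.BV

open MeasureTheory Set Filter Topology Pool.Agent.T6.H20.BU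
open scoped ContDiff
open ModNCA

theorem nca (hC : StmChain) (hS : StmSmooth) : StmNCA := by
  intro f g F G hA hE hcon ζ hζ hζc hζs
  have hζ1 : ContDiff ℝ 1 ζ := hζ.of_le (by simp)
  have hlf := locFin
  -- the integrands
  set ε : ℕ → ℝ := fun n => 1 / ((n : ℝ) + 1) with hε_def
  have hε : ∀ n, 0 < ε n := fun n => by positivity
  set a : ℝ × ℝ → ℝ := fun p => (F p).1 * (gr ζ p).1 + (F p).2 * (gr ζ p).2 with ha_def
  set A : ℕ → ℝ × ℝ → ℝ := fun n p => ‖av f F G p‖ * inner ℝ (av f F G p)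
    (av (fun p => ζ p * (nn (ε n) (f p))⁻¹)
      (fun p => (nn (ε n) (f p))⁻¹ • gr ζ p + (ζ p * (-f p / nn (ε n) (f p) ^ 3)) • F p)
      (fun _ => (0 : ℝ × ℝ)) p) with hA_def
  have hA0 : ∀ n, ∫ p, A n p ∂mu = 0 := by
    intro n
    exact hE _ _ _ _ (ModNCA.test hC hS hA hζ hζc hζs (hε n))
  have hmeas : ∀ n, AEStronglyMeasurable (A n) mu := by
    intro n
    have hT := ModNCA.test hC hS hA hζ hζc hζs (hε n)
    exact hA.mem.1.norm.mul (hA.mem.1.inner hT.mem.1)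
  have hpt : ∀ᵐ p ∂mu, ∀ n, A n p = Real.sqrt 12 * JJ' (ε n) p.1 (f p) (ζ p) (a p)
      (4 * f p ^ 2 / p.1 ^ 2) (4 * f p * ζ p / p.1 ^ 2) := by
    filter_upwards [hcon, ModVar.ae_QQ] with p hp hQ n
    exact pt_eq (hε n) hQ.1 hp.1 hp.2
  -- the bound
  set b : ℝ × ℝ → ℝ := fun p => Real.sqrt 12 *
    ((2 * |f p| / p.1 * (|(gr ζ p).1| + |(gr ζ p).2|) + 8 * |f p| * |ζ p| / p.1 ^ 2) / p.1)
    with hb_def
  have hfQ : ContinuousOn f QQ := by
    intro p hp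
    obtain ⟨k, hk⟩ := exists_Box_of_compact (isCompact_singleton (x := p))
      (singleton_subset_iff.2 hp)
    exact (cont f F hA.wf).mono QQ_sub_Qc p hp
  have hbc : ContinuousOn b (tsupport ζ) := by
    have c1 : Continuous (gr ζ) := continuous_gr hζ1
    have c2 : ContinuousOn f (tsupport ζ) := hfQ.mono hζs
    have c3 : ∀ p ∈ tsupport ζ, p.1 ≠ 0 := fun p hp => (hζs hp).1.ne'
    have c4 : ContinuousOn (fun p : ℝ × ℝ => p.1) (tsupport ζ) := continuous_fst.continuousOn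
    refine continuousOn_const.mul (ContinuousOn.div ?_ c4 c3)
    refine ContinuousOn.add ?_ ?_
    · refine (ContinuousOn.div (continuousOn_const.mul c2.abs) c4 c3).mul ?_
      exact ((continuous_fst.comp c1).abs.add (continuous_snd.comp c1).abs).continuousOn
    · refine ContinuousOn.div ((continuousOn_const.mul c2.abs).mul
        hζ.continuous.abs.continuousOn) (c4.pow 2) fun p hp => pow_ne_zero 2 (c3 p hp)
  have hbz : ∀ p, p ∉ tsupport ζ → b p = 0 := by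
    intro p hp
    simp [hb_def, ModNCA.gr_support hp, image_eq_zero_of_notMem_tsupport hp]
  have hbi : Integrable b mu := by
    have h1 : IntegrableOn b (tsupport ζ) mu := hbc.integrableOn_compact hζc.isCompact
    exact (integrableOn_iff_integrable_of_support_subset (fun p hp => by
      by_contra h
      exact hp (hbz p h))).1 h1
  have hbound : ∀ n, ∀ᵐ p ∂mu, ‖A n p‖ ≤ b p := by
    intro n
    filter_upwards [hpt, hcon, ModVar.ae_QQ] with p hp hc hQ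
    have hp1 : 0 < p.1 := hQ.1
    rw [hp n, norm_mul, Real.norm_of_nonneg (Real.sqrt_nonneg _)]
    refine mul_le_mul_of_nonneg_left ?_ (Real.sqrt_nonneg _)
    refine (JJ'_bound (hε n) hp1 rfl rfl).trans ?_
    refine div_le_div_of_nonneg_right ?_ hp1.le
    refine add_le_add ?_ le_rfl
    have hF : ∀ x : ℝ, x ^ 2 ≤ (F p).1 ^ 2 + (F p).2 ^ 2 → |x| ≤ 2 * |f p| / p.1 := by
      intro x hx
      rw [hc.1] at hx
      refine abs_le_of_sq_le_sq ?_ (by positivity)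
      refine hx.trans (le_of_eq ?_)
      rw [div_pow, mul_pow, sq_abs]
      norm_num
    have h1 := hF (F p).1 (by nlinarith [sq_nonneg (F p).2])
    have h2 := hF (F p).2 (by nlinarith [sq_nonneg (F p).1])
    calc |a p| ≤ |(F p).1 * (gr ζ p).1| + |(F p).2 * (gr ζ p).2| := abs_add_le _ _
      _ = |(F p).1| * |(gr ζ p).1| + |(F p).2| * |(gr ζ p).2| := by rw [abs_mul, abs_mul]
      _ ≤ 2 * |f p| / p.1 * |(gr ζ p).1| + 2 * |f p| / p.1 * |(gr ζ p).2| := by gcongr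
      _ = _ := by ring
  have hlim : ∀ᵐ p ∂mu, Tendsto (fun n => A n p) atTop (𝓝 (Real.sqrt 12 * (a p / p.1))) := by
    filter_upwards [hpt, hcon, ModVar.ae_QQ] with p hp hc hQ
    simp only [hp]
    refine (JJ'_lim hQ.1 rfl rfl fun hf => ?_).const_mul _
    have h1 := hc.1
    rw [hf] at h1
    have h2 : (F p).1 ^ 2 + (F p).2 ^ 2 = 0 := by rw [h1]; simp
    have h3 : (F p).1 = 0 := by
      have : (F p).1 ^ 2 = 0 := by nlinarith [sq_nonneg (F p).1, sq_nonneg (F p).2]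
      exact pow_eq_zero_iff two_ne_zero |>.1 this
    have h4 : (F p).2 = 0 := by
      have : (F p).2 ^ 2 = 0 := by nlinarith [sq_nonneg (F p).1, sq_nonneg (F p).2]
      exact pow_eq_zero_iff two_ne_zero |>.1 this
    simp [ha_def, h3, h4]
  have hconv := tendsto_integral_of_dominated_convergence b hmeas hbi hbound hlim
  simp only [hA0] at hconv
  have h0 := tendsto_nhds_unique hconv tendsto_const_nhds
  rw [integral_const_mul, intQ] at h0
  have h1 : Real.sqrt 12 ≠ 0 := (Real.sqrt_pos.2 (by norm_num)).ne'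
  have h2 := (mul_eq_zero.1 h0).resolve_left h1
  rw [← h2]
  refine setIntegral_congr_fun isOpen_QQ.measurableSet fun p hp => ?_
  have hp1 : p.1 ≠ 0 := (show 0 < p.1 from hp.1).ne'
  show a p = p.1 * (a p / p.1)
  field_simp

end Pool.Agent.T6.H20.BV
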