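import Pool.Agent.T6.H20.BV.Defs
import Pool.Agent.T6.H20.BU.Grn

/-! # MODULE SHM: shift and mollify (MP_138ac9_an) -/

set_option autoImplicit false

namespace Pool.Agent.T6.H20.BV.Shmx

open MeasureTheory Filter Topology Set Metric Pool.Agent.T6.H20.BU
open scoped ENNReal NNReal RealInnerProductSpace ContDiff

variable {F : Type*} [NormedAddCommGroup F] [NormedSpace ℝ F] [CompleteSpace F]

theorem three : ((3 : ℝ≥0) : ℝ≥0∞) = 3 := by norm_num

instance fact3 : Fact ((1 : ℝ≥0∞) ≤ 3) := ⟨by norm_num⟩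

omit [NormedSpace ℝ F] [CompleteSpace F] in
/-- translation is continuous in `L³` -/
theorem trans {h : E 3 → F} (hF : MemLp h 3 volume) {ε : ℝ} (hε : 0 < ε) :
    ∃ d : ℝ, 0 < d ∧ ∀ t : E 3, ‖t‖ < d →
      eLpNorm (fun x => h (x - t) - h x) 3 volume ≤ ENNReal.ofReal ε := by
  let g : C(E 3, C(E 3, E 3)) := (ContinuousMap.mk (fun a : E 3 × E 3 => a.2 - a.1)
    (continuous_snd.sub continuous_fst)).curry
  have hgm : ∀ t, MeasurePreserving (g t) (volume : Measure (E 3)) volume := fun t =>
    measurePreserving_sub_right volume t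
  have hc : Continuous (fun t => Lp.compMeasurePreserving (g t) (hgm t) (hF.toLp h)) :=
    continuous_const.compMeasurePreservingLp g.continuous hgm (by norm_num)
  have h1 := hc.tendsto 0
  rw [EMetric.tendsto_nhds] at h1
  have h2 := h1 (ENNReal.ofReal ε) (ENNReal.ofReal_pos.2 hε)
  obtain ⟨d, hd, h3⟩ := Metric.eventually_nhds_iff.1 h2
  refine ⟨d, hd, fun t ht => ?_⟩
  have h4 := h3 (y := t) (by rwa [dist_zero_right])
  rw [Lp.toLp_compMeasurePreserving, Lp.toLp_compMeasurePreserving, Lp.edist_toLp_toLp] at h4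
  refine le_trans (le_of_eq ?_) h4.le
  congr 1
  ext1 x
  show h (x - t) - h x = h (x - t) - h (x - 0)
  rw [sub_zero]

omit [NormedSpace ℝ F] [CompleteSpace F] in
theorem pow3 {α : Type*} [MeasurableSpace α] (μ : Measure α) (h : α → F) :
    eLpNorm h 3 μ ^ 3 = ∫⁻ x, ‖h x‖ₑ ^ 3 ∂μ := by
  have h1 := eLpNorm_nnreal_pow_eq_lintegral (f := h) (μ := μ) (p := (3 : ℝ≥0)) (by norm_num)
  have h2 : ((3 : ℝ≥0) : ℝ) = ((3 : ℕ) : ℝ) := by norm_num
  rw [three, h2, ENNReal.rpow_natCast] at h1
  rw [h1]
  refine lintegral_congr fun x => ?_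
  rw [ENNReal.rpow_natCast]

/-- kernels -/
structure Ker (K : E 3 → ℝ) (d : ℝ) : Prop where
  sm : ContDiff ℝ 1 K
  nn : ∀ x, 0 ≤ K x
  cs : HasCompactSupport K
  int : ∫ x, K x = 1
  supp : ∀ x, K x ≠ 0 → ‖x‖ < d
  low : ∀ x, K x ≠ 0 → x (Fin.last 2) < 0

theorem Ker.integrable {K : E 3 → ℝ} {d : ℝ} (hK : Ker K d) : Integrable K :=
  hK.sm.continuous.integrable_of_hasCompactSupport hK.cs

omit [CompleteSpace F] in
/-- Jensen -/
theorem jensen {K : E 3 → ℝ} {d : ℝ} (hK : Ker K d) {h : E 3 → F} (hh : StronglyMeasurable h) :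
    ‖∫ t, K t • h t‖ₑ ^ 3 ≤ ∫⁻ t, ENNReal.ofReal (K t) * ‖h t‖ₑ ^ 3 := by
  set ν : Measure (E 3) := volume.withDensity fun t => ENNReal.ofReal (K t) with hν
  have hm : Measurable fun t => ENNReal.ofReal (K t) := hK.sm.continuous.measurable.ennreal_ofReal
  have : IsProbabilityMeasure ν := ⟨by
    rw [hν, withDensity_apply _ MeasurableSet.univ, Measure.restrict_univ,
      ← ofReal_integral_eq_lintegral_ofReal hK.integrable (Eventually.of_forall hK.nn), hK.int,
      ENNReal.ofReal_one]⟩
  have h1 : ‖∫ t, K t • h t‖ₑ ≤ eLpNorm h 1 ν := by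
    refine (enorm_integral_le_lintegral_enorm _).trans (le_of_eq ?_)
    rw [eLpNorm_one_eq_lintegral_enorm, hν, lintegral_withDensity_eq_lintegral_mul _ hm hh.enorm]
    refine lintegral_congr fun t => ?_
    rw [Pi.mul_apply, enorm_smul, Real.enorm_eq_ofReal (hK.nn t)]
  have h2 : eLpNorm h 1 ν ≤ eLpNorm h 3 ν :=
    eLpNorm_le_eLpNorm_of_exponent_le (by norm_num) hh.aestronglyMeasurable
  calc ‖∫ t, K t • h t‖ₑ ^ 3 ≤ (eLpNorm h 3 ν) ^ 3 := pow_le_pow_left' (h1.trans h2) 3
    _ = ∫⁻ t, ‖h t‖ₑ ^ 3 ∂ν := pow3 ν h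
    _ = _ := by
      rw [hν, lintegral_withDensity_eq_lintegral_mul _ hm (hh.enorm.pow_const 3)]
      rfl

/-- mollification converges in `L³` -/
theorem approx {h : E 3 → F} (hF : MemLp h 3 volume) {ε : ℝ} (hε : 0 < ε) :
    ∃ d : ℝ, 0 < d ∧ ∀ K : E 3 → ℝ, Ker K d →
      eLpNorm (fun x => (∫ w, K (x - w) • h w) - h x) 3 volume ≤ ENNReal.ofReal ε := by
  set h' : E 3 → F := hF.aestronglyMeasurable.mk _ with hh'
  have hm : StronglyMeasurable h' := hF.aestronglyMeasurable.stronglyMeasurable_mk
  have hae : h =ᵐ[volume] h' := hF.aestronglyMeasurable.ae_eq_mk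
  have hL : MemLp h' 3 volume := (memLp_congr_ae hae).1 hF
  obtain ⟨d, hd, htr⟩ := trans hL hε
  refine ⟨d, hd, fun K hK => ?_⟩
  have hloc : LocallyIntegrable h' := hL.locallyIntegrable (by norm_num)
  have hconv : ∀ x, (∫ w, K (x - w) • h w) - h' x = ∫ t, K t • (h' (x - t) - h' x) := by
    intro x
    have e1 : ∫ w, K (x - w) • h w = ∫ w, K (x - w) • h' w := by
      apply integral_congr_ae
      filter_upwards [hae] with w hw
      rw [hw]
    have e2 : ∫ w, K (x - w) • h' w = ∫ t, K t • h' (x - t) := by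
      rw [← integral_sub_left_eq_self (fun t => K t • h' (x - t)) volume x]
      simp only [sub_sub_cancel]
    have e3 : Integrable (fun t => K t • h' (x - t)) :=
      hK.cs.convolutionExists_left (ContinuousLinearMap.lsmul ℝ ℝ) hK.sm.continuous hloc x
    have e4 : ∫ t, K t • h' x = h' x := by
      rw [integral_smul_const, hK.int, one_smul]
    have e5 : Integrable (fun t => K t • h' x) := hK.integrable.smul_const _
    rw [e1, e2]
    simp only [smul_sub]
    rw [integral_sub e3 e5, e4]
  have hmm : Measurable fun q : E 3 × E 3 =>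
      ENNReal.ofReal (K q.2) * ‖h' (q.1 - q.2) - h' q.1‖ₑ ^ 3 := by
    have h1 : StronglyMeasurable fun q : E 3 × E 3 => h' (q.1 - q.2) :=
      hm.comp_measurable (measurable_fst.sub measurable_snd)
    have h2 : StronglyMeasurable fun q : E 3 × E 3 => h' q.1 := hm.comp_measurable measurable_fst
    exact ((hK.sm.continuous.measurable.comp measurable_snd).ennreal_ofReal).mul
      ((h1.sub h2).enorm.pow_const 3)
  have key : eLpNorm (fun x => (∫ w, K (x - w) • h w) - h x) 3 volume ^ 3 ≤
      ENNReal.ofReal ε ^ 3 := by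
    have e0 : eLpNorm (fun x => (∫ w, K (x - w) • h w) - h x) 3 volume =
        eLpNorm (fun x => (∫ w, K (x - w) • h w) - h' x) 3 volume := by
      apply eLpNorm_congr_ae
      filter_upwards [hae] with x hx
      rw [hx]
    rw [e0, pow3]
    calc ∫⁻ x, ‖(∫ w, K (x - w) • h w) - h' x‖ₑ ^ 3
        ≤ ∫⁻ x, ∫⁻ t, ENNReal.ofReal (K t) * ‖h' (x - t) - h' x‖ₑ ^ 3 := by
          refine lintegral_mono fun x => ?_
          simp only [hconv x]
          exact jensen hK ((hm.comp_measurable (measurable_const.sub measurable_id)).sub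
            stronglyMeasurable_const)
      _ = ∫⁻ t, ∫⁻ x, ENNReal.ofReal (K t) * ‖h' (x - t) - h' x‖ₑ ^ 3 :=
          lintegral_lintegral_swap hmm.aemeasurable
      _ ≤ ∫⁻ t, ENNReal.ofReal (K t) * ENNReal.ofReal ε ^ 3 := by
          refine lintegral_mono fun t => ?_
          simp only
          have hm2 : Measurable fun x => ‖h' (x - t) - h' x‖ₑ ^ 3 :=
            (((hm.comp_measurable (measurable_id.sub measurable_const)).sub hm).enorm).pow_const 3
          rw [lintegral_const_mul _ hm2]
          by_cases ht : K t = 0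
          · rw [ht, ENNReal.ofReal_zero, zero_mul, zero_mul]
          · have h1 := htr t (hK.supp t ht)
            have h2 := pow3 (volume : Measure (E 3)) (fun x => h' (x - t) - h' x)
            rw [← h2]
            gcongr
      _ = ENNReal.ofReal ε ^ 3 := by
          rw [lintegral_mul_const _ hK.sm.continuous.measurable.ennreal_ofReal,
            ← ofReal_integral_eq_lintegral_ofReal hK.integrable (Eventually.of_forall hK.nn),
            hK.int, ENNReal.ofReal_one, one_mul]
  by_contra hcon
  push Not at hcon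
  exact absurd key (not_le.2 (ENNReal.pow_lt_pow_left (by norm_num) hcon))

/-- the bump functions, centred below the boundary -/
noncomputable def bp (j : ℕ) : ContDiffBump (-(1 / ((j : ℝ) + 1)) • en 2 : E 3) :=
  ⟨1 / (4 * ((j : ℝ) + 1)), 1 / (2 * ((j : ℝ) + 1)), by positivity, by
    apply one_div_lt_one_div_of_lt <;> [positivity; nlinarith [Nat.cast_nonneg (α := ℝ) j]]⟩

/-- the kernels -/
noncomputable def KK (j : ℕ) : E 3 → ℝ := (bp j).normed volume

theorem ker (j : ℕ) : Ker (KK j) (2 / ((j : ℝ) + 1)) := by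
  have hj : (0 : ℝ) < (j : ℝ) + 1 := by positivity
  have hs : ∀ x, KK j x ≠ 0 → ‖x - (-(1 / ((j : ℝ) + 1)) • en 2 : E 3)‖ < 1 / (2 * ((j : ℝ) + 1)) := by
    intro x hx
    have h1 : x ∈ Function.support ((bp j).normed volume) := hx
    rw [(bp j).support_normed_eq, mem_ball, dist_eq_norm] at h1
    exact h1
  have hen : ‖(en 2 : E 3)‖ = 1 := by simp [en]
  refine ⟨(bp j).contDiff_normed, (bp j).nonneg_normed, (bp j).hasCompactSupport_normed,
    (bp j).integral_normed, ?_, ?_⟩
  · intro x hx
    have h1 := hs x hx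
    have h2 : ‖(-(1 / ((j : ℝ) + 1)) • en 2 : E 3)‖ = 1 / ((j : ℝ) + 1) := by
      rw [norm_smul, hen, mul_one, norm_neg, Real.norm_of_nonneg (by positivity)]
    have h3 : ‖x‖ ≤ ‖x - (-(1 / ((j : ℝ) + 1)) • en 2 : E 3)‖ +
        ‖(-(1 / ((j : ℝ) + 1)) • en 2 : E 3)‖ := by
      have := norm_add_le (x - (-(1 / ((j : ℝ) + 1)) • en 2 : E 3))
        (-(1 / ((j : ℝ) + 1)) • en 2 : E 3)
      rwa [sub_add_cancel] at this
    have h4 : 1 / (2 * ((j : ℝ) + 1)) + 1 / ((j : ℝ) + 1) < 2 / ((j : ℝ) + 1) := by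
      rw [div_add_div _ _ (by positivity) (by positivity), div_lt_div_iff₀ (by positivity)
        (by positivity)]
      nlinarith
    linarith
  · intro x hx
    have h1 := hs x hx
    have h2 := PiLp.norm_apply_le (p := 2) (x - (-(1 / ((j : ℝ) + 1)) • en 2 : E 3)) (Fin.last 2)
    have h3 : (x - (-(1 / ((j : ℝ) + 1)) • en 2 : E 3)) (Fin.last 2) =
        x (Fin.last 2) + 1 / ((j : ℝ) + 1) := by
      rw [PiLp.sub_apply, PiLp.smul_apply]
      simp [en]
    rw [h3, Real.norm_eq_abs] at h2
    have h4 := le_abs_self (x (Fin.last 2) + 1 / ((j : ℝ) + 1))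
    have h5 : 1 / (2 * ((j : ℝ) + 1)) < 1 / ((j : ℝ) + 1) := by
      apply one_div_lt_one_div_of_lt <;> nlinarith
    linarith

/-- the gradient -/
theorem grad_apply {u : E 3 → ℝ} (x : E 3) (i : Fin 3) : gradient u x i = pd u i x := by
  have h1 : ⟪gradient u x, EuclideanSpace.single i (1 : ℝ)⟫ =
      fderiv ℝ u x (EuclideanSpace.single i 1) := by
    rw [gradient, InnerProductSpace.toDual_symm_apply]
  rw [pd, ← h1, EuclideanSpace.inner_single_right]
  simp

theorem bd_last (y : E 2) : (bd y : E 3) (Fin.last 2) = 0 := by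
  show Fin.snoc (α := fun _ => ℝ) (fun i => y i) 0 (Fin.last 2) = 0
  exact Fin.snoc_last _ _

section grad

variable {f : E 3 → ℝ} {G : E 3 → E 3} {τ : E 2 → ℝ}

/-- the mollification -/
noncomputable def psi (f : E 3 → ℝ) (K : E 3 → ℝ) (x : E 3) : ℝ :=
  ∫ w, K (x - w) • (half 2).indicator f w

theorem psi_eq (f K : E 3 → ℝ) : psi f K =
    convolution K ((half 2).indicator f) (ContinuousLinearMap.lsmul ℝ ℝ) volume := by
  funext x
  show ∫ w, K (x - w) • (half 2).indicator f w = ∫ t, K t • (half 2).indicator f (x - t)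
  rw [← integral_sub_left_eq_self (fun t => K t • (half 2).indicator f (x - t)) volume x]
  simp only [sub_sub_cancel]

theorem meas_half : MeasurableSet (half 2) := by
  apply IsOpen.measurableSet
  exact isOpen_lt continuous_const (by fun_prop)

omit [NormedSpace ℝ F] [CompleteSpace F] in
theorem memLp_ind {f : E 3 → F} (hf : MemLp f 3 (volume.restrict (half 2))) :
    MemLp ((half 2).indicator f) 3 volume := (memLp_indicator_iff_restrict meas_half).2 hf

theorem psi_smooth (hf : MemLp f 3 (volume.restrict (half 2))) {K : E 3 → ℝ} {d : ℝ}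
    (hK : Ker K d) : ContDiff ℝ 1 (psi f K) := by
  rw [psi_eq]
  exact hK.cs.contDiff_convolution_left _ hK.sm
    ((memLp_ind hf).locallyIntegrable (by norm_num))

theorem int_prod (hW : WeakDiff 2 f G τ) {φ : E 3 → ℝ} (hφs : ContDiff ℝ 1 φ)
    (hφc : HasCompactSupport φ) (i : Fin 3) :
    IntegrableOn (fun w => f w * pd φ i w) (half 2) ∧
      IntegrableOn (fun w => G w i * φ w) (half 2) := by
  obtain ⟨R, hR⟩ := hφc.isCompact.isBounded.subset_ball 0
  have hsub : Function.support (fun w => f w * pd φ i w) ⊆ ball 0 R := by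
    intro w hw
    apply hR
    by_contra hne
    apply hw
    have : fderiv ℝ φ w = 0 := by
      by_contra h0
      exact hne (support_fderiv_subset ℝ (Function.mem_support.2 h0))
    show f w * pd φ i w = 0
    unfold pd
    rw [this]
    simp
  have hsub2 : Function.support (fun w => G w i * φ w) ⊆ ball 0 R := by
    intro w hw
    apply hR
    apply subset_tsupport
    intro h0
    apply hw
    show G w i * φ w = 0
    rw [h0, mul_zero]
  have hpc : Continuous (pd φ i) := Grn.pd_cont φ hφs i
  have hpb : HasCompactSupport (pd φ i) := Grn.pd_supp φ hφc i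
  obtain ⟨C1, hC1⟩ := hpb.exists_bound_of_continuous hpc
  obtain ⟨C2, hC2⟩ := hφc.exists_bound_of_continuous hφs.continuous
  constructor
  · have h6 : IntegrableOn (fun w => f w * pd φ i w) (half 2 ∩ ball 0 R) :=
      (hW.f_int R).mul_bdd (c := C1) hpc.aestronglyMeasurable (Eventually.of_forall hC1)
    have h7 : (fun w => f w * pd φ i w) = (ball 0 R).indicator (fun w => f w * pd φ i w) := by
      rw [indicator_eq_self.2 hsub]
    rw [h7, IntegrableOn, integrable_indicator_iff measurableSet_ball, IntegrableOn,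
      Measure.restrict_restrict measurableSet_ball, inter_comm]
    exact h6
  · have hGi : IntegrableOn (fun w => G w i) (half 2 ∩ ball 0 R) :=
      (EuclideanSpace.proj (𝕜 := ℝ) i).integrable_comp (hW.G_int R)
    have h6 : IntegrableOn (fun w => G w i * φ w) (half 2 ∩ ball 0 R) :=
      hGi.mul_bdd (c := C2) hφs.continuous.aestronglyMeasurable (Eventually.of_forall hC2)
    have h7 : (fun w => G w i * φ w) = (ball 0 R).indicator (fun w => G w i * φ w) := by
      rw [indicator_eq_self.2 hsub2]
    rw [h7, IntegrableOn, integrable_indicator_iff measurableSet_ball, IntegrableOn,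
      Measure.restrict_restrict measurableSet_ball, inter_comm]
    exact h6

theorem psi_pd (hW : WeakDiff 2 f G τ) (hf : MemLp f 3 (volume.restrict (half 2)))
    {K : E 3 → ℝ} {d : ℝ} (hK : Ker K d) (x : E 3) (hx : 0 ≤ x (Fin.last 2)) (i : Fin 3) :
    pd (psi f K) i x = ∫ w, K (x - w) * (half 2).indicator G w i := by
  set ft : E 3 → ℝ := (half 2).indicator f with hft
  have hloc : LocallyIntegrable ft := (memLp_ind hf).locallyIntegrable (by norm_num)
  set φ : E 3 → ℝ := fun w => K (x - w) with hφ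
  have hφs : ContDiff ℝ 1 φ := hK.sm.comp (contDiff_const.sub contDiff_id)
  have hφc : HasCompactSupport φ := hK.cs.comp_homeomorph (Homeomorph.subLeft x)
  set e : E 3 := EuclideanSpace.single i 1 with he
  have h5 : ∀ w, pd φ i w = - fderiv ℝ K (x - w) e := by
    intro w
    have ha : HasFDerivAt (fun w : E 3 => x - w) (-(ContinuousLinearMap.id ℝ (E 3))) w :=
      (hasFDerivAt_id w).const_sub x
    have hb : HasFDerivAt φ ((fderiv ℝ K (x - w)).comp (-(ContinuousLinearMap.id ℝ (E 3)))) w :=
      ((hK.sm.differentiable one_ne_zero (x - w)).hasFDerivAt).comp w ha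
    unfold pd
    rw [hb.fderiv]
    simp [he]
  have h3 : pd (psi f K) i x = ∫ t, fderiv ℝ K t e * ft (x - t) := by
    unfold pd
    rw [psi_eq]
    have h1 := hK.cs.hasFDerivAt_convolution_left (ContinuousLinearMap.lsmul ℝ ℝ) hK.sm hloc x
    rw [h1.fderiv]
    have hex : ConvolutionExistsAt (fderiv ℝ K) ft x
        ((ContinuousLinearMap.lsmul ℝ ℝ).precompL (E 3)) volume :=
      (hK.cs.fderiv ℝ).convolutionExists_left _ (hK.sm.continuous_fderiv one_ne_zero) hloc x
    rw [convolution_def, ContinuousLinearMap.integral_apply hex]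
    rfl
  have h4 : pd (psi f K) i x = - ∫ w in half 2, f w * pd φ i w := by
    rw [h3, ← integral_sub_left_eq_self (fun t => fderiv ℝ K t e * ft (x - t)) volume x,
      ← integral_neg, ← integral_indicator meas_half]
    refine integral_congr_ae (Eventually.of_forall fun w => ?_)
    simp only [sub_sub_cancel]
    by_cases hw : w ∈ half 2
    · rw [indicator_of_mem hw, hft, indicator_of_mem hw, h5]
      ring
    · rw [indicator_of_notMem hw, hft, indicator_of_notMem hw, mul_zero]
  obtain ⟨hI1, hI2⟩ := int_prod hW hφs hφc i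
  have hg := hW.green φ hφs hφc i
  have hz : (if i = Fin.last 2 then -∫ y : E 2, τ y * φ (bd y) else 0) = 0 := by
    split_ifs with hi
    · rw [neg_eq_zero, ← integral_zero (E 2) ℝ (μ := volume)]
      congr 1
      funext y
      have : φ (bd y) = 0 := by
        by_contra hne
        have h6 := hK.low _ hne
        rw [PiLp.sub_apply, bd_last, sub_zero] at h6
        linarith
      rw [this, mul_zero]
    · rfl
  rw [hz] at hg
  rw [integral_add hI1 hI2] at hg
  rw [h4, ← integral_indicator meas_half] at *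
  have h8 : ∫ w, K (x - w) * (half 2).indicator G w i = ∫ w in half 2, G w i * φ w := by
    rw [← integral_indicator meas_half]
    refine integral_congr_ae (Eventually.of_forall fun w => ?_)
    by_cases hw : w ∈ half 2
    · simp only [indicator_of_mem hw, hφ]
      ring
    · simp only [indicator_of_notMem hw]
      simp
  rw [h8]
  linarith

end grad

/-! ### Duality on the boundary -/

/-- the bump functions on the boundary -/
noncomputable def bq (j : ℕ) : ContDiffBump (0 : E 2) :=
  ⟨1 / (2 * ((j : ℝ) + 1)), 1 / ((j : ℝ) + 1), by positivity, by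
    apply one_div_lt_one_div_of_lt <;> [positivity; nlinarith [Nat.cast_nonneg (α := ℝ) j]]⟩

theorem bq_tendsto : Tendsto (fun n => (bq n).rOut) atTop (𝓝 0) := by
  show Tendsto (fun n : ℕ => 1 / ((n : ℝ) + 1)) atTop (𝓝 0)
  exact tendsto_one_div_add_atTop_nhds_zero_nat

theorem dual {σ : E 2 → ℝ} (hσ : LocallyIntegrable σ) {R B : ℝ}
    (hB : ∀ φ : E 2 → ℝ, ContDiff ℝ 1 φ → (∀ y, |φ y| ≤ 1) → (∀ y, R + 1 ≤ ‖y‖ → φ y = 0) →
      ∫ y, σ y * φ y ≤ B) : ∫ y in ball (0 : E 2) R, |σ y| ≤ B := by
  have hm : AEStronglyMeasurable σ volume := hσ.aestronglyMeasurable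
  set σ' : E 2 → ℝ := hm.mk _ with hσ'
  have hsm : StronglyMeasurable σ' := hm.stronglyMeasurable_mk
  have hae : σ =ᵐ[volume] σ' := hm.ae_eq_mk
  set s : E 2 → ℝ := (ball (0 : E 2) R).indicator (fun y => σ' y / |σ' y|) with hs
  have hsmeas : StronglyMeasurable s := by
    apply StronglyMeasurable.indicator _ measurableSet_ball
    exact (hsm.measurable.div (measurable_norm.comp hsm.measurable)).stronglyMeasurable
  have hs1 : ∀ y, |s y| ≤ 1 := by
    intro y
    rw [hs]
    by_cases hy : y ∈ ball (0 : E 2) R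
    · rw [indicator_of_mem hy, abs_div, abs_abs]
      exact div_self_le_one _
    · rw [indicator_of_notMem hy]
      simp
  have hs0 : ∀ y, R ≤ ‖y‖ → s y = 0 := by
    intro y hy
    rw [hs, indicator_of_notMem]
    rw [mem_ball_zero_iff]
    exact not_lt.2 hy
  have hsint : Integrable s := by
    have h1 : IntegrableOn (fun _ : E 2 => (1 : ℝ)) (ball (0 : E 2) R) :=
      integrableOn_const (measure_ball_lt_top.ne)
    have h2 : Integrable ((ball (0 : E 2) R).indicator (fun _ : E 2 => (1 : ℝ))) :=
      (integrable_indicator_iff measurableSet_ball).2 h1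
    refine h2.mono hsmeas.aestronglyMeasurable (Eventually.of_forall fun y => ?_)
    by_cases hy : y ∈ ball (0 : E 2) R
    · rw [indicator_of_mem hy]
      simpa using hs1 y
    · rw [indicator_of_notMem hy, hs, indicator_of_notMem hy]
  have hsl : LocallyIntegrable s := hsint.locallyIntegrable
  -- the mollifications
  set φ : ℕ → E 2 → ℝ := fun k => convolution ((bq k).normed volume) s
    (ContinuousLinearMap.lsmul ℝ ℝ) volume with hφ
  have hφs : ∀ k, ContDiff ℝ 1 (φ k) := fun k =>
    (bq k).hasCompactSupport_normed.contDiff_convolution_left _ (bq k).contDiff_normed hsl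
  have hφ1 : ∀ k y, |φ k y| ≤ 1 := by
    intro k y
    rw [hφ]
    simp only [convolution_def, ContinuousLinearMap.lsmul_apply, smul_eq_mul]
    rw [← Real.norm_eq_abs]
    calc ‖∫ t, (bq k).normed volume t * s (y - t)‖
        ≤ ∫ t, (bq k).normed volume t := by
          refine norm_integral_le_of_norm_le (bq k).integrable_normed
            (Eventually.of_forall fun t => ?_)
          rw [norm_mul, Real.norm_of_nonneg ((bq k).nonneg_normed t)]
          have := hs1 (y - t)
          rw [← Real.norm_eq_abs] at this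
          have h0 := (bq k).nonneg_normed (μ := volume) t
          nlinarith
      _ = 1 := (bq k).integral_normed
  have hφ0 : ∀ k y, R + 1 ≤ ‖y‖ → φ k y = 0 := by
    intro k y hy
    rw [hφ]
    simp only [convolution_def, ContinuousLinearMap.lsmul_apply, smul_eq_mul]
    rw [← integral_zero (E 2) ℝ (μ := volume)]
    congr 1
    funext t
    by_cases ht : (bq k).normed volume t = 0
    · rw [ht, zero_mul]
    · have h1 : t ∈ Function.support ((bq k).normed volume) := ht
      rw [(bq k).support_normed_eq, mem_ball_zero_iff] at h1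
      have h2 : (bq k).rOut ≤ 1 := by
        show 1 / ((k : ℝ) + 1) ≤ 1
        rw [div_le_one (by positivity)]
        linarith [Nat.cast_nonneg (α := ℝ) k]
      have h3 : ‖y‖ ≤ ‖y - t‖ + ‖t‖ := by
        have := norm_add_le (y - t) t
        rwa [sub_add_cancel] at this
      rw [hs0 (y - t) (by linarith), mul_zero]
  have hφae : ∀ᵐ y : E 2, Tendsto (fun k => φ k y) atTop (𝓝 (s y)) :=
    ContDiffBump.ae_convolution_tendsto_right_of_locallyIntegrable (K := 2) bq_tendsto
      (Eventually.of_forall fun k => by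
        show 1 / ((k : ℝ) + 1) ≤ 2 * (1 / (2 * ((k : ℝ) + 1)))
        apply le_of_eq
        field_simp) hsl
  -- dominated convergence
  have hσi : IntegrableOn σ (closedBall (0 : E 2) (R + 1)) :=
    hσ.integrableOn_isCompact (isCompact_closedBall _ _)
  have hlim : Tendsto (fun k => ∫ y, σ y * φ k y) atTop (𝓝 (∫ y, σ y * s y)) := by
    refine tendsto_integral_of_dominated_convergence
      ((closedBall (0 : E 2) (R + 1)).indicator fun y => |σ y|) ?_ ?_ ?_ ?_
    · exact fun k => hm.mul (hφs k).continuous.aestronglyMeasurable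
    · exact (integrable_indicator_iff measurableSet_closedBall).2 hσi.abs
    · intro k
      refine Eventually.of_forall fun y => ?_
      rw [norm_mul, Real.norm_eq_abs, Real.norm_eq_abs]
      by_cases hy : y ∈ closedBall (0 : E 2) (R + 1)
      · rw [indicator_of_mem hy]
        have := hφ1 k y
        have h0 := abs_nonneg (σ y)
        nlinarith
      · rw [indicator_of_notMem hy]
        rw [mem_closedBall, dist_zero_right, not_le] at hy
        rw [hφ0 k y hy.le]
        simp
    · filter_upwards [hφae] with y hy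
      exact hy.const_mul _
  have hval : ∫ y, σ y * s y = ∫ y in ball (0 : E 2) R, |σ y| := by
    rw [← integral_indicator measurableSet_ball]
    apply integral_congr_ae
    filter_upwards [hae] with y hy
    by_cases hyb : y ∈ ball (0 : E 2) R
    · simp only [hs, indicator_of_mem hyb]
      rw [← hy]
      by_cases h0 : σ y = 0
      · rw [h0]; simp
      · rw [mul_div_assoc', ← abs_mul_abs_self (σ y), mul_div_assoc,
          div_self (abs_ne_zero.2 h0), mul_one]
    · simp only [hs, indicator_of_notMem hyb, mul_zero]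
  rw [← hval]
  exact le_of_tendsto' hlim fun k => hB _ (hφs k) (hφ1 k) (hφ0 k)

/-! ### The extension of the test functions -/

/-- the cut off function in the normal direction -/
noncomputable def ch : ContDiffBump (0 : ℝ) := ⟨1, 2, by norm_num, by norm_num⟩

/-- the projection -/
noncomputable def pr : E 3 →L[ℝ] E 2 :=
  LinearMap.toContinuousLinearMap
    { toFun := fun x => WithLp.toLp 2 (fun i : Fin 2 => x (Fin.castSucc i))
      map_add' := fun x y => by ext i; simp
      map_smul' := fun c x => by ext i; simp }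

theorem pr_bd (y : E 2) : pr (bd y) = y := by
  ext i
  show (bd y : E 3) (Fin.castSucc i) = y i
  show Fin.snoc (α := fun _ => ℝ) (fun i => y i) 0 (Fin.castSucc i) = y i
  exact Fin.snoc_castSucc _ _ _

theorem pr_single : pr (EuclideanSpace.single (Fin.last 2) 1) = 0 := by
  ext i
  show (EuclideanSpace.single (Fin.last 2) (1 : ℝ) : E 3) (Fin.castSucc i) = 0
  rw [PiLp.single_apply, if_neg]
  exact (Fin.castSucc_lt_last i).ne

theorem norm_le_pr (x : E 3) : ‖x‖ ≤ ‖pr x‖ + |x (Fin.last 2)| := by
  have h1 : ‖x‖ ^ 2 = ‖pr x‖ ^ 2 + |x (Fin.last 2)| ^ 2 := by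
    rw [EuclideanSpace.norm_sq_eq, EuclideanSpace.norm_sq_eq, Fin.sum_univ_castSucc]
    rfl
  have h2 := norm_nonneg (pr x)
  have h3 := abs_nonneg (x (Fin.last 2))
  apply le_of_sq_le_sq _ (by positivity)
  nlinarith

/-- the extension of a test function -/
noncomputable def ex (φ : E 2 → ℝ) (x : E 3) : ℝ := φ (pr x) * ch (x (Fin.last 2))

theorem ex_smooth {φ : E 2 → ℝ} (hφ : ContDiff ℝ 1 φ) : ContDiff ℝ 1 (ex φ) := by
  unfold ex
  refine (hφ.comp pr.contDiff).mul (ch.contDiff.comp ?_)
  exact (EuclideanSpace.proj (𝕜 := ℝ) (Fin.last 2)).contDiff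

theorem ex_bd (φ : E 2 → ℝ) (y : E 2) : ex φ (bd y) = φ y := by
  unfold ex
  rw [pr_bd, bd_last, ch.one_of_mem_closedBall, mul_one]
  simp [ch]

theorem ex_zero {φ : E 2 → ℝ} {R : ℝ} (h0 : ∀ y, R + 1 ≤ ‖y‖ → φ y = 0) (x : E 3)
    (hx : R + 3 ≤ ‖x‖) : ex φ x = 0 := by
  unfold ex
  by_cases h : R + 1 ≤ ‖pr x‖
  · rw [h0 _ h, zero_mul]
  · push Not at h
    have h1 := norm_le_pr x
    rw [ch.zero_of_le_dist, mul_zero]
    rw [dist_zero_right, Real.norm_eq_abs]
    show (2 : ℝ) ≤ _
    linarith

theorem ex_le {φ : E 2 → ℝ} (h1 : ∀ y, |φ y| ≤ 1) (x : E 3) : |ex φ x| ≤ 1 := by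
  unfold ex
  rw [abs_mul, abs_of_nonneg (ch.nonneg' _)]
  have h2 : ch (x (Fin.last 2)) ≤ 1 := ch.le_one
  have h3 := ch.nonneg' (x (Fin.last 2))
  have h4 := abs_nonneg (φ (pr x))
  nlinarith [h1 (pr x)]

theorem ex_pd : ∃ C : ℝ, 0 ≤ C ∧ ∀ φ : E 2 → ℝ, ContDiff ℝ 1 φ → (∀ y, |φ y| ≤ 1) → ∀ x : E 3,
    |pd (ex φ) (Fin.last 2) x| ≤ C := by
  have hc : HasCompactSupport (deriv ch) := ch.hasCompactSupport.deriv
  have hcc : Continuous (deriv ch) := (ch.contDiff (n := 1)).continuous_deriv le_rfl
  obtain ⟨C, hC⟩ := hc.exists_bound_of_continuous hcc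
  refine ⟨C, (norm_nonneg _).trans (hC 0), fun φ hφ h1 x => ?_⟩
  have hp : HasFDerivAt (fun x : E 3 => φ (pr x)) ((fderiv ℝ φ (pr x)).comp pr) x :=
    ((hφ.differentiable one_ne_zero (pr x)).hasFDerivAt).comp x pr.hasFDerivAt
  have hl : HasFDerivAt (fun x : E 3 => x (Fin.last 2)) (EuclideanSpace.proj (𝕜 := ℝ) (Fin.last 2))
      x := (EuclideanSpace.proj (𝕜 := ℝ) (Fin.last 2)).hasFDerivAt
  have hch : HasDerivAt ch (deriv ch (x (Fin.last 2))) (x (Fin.last 2)) :=
    ((ch.contDiff (n := 1)).differentiable one_ne_zero _).hasDerivAt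
  have hq := hch.comp_hasFDerivAt x hl
  have hm := hp.mul hq
  unfold pd
  have e1 : fderiv ℝ (ex φ) x = _ := hm.fderiv
  rw [e1]
  have e2 : (EuclideanSpace.proj (𝕜 := ℝ) (Fin.last 2))
      (EuclideanSpace.single (Fin.last 2) (1 : ℝ) : E 3) = 1 := by simp
  simp only [_root_.add_apply, _root_.smul_apply,
    ContinuousLinearMap.comp_apply, pr_single, map_zero, smul_eq_mul, mul_zero, add_zero, e2]
  rw [mul_one, abs_mul]
  have h2 := hC (x (Fin.last 2))
  rw [Real.norm_eq_abs] at h2
  have h3 := h1 (pr x)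
  have h4 := abs_nonneg (deriv ch (x (Fin.last 2)))
  nlinarith [abs_nonneg (φ (pr x))]

/-! ### The assembly -/

theorem l1 {F' : Type*} [NormedAddCommGroup F'] {u : ℕ → E 3 → F'}
    (hm : ∀ j, AEStronglyMeasurable (u j) (volume.restrict (half 2)))
    (h : Tendsto (fun j => eLpNorm (u j) 3 (volume.restrict (half 2))) atTop (𝓝 0)) (S : ℝ) :
    Tendsto (fun j => ∫ x in half 2 ∩ ball 0 S, ‖u j x‖) atTop (𝓝 0) := by
  set ν : Measure (E 3) := volume.restrict (half 2 ∩ ball 0 S) with hν
  have hle : ν ≤ volume.restrict (half 2) := Measure.restrict_mono inter_subset_left le_rfl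
  have hfin : ν univ ≠ ⊤ := by
    rw [hν, Measure.restrict_apply_univ]
    exact ((measure_mono inter_subset_right).trans_lt measure_ball_lt_top).ne
  have h1 : ∀ j, eLpNorm (u j) 1 ν ≤ eLpNorm (u j) 3 (volume.restrict (half 2)) *
      ν univ ^ (1 / (1 : ℝ≥0∞).toReal - 1 / (3 : ℝ≥0∞).toReal) := by
    intro j
    refine (eLpNorm_le_eLpNorm_mul_rpow_measure_univ (p := 1) (q := 3) (by norm_num)
      ((hm j).mono_measure hle)).trans ?_
    gcongr
  have h2 : Tendsto (fun j => eLpNorm (u j) 1 ν) atTop (𝓝 0) := by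
    have h3 := ENNReal.Tendsto.mul_const (b :=
      ν univ ^ (1 / (1 : ℝ≥0∞).toReal - 1 / (3 : ℝ≥0∞).toReal)) h (Or.inr (by
        apply ENNReal.rpow_ne_top_of_nonneg _ hfin
        norm_num))
    rw [zero_mul] at h3
    exact tendsto_of_tendsto_of_tendsto_of_le_of_le tendsto_const_nhds h3 (fun j => bot_le) h1
  have h4 := (ENNReal.tendsto_toReal ENNReal.zero_ne_top).comp h2
  rw [ENNReal.toReal_zero] at h4
  refine h4.congr fun j => ?_
  rw [Function.comp_apply, eLpNorm_one_eq_lintegral_enorm,
    integral_norm_eq_lintegral_enorm ((hm j).mono_measure hle)]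

theorem conv_tendsto {F' : Type*} [NormedAddCommGroup F'] [NormedSpace ℝ F'] [CompleteSpace F']
    {h : E 3 → F'} (hF : MemLp h 3 volume) :
    Tendsto (fun j => eLpNorm (fun x => (∫ w, KK j (x - w) • h w) - h x) 3 volume) atTop
      (𝓝 0) := by
  rw [ENNReal.tendsto_nhds_zero]
  intro ε hε
  by_cases htop : ε = ⊤
  · rw [htop]; exact Eventually.of_forall fun _ => le_top
  have hε' : 0 < ε.toReal := ENNReal.toReal_pos hε.ne' htop
  obtain ⟨d, hd, hK⟩ := approx hF hε'
  have hlim : Tendsto (fun j : ℕ => 2 * (1 / ((j : ℝ) + 1))) atTop (𝓝 (2 * 0)) :=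
    tendsto_one_div_add_atTop_nhds_zero_nat.const_mul 2
  rw [mul_zero] at hlim
  filter_upwards [hlim.eventually_le_const hd] with j hj
  have h1 := hK (KK j) ⟨(ker j).sm, (ker j).nn, (ker j).cs, (ker j).int, fun x hx => by
    have := (ker j).supp x hx
    have h2 : 2 / ((j : ℝ) + 1) = 2 * (1 / ((j : ℝ) + 1)) := by ring
    linarith, (ker j).low⟩
  rwa [ENNReal.ofReal_toReal htop] at h1

section fin

variable {f : E 3 → ℝ} {G : E 3 → E 3} {τ : E 2 → ℝ}

theorem psi_grad (hW : WeakDiff 2 f G τ) (hf : MemLp f 3 (volume.restrict (half 2)))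
    (hG : MemLp G 3 (volume.restrict (half 2))) (j : ℕ) (x : E 3) (hx : x ∈ half 2) :
    gradient (psi f (KK j)) x = ∫ w, KK j (x - w) • (half 2).indicator G w := by
  have hloc : LocallyIntegrable ((half 2).indicator G) :=
    (memLp_ind hG).locallyIntegrable (by norm_num)
  have hint : Integrable (fun w => KK j (x - w) • (half 2).indicator G w) :=
    hloc.integrable_smul_left_of_hasCompactSupport
      ((ker j).sm.continuous.comp (continuous_const.sub continuous_id))
      ((ker j).cs.comp_homeomorph (Homeomorph.subLeft x))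
  ext i
  rw [grad_apply, psi_pd hW hf (ker j) x (le_of_lt hx) i]
  have h1 := (EuclideanSpace.proj (𝕜 := ℝ) i).integral_comp_comm hint
  refine Eq.trans ?_ h1
  refine integral_congr_ae (Eventually.of_forall fun w => ?_)
  rfl

theorem conv_f (hf : MemLp f 3 (volume.restrict (half 2))) :
    Tendsto (fun j => eLpNorm (fun x => psi f (KK j) x - f x) 3 (volume.restrict (half 2)))
      atTop (𝓝 0) := by
  refine tendsto_of_tendsto_of_tendsto_of_le_of_le tendsto_const_nhds
    (conv_tendsto (memLp_ind hf)) (fun j => bot_le) fun j => ?_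
  have h1 : eLpNorm (fun x => psi f (KK j) x - f x) 3 (volume.restrict (half 2)) =
      eLpNorm (fun x => (∫ w, KK j (x - w) • (half 2).indicator f w) - (half 2).indicator f x) 3
        (volume.restrict (half 2)) := by
    apply eLpNorm_congr_ae
    filter_upwards [ae_restrict_mem meas_half] with x hx
    rw [indicator_of_mem hx]
    rfl
  rw [h1]
  exact eLpNorm_mono_measure _ Measure.restrict_le_self

theorem conv_G (hW : WeakDiff 2 f G τ) (hf : MemLp f 3 (volume.restrict (half 2)))
    (hG : MemLp G 3 (volume.restrict (half 2))) :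
    Tendsto (fun j => eLpNorm (fun x => gradient (psi f (KK j)) x - G x) 3
      (volume.restrict (half 2))) atTop (𝓝 0) := by
  refine tendsto_of_tendsto_of_tendsto_of_le_of_le tendsto_const_nhds
    (conv_tendsto (memLp_ind hG)) (fun j => bot_le) fun j => ?_
  have h1 : eLpNorm (fun x => gradient (psi f (KK j)) x - G x) 3 (volume.restrict (half 2)) =
      eLpNorm (fun x => (∫ w, KK j (x - w) • (half 2).indicator G w) - (half 2).indicator G x) 3
        (volume.restrict (half 2)) := by
    apply eLpNorm_congr_ae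
    filter_upwards [ae_restrict_mem meas_half] with x hx
    rw [indicator_of_mem hx, psi_grad hW hf hG j x hx]
  rw [h1]
  exact eLpNorm_mono_measure _ Measure.restrict_le_self

theorem grad_cont {u : E 3 → ℝ} (hu : ContDiff ℝ 1 u) : Continuous (gradient u) :=
  (InnerProductSpace.toDual ℝ (E 3)).symm.continuous.comp (hu.continuous_fderiv one_ne_zero)

theorem trace_bound (hW : WeakDiff 2 f G τ) {u : E 3 → ℝ} (hu : ContDiff ℝ 1 u) {R C : ℝ}
    (hC : 0 ≤ C) {φ : E 2 → ℝ} (hφ : ContDiff ℝ 1 φ) (h1 : ∀ y, |φ y| ≤ 1)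
    (h0 : ∀ y, R + 1 ≤ ‖y‖ → φ y = 0) (hp : ∀ x : E 3, |pd (ex φ) (Fin.last 2) x| ≤ C) :
    ∫ y, (u (bd y) - τ y) * φ y ≤
      C * (∫ x in half 2 ∩ ball 0 (R + 4), ‖u x - f x‖) +
        ∫ x in half 2 ∩ ball 0 (R + 4), ‖gradient u x - G x‖ := by
  have hes : ContDiff ℝ 1 (ex φ) := ex_smooth hφ
  have hts : tsupport (ex φ) ⊆ closedBall 0 (R + 3) := by
    refine closure_minimal ?_ isClosed_closedBall
    intro x hx
    rw [mem_closedBall_zero_iff]
    by_contra hcon
    push Not at hcon
    exact hx (ex_zero h0 x hcon.le)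
  have hec : HasCompactSupport (ex φ) :=
    (isCompact_closedBall (0 : E 3) (R + 3)).of_isClosed_subset (isClosed_tsupport _) hts
  have hφc : HasCompactSupport φ := by
    refine HasCompactSupport.of_support_subset_isCompact
      (isCompact_closedBall (0 : E 2) (R + 1)) ?_
    intro y hy
    rw [mem_closedBall_zero_iff]
    by_contra hcon
    push Not at hcon
    exact hy (h0 y hcon.le)
  have hbdc : Continuous (fun y : E 2 => (bd y : E 3)) := by
    unfold bd
    refine (PiLp.continuous_toLp 2 _).comp ?_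
    refine continuous_pi fun i => ?_
    refine Fin.lastCases ?_ (fun i => ?_) i
    · simp only [Fin.snoc_last]
      exact continuous_const
    · simp only [Fin.snoc_castSucc]
      fun_prop
  -- the Green formulas
  have g1 := green 2 (fun x => u x * ex φ x) (hu.mul hes) hec.mul_left (Fin.last 2)
  have g2 := hW.green (ex φ) hes hec (Fin.last 2)
  rw [if_pos rfl] at g1 g2
  have hpd : ∀ x, pd (fun x => u x * ex φ x) (Fin.last 2) x =
      u x * pd (ex φ) (Fin.last 2) x + pd u (Fin.last 2) x * ex φ x := by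
    intro x
    unfold pd
    have := ((hu.differentiable one_ne_zero x).hasFDerivAt.mul
      (hes.differentiable one_ne_zero x).hasFDerivAt).fderiv
    have e1 : fderiv ℝ (fun x => u x * ex φ x) x = _ := this
    rw [e1]
    simp only [_root_.add_apply, _root_.smul_apply, smul_eq_mul]
    ring
  obtain ⟨i1, i2⟩ := int_prod hW hes hec (Fin.last 2)
  have i3 : IntegrableOn (fun x => u x * pd (ex φ) (Fin.last 2) x) (half 2) :=
    ((hu.continuous.mul (Grn.pd_cont _ hes _)).integrable_of_hasCompactSupport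
      (Grn.pd_supp _ hec _).mul_left).integrableOn
  have i4 : IntegrableOn (fun x => pd u (Fin.last 2) x * ex φ x) (half 2) :=
    (((Grn.pd_cont _ hu _).mul hes.continuous).integrable_of_hasCompactSupport
      hec.mul_left).integrableOn
  have j1 : Integrable (fun y => u (bd y) * φ y) :=
    ((hu.continuous.comp hbdc).mul hφ.continuous).integrable_of_hasCompactSupport hφc.mul_left
  have j2 : Integrable (fun y => τ y * φ y) := by
    have := hW.t_int.integrable_smul_left_of_hasCompactSupport hφ.continuous hφc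
    refine this.congr (Eventually.of_forall fun y => ?_)
    simp only [smul_eq_mul]
    ring
  simp only [hpd, ex_bd] at g1 g2
  have e2 : ∫ y, (u (bd y) - τ y) * φ y = -∫ x in half 2,
      ((u x - f x) * pd (ex φ) (Fin.last 2) x +
        (pd u (Fin.last 2) x - G x (Fin.last 2)) * ex φ x) := by
    have e3 : ∫ y, (u (bd y) - τ y) * φ y = (∫ y, u (bd y) * φ y) - ∫ y, τ y * φ y := by
      rw [← integral_sub j1 j2]
      congr 1
      funext y
      ring
    have e4 : ∫ x in half 2, ((u x - f x) * pd (ex φ) (Fin.last 2) x +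
        (pd u (Fin.last 2) x - G x (Fin.last 2)) * ex φ x) =
        (∫ x in half 2, (u x * pd (ex φ) (Fin.last 2) x + pd u (Fin.last 2) x * ex φ x)) -
          ∫ x in half 2, (f x * pd (ex φ) (Fin.last 2) x + G x (Fin.last 2) * ex φ x) := by
      have i34 : Integrable (fun x => u x * pd (ex φ) (Fin.last 2) x +
        pd u (Fin.last 2) x * ex φ x) (volume.restrict (half 2)) := i3.add i4
      have i12 : Integrable (fun x => f x * pd (ex φ) (Fin.last 2) x +
        G x (Fin.last 2) * ex φ x) (volume.restrict (half 2)) := i1.add i2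
      rw [← integral_sub i34 i12]
      congr 1
      funext x
      ring
    rw [e3, e4, g1, g2]
    ring
  rw [e2, ← integral_neg]
  -- integrability of the bounds
  have k1 : IntegrableOn (fun x => ‖u x - f x‖) (half 2 ∩ ball 0 (R + 4)) := by
    refine Integrable.norm (Integrable.sub ?_ (hW.f_int (R + 4)))
    exact (hu.continuous.continuousOn.integrableOn_compact
      (isCompact_closedBall (0 : E 3) (R + 4))).mono_set
      (inter_subset_right.trans ball_subset_closedBall)
  have k2 : IntegrableOn (fun x => ‖gradient u x - G x‖) (half 2 ∩ ball 0 (R + 4)) := by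
    refine Integrable.norm (Integrable.sub ?_ (hW.G_int (R + 4)))
    exact ((grad_cont hu).continuousOn.integrableOn_compact
      (isCompact_closedBall (0 : E 3) (R + 4))).mono_set
      (inter_subset_right.trans ball_subset_closedBall)
  have hsup : ∀ x ∉ ball (0 : E 3) (R + 4), ex φ x = 0 ∧ pd (ex φ) (Fin.last 2) x = 0 := by
    intro x hx
    have hx' : x ∉ tsupport (ex φ) := fun h => hx (closedBall_subset_ball (by linarith) (hts h))
    refine ⟨image_eq_zero_of_notMem_tsupport hx', ?_⟩
    have : fderiv ℝ (ex φ) x = 0 := by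
      by_contra hne
      exact hx' (support_fderiv_subset ℝ (Function.mem_support.2 hne))
    unfold pd
    rw [this]
    rfl
  have e5 : ∫ x in half 2, -((u x - f x) * pd (ex φ) (Fin.last 2) x +
        (pd u (Fin.last 2) x - G x (Fin.last 2)) * ex φ x) =
      ∫ x in half 2 ∩ ball 0 (R + 4), -((u x - f x) * pd (ex φ) (Fin.last 2) x +
        (pd u (Fin.last 2) x - G x (Fin.last 2)) * ex φ x) := by
    apply setIntegral_eq_of_subset_of_forall_sdiff_eq_zero meas_half inter_subset_left
    rintro x ⟨hx1, hx2⟩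
    have hx3 : x ∉ ball (0 : E 3) (R + 4) := fun h => hx2 ⟨hx1, h⟩
    rw [(hsup x hx3).1, (hsup x hx3).2]
    ring
  rw [e5, ← integral_const_mul, ← integral_add (k1.const_mul C) k2]
  have hmono : ∀ x : E 3, -((u x - f x) * pd (ex φ) (Fin.last 2) x +
        (pd u (Fin.last 2) x - G x (Fin.last 2)) * ex φ x) ≤
      C * ‖u x - f x‖ + ‖gradient u x - G x‖ := by
    intro x
    have m1 : |(u x - f x) * pd (ex φ) (Fin.last 2) x| ≤ C * ‖u x - f x‖ := by
      rw [abs_mul, ← Real.norm_eq_abs (u x - f x)]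
      have := mul_le_mul_of_nonneg_left (hp x) (norm_nonneg (u x - f x))
      linarith
    have m2 : |(pd u (Fin.last 2) x - G x (Fin.last 2)) * ex φ x| ≤ ‖gradient u x - G x‖ := by
      rw [abs_mul]
      have h3 : |pd u (Fin.last 2) x - G x (Fin.last 2)| ≤ ‖gradient u x - G x‖ := by
        rw [← grad_apply, ← Real.norm_eq_abs]
        exact PiLp.norm_apply_le (p := 2) (gradient u x - G x) (Fin.last 2)
      have h4 := ex_le h1 x
      have h5 := abs_nonneg (pd u (Fin.last 2) x - G x (Fin.last 2))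
      nlinarith [abs_nonneg (ex φ x)]
    have m3 := neg_abs_le ((u x - f x) * pd (ex φ) (Fin.last 2) x)
    have m4 := neg_abs_le ((pd u (Fin.last 2) x - G x (Fin.last 2)) * ex φ x)
    linarith
  refine integral_mono_ae ?_ ((k1.const_mul C).add k2) (Eventually.of_forall hmono)
  have i5 : IntegrableOn (fun x => -((u x - f x) * pd (ex φ) (Fin.last 2) x +
        (pd u (Fin.last 2) x - G x (Fin.last 2)) * ex φ x)) (half 2) := by
    have := ((i3.add i4).sub (i1.add i2)).neg
    refine this.congr (Eventually.of_forall fun x => ?_)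
    simp only [Pi.neg_apply, Pi.sub_apply, Pi.add_apply]
    ring
  exact i5.mono_set inter_subset_left

end fin

end Pool.Agent.T6.H20.BV.Shmx

namespace Pool.Agent.T6.H20.BV

open MeasureTheory Filter Topology Set Metric Pool.Agent.T6.H20.BU Shmx

theorem shm : StmSHM := by
  intro f G τ hW hf hG
  have hs : ∀ j, ContDiff ℝ 1 (psi f (KK j)) := fun j => psi_smooth hf (ker j)
  have ha := conv_f (f := f) hf
  have hb := conv_G hW hf hG
  refine ⟨fun j => psi f (KK j), hs, ha, hb, fun R => ?_⟩
  obtain ⟨C, hC, hCp⟩ := ex_pd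
  have hma : ∀ j, AEStronglyMeasurable (fun x => psi f (KK j) x - f x)
      (volume.restrict (half 2)) := fun j =>
    ((hs j).continuous.aestronglyMeasurable).sub hf.aestronglyMeasurable
  have hmb : ∀ j, AEStronglyMeasurable (fun x => gradient (psi f (KK j)) x - G x)
      (volume.restrict (half 2)) := fun j =>
    ((grad_cont (hs j)).aestronglyMeasurable).sub hG.aestronglyMeasurable
  have la := l1 hma ha (R + 4)
  have lb := l1 hmb hb (R + 4)
  have lim : Tendsto (fun j => C * (∫ x in half 2 ∩ ball 0 (R + 4), ‖psi f (KK j) x - f x‖) +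
      ∫ x in half 2 ∩ ball 0 (R + 4), ‖gradient (psi f (KK j)) x - G x‖) atTop (𝓝 0) := by
    have := (la.const_mul C).add lb
    simpa using this
  refine squeeze_zero (fun j => ?_) (fun j => ?_) lim
  · exact integral_nonneg fun y => abs_nonneg _
  · have hbdc : Continuous (fun y : E 2 => (bd y : E 3)) := by
      unfold bd
      refine (PiLp.continuous_toLp 2 _).comp ?_
      refine continuous_pi fun i => ?_
      refine Fin.lastCases ?_ (fun i => ?_) i
      · simp only [Fin.snoc_last]
        exact continuous_const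
      · simp only [Fin.snoc_castSucc]
        fun_prop
    have hloc : LocallyIntegrable (fun y => psi f (KK j) (bd y) - τ y) :=
      ((hs j).continuous.comp hbdc).locallyIntegrable.sub hW.t_int
    exact dual hloc fun φ hφ h1 h0 =>
      trace_bound hW (hs j) hC hφ h1 h0 (hCp φ hφ h1)

end Pool.Agent.T6.H20.BV
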