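import Pool.Agent.T6.H20.BV.Defs

/-!
# Project BV, module SYM: averaging with the inversion
-/

set_option autoImplicit false

namespace Pool.Agent.T6.H20.BV

open MeasureTheory Set Filter Topology

namespace ModSym

/-- the square of the distance to the origin -/
def rho (p : ℝ × ℝ) : ℝ := p.1 ^ 2 + p.2 ^ 2

lemma rho_pos {p : ℝ × ℝ} (h : 0 < p.1) : 0 < rho p := by
  unfold rho
  positivity

lemma JJ_fst (p : ℝ × ℝ) : (JJ p).1 = p.1 / rho p := rfl

lemma JJ_snd (p : ℝ × ℝ) : (JJ p).2 = p.2 / rho p := rfl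

lemma rho_JJ {p : ℝ × ℝ} (h : rho p ≠ 0) : rho (JJ p) = (rho p)⁻¹ := by
  have h2 : rho p = p.1 ^ 2 + p.2 ^ 2 := rfl
  have : rho (JJ p) = (p.1 / rho p) ^ 2 + (p.2 / rho p) ^ 2 := rfl
  rw [this]
  field_simp
  rw [h2]

lemma JJ_JJ {p : ℝ × ℝ} (h : rho p ≠ 0) : JJ (JJ p) = p := by
  have h1 := rho_JJ h
  ext
  · rw [JJ_fst, h1, JJ_fst]
    field_simp
  · rw [JJ_snd, h1, JJ_snd]
    field_simp

lemma JJ_Qc {p : ℝ × ℝ} (h : p ∈ Qc) : JJ p ∈ Qc := by
  have h1 := rho_pos h.1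
  exact ⟨by rw [JJ_fst]; exact div_pos h.1 h1, by rw [JJ_snd]; exact div_nonneg h.2 h1.le⟩

lemma QQ_Qc {p : ℝ × ℝ} (h : p ∈ QQ) : p ∈ Qc := ⟨h.1, h.2.le⟩

lemma meas_QQ : MeasurableSet QQ := by
  have : QQ = Ioi (0 : ℝ) ×ˢ Ioi (0 : ℝ) := by
    ext p
    simp [QQ]
  rw [this]
  exact measurableSet_Ioi.prod measurableSet_Ioi

lemma ae_QQ : ∀ᵐ p ∂mu, p ∈ QQ := by
  have h : mu ≪ volume.restrict QQ := withDensity_absolutelyContinuous _ _
  exact h.ae_le (ae_restrict_mem meas_QQ)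

/-- the reflection of `ℝ⁵` -/
noncomputable def SS (p : ℝ × ℝ) (v : V5) : V5 :=
  !₂[v 0 - 2 * (p.1 * v 0 + p.2 * v 1) / rho p * p.1,
    v 1 - 2 * (p.1 * v 0 + p.2 * v 1) / rho p * p.2,
    -(v 2 - 2 * (p.1 * v 2 + p.2 * v 3) / rho p * p.1),
    -(v 3 - 2 * (p.1 * v 2 + p.2 * v 3) / rho p * p.2), v 4]

lemma inner_V5 (v w : V5) : inner ℝ v w = v 0 * w 0 + v 1 * w 1 + v 2 * w 2 + v 3 * w 3 +
    v 4 * w 4 := by
  rw [PiLp.inner_apply]
  simp [Fin.sum_univ_succ]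
  ring

lemma inner_SS {p : ℝ × ℝ} (h : rho p ≠ 0) (v w : V5) :
    inner ℝ (SS p v) (SS p w) = inner ℝ v w := by
  rw [inner_V5, inner_V5]
  have e0 : ∀ u : V5, SS p u 0 = u 0 - 2 * (p.1 * u 0 + p.2 * u 1) / rho p * p.1 := fun _ => rfl
  have e1 : ∀ u : V5, SS p u 1 = u 1 - 2 * (p.1 * u 0 + p.2 * u 1) / rho p * p.2 := fun _ => rfl
  have e2 : ∀ u : V5, SS p u 2 = -(u 2 - 2 * (p.1 * u 2 + p.2 * u 3) / rho p * p.1) :=
    fun _ => rfl
  have e3 : ∀ u : V5, SS p u 3 = -(u 3 - 2 * (p.1 * u 2 + p.2 * u 3) / rho p * p.2) :=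
    fun _ => rfl
  have e4 : ∀ u : V5, SS p u 4 = u 4 := fun _ => rfl
  rw [e0, e0, e1, e1, e2, e2, e3, e3, e4, e4]
  have hr : rho p = p.1 ^ 2 + p.2 ^ 2 := rfl
  field_simp
  rw [hr]
  ring

lemma norm_SS {p : ℝ × ℝ} (h : rho p ≠ 0) (v : V5) : ‖SS p v‖ = ‖v‖ := by
  have := inner_SS h v v
  rw [real_inner_self_eq_norm_sq, real_inner_self_eq_norm_sq] at this
  exact (sq_eq_sq₀ (norm_nonneg _) (norm_nonneg _)).1 this

/-- the transformation of `av` -/
lemma av_J (φ : ℝ × ℝ → ℝ) (P R : ℝ × ℝ → ℝ × ℝ) {p : ℝ × ℝ} (h : 0 < p.1) :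
    av (fun p => φ (JJ p)) (GJ P) (fun p => -GJ R p) p =
      (rho p)⁻¹ • SS p (av φ P R (JJ p)) := by
  have hr := rho_pos h
  have hrr : rho p = p.1 ^ 2 + p.2 ^ 2 := rfl
  have g1 : ∀ U : ℝ × ℝ → ℝ × ℝ, (GJ U p).1 = (1 / rho p) * ((U (JJ p)).1 -
    (2 * (p.1 * (U (JJ p)).1 + p.2 * (U (JJ p)).2) / rho p) * p.1) := fun _ => rfl
  have g2 : ∀ U : ℝ × ℝ → ℝ × ℝ, (GJ U p).2 = (1 / rho p) * ((U (JJ p)).2 -
    (2 * (p.1 * (U (JJ p)).1 + p.2 * (U (JJ p)).2) / rho p) * p.2) := fun _ => rfl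
  ext i
  fin_cases i
  · change (GJ P p).1 = (rho p)⁻¹ * ((P (JJ p)).1 -
      2 * (p.1 * (P (JJ p)).1 + p.2 * (P (JJ p)).2) / rho p * p.1)
    rw [g1, one_div]
  · change (GJ P p).2 = (rho p)⁻¹ * ((P (JJ p)).2 -
      2 * (p.1 * (P (JJ p)).1 + p.2 * (P (JJ p)).2) / rho p * p.2)
    rw [g2, one_div]
  · change -(GJ R p).1 = (rho p)⁻¹ * -((R (JJ p)).1 -
      2 * (p.1 * (R (JJ p)).1 + p.2 * (R (JJ p)).2) / rho p * p.1)
    rw [g1, one_div]
    ring
  · change -(GJ R p).2 = (rho p)⁻¹ * -((R (JJ p)).2 -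
      2 * (p.1 * (R (JJ p)).1 + p.2 * (R (JJ p)).2) / rho p * p.2)
    rw [g2, one_div]
    ring
  · change 2 * φ (JJ p) / p.1 = (rho p)⁻¹ * (2 * φ (JJ p) / (JJ p).1)
    rw [JJ_fst]
    field_simp

lemma meas_JJ : Measurable JJ := by
  unfold JJ
  fun_prop

/-- the density -/
noncomputable def dn (p : ℝ × ℝ) : ENNReal := ENNReal.ofReal (((p.1 ^ 2 + p.2 ^ 2) ^ 3)⁻¹)

lemma meas_dn : Measurable dn := by
  unfold dn
  fun_prop

lemma mu_ac : mu ≪ mu.withDensity dn := by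
  refine withDensity_absolutelyContinuous' meas_dn.aemeasurable ?_
  filter_upwards [ae_QQ] with p hp
  have := rho_pos hp.1
  unfold rho at this
  simp only [dn, ne_eq, ENNReal.ofReal_eq_zero, not_le]
  positivity

/-- pull back of functions -/
lemma int_pull (hM : Measure.map JJ (mu.withDensity dn) = mu) {g : ℝ × ℝ → ℝ}
    (hg : AEStronglyMeasurable g mu) :
    ∫ p, (rho p ^ 3)⁻¹ * g (JJ p) ∂mu = ∫ p, g p ∂mu := by
  conv_rhs => rw [← hM]
  rw [integral_map meas_JJ.aemeasurable (by rw [hM]; exact hg),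
    integral_withDensity_eq_integral_toReal_smul meas_dn
      (Eventually.of_forall fun p => ENNReal.ofReal_lt_top)]
  refine integral_congr_ae ?_
  filter_upwards [ae_QQ] with p hp
  have := rho_pos hp.1
  rw [smul_eq_mul]
  congr 1
  unfold dn
  rw [ENNReal.toReal_ofReal]
  · rfl
  · positivity

lemma int_pull' (hM : Measure.map JJ (mu.withDensity dn) = mu) {g : ℝ × ℝ → ℝ}
    (hg : Integrable g mu) : Integrable (fun p => (rho p ^ 3)⁻¹ * g (JJ p)) mu := by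
  have h1 : Integrable g (Measure.map JJ (mu.withDensity dn)) := by rw [hM]; exact hg
  have h2 : Integrable (fun p => g (JJ p)) (mu.withDensity dn) :=
    h1.comp_measurable meas_JJ
  rw [integrable_withDensity_iff_integrable_smul' meas_dn
    (Eventually.of_forall fun p => ENNReal.ofReal_lt_top)] at h2
  refine h2.congr ?_
  filter_upwards [ae_QQ] with p hp
  have := rho_pos hp.1
  rw [smul_eq_mul]
  congr 1
  unfold dn
  rw [ENNReal.toReal_ofReal]
  · rfl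
  · positivity

lemma asm_pull (hM : Measure.map JJ (mu.withDensity dn) = mu) {g : ℝ × ℝ → V5}
    (hg : AEStronglyMeasurable g mu) : AEStronglyMeasurable (fun p => g (JJ p)) mu := by
  have h1 : AEStronglyMeasurable g (Measure.map JJ (mu.withDensity dn)) := by rw [hM]; exact hg
  exact (h1.comp_measurable meas_JJ).mono_ac mu_ac

lemma meas_SS : Measurable (fun q : (ℝ × ℝ) × V5 => (rho q.1)⁻¹ • SS q.1 q.2) := by
  have hr : Measurable (fun q : (ℝ × ℝ) × V5 => rho q.1) := by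
    unfold rho
    fun_prop
  have hv : ∀ i : Fin 5, Measurable (fun q : (ℝ × ℝ) × V5 => q.2 i) := fun i => by fun_prop
  have h0 := hv 0
  have h1 := hv 1
  have h2 := hv 2
  have h3 := hv 3
  have h4 := hv 4
  have hp1 : Measurable (fun q : (ℝ × ℝ) × V5 => q.1.1) := by fun_prop
  have hp2 : Measurable (fun q : (ℝ × ℝ) × V5 => q.1.2) := by fun_prop
  refine hr.inv.smul ?_
  unfold SS
  refine (WithLp.measurable_toLp 2 (Fin 5 → ℝ)).comp (measurable_pi_lambda _ fun i => ?_)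
  fin_cases i
  · exact h0.sub (((((hp1.mul h0).add (hp2.mul h1)).const_mul 2).div hr).mul hp1)
  · exact h1.sub (((((hp1.mul h0).add (hp2.mul h1)).const_mul 2).div hr).mul hp2)
  · exact (h2.sub (((((hp1.mul h2).add (hp2.mul h3)).const_mul 2).div hr).mul hp1)).neg
  · exact (h3.sub (((((hp1.mul h2).add (hp2.mul h3)).const_mul 2).div hr).mul hp2)).neg
  · exact h4

lemma memLp_pull (hM : Measure.map JJ (mu.withDensity dn) = mu) {g : ℝ × ℝ → V5}
    (hg : MemLp g 3 mu) : MemLp (fun p => (rho p)⁻¹ • SS p (g (JJ p))) 3 mu := by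
  have h1 : AEStronglyMeasurable (fun p => (rho p)⁻¹ • SS p (g (JJ p))) mu := by
    have := (asm_pull hM hg.1).aemeasurable
    exact (meas_SS.comp_aemeasurable (aemeasurable_id.prodMk this)).aestronglyMeasurable
  rw [← integrable_norm_rpow_iff h1 (by norm_num) (by norm_num)]
  have h2 := (integrable_norm_rpow_iff hg.1 (by norm_num) (by norm_num)).2 hg
  refine (int_pull' hM h2).congr ?_
  filter_upwards [ae_QQ] with p hp
  have hr := rho_pos hp.1
  rw [norm_smul, norm_SS hr.ne', Real.norm_eq_abs, abs_of_pos (inv_pos.2 hr)]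
  have e3 : (3 : ENNReal).toReal = ((3 : ℕ) : ℝ) := by norm_num
  rw [e3, Real.rpow_natCast, Real.rpow_natCast, mul_pow, inv_pow]

/-- integrability of the integrand -/
lemma integrable_in {a b : ℝ × ℝ → V5} (ha : MemLp a 3 mu) (hb : MemLp b 3 mu) :
    Integrable (fun p => ‖a p‖ * inner ℝ (a p) (b p)) mu := by
  have e3 : (3 : ENNReal).toReal = ((3 : ℕ) : ℝ) := by norm_num
  have h1 := (integrable_norm_rpow_iff ha.1 (by norm_num) (by norm_num)).2 ha
  have h2 := (integrable_norm_rpow_iff hb.1 (by norm_num) (by norm_num)).2 hb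
  refine (h1.add h2).mono' (ha.1.norm.mul (ha.1.inner hb.1)) (Eventually.of_forall fun p => ?_)
  simp only [Pi.add_apply]
  rw [e3, Real.rpow_natCast, Real.rpow_natCast, norm_mul, norm_norm]
  have h3 : ‖inner ℝ (a p) (b p)‖ ≤ ‖a p‖ * ‖b p‖ := norm_inner_le_norm _ _
  have h4 : 0 ≤ ‖a p‖ := norm_nonneg _
  have h5 : 0 ≤ ‖b p‖ := norm_nonneg _
  have h6 : ‖a p‖ * ‖inner ℝ (a p) (b p)‖ ≤ ‖a p‖ * (‖a p‖ * ‖b p‖) :=
    mul_le_mul_of_nonneg_left h3 h4
  refine h6.trans ?_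
  rcases le_total ‖a p‖ ‖b p‖ with h | h
  · have h7 : ‖a p‖ * (‖a p‖ * ‖b p‖) ≤ ‖b p‖ ^ 3 := by
      have : ‖a p‖ * ‖a p‖ ≤ ‖b p‖ * ‖b p‖ := mul_le_mul h h h4 h5
      nlinarith
    have : 0 ≤ ‖a p‖ ^ 3 := by positivity
    linarith
  · have h7 : ‖a p‖ * (‖a p‖ * ‖b p‖) ≤ ‖a p‖ ^ 3 := by
      have : ‖a p‖ * ‖b p‖ ≤ ‖a p‖ * ‖a p‖ := mul_le_mul_of_nonneg_left h h4
      nlinarith
    have : 0 ≤ ‖b p‖ ^ 3 := by positivity
    linarith

lemma av_lin (φ φ' : ℝ × ℝ → ℝ) (P P' R R' : ℝ × ℝ → ℝ × ℝ) (a b : ℝ) (p : ℝ × ℝ) :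
    av (fun p => a * φ p + b * φ' p) (fun p => a • P p + b • P' p)
      (fun p => a • R p + b • R' p) p = a • av φ P R p + b • av φ' P' R' p := by
  ext i
  fin_cases i
  · change (a • P p + b • P' p).1 = a * (P p).1 + b * (P' p).1
    simp
  · change (a • P p + b • P' p).2 = a * (P p).2 + b * (P' p).2
    simp
  · change (a • R p + b • R' p).1 = a * (R p).1 + b * (R' p).1
    simp
  · change (a • R p + b • R' p).2 = a * (R p).2 + b * (R' p).2
    simp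
  · change 2 * (a * φ p + b * φ' p) / p.1 = a * (2 * φ p / p.1) + b * (2 * φ' p / p.1)
    ring

end ModSym

open ModSym

theorem sym (hC : StmChain) (hU : StmUnq) (hW : StmJW) (hM : StmJmu) : StmSYM := by
  intro f g F G hA hE φ γ P R hT hbd
  have hM' : Measure.map JJ (mu.withDensity dn) = mu := hM.2
  have hneg : ∀ (u : ℝ × ℝ → ℝ) (U : ℝ × ℝ → ℝ × ℝ), W2 u U →
      W2 (fun p => -u p) (fun p => -U p) := by
    intro u U hu
    have := hC.2 u u U U (-1) 0 hu hu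
    have e1 : (fun p => -1 * u p + 0 * u p) = fun p => -u p := by
      funext p
      ring
    have e2 : (fun p => (-1 : ℝ) • U p + (0 : ℝ) • U p) = fun p => -U p := by
      funext p
      simp
    rw [e1, e2] at this
    exact this
  -- the transformed test
  have wφ' := hW φ P hT.wφ
  have wγ' := hneg _ _ (hW γ R hT.wγ)
  have mem' : MemLp (av (fun p => φ (JJ p)) (GJ P) (fun p => -GJ R p)) 3 mu := by
    refine (memLp_congr_ae ?_).2 (memLp_pull hM' hT.mem)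
    filter_upwards [ae_QQ] with p hp
    exact av_J φ P R hp.1
  -- invariance of the minimiser
  have hF : ∀ᵐ p ∂mu, F p = GJ F p :=
    hU.1 f (fun p => f (JJ p)) F (GJ F) hA.wf (hW f F hA.wf) fun p hp => (hA.jf p hp).symm
  have hG : ∀ᵐ p ∂mu, G p = -GJ G p :=
    hU.1 g (fun p => -g (JJ p)) G (fun p => -GJ G p) hA.wg (hneg _ _ (hW g G hA.wg))
      fun p hp => by rw [hA.jg p hp, neg_neg]
  have hav : ∀ᵐ p ∂mu, av f F G p = (rho p)⁻¹ • SS p (av f F G (JJ p)) := by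
    filter_upwards [hF, hG, ae_QQ] with p h1 h2 h3
    rw [← av_J f F G h3.1]
    have e1 : av f F G p = !₂[(F p).1, (F p).2, (G p).1, (G p).2, 2 * f p / p.1] := rfl
    have e2 : av (fun p => f (JJ p)) (GJ F) (fun p => -GJ G p) p =
      !₂[(GJ F p).1, (GJ F p).2, (-GJ G p).1, (-GJ G p).2, 2 * f (JJ p) / p.1] := rfl
    rw [e1, e2, ← h1, ← h2, hA.jf p (QQ_Qc h3)]
  -- the integrals
  have hI : ∫ p, ‖av f F G p‖ * inner ℝ (av f F G p)
      (av (fun p => φ (JJ p)) (GJ P) (fun p => -GJ R p) p) ∂mu =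
      ∫ p, ‖av f F G p‖ * inner ℝ (av f F G p) (av φ P R p) ∂mu := by
    rw [← int_pull hM' (integrable_in hA.mem hT.mem).1]
    refine integral_congr_ae ?_
    filter_upwards [hav, ae_QQ] with p h1 h3
    have hr := rho_pos h3.1
    rw [av_J φ P R h3.1]
    rw [h1, norm_smul, norm_SS hr.ne', inner_smul_left, inner_smul_right, inner_SS hr.ne',
      Real.norm_eq_abs, abs_of_pos (inv_pos.2 hr)]
    simp only [conj_trivial]
    rw [← inv_pow]
    ring
  obtain ⟨M, hbd⟩ := hbd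
  have hM0 : ∀ p ∈ Qc, |φ (JJ p)| ≤ M ∧ |γ (JJ p)| ≤ M := fun p hp => hbd _ (JJ_Qc hp)
  -- the mean
  have hT' : Test f g (fun p => 1 / 2 * φ p + 1 / 2 * φ (JJ p))
      (fun p => 1 / 2 * γ p + 1 / 2 * -γ (JJ p))
      (fun p => (1 / 2 : ℝ) • P p + (1 / 2 : ℝ) • GJ P p)
      (fun p => (1 / 2 : ℝ) • R p + (1 / 2 : ℝ) • -GJ R p) := by
    refine ⟨hC.2 φ (fun p => φ (JJ p)) P (GJ P) _ _ hT.wφ wφ',
      hC.2 γ (fun p => -γ (JJ p)) R (fun p => -GJ R p) _ _ hT.wγ wγ', ?_, ?_⟩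
    · have h1 := (hT.mem.const_smul (1 / 2 : ℝ)).add (mem'.const_smul (1 / 2 : ℝ))
      refine (memLp_congr_ae (Eventually.of_forall fun p => ?_)).2 h1
      exact av_lin φ (fun p => φ (JJ p)) P (GJ P) R (fun p => -GJ R p) (1 / 2) (1 / 2) p
    · intro r hr
      have hq : ((r, 0) : ℝ × ℝ) ∈ Qc := ⟨hr, le_refl _⟩
      have h1 := hT.bdy r hr
      have h2 := hA.jf _ hq
      have h3 := hA.jg _ hq
      have h4 : JJ ((r, 0) : ℝ × ℝ) = (r / rho (r, 0), 0) := by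
        ext
        · rfl
        · rw [JJ_snd]
          simp
      have h5 : 0 < r / rho (r, 0) := div_pos hr (rho_pos (p := (r, 0)) hr)
      have h6 := hT.bdy _ h5
      rw [← h4] at h6
      rw [h2, h3] at h6
      change f (r, 0) * (1 / 2 * φ (r, 0) + 1 / 2 * φ (JJ (r, 0))) +
        g (r, 0) * (1 / 2 * γ (r, 0) + 1 / 2 * -γ (JJ (r, 0))) = 0
      linarith
  have hfin := hE _ _ _ _ hT' ⟨M, fun p hp => ?_⟩ (fun p hp => ?_) (fun p hp => ?_)
  · have e1 : ∫ p, ‖av f F G p‖ * inner ℝ (av f F G p)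
        (av (fun p => 1 / 2 * φ p + 1 / 2 * φ (JJ p))
          (fun p => (1 / 2 : ℝ) • P p + (1 / 2 : ℝ) • GJ P p)
          (fun p => (1 / 2 : ℝ) • R p + (1 / 2 : ℝ) • -GJ R p) p) ∂mu = 0 := hfin
    have e2 : ∫ p, ‖av f F G p‖ * inner ℝ (av f F G p)
        (av (fun p => 1 / 2 * φ p + 1 / 2 * φ (JJ p))
          (fun p => (1 / 2 : ℝ) • P p + (1 / 2 : ℝ) • GJ P p)
          (fun p => (1 / 2 : ℝ) • R p + (1 / 2 : ℝ) • -GJ R p) p) ∂mu =
        1 / 2 * ∫ p, ‖av f F G p‖ * inner ℝ (av f F G p) (av φ P R p) ∂mu + 1 / 2 *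
          ∫ p, ‖av f F G p‖ * inner ℝ (av f F G p)
            (av (fun p => φ (JJ p)) (GJ P) (fun p => -GJ R p) p) ∂mu := by
      rw [← integral_const_mul, ← integral_const_mul, ← integral_add
        ((integrable_in hA.mem hT.mem).const_mul _) ((integrable_in hA.mem mem').const_mul _)]
      refine integral_congr_ae (Eventually.of_forall fun p => ?_)
      beta_reduce
      rw [av_lin φ (fun p => φ (JJ p)) P (GJ P) R (fun p => -GJ R p) (1 / 2) (1 / 2) p,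
        inner_add_right, inner_smul_right, inner_smul_right]
      ring
    rw [e2, hI] at e1
    unfold Eqn
    linarith
  · obtain ⟨h1, h2⟩ := hbd p hp
    obtain ⟨h3, h4⟩ := hM0 p hp
    rw [abs_le] at h1 h2 h3 h4
    constructor <;> rw [abs_le] <;> constructor <;> linarith [h1.1, h1.2, h2.1, h2.2, h3.1, h3.2,
      h4.1, h4.2]
  · have := JJ_JJ (rho_pos hp.1).ne'
    simp only [this]
    ring
  · have := JJ_JJ (rho_pos hp.1).ne'
    simp only [this]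
    ring

end Pool.Agent.T6.H20.BV
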