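import Pool.Agent.T6.H20.BV.Defs

/-!
# Project BV, module TRU (helper82): truncation
-/

set_option autoImplicit false

namespace Pool.Agent.T6.H20.BV

open MeasureTheory Set Filter Topology Pool.Agent.T6.H20.BU

namespace TRUx

/-! ### The function `κ` -/

/-- `κ(s) = 2/√m - 1/m`, `m = max s 1` -/
noncomputable def ka (s : ℝ) : ℝ := 2 / Real.sqrt (max s 1) - 1 / max s 1

/-- its derivative -/
noncomputable def kd (s : ℝ) : ℝ :=
  1 / (max s 1) ^ 2 - 1 / (max s 1 * Real.sqrt (max s 1))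

lemma mpos (s : ℝ) : 0 < max s 1 := lt_of_lt_of_le one_pos (le_max_right _ _)

lemma ka_cont : Continuous ka := by
  unfold ka
  have h : ∀ s : ℝ, Real.sqrt (max s 1) ≠ 0 := fun s => (Real.sqrt_pos.2 (mpos s)).ne'
  exact (continuous_const.div (by fun_prop) h).sub
    (continuous_const.div (by fun_prop) fun s => (mpos s).ne')

lemma kd_cont : Continuous kd := by
  unfold kd
  have h : ∀ s : ℝ, Real.sqrt (max s 1) ≠ 0 := fun s => (Real.sqrt_pos.2 (mpos s)).ne'
  exact (continuous_const.div (by fun_prop) fun s => pow_ne_zero _ (mpos s).ne').sub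
    (continuous_const.div (by fun_prop) fun s => mul_ne_zero (mpos s).ne' (h s))

lemma ka_le {s : ℝ} (hs : s ≤ 1) : ka s = 1 := by
  unfold ka; rw [max_eq_right hs]; norm_num

lemma kd_le {s : ℝ} (hs : s ≤ 1) : kd s = 0 := by
  unfold kd; rw [max_eq_right hs]; norm_num

lemma ka_der (s : ℝ) : HasDerivAt ka (kd s) s := by
  have hne : ∀ y, y ≠ (1 : ℝ) → HasDerivAt ka (kd y) y := by
    intro y hy
    rcases lt_or_gt_of_ne hy with h | h
    · rw [kd_le h.le]
      refine (hasDerivAt_const y (1 : ℝ)).congr_of_eventuallyEq ?_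
      filter_upwards [Iio_mem_nhds h] with t ht
      exact ka_le (le_of_lt ht)
    · have hy0 : 0 < y := by linarith
      have hs : Real.sqrt y ≠ 0 := (Real.sqrt_pos.2 hy0).ne'
      have h1 := ((hasDerivAt_const y (2 : ℝ)).div (Real.hasDerivAt_sqrt hy0.ne') hs).sub
        ((hasDerivAt_const y (1 : ℝ)).div (hasDerivAt_id y) hy0.ne')
      have h2 : HasDerivAt ka (kd y) y := by
        refine (h1.congr_deriv ?_).congr_of_eventuallyEq ?_
        · unfold kd
          rw [max_eq_left h.le]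
          simp only [id]
          have e : Real.sqrt y ^ 2 = y := Real.sq_sqrt hy0.le
          rw [e]
          field_simp
          ring
        · filter_upwards [Ioi_mem_nhds h] with t ht
          simp only [ka, Pi.sub_apply, Pi.div_apply, id]
          rw [max_eq_left (le_of_lt ht)]
      exact h2
  rcases eq_or_ne s 1 with rfl | h
  · exact hasDerivAt_of_hasDerivAt_of_ne hne ka_cont.continuousAt kd_cont.continuousAt
  · exact hne s h

lemma ka_cd : ContDiff ℝ 1 ka := by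
  rw [contDiff_one_iff_deriv]
  refine ⟨fun s => (ka_der s).differentiableAt, ?_⟩
  have : deriv ka = kd := funext fun s => (ka_der s).deriv
  rw [this]
  exact kd_cont

/-- with `t = √m`: `κ = 2/t - 1/t²`, `κ' = 1/t⁴ - 1/t³` -/
lemma forms (s : ℝ) : ∃ t : ℝ, 1 ≤ t ∧ t ^ 2 = max s 1 ∧ ka s = 2 / t - 1 / t ^ 2 ∧
    kd s = 1 / t ^ 4 - 1 / t ^ 3 := by
  refine ⟨Real.sqrt (max s 1), Real.one_le_sqrt.2 (le_max_right _ _), Real.sq_sqrt (mpos s).le,
    ?_, ?_⟩
  · rw [Real.sq_sqrt (mpos s).le]; rfl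
  · unfold kd
    have e : Real.sqrt (max s 1) ^ 2 = max s 1 := Real.sq_sqrt (mpos s).le
    have e4 : Real.sqrt (max s 1) ^ 4 = (max s 1) ^ 2 := by
      rw [show 4 = 2 * 2 from rfl, pow_mul, e]
    have e3 : Real.sqrt (max s 1) ^ 3 = max s 1 * Real.sqrt (max s 1) := by
      rw [pow_succ, e]
    rw [e4, e3]

lemma ka_pos (s : ℝ) : 0 ≤ ka s := by
  obtain ⟨t, h1, h2, h3, h4⟩ := forms s
  have ht : 0 < t := by linarith
  rw [h3]
  have : 2 / t - 1 / t ^ 2 = (2 * t - 1) / t ^ 2 := by field_simp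
  rw [this]
  apply div_nonneg <;> nlinarith

lemma ka_le_one (s : ℝ) : ka s ≤ 1 := by
  obtain ⟨t, h1, h2, h3, h4⟩ := forms s
  have ht : 0 < t := by linarith
  rw [h3]
  have : 2 / t - 1 / t ^ 2 = (2 * t - 1) / t ^ 2 := by field_simp
  rw [this, div_le_one (by positivity)]
  nlinarith [sq_nonneg (t - 1)]

lemma kd_nonpos (s : ℝ) : kd s ≤ 0 := by
  obtain ⟨t, h1, h2, h3, h4⟩ := forms s
  have ht : 0 < t := by linarith
  rw [h4, sub_nonpos]
  exact one_div_le_one_div_of_le (by positivity) (pow_le_pow_right₀ h1 (by norm_num))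

/-- `κ + κ' s ≥ 0` -/
lemma ksum (s : ℝ) : 0 ≤ ka s + kd s * s := by
  rcases le_total s 1 with h | h
  · rw [ka_le h, kd_le h]; norm_num
  · obtain ⟨t, h1, h2, h3, h4⟩ := forms s
    have ht : 0 < t := by linarith
    rw [max_eq_left h] at h2
    rw [h3, h4, ← h2]
    have : 2 / t - 1 / t ^ 2 + (1 / t ^ 4 - 1 / t ^ 3) * t ^ 2 = 1 / t := by
      field_simp
      ring
    rw [this]
    positivity

lemma kbd (s : ℝ) : ka s ^ 2 * s ≤ 4 := by
  rcases le_total s 1 with h | h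
  · rw [ka_le h]; linarith
  · obtain ⟨t, h1, h2, h3, h4⟩ := forms s
    have ht : 0 < t := by linarith
    rw [max_eq_left h] at h2
    have h5 : ka s * t ≤ 2 := by
      rw [h3]
      have : (2 / t - 1 / t ^ 2) * t = 2 - 1 / t := by field_simp
      rw [this]
      have : 0 < 1 / t := by positivity
      linarith
    have h6 : 0 ≤ ka s * t := mul_nonneg (ka_pos s) ht.le
    have h7 : ka s ^ 2 * s = (ka s * t) ^ 2 := by rw [mul_pow, h2]
    rw [h7]
    nlinarith

/-- the components of the truncation -/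
noncomputable def TT (i : Fin 2) (y : Fin 2 → ℝ) : ℝ := ka (y 0 ^ 2 + y 1 ^ 2) * y i

lemma TT_cd (i : Fin 2) : ContDiff ℝ 1 (TT i) := by
  unfold TT
  refine (ka_cd.comp ?_).mul (contDiff_apply ℝ ℝ i)
  exact ((contDiff_apply ℝ ℝ (0 : Fin 2)).pow 2).add ((contDiff_apply ℝ ℝ (1 : Fin 2)).pow 2)

lemma TT_fderiv (i j : Fin 2) (y : Fin 2 → ℝ) :
    fderiv ℝ (TT i) y (Pi.single j 1) =
      ka (y 0 ^ 2 + y 1 ^ 2) * (Pi.single j (1 : ℝ) : Fin 2 → ℝ) i +
        2 * kd (y 0 ^ 2 + y 1 ^ 2) * y j * y i := by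
  have h0 : HasFDerivAt (fun y : Fin 2 → ℝ => y 0)
      (ContinuousLinearMap.proj (R := ℝ) (φ := fun _ : Fin 2 => ℝ) 0) y := hasFDerivAt_apply 0 y
  have h1 : HasFDerivAt (fun y : Fin 2 → ℝ => y 1)
      (ContinuousLinearMap.proj (R := ℝ) (φ := fun _ : Fin 2 => ℝ) 1) y := hasFDerivAt_apply 1 y
  have hi : HasFDerivAt (fun y : Fin 2 → ℝ => y i)
      (ContinuousLinearMap.proj (R := ℝ) (φ := fun _ : Fin 2 => ℝ) i) y := hasFDerivAt_apply i y
  have hq := (h0.pow 2).add (h1.pow 2)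
  have hk := ((ka_der (y 0 ^ 2 + y 1 ^ 2)).comp_hasFDerivAt y hq)
  have hm := hk.mul hi
  have : HasFDerivAt (TT i) _ y := hm
  rw [this.fderiv]
  fin_cases j
  · simp
    ring
  · simp
    ring

/-- the value of the truncated gradient -/
lemma grad_eq (i : Fin 2) (y : Fin 2 → ℝ) (U : Fin 2 → ℝ × ℝ) :
    ∑ j, fderiv ℝ (TT i) y (Pi.single j 1) • U j =
      ka (y 0 ^ 2 + y 1 ^ 2) • U i +
        (2 * kd (y 0 ^ 2 + y 1 ^ 2) * y i) • (y 0 • U 0 + y 1 • U 1) := by
  simp only [TT_fderiv, Fin.sum_univ_two]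
  fin_cases i
  · ext <;> simp <;> ring
  · ext <;> simp <;> ring

/-- the pointwise inequality, one component -/
lemma comp_ineq (y0 y1 a b : ℝ) :
    (ka (y0 ^ 2 + y1 ^ 2) * a + 2 * kd (y0 ^ 2 + y1 ^ 2) * y0 * (y0 * a + y1 * b)) ^ 2 +
      (ka (y0 ^ 2 + y1 ^ 2) * b + 2 * kd (y0 ^ 2 + y1 ^ 2) * y1 * (y0 * a + y1 * b)) ^ 2 ≤
      a ^ 2 + b ^ 2 := by
  set s := y0 ^ 2 + y1 ^ 2 with hs
  set k := ka s
  set d := kd s
  set q := y0 * a + y1 * b with hq
  have e : (k * a + 2 * d * y0 * q) ^ 2 + (k * b + 2 * d * y1 * q) ^ 2 =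
      k ^ 2 * (a ^ 2 + b ^ 2) + 4 * d * (k + d * s) * q ^ 2 := by
    rw [hs, hq]; ring
  rw [e]
  have h1 : 4 * d * (k + d * s) * q ^ 2 ≤ 0 := by
    have h2 : d * (k + d * s) ≤ 0 := mul_nonpos_of_nonpos_of_nonneg (kd_nonpos s) (ksum s)
    nlinarith [sq_nonneg q]
  have h3 : k ^ 2 ≤ 1 := by
    have := ka_le_one s
    have := ka_pos s
    nlinarith
  nlinarith [add_nonneg (sq_nonneg a) (sq_nonneg b)]

/-! ### Measurability -/

lemma mu_ac : mu ≪ volume.restrict QQ := withDensity_absolutelyContinuous _ _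

lemma QQ_sub : QQ ⊆ ⋃ k, Box k := by
  intro p hp
  obtain ⟨h1, h2⟩ := hp
  obtain ⟨n, hn⟩ := exists_nat_ge (max (1 / p.1) (max p.1 p.2))
  have a1 : 1 / p.1 ≤ n := (le_max_left _ _).trans hn
  have a2 : p.1 ≤ n := ((le_max_left _ _).trans (le_max_right _ _)).trans hn
  have a3 : p.2 ≤ n := ((le_max_right _ _).trans (le_max_right _ _)).trans hn
  refine mem_iUnion.2 ⟨n, ?_⟩
  refine ⟨⟨?_, ?_⟩, ⟨h2.le, ?_⟩⟩
  · rw [div_le_iff₀ (by positivity)]
    rw [div_le_iff₀ h1] at a1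
    nlinarith
  · linarith
  · linarith

lemma Box_meas (k : ℕ) : MeasurableSet (Box k) := measurableSet_Icc.prod measurableSet_Icc

lemma aesm_of_box {E : Type*} [TopologicalSpace E] [TopologicalSpace.PseudoMetrizableSpace E]
    {h : ℝ × ℝ → E} (hh : ∀ k, AEStronglyMeasurable h (volume.restrict (Box k))) :
    AEStronglyMeasurable h mu := by
  have h1 : AEStronglyMeasurable h (volume.restrict (⋃ k, Box k)) :=
    aestronglyMeasurable_iUnion_iff.2 hh
  exact (h1.mono_measure (Measure.restrict_mono QQ_sub le_rfl)).mono_ac mu_ac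

lemma aesm_fun {f : ℝ × ℝ → ℝ} {F : ℝ × ℝ → ℝ × ℝ} (hf : W2 f F) :
    AEStronglyMeasurable f mu := by
  refine aesm_of_box fun k => ?_
  choose h hh using fun n : ℕ => hf.app k (1 / ((n : ℝ) + 1)) (by positivity)
  refine aestronglyMeasurable_of_tendsto_ae (u := atTop) (f := h)
    (fun n => (hh n).1.continuous.aestronglyMeasurable) ?_
  refine (ae_restrict_iff' (Box_meas k)).2 (Eventually.of_forall fun p hp => ?_)
  rw [tendsto_iff_norm_sub_tendsto_zero]
  refine squeeze_zero (fun _ => norm_nonneg _) (fun n => ?_) tendsto_one_div_add_atTop_nhds_zero_nat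
  rw [Real.norm_eq_abs, abs_sub_comm]
  exact (hh n).2.1 p hp

lemma aesm_grad {f : ℝ × ℝ → ℝ} {F : ℝ × ℝ → ℝ × ℝ} (hf : W2 f F) :
    AEStronglyMeasurable F mu := aesm_of_box fun k => (hf.mem k).1

lemma aesm_av {f g : ℝ × ℝ → ℝ} {F G : ℝ × ℝ → ℝ × ℝ} (hf : W2 f F) (hg : W2 g G) :
    AEStronglyMeasurable (av f F G) mu := by
  have h1 := (aesm_fun hf).aemeasurable
  have h2 := (aesm_grad hf).aemeasurable
  have h3 := (aesm_grad hg).aemeasurable
  have : AEMeasurable (fun p : ℝ × ℝ => (![(F p).1, (F p).2, (G p).1, (G p).2, 2 * f p / p.1] :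
      Fin 5 → ℝ)) mu := by
    rw [aemeasurable_pi_iff]
    intro i
    fin_cases i
    · exact h2.fst
    · exact h2.snd
    · exact h3.fst
    · exact h3.snd
    · exact (h1.const_mul 2).div measurable_fst.aemeasurable
  exact ((WithLp.measurable_toLp 2 (Fin 5 → ℝ)).comp_aemeasurable this).aestronglyMeasurable

end TRUx

open TRUx in
theorem tru (hC : StmChain) : StmTRU := by
  intro f g F G hA
  set u : Fin 2 → ℝ × ℝ → ℝ := ![f, g] with hu
  set U : Fin 2 → ℝ × ℝ → ℝ × ℝ := ![F, G] with hU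
  have hW : ∀ i, W2 (u i) (U i) := by
    intro i
    fin_cases i
    · exact hA.wf
    · exact hA.wg
  have key := fun i : Fin 2 => hC.1 2 u U (TT i) (TT_cd i) hW
  set f' : ℝ × ℝ → ℝ := fun p => ka (f p ^ 2 + g p ^ 2) * f p with hf'
  set g' : ℝ × ℝ → ℝ := fun p => ka (f p ^ 2 + g p ^ 2) * g p with hg'
  set F' : ℝ × ℝ → ℝ × ℝ := fun p => ka (f p ^ 2 + g p ^ 2) • F p +
    (2 * kd (f p ^ 2 + g p ^ 2) * f p) • (f p • F p + g p • G p) with hF'
  set G' : ℝ × ℝ → ℝ × ℝ := fun p => ka (f p ^ 2 + g p ^ 2) • G p +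
    (2 * kd (f p ^ 2 + g p ^ 2) * g p) • (f p • F p + g p • G p) with hG'
  have wf' : W2 f' F' := by
    have := key 0
    have e : (fun p => ∑ j, fderiv ℝ (TT 0) (fun j => u j p) (Pi.single j 1) • U j p) = F' := by
      funext p
      exact grad_eq 0 (fun j => u j p) (fun j => U j p)
    rw [e] at this
    exact this
  have wg' : W2 g' G' := by
    have := key 1
    have e : (fun p => ∑ j, fderiv ℝ (TT 1) (fun j => u j p) (Pi.single j 1) • U j p) = G' := by
      funext p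
      exact grad_eq 1 (fun j => u j p) (fun j => U j p)
    rw [e] at this
    exact this
  have hpt : ∀ p, ‖av f' F' G' p‖ ≤ ‖av f F G p‖ := by
    intro p
    rw [EuclideanSpace.norm_eq, EuclideanSpace.norm_eq]
    apply Real.sqrt_le_sqrt
    rw [Fin.sum_univ_five, Fin.sum_univ_five]
    have c1 := comp_ineq (f p) (g p) (F p).1 (G p).1
    have c2 := comp_ineq (f p) (g p) (F p).2 (G p).2
    have c3 : (2 * (ka (f p ^ 2 + g p ^ 2) * f p) / p.1) ^ 2 ≤ (2 * f p / p.1) ^ 2 := by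
      have e : 2 * (ka (f p ^ 2 + g p ^ 2) * f p) / p.1 =
          ka (f p ^ 2 + g p ^ 2) * (2 * f p / p.1) := by ring
      rw [e, mul_pow]
      have h3 : ka (f p ^ 2 + g p ^ 2) ^ 2 ≤ 1 := by
        have := ka_le_one (f p ^ 2 + g p ^ 2)
        have := ka_pos (f p ^ 2 + g p ^ 2)
        nlinarith
      nlinarith [sq_nonneg (2 * f p / p.1)]
    simp only [av, hf', hF', hG', Real.norm_eq_abs, sq_abs]
    simp [Prod.fst_add, Prod.snd_add, Prod.smul_fst, Prod.smul_snd, smul_eq_mul] at c1 c2 c3 ⊢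
    nlinarith [c1, c2, c3]
  have hmeas := aesm_av wf' wg'
  have hmem : MemLp (av f' F' G') 3 mu := hA.mem.mono hmeas (Eventually.of_forall hpt)
  refine ⟨f', g', F', G', ⟨wf', wg', hmem, ?_, ?_, ?_⟩, ?_, ?_⟩
  · intro r hr
    have h := hA.bdy r hr
    simp only [hf', hg', h, ka_le le_rfl, one_mul]
  · intro p hp
    have h1 := hA.jf p hp
    have h2 := hA.jg p hp
    simp only [hf', h1, h2, neg_sq]
  · intro p hp
    have h1 := hA.jf p hp
    have h2 := hA.jg p hp
    simp only [hg', h1, h2, neg_sq, mul_neg]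
  · intro p _
    have := kbd (f p ^ 2 + g p ^ 2)
    simp only [hf', hg']
    nlinarith
  · have i1 : Integrable (fun p => ‖av f' F' G' p‖ ^ 3) mu := by
      have := hmem.integrable_norm_pow (by norm_num : (3 : ℕ) ≠ 0)
      exact this
    have i2 : Integrable (fun p => ‖av f F G p‖ ^ 3) mu := by
      have := hA.mem.integrable_norm_pow (by norm_num : (3 : ℕ) ≠ 0)
      exact this
    exact integral_mono i1 i2 fun p => pow_le_pow_left₀ (norm_nonneg _) (hpt p) 3

end Pool.Agent.T6.H20.BV
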