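import Pool.Agent.T6.H20.BV.Mow
import Pool.Agent.T6.H20.BV.Aad
import Pool.Agent.T6.H20.BV.Clk
import Pool.Agent.T6.H20.BV.Cmp
import Pool.Agent.T6.H20.BV.Tru
import Pool.Agent.T6.H20.BV.Var
import Pool.Agent.T6.H20.BV.Jin
import Pool.Agent.T6.H20.BV.Sym
import Pool.Agent.T6.H20.BV.Cov
import Pool.Agent.T6.H20.BV.Shm
import Pool.Agent.T6.H20.BV.Avs
import Pool.Agent.T6.H20.BV.Avg3
import Pool.Agent.T6.H20.BV.Mor
import Pool.Agent.T6.H20.BV.Nca
import Pool.Agent.T6.H20.BV.Ncb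

/-!
# Project BV: the non-conformal bubble for `n = 3`
-/

set_option autoImplicit false

namespace Pool.Agent.T6.H20.BV

open MeasureTheory Set Filter Topology Pool.Agent.T6.H20.BU

theorem main3 (hT : StmT3D) :
    ∃ (ω : E (2 + 1) → Fin 3 → ℝ) (A : E (2 + 1) → Fin 3 → E (2 + 1)) (τ : E 2 → Fin 3 → ℝ),
      IsBubble 2 3 ω A τ ∧ ¬ IsConformal 2 3 A := by
  obtain ⟨f, g, F, G, hmin⟩ := exi smooth lim chain (mow mor) aad clk (cmp smooth) (tru chain)
  have h1 : EqSB f g F G := var chain f g F G hmin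
  have h2 : EqB f g F G := sym chain unq jw jmu f g F G hmin.1 h1
  have h3 : EqA f g F G := trt chain f g F G hmin.1 h2
  refine ⟨om f g, dm f F G, fun y => om f g (bd y), ?_, ?_⟩
  · exact bubble3 cov (avg mor cov shm avs lim) hT hmin.1 hmin.2.1 h3
  · exact not_conf cov (nca chain smooth) (ncb cont) hmin.1 h3

end Pool.Agent.T6.H20.BV
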