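import Pool.Agent.T6.H20.BV.Mor

/-! Module MOW of project BV (helper20), written by helper55: Morrey's inequality for `W2`. -/

set_option autoImplicit false

namespace Pool.Agent.T6.H20.BV

open MeasureTheory Set Filter Topology Pool.Agent.T6.H20.BU

namespace ModMOW

theorem eL_eq (k : ℕ) (F : ℝ × ℝ → ℝ × ℝ) (hF : MemLp F 3 (volume.restrict (Box k))) :
    eLpNorm F 3 (volume.restrict (Box k)) =
      ENNReal.ofReal ((∫ x in Box k, ‖F x‖ ^ 3) ^ ((1 : ℝ) / 3)) := by
  rw [hF.eLpNorm_eq_integral_rpow_norm (by norm_num) (by norm_num)]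
  congr 1
  have e : ((3 : ENNReal).toReal) = 3 := by norm_num
  rw [e]
  congr 1
  · apply integral_congr_ae
    refine Eventually.of_forall fun x => ?_
    show ‖F x‖ ^ (3 : ℝ) = ‖F x‖ ^ 3
    rw [← Real.rpow_natCast]
    norm_num
  · norm_num

theorem gr_memLp (k : ℕ) (h : ℝ × ℝ → ℝ) (hh : ContDiff ℝ 1 h) :
    MemLp (gr h) 3 (volume.restrict (Box k)) := by
  have : IsFiniteMeasure (volume.restrict (Box k)) := ⟨by
    rw [Measure.restrict_apply_univ]; exact ModMOR.box_vol_lt k⟩
  obtain ⟨M, hM⟩ := (ModMOR.box_compact k).exists_bound_of_continuousOn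
    (ModMOR.gr_cont hh).continuousOn
  exact MemLp.of_bound (ModMOR.gr_cont hh).aestronglyMeasurable M (by
      rw [ae_restrict_iff' (ModMOR.box_meas k)]
      exact Eventually.of_forall hM)

end ModMOW

open ModMOW in
theorem mow (hM : StmMOR) : StmMOW := by
  intro k
  obtain ⟨C, hC, H⟩ := hM k
  refine ⟨C, hC, ?_⟩
  intro f F hf p hp q hq
  set A : ℝ := (∫ x in Box k, ‖F x‖ ^ 3) ^ ((1 : ℝ) / 3) with hA
  set D : ℝ := dist p q ^ ((1 : ℝ) / 3) with hD
  have hD0 : 0 ≤ D := Real.rpow_nonneg dist_nonneg _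
  have hA0 : 0 ≤ A := Real.rpow_nonneg (integral_nonneg fun x => by positivity) _
  have key : ∀ ε : ℝ, 0 < ε → |f p - f q| ≤ 2 * ε + C * (A + ε) * D := by
    intro ε hε
    obtain ⟨h, hh, h1, h2⟩ := hf.app k ε hε
    have h3 := (H h hh).1 p hp q hq
    have h4 : (∫ x in Box k, ‖gr h x‖ ^ 3) ^ ((1 : ℝ) / 3) ≤ A + ε := by
      have e1 := eL_eq k (gr h) (gr_memLp k h hh)
      have e2 := eL_eq k F (hf.mem k)
      have e3 : eLpNorm (gr h) 3 (volume.restrict (Box k)) ≤
          eLpNorm F 3 (volume.restrict (Box k)) + ENNReal.ofReal ε := by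
        have e4 : gr h = F - (fun p => F p - gr h p) := by
          ext x <;> simp
        calc eLpNorm (gr h) 3 (volume.restrict (Box k))
            = eLpNorm (F - (fun p => F p - gr h p)) 3 (volume.restrict (Box k)) := by rw [← e4]
          _ ≤ eLpNorm F 3 (volume.restrict (Box k)) +
              eLpNorm (fun p => F p - gr h p) 3 (volume.restrict (Box k)) := by
              apply eLpNorm_sub_le (hf.mem k).1
                ((hf.mem k).1.sub (gr_memLp k h hh).1) (by norm_num)
          _ ≤ _ := by gcongr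
      rw [e1, e2, ← ENNReal.ofReal_add hA0 hε.le] at e3
      exact (ENNReal.ofReal_le_ofReal_iff (by positivity)).1 e3
    have h5 : |f p - f q| ≤ |f p - h p| + |h p - h q| + |f q - h q| := by
      have : f p - f q = (f p - h p) + (h p - h q) - (f q - h q) := by ring
      rw [this]
      calc _ ≤ |(f p - h p) + (h p - h q)| + |f q - h q| := abs_sub _ _
        _ ≤ _ := by gcongr; exact abs_add_le _ _
    have h6 : C * (∫ x in Box k, ‖gr h x‖ ^ 3) ^ ((1 : ℝ) / 3) * D ≤ C * (A + ε) * D := by
      gcongr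
    have h7 := h1 p hp
    have h8 := h1 q hq
    linarith
  apply le_of_forall_pos_le_add
  intro δ hδ
  have hpos : 0 < 2 + C * D := by positivity
  have := key (δ / (2 + C * D)) (by positivity)
  have e : 2 * (δ / (2 + C * D)) + C * (A + δ / (2 + C * D)) * D = C * A * D + δ := by
    field_simp
    ring
  linarith

end Pool.Agent.T6.H20.BV
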