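import Pool.Agent.T6.H20.BV.Chn
import Pool.Agent.FinVol2.WE

/-!
# Project BV, module NCB (helper43)
-/

set_option autoImplicit false
set_option linter.unusedSimpArgs false

namespace Pool.Agent.T6.H20.BV.ModNCB

open MeasureTheory Set Filter Topology Pool.Agent.T6.H20.BU Pool.Agent.T6.H20.BV
open scoped ContDiff ComplexConjugate

/-! ### The algebra -/

theorem algebra_zero (r f a A b B c : ℂ) (hr : r ≠ 0)
    (h1 : r ^ 2 * (a * A) = 4 * f ^ 2)
    (h2 : r * (a * A) + r ^ 2 * (b * A) = 4 * f * a)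
    (h2' : r * (a * A) + r ^ 2 * (B * a) = 4 * f * A)
    (d1 : a * A + r * (b * A + a * B) + 2 * r * (b * A) + r ^ 2 * (c * A + b * B) =
      2 * (a + A) * a + 4 * f * b)
    (d2 : r * (b * A - a * B) + r ^ 2 * (c * A - b * B) = 2 * (a - A) * a + 4 * f * b) :
    a * A = 0 := by
  have V : 2 * r * (a * B) + 2 * r * (b * A) + 2 * r ^ 2 * (b * B) = 3 * (a * A) := by
    linear_combination d1 - d2
  have key : 3 * r ^ 2 * (a * A) ^ 2 = 0 := by
    have e1 : r ^ 2 * (b * A) = 4 * f * a - r * (a * A) := by linear_combination h2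
    have e2 : r ^ 2 * (B * a) = 4 * f * A - r * (a * A) := by linear_combination h2'
    have V2 : r ^ 2 * (a * A) * (2 * r * (a * B) + 2 * r * (b * A) + 2 * r ^ 2 * (b * B)) =
        r ^ 2 * (a * A) * (3 * (a * A)) := by rw [V]
    have V3 : r ^ 2 * (a * A) * (2 * r * (a * B) + 2 * r * (b * A) + 2 * r ^ 2 * (b * B)) =
        2 * r * (a * A) * (r ^ 2 * (B * a)) + 2 * r * (a * A) * (r ^ 2 * (b * A)) +
        2 * (r ^ 2 * (b * A)) * (r ^ 2 * (B * a)) := by ring
    rw [V3, e1, e2] at V2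
    linear_combination V2 + (8 * (a * A)) * h1
  have h3 : (3 : ℂ) * r ^ 2 ≠ 0 := mul_ne_zero (by norm_num) (pow_ne_zero _ hr)
  have := (mul_eq_zero.1 key).resolve_left h3
  exact pow_eq_zero_iff (two_ne_zero) |>.1 this

/-- directional derivative along a real line -/
def DD (G : ℂ → ℂ) (w h d : ℂ) : Prop := HasDerivAt (fun t : ℝ => G (w + (t : ℂ) * h)) d 0

theorem line_hasDeriv (w h : ℂ) : HasDerivAt (fun t : ℝ => w + (t : ℂ) * h) h 0 := by
  have h1 : HasDerivAt (fun t : ℝ => (t : ℂ)) 1 0 := Complex.ofRealCLM.hasDerivAt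
  simpa using (h1.mul_const h).const_add w

theorem DD_zero {U : Set ℂ} (hU : IsOpen U) {G : ℂ → ℂ} (hG : ∀ w ∈ U, G w = 0) {w : ℂ}
    (hw : w ∈ U) {h d : ℂ} (hd : DD G w h d) : d = 0 := by
  have hc : ContinuousAt (fun t : ℝ => w + (t : ℂ) * h) 0 := (line_hasDeriv w h).continuousAt
  have h1 : ∀ᶠ t : ℝ in 𝓝 0, w + (t : ℂ) * h ∈ U :=
    hc.eventually (by simpa using hU.mem_nhds hw)
  have h2 : (fun t : ℝ => G (w + (t : ℂ) * h)) =ᶠ[𝓝 0] fun _ => 0 := by
    filter_upwards [h1] with t ht using hG _ ht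
  exact (hd.congr_of_eventuallyEq h2.symm).unique (hasDerivAt_const _ _)

theorem DD_mul {G H : ℂ → ℂ} {w h d e : ℂ} (h1 : DD G w h d) (h2 : DD H w h e) :
    DD (fun w => G w * H w) w h (d * H w + G w * e) := by
  have := HasDerivAt.mul h1 h2
  simp only [Complex.ofReal_zero, zero_mul, add_zero] at this
  exact this

theorem DD_add {G H : ℂ → ℂ} {w h d e : ℂ} (h1 : DD G w h d) (h2 : DD H w h e) :
    DD (fun w => G w + H w) w h (d + e) := HasDerivAt.add h1 h2

theorem DD_sub {G H : ℂ → ℂ} {w h d e : ℂ} (h1 : DD G w h d) (h2 : DD H w h e) :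
    DD (fun w => G w - H w) w h (d - e) := HasDerivAt.sub h1 h2

theorem DD_const_mul {G : ℂ → ℂ} {w h d : ℂ} (c : ℂ) (h1 : DD G w h d) :
    DD (fun w => c * G w) w h (c * d) := HasDerivAt.const_mul c h1

theorem DD_holo {G : ℂ → ℂ} {w h d : ℂ} (h1 : HasDerivAt G d w) : DD G w h (d * h) := by
  have h2 := line_hasDeriv w h
  have h3 : HasDerivAt G d ((fun t : ℝ => w + (t : ℂ) * h) 0) := by simpa using h1
  exact h3.comp 0 h2

theorem DD_conj {G : ℂ → ℂ} {w h d : ℂ} (h1 : DD G w h d) :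
    DD (fun w => conj (G w)) w h (conj d) := by
  exact (Complex.conjCLE : ℂ ≃L[ℝ] ℂ).toContinuousLinearMap.hasFDerivAt.comp_hasDerivAt 0 h1

theorem DD_re {w h : ℂ} : DD (fun w => (w.re : ℂ)) w h (h.re : ℂ) := by
  exact (Complex.ofRealCLM.comp Complex.reCLM).hasFDerivAt.comp_hasDerivAt 0 (line_hasDeriv w h)

/-- the point argument -/
theorem point_zero (U : Set ℂ) (hU : IsOpen U) (v : ℂ → ℂ) (f : ℂ → ℝ)
    (hre : ∀ w ∈ U, 0 < w.re) (hv : DifferentiableOn ℂ v U)
    (hf : ∀ w ∈ U, ∀ h : ℂ, DD (fun w => (f w : ℂ)) w h (((v w * h).re : ℝ) : ℂ))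
    (hE : ∀ w ∈ U, w.re ^ 2 * ‖v w‖ ^ 2 = 4 * f w ^ 2) : ∀ w ∈ U, v w = 0 := by
  -- complex form of the identity
  have hE' : ∀ w ∈ U, (w.re : ℂ) * (w.re : ℂ) * (v w * conj (v w)) - 4 * ((f w : ℂ) * (f w : ℂ)) = 0 := by
    intro w hw
    have h1 := hE w hw
    rw [Complex.mul_conj, Complex.normSq_eq_norm_sq]
    have h2 : ((w.re ^ 2 * ‖v w‖ ^ 2 : ℝ) : ℂ) = ((4 * f w ^ 2 : ℝ) : ℂ) := by rw [h1]
    push_cast at h2 ⊢
    linear_combination h2
  have hvd : ∀ w ∈ U, HasDerivAt v (deriv v w) w := fun w hw =>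
    (hv.differentiableAt (hU.mem_nhds hw)).hasDerivAt
  have hv' : DifferentiableOn ℂ (deriv v) U := hv.deriv hU
  have hvd' : ∀ w ∈ U, HasDerivAt (deriv v) (deriv (deriv v) w) w := fun w hw =>
    (hv'.differentiableAt (hU.mem_nhds hw)).hasDerivAt
  have hr1 : ∀ z : ℂ, (((z * 1).re : ℝ) : ℂ) = (z + conj z) / 2 := by
    intro z
    rw [mul_one, Complex.add_conj]; push_cast; ring
  have hrI : ∀ z : ℂ, (((z * Complex.I).re : ℝ) : ℂ) = Complex.I * ((z - conj z) / 2) := by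
    intro z
    rw [Complex.sub_conj]; push_cast
    simp only [Complex.mul_re, Complex.I_re, mul_zero, Complex.I_im, mul_one, zero_sub]
    push_cast
    linear_combination (-(z.im : ℂ)) * Complex.I_mul_I
  -- the first derivative
  have h2 : ∀ w ∈ U, (w.re : ℂ) * (v w * conj (v w)) +
      (w.re : ℂ) * (w.re : ℂ) * (deriv v w * conj (v w)) - 4 * ((f w : ℂ) * v w) = 0 := by
    intro w hw
    have D : ∀ h : ℂ, _ := fun h => DD_zero hU hE' hw (DD_sub (DD_mul (DD_mul DD_re DD_re)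
      (DD_mul (DD_holo (hvd w hw)) (DD_conj (DD_holo (hvd w hw)))))
      (DD_const_mul 4 (DD_mul (hf w hw h) (hf w hw h))))
    have D1 := D 1
    have D2 := D Complex.I
    rw [hr1] at D1
    rw [hrI] at D2
    simp only [map_mul, Complex.conj_I, map_one, mul_one, Complex.one_re, Complex.ofReal_one,
      Complex.I_re, Complex.ofReal_zero] at D1 D2
    have D3 : Complex.I * ((w.re : ℂ) * (w.re : ℂ) * (deriv v w * conj (v w) -
        v w * conj (deriv v w)) - 4 * ((v w - conj (v w)) * (f w : ℂ))) = 0 := by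
      linear_combination D2
    have D4 := (mul_eq_zero.1 D3).resolve_left Complex.I_ne_zero
    linear_combination (1 / 2 : ℂ) * D1 + (1 / 2 : ℂ) * D4
  -- the second derivative
  intro w hw
  have D : ∀ h : ℂ, _ := fun h => DD_zero hU h2 hw (DD_sub (DD_add
    (DD_mul DD_re (DD_mul (DD_holo (hvd w hw)) (DD_conj (DD_holo (hvd w hw)))))
    (DD_mul (DD_mul DD_re DD_re) (DD_mul (DD_holo (hvd' w hw)) (DD_conj (DD_holo (hvd w hw))))))
    (DD_const_mul 4 (DD_mul (hf w hw h) (DD_holo (hvd w hw)))))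
  have D1 := D 1
  have D2 := D Complex.I
  rw [hr1] at D1
  rw [hrI] at D2
  simp only [map_mul, Complex.conj_I, map_one, mul_one, Complex.one_re, Complex.ofReal_one,
    Complex.I_re, Complex.ofReal_zero] at D1 D2
  have hr : (w.re : ℂ) ≠ 0 := by exact_mod_cast (hre w hw).ne'
  have e2 := h2 w hw
  have e2' := congrArg (fun z : ℂ => conj z) e2
  simp only [map_add, map_sub, map_mul, Complex.conj_ofReal, Complex.conj_conj, map_zero,
    map_ofNat] at e2'
  have D3 : Complex.I * ((w.re : ℂ) * (deriv v w * conj (v w) - v w * conj (deriv v w)) +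
      (w.re : ℂ) ^ 2 * (deriv (deriv v) w * conj (v w) - deriv v w * conj (deriv v w)) -
      (2 * (v w - conj (v w)) * v w + 4 * (f w : ℂ) * deriv v w)) = 0 := by
    linear_combination D2
  have D4 := (mul_eq_zero.1 D3).resolve_left Complex.I_ne_zero
  have hfin := algebra_zero (w.re : ℂ) (f w : ℂ) (v w) (conj (v w)) (deriv v w)
    (conj (deriv v w)) (deriv (deriv v) w) hr (by linear_combination hE' w hw)
    (by linear_combination e2) (by linear_combination e2') (by linear_combination D1)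
    (by linear_combination D4)
  rw [Complex.mul_conj, Complex.ofReal_eq_zero, Complex.normSq_eq_zero] at hfin
  exact hfin

/-! ### Weyl's lemma in the plane -/

/-- `r + i z` -/
noncomputable def cc (p : ℝ × ℝ) : ℂ := ⟨p.1, p.2⟩

@[simp] theorem cc_re (p : ℝ × ℝ) : (cc p).re = p.1 := rfl
@[simp] theorem cc_im (p : ℝ × ℝ) : (cc p).im = p.2 := rfl

/-- `cc` as a linear map -/
noncomputable def ccL : ℝ × ℝ →L[ℝ] ℂ := Complex.equivRealProdCLM.symm.toContinuousLinearMap

theorem ccL_apply (p : ℝ × ℝ) : ccL p = cc p := rfl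

theorem continuous_cc : Continuous cc := ccL.continuous

/-- the disc in the plane -/
def Dk (w₀ : ℂ) (δ : ℝ) : Set (ℝ × ℝ) := {p | cc p ∈ Metric.ball w₀ δ}

theorem isOpen_Dk (w₀ : ℂ) (δ : ℝ) : IsOpen (Dk w₀ δ) :=
  Metric.isOpen_ball.preimage continuous_cc

/-- the coordinates -/
noncomputable def TT (w₀ : ℂ) (x : Fin 1 → ℂ) : ℝ × ℝ := ((x 0 + w₀).re, (x 0 + w₀).im)

theorem cc_TT (w₀ : ℂ) (x : Fin 1 → ℂ) : cc (TT w₀ x) = x 0 + w₀ := rfl

theorem TT_mp (w₀ : ℂ) : MeasurePreserving (TT w₀) volume volume := by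
  have h1 := volume_preserving_funUnique (Fin 1) ℂ
  have h2 := measurePreserving_add_right (volume : Measure ℂ) w₀
  have h3 := Complex.volume_preserving_equiv_real_prod
  exact h3.comp (h2.comp h1)

theorem TT_emb (w₀ : ℂ) : MeasurableEmbedding (TT w₀) := by
  have h1 := (MeasurableEquiv.funUnique (Fin 1) ℂ).measurableEmbedding
  have h2 := (MeasurableEquiv.addRight w₀).measurableEmbedding
  have h3 := Complex.measurableEquivRealProd.measurableEmbedding
  exact h3.comp (h2.comp h1)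

theorem TT_pre (w₀ : ℂ) (δ : ℝ) (hδ : 0 < δ) : TT w₀ ⁻¹' (Dk w₀ δ) = Metric.ball 0 δ := by
  ext x
  simp only [mem_preimage, Dk, mem_ofPred_eq, cc_TT, Metric.mem_ball, dist_eq_norm,
    add_sub_cancel_right, sub_zero]
  rw [pi_norm_lt_iff hδ]
  constructor
  · intro h i
    rw [Fin.eq_zero i]; exact h
  · intro h; exact h 0

/-- the inverse coordinates -/
noncomputable def SS (w₀ : ℂ) (p : ℝ × ℝ) : Fin 1 → ℂ := fun _ => cc p - w₀

theorem SS_TT (w₀ : ℂ) (x : Fin 1 → ℂ) : SS w₀ (TT w₀ x) = x := by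
  funext i
  rw [Fin.eq_zero i]
  simp [SS, cc_TT]

theorem SS_hasFDerivAt (w₀ : ℂ) (p : ℝ × ℝ) :
    HasFDerivAt (SS w₀) (ContinuousLinearMap.pi fun _ => ccL) p := by
  rw [hasFDerivAt_pi]
  intro i
  exact ccL.hasFDerivAt.sub_const w₀

theorem SS_contDiff (w₀ : ℂ) : ContDiff ℝ ∞ (SS w₀) := by
  rw [contDiff_pi]
  intro i
  exact ccL.contDiff.sub contDiff_const

theorem weylR (w₀ : ℂ) (δ : ℝ) (hδ : 0 < δ) (u : ℝ × ℝ → ℂ) (hu : IntegrableOn u (Dk w₀ δ))
    (h : ∀ ζ : ℝ × ℝ → ℝ, ContDiff ℝ ∞ ζ → HasCompactSupport ζ → tsupport ζ ⊆ Dk w₀ δ →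
      ∫ p in Dk w₀ δ, u p * (((gr ζ p).1 : ℂ) + Complex.I * ((gr ζ p).2 : ℂ)) = 0) :
    ∃ v : ℂ → ℂ, DifferentiableOn ℂ v (Metric.ball w₀ δ) ∧
      ∀ᵐ p ∂(volume.restrict (Dk w₀ δ)), u p = v (cc p) := by
  have hu' : IntegrableOn (fun x => u (TT w₀ x)) (Metric.ball 0 δ) := by
    rw [← TT_pre w₀ δ hδ]
    exact ((TT_mp w₀).integrableOn_comp_preimage (TT_emb w₀)).2 hu
  obtain ⟨V, hV, hVu⟩ := Pool.Agent.FinVol2.WE.weyl δ (fun x => u (TT w₀ x)) hu' (by
    intro Φ hΦ hΦc hΦs i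
    rw [Fin.eq_zero i]
    set ζ₁ : ℝ × ℝ → ℝ := fun p => (Φ (SS w₀ p)).re with hζ₁
    set ζ₂ : ℝ × ℝ → ℝ := fun p => (Φ (SS w₀ p)).im with hζ₂
    have hcomp : ContDiff ℝ ∞ (fun p => Φ (SS w₀ p)) := hΦ.comp (SS_contDiff w₀)
    have c1 : ContDiff ℝ ∞ ζ₁ := Complex.reCLM.contDiff.comp hcomp
    have c2 : ContDiff ℝ ∞ ζ₂ := Complex.imCLM.contDiff.comp hcomp
    have hclosed : IsCompact ((TT w₀) '' (tsupport Φ)) := by
      refine hΦc.isCompact.image ?_
      unfold TT
      fun_prop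
    have hzero : ∀ p, p ∉ (TT w₀) '' (tsupport Φ) → Φ (SS w₀ p) = 0 := by
      intro p hp
      refine image_eq_zero_of_notMem_tsupport fun h => hp ⟨SS w₀ p, h, ?_⟩
      unfold TT SS
      simp [cc]
    have hsub : (TT w₀) '' (tsupport Φ) ⊆ Dk w₀ δ := by
      rintro _ ⟨x, hx, rfl⟩
      have := hΦs hx
      rwa [← TT_pre w₀ δ hδ] at this
    have k1 : HasCompactSupport ζ₁ := HasCompactSupport.intro hclosed fun p hp => by
      simp [hζ₁, hzero p hp]
    have k2 : HasCompactSupport ζ₂ := HasCompactSupport.intro hclosed fun p hp => by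
      simp [hζ₂, hzero p hp]
    have s1 : tsupport ζ₁ ⊆ Dk w₀ δ := by
      refine (closure_minimal ?_ hclosed.isClosed).trans hsub
      intro p hp
      by_contra h1
      exact hp (by simp [hζ₁, hzero p h1])
    have s2 : tsupport ζ₂ ⊆ Dk w₀ δ := by
      refine (closure_minimal ?_ hclosed.isClosed).trans hsub
      intro p hp
      by_contra h1
      exact hp (by simp [hζ₂, hzero p h1])
    have hfd : ∀ p v, fderiv ℝ (fun p => Φ (SS w₀ p)) p v = fderiv ℝ Φ (SS w₀ p) (fun _ => cc v) := by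
      intro p v
      have h1 := (hΦ.differentiable (by simp) (SS w₀ p)).hasFDerivAt.comp p (SS_hasFDerivAt w₀ p)
      have h2 : fderiv ℝ (fun p => Φ (SS w₀ p)) p = _ := h1.fderiv
      rw [h2]
      rfl
    have hd1 : ∀ p v, fderiv ℝ ζ₁ p v = (fderiv ℝ Φ (SS w₀ p) (fun _ => cc v)).re := by
      intro p v
      rw [← hfd]
      have h1 := Complex.reCLM.hasFDerivAt.comp p
        (hcomp.differentiable (by simp) p).hasFDerivAt
      have h2 : fderiv ℝ ζ₁ p = _ := h1.fderiv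
      rw [h2]
      rfl
    have hd2 : ∀ p v, fderiv ℝ ζ₂ p v = (fderiv ℝ Φ (SS w₀ p) (fun _ => cc v)).im := by
      intro p v
      rw [← hfd]
      have h1 := Complex.imCLM.hasFDerivAt.comp p
        (hcomp.differentiable (by simp) p).hasFDerivAt
      have h2 : fderiv ℝ ζ₂ p = _ := h1.fderiv
      rw [h2]
      rfl
    set A : (ℝ × ℝ → ℝ) → ℝ × ℝ → ℂ := fun ζ p =>
      ((gr ζ p).1 : ℂ) + Complex.I * ((gr ζ p).2 : ℂ) with hA
    have hdz : ∀ x : Fin 1 → ℂ, Pool.Agent.FinVol.dzb 0 Φ x =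
        (1 / 2) * (A ζ₁ (TT w₀ x) + Complex.I * A ζ₂ (TT w₀ x)) := by
      intro x
      have e1 : (Pool.Agent.FinVol.e 0 : Fin 1 → ℂ) = fun _ => cc (1, 0) := by
        funext i
        rw [Fin.eq_zero i]
        simp only [Pool.Agent.FinVol.e, Pi.single_eq_same]
        apply Complex.ext <;> simp
      have e2 : (Complex.I • Pool.Agent.FinVol.e 0 : Fin 1 → ℂ) = fun _ => cc (0, 1) := by
        funext i
        rw [Fin.eq_zero i]
        simp only [Pool.Agent.FinVol.e, Pi.smul_apply, Pi.single_eq_same]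
        apply Complex.ext <;> simp
      have r1 := Complex.re_add_im (fderiv ℝ Φ x (fun _ => cc (1, 0)))
      have r2 := Complex.re_add_im (fderiv ℝ Φ x (fun _ => cc (0, 1)))
      simp only [Pool.Agent.FinVol.dzb, hA, gr, hd1, hd2, SS_TT]
      rw [e2, e1, ← r1, ← r2]
      simp only [Complex.add_re, Complex.add_im, Complex.ofReal_re, Complex.ofReal_im,
        Complex.mul_re, Complex.mul_im, Complex.I_re, Complex.I_im, mul_zero, mul_one, zero_mul,
        sub_zero, add_zero, zero_add]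
      ring
    have hmain : ∫ x in Metric.ball 0 δ, u (TT w₀ x) * Pool.Agent.FinVol.dzb 0 Φ x =
        ∫ p in Dk w₀ δ, u p * ((1 / 2) * (A ζ₁ p + Complex.I * A ζ₂ p)) := by
      rw [← (TT_mp w₀).setIntegral_preimage_emb (TT_emb w₀), TT_pre w₀ δ hδ]
      simp only [hdz]
    rw [hmain]
    have hcA : ∀ ζ : ℝ × ℝ → ℝ, ContDiff ℝ ∞ ζ → HasCompactSupport ζ →
        IntegrableOn (fun p => u p * A ζ p) (Dk w₀ δ) := by
      intro ζ hζ hζc
      have g1 := continuous_gr (hζ.of_le (by simp))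
      have g2 : Continuous (A ζ) :=
        (Complex.continuous_ofReal.comp (continuous_fst.comp g1)).add
          (continuous_const.mul (Complex.continuous_ofReal.comp (continuous_snd.comp g1)))
      have g3 : HasCompactSupport (A ζ) := by
        refine HasCompactSupport.intro hζc.isCompact fun p hp => ?_
        have : fderiv ℝ ζ p = 0 := by
          by_contra h
          exact hp (support_fderiv_subset ℝ h)
        simp [hA, gr, this]
      obtain ⟨C, hC⟩ := g2.bounded_above_of_compact_support g3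
      exact Integrable.mul_bdd (c := C) hu g2.aestronglyMeasurable (Eventually.of_forall hC)
    have hsplit : ∀ p, u p * ((1 / 2) * (A ζ₁ p + Complex.I * A ζ₂ p)) =
        (1 / 2) * (u p * A ζ₁ p) + (Complex.I / 2) * (u p * A ζ₂ p) := fun p => by ring
    simp only [hsplit]
    rw [integral_add ((hcA ζ₁ c1 k1).const_mul _) ((hcA ζ₂ c2 k2).const_mul _),
      integral_const_mul, integral_const_mul, h ζ₁ c1 k1 s1, h ζ₂ c2 k2 s2]
    simp)
  refine ⟨fun w => V (fun _ => w - w₀), ?_, ?_⟩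
  · intro w hw
    have h1 : (fun _ => w - w₀ : Fin 1 → ℂ) ∈ Metric.ball (0 : Fin 1 → ℂ) δ := by
      rw [mem_ball_zero_iff, pi_norm_lt_iff hδ]
      intro i
      simpa [dist_eq_norm] using hw
    have h2 := (hV _ h1).differentiableAt
    refine (DifferentiableAt.comp w h2 ?_).differentiableWithinAt
    rw [differentiableAt_pi]
    intro i
    fun_prop
  · rw [← (TT_mp w₀).restrict_preimage_emb (TT_emb w₀) (Dk w₀ δ) |>.map_eq, TT_pre w₀ δ hδ,
      (TT_emb w₀).ae_map_iff]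
    filter_upwards [hVu] with x hx
    rw [hx]
    congr 1
    funext i
    rw [Fin.eq_zero i, cc_TT]
    ring

theorem DD_congr {U : Set ℂ} (hU : IsOpen U) {G H : ℂ → ℂ} (hG : ∀ w ∈ U, G w = H w) {w : ℂ}
    (hw : w ∈ U) {h d : ℂ} (hd : DD G w h d) : DD H w h d := by
  have hc : ContinuousAt (fun t : ℝ => w + (t : ℂ) * h) 0 := (line_hasDeriv w h).continuousAt
  have h1 : ∀ᶠ t : ℝ in 𝓝 0, w + (t : ℂ) * h ∈ U :=
    hc.eventually (by simpa using hU.mem_nhds hw)
  have h2 : (fun t : ℝ => H (w + (t : ℂ) * h)) =ᶠ[𝓝 0] fun t : ℝ => G (w + (t : ℂ) * h) := by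
    filter_upwards [h1] with t ht using (hG _ ht).symm
  exact hd.congr_of_eventuallyEq h2

/-- a real holomorphic function has the derivative `0` -/
theorem real_deriv_zero {U : Set ℂ} (hU : IsOpen U) {v : ℂ → ℂ} (hv : DifferentiableOn ℂ v U)
    (hr : ∀ w ∈ U, (v w).im = 0) : ∀ w ∈ U, HasDerivAt v 0 w := by
  intro w hw
  have h1 : HasDerivAt v (deriv v w) w := (hv.differentiableAt (hU.mem_nhds hw)).hasDerivAt
  have h2 : ∀ w ∈ U, v w - conj (v w) = 0 := by
    intro w hw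
    rw [Complex.conj_eq_iff_im.2 (hr w hw), sub_self]
  have D : ∀ h : ℂ, _ := fun h => DD_zero hU h2 hw
    (DD_sub (DD_holo (h := h) h1) (DD_conj (DD_holo (h := h) h1)))
  have D1 := D 1
  have D2 := D Complex.I
  simp only [map_mul, Complex.conj_I, mul_one] at D1 D2
  have D3 : Complex.I * (deriv v w + conj (deriv v w)) = 0 := by linear_combination D2
  have D4 := (mul_eq_zero.1 D3).resolve_left Complex.I_ne_zero
  have D5 : deriv v w = 0 := by linear_combination (1 / 2 : ℂ) * D1 + (1 / 2 : ℂ) * D4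
  rw [D5] at h1
  exact h1

theorem gr_support {ζ : ℝ × ℝ → ℝ} {p : ℝ × ℝ} (hp : p ∉ tsupport ζ) : gr ζ p = 0 := by
  have : fderiv ℝ ζ p = 0 := by
    by_contra h
    exact hp (support_fderiv_subset ℝ h)
  simp [gr, this]

theorem compact_closedDisc (w₀ : ℂ) (δ : ℝ) : IsCompact {p : ℝ × ℝ | cc p ∈ Metric.closedBall w₀ δ} := by
  have h1 : {p : ℝ × ℝ | cc p ∈ Metric.closedBall w₀ δ} =
      Complex.equivRealProdCLM '' (Metric.closedBall w₀ δ) := by
    ext p
    constructor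
    · intro h; exact ⟨cc p, h, rfl⟩
    · rintro ⟨w, hw, rfl⟩; exact hw
  rw [h1]
  exact (isCompact_closedBall _ _).image Complex.equivRealProdCLM.continuous

theorem disc_sub (p₀ : ℝ × ℝ) (δ : ℝ) (h1 : δ < p₀.1) (h2 : δ < p₀.2) :
    {p : ℝ × ℝ | cc p ∈ Metric.closedBall (cc p₀) δ} ⊆ QQ := by
  intro p hp
  have hp' : ‖cc p - cc p₀‖ ≤ δ := by
    rw [← dist_eq_norm]; exact hp
  have e1 := (Complex.abs_re_le_norm (cc p - cc p₀)).trans hp'
  have e2 := (Complex.abs_im_le_norm (cc p - cc p₀)).trans hp'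
  simp only [Complex.sub_re, Complex.sub_im, cc_re, cc_im] at e1 e2
  rw [abs_le] at e1 e2
  constructor
  · show 0 < p.1
    linarith
  · show 0 < p.2
    linarith

theorem two_le_top : (1 + 1 : WithTop ℕ∞) ≤ ∞ := by
  have h : ((2 : ℕ∞) : WithTop ℕ∞) ≤ ((⊤ : ℕ∞) : WithTop ℕ∞) := WithTop.coe_le_coe.2 le_top
  exact h

/-- mixed derivatives -/
theorem mixed {ζ : ℝ × ℝ → ℝ} (hζ : ContDiff ℝ ∞ ζ) (p : ℝ × ℝ) :
    (gr (fun p => (gr ζ p).2) p).1 = (gr (fun p => (gr ζ p).1) p).2 := by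
  have h2 : ContDiff ℝ 1 (fderiv ℝ ζ) := hζ.fderiv_right two_le_top
  have h3 : HasFDerivAt (fderiv ℝ ζ) (fderiv ℝ (fderiv ℝ ζ) p) p :=
    (h2.differentiable (by norm_num) p).hasFDerivAt
  have h4 : ∀ v w : ℝ × ℝ, fderiv ℝ (fun p => fderiv ℝ ζ p v) p w =
      fderiv ℝ (fderiv ℝ ζ) p w v := by
    intro v w
    have h5 := h3.clm_apply (hasFDerivAt_const v p)
    rw [h5.fderiv]
    simp
  have h6 : IsSymmSndFDerivAt ℝ ζ p := by
    refine (hζ.contDiffAt).isSymmSndFDerivAt ?_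
    rw [minSmoothness_of_isRCLikeNormedField]
    exact two_le_top
  simp only [gr]
  rw [h4, h4]
  exact h6 _ _

theorem gr_contDiff {ζ : ℝ × ℝ → ℝ} (hζ : ContDiff ℝ ∞ ζ) :
    ContDiff ℝ 1 (fun p => (gr ζ p).1) ∧ ContDiff ℝ 1 (fun p => (gr ζ p).2) := by
  have h2 : ContDiff ℝ 1 (fderiv ℝ ζ) := hζ.fderiv_right two_le_top
  exact ⟨h2.clm_apply contDiff_const, h2.clm_apply contDiff_const⟩

theorem gr_tsupport1 {ζ : ℝ × ℝ → ℝ} : tsupport (fun p => (gr ζ p).1) ⊆ tsupport ζ := by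
  refine closure_minimal ?_ (isClosed_tsupport _)
  intro p hp
  by_contra h
  exact hp (by simp [gr_support h])

theorem gr_tsupport2 {ζ : ℝ × ℝ → ℝ} : tsupport (fun p => (gr ζ p).2) ⊆ tsupport ζ := by
  refine closure_minimal ?_ (isClosed_tsupport _)
  intro p hp
  by_contra h
  exact hp (by simp [gr_support h])

/-- an integral against a function supported in a set -/
theorem set_eq {S : Set (ℝ × ℝ)} {a b : ℝ × ℝ → ℝ} (h : ∀ p, p ∉ S → b p = 0) :
    ∫ p in S, a p * b p = ∫ p, a p * b p :=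
  setIntegral_eq_integral_of_forall_compl_eq_zero fun p hp => by rw [h p hp, mul_zero]

theorem fderiv_re_comp {V : ℂ → ℂ} {d : ℂ} {p : ℝ × ℝ} (h : HasDerivAt V d (cc p)) :
    HasFDerivAt (fun p => (V (cc p)).re) ((Complex.reCLM.comp
      ((ContinuousLinearMap.toSpanSingleton ℂ d).restrictScalars ℝ)).comp ccL) p := by
  have h1 : HasFDerivAt V ((ContinuousLinearMap.toSpanSingleton ℂ d).restrictScalars ℝ) (cc p) :=
    h.hasFDerivAt.restrictScalars ℝ
  have h2 : HasFDerivAt cc ccL p := ccL.hasFDerivAt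
  have h3 := (Complex.reCLM.hasFDerivAt (x := V (cc p))).comp (cc p) h1
  exact h3.comp p h2

theorem main (f : ℝ × ℝ → ℝ) (F : ℝ × ℝ → ℝ × ℝ) (hfc : ContinuousOn f Qc) (hW : W2 f F)
    (hgrad : ∀ᵐ p ∂mu, (F p).1 ^ 2 + (F p).2 ^ 2 = 4 * f p ^ 2 / p.1 ^ 2)
    (hdiv : ∀ ζ : ℝ × ℝ → ℝ, ContDiff ℝ ∞ ζ → HasCompactSupport ζ →
      tsupport ζ ⊆ QQ → ∫ p in QQ, ((F p).1 * (gr ζ p).1 + (F p).2 * (gr ζ p).2) = 0)
    (p₀ : ℝ × ℝ) (hp₀ : p₀ ∈ QQ) : f p₀ = 0 := by
  have hp1 : 0 < p₀.1 := hp₀.1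
  have hp2 : 0 < p₀.2 := hp₀.2
  set w₀ := cc p₀ with hw₀
  set δ : ℝ := min (p₀.1 / 2) (p₀.2 / 2) with hδ_def
  have hδ : 0 < δ := lt_min (by positivity) (by positivity)
  have hδ1 : δ < p₀.1 := (min_le_left _ _).trans_lt (by linarith)
  have hδ2 : δ < p₀.2 := (min_le_right _ _).trans_lt (by linarith)
  have hcl := disc_sub p₀ δ hδ1 hδ2
  have hcpt := compact_closedDisc w₀ δ
  have hDcl : Dk w₀ δ ⊆ {p : ℝ × ℝ | cc p ∈ Metric.closedBall w₀ δ} :=
    fun p hp => Metric.ball_subset_closedBall hp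
  have hDQ : Dk w₀ δ ⊆ QQ := hDcl.trans hcl
  obtain ⟨k, hk⟩ := exists_Box_of_compact hcpt hcl
  have hDk : Dk w₀ δ ⊆ Box k := hDcl.trans hk
  have hfinK : IsFiniteMeasure (volume.restrict (Box k)) := by
    refine ⟨?_⟩
    rw [Measure.restrict_apply_univ]
    exact (isCompact_Box k).measure_lt_top
  have hFint : IntegrableOn F (Box k) := (hW.mem k).integrable (by norm_num)
  have hF1 : IntegrableOn (fun p => (F p).1) (Box k) := hFint.fst
  have hF2 : IntegrableOn (fun p => (F p).2) (Box k) := hFint.snd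
  have hfQ : ContinuousOn f QQ := hfc.mono QQ_sub_Qc
  -- products with test functions are integrable
  have hintF : ∀ (a b : ℝ × ℝ → ℝ) (S : Set (ℝ × ℝ)), IntegrableOn a S → Continuous b →
      HasCompactSupport b → IntegrableOn (fun p => a p * b p) S := by
    intro a b S ha hb hbc
    obtain ⟨C, hC⟩ := hb.bounded_above_of_compact_support hbc
    exact Integrable.mul_bdd (c := C) ha hb.aestronglyMeasurable (Eventually.of_forall hC)
  have hgc : ∀ ζ : ℝ × ℝ → ℝ, ContDiff ℝ ∞ ζ → HasCompactSupport ζ →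
      Continuous (fun p => (gr ζ p).1) ∧ HasCompactSupport (fun p => (gr ζ p).1) ∧
      Continuous (fun p => (gr ζ p).2) ∧ HasCompactSupport (fun p => (gr ζ p).2) := by
    intro ζ hζ hζc
    refine ⟨(gr_contDiff hζ).1.continuous, ?_, (gr_contDiff hζ).2.continuous, ?_⟩
    · exact HasCompactSupport.intro hζc.isCompact fun p hp => by simp [gr_support hp]
    · exact HasCompactSupport.intro hζc.isCompact fun p hp => by simp [gr_support hp]
  -- splitting a complex integral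
  have hsplit : ∀ (S : Set (ℝ × ℝ)) (a b : ℝ × ℝ → ℝ), IntegrableOn a S → IntegrableOn b S →
      ∫ p in S, a p = 0 → ∫ p in S, b p = 0 →
      ∫ p in S, ((a p : ℂ) + Complex.I * (b p : ℂ)) = 0 := by
    intro S a b ha hb ha0 hb0
    have e1 : IntegrableOn (fun p => (a p : ℂ)) S := ha.ofReal
    have e2 : IntegrableOn (fun p => Complex.I * (b p : ℂ)) S := (hb.ofReal).const_mul _
    rw [integral_add e1 e2, integral_const_mul, integral_complex_ofReal, integral_complex_ofReal,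
      ha0, hb0]
    simp
  -- the function `u`
  set u : ℝ × ℝ → ℂ := fun p => ((F p).1 : ℂ) - Complex.I * ((F p).2 : ℂ) with hu_def
  have hu : IntegrableOn u (Dk w₀ δ) := by
    have e1 : IntegrableOn (fun p => ((F p).1 : ℂ)) (Box k) := hF1.ofReal
    have e2 : IntegrableOn (fun p => Complex.I * ((F p).2 : ℂ)) (Box k) := (hF2.ofReal).const_mul _
    exact (e1.sub e2).mono_set hDk
  obtain ⟨v, hv, hvu⟩ := weylR w₀ δ hδ u hu (by
    intro ζ hζ hζc hζs
    obtain ⟨g1, g2, g3, g4⟩ := hgc ζ hζ hζc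
    have hζQ : tsupport ζ ⊆ QQ := hζs.trans hDQ
    have e0 : ∀ p, u p * (((gr ζ p).1 : ℂ) + Complex.I * ((gr ζ p).2 : ℂ)) =
        (((F p).1 * (gr ζ p).1 + (F p).2 * (gr ζ p).2 : ℝ) : ℂ) +
        Complex.I * (((F p).1 * (gr ζ p).2 - (F p).2 * (gr ζ p).1 : ℝ) : ℂ) := by
      intro p
      simp only [hu_def]
      push_cast
      linear_combination (-(F p).2 * (gr ζ p).2 : ℂ) * Complex.I_mul_I
    simp only [e0]
    have i1 := hintF _ _ _ (hF1.mono_set hDk) g1 g2
    have i2 := hintF _ _ _ (hF2.mono_set hDk) g3 g4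
    have i3 := hintF _ _ _ (hF1.mono_set hDk) g3 g4
    have i4 := hintF _ _ _ (hF2.mono_set hDk) g1 g2
    refine hsplit _ _ _ (i1.add i2) (i3.sub i4) ?_ ?_
    · have e1 := hdiv ζ hζ hζc hζQ
      rw [← e1]
      have e2 : ∀ S : Set (ℝ × ℝ), tsupport ζ ⊆ S →
          ∫ p in S, ((F p).1 * (gr ζ p).1 + (F p).2 * (gr ζ p).2) =
          ∫ p, ((F p).1 * (gr ζ p).1 + (F p).2 * (gr ζ p).2) := by
        intro S hS
        refine setIntegral_eq_integral_of_forall_compl_eq_zero fun p hp => ?_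
        rw [gr_support fun h => hp (hS h)]
        simp
      rw [e2 _ hζs, e2 _ hζQ]
    · rw [integral_sub i3 i4]
      have e1 := weak_fst hW (gr_contDiff hζ).2 g4 (gr_tsupport2.trans hζQ)
      have e2 := weak_snd hW (gr_contDiff hζ).1 g2 (gr_tsupport1.trans hζQ)
      have e3 : ∫ p in Dk w₀ δ, (F p).1 * (gr ζ p).2 = ∫ p, (F p).1 * (gr ζ p).2 :=
        set_eq fun p hp => by rw [gr_support fun h => hp (hζs h)]; rfl
      have e4 : ∫ p in Dk w₀ δ, (F p).2 * (gr ζ p).1 = ∫ p, (F p).2 * (gr ζ p).1 :=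
        set_eq fun p hp => by rw [gr_support fun h => hp (hζs h)]; rfl
      have e5 : ∫ p, f p * (gr (fun p => (gr ζ p).2) p).1 =
          ∫ p, f p * (gr (fun p => (gr ζ p).1) p).2 := by
        refine integral_congr_ae (Eventually.of_forall fun p => ?_)
        show f p * _ = f p * _
        rw [mixed hζ]
      rw [e3, e4]
      linarith)
  -- the primitive
  obtain ⟨V, hV⟩ := hv.isExactOn_ball
  have hvF : ∀ᵐ p ∂(volume.restrict (Dk w₀ δ)), (v (cc p)).re = (F p).1 ∧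
      (v (cc p) * Complex.I).re = (F p).2 := by
    filter_upwards [hvu] with p hp
    rw [← hp]
    simp [hu_def]
  set g : ℝ × ℝ → ℝ := fun p => (V (cc p)).re with hg_def
  have hgd : ∀ p ∈ Dk w₀ δ, HasFDerivAt g ((Complex.reCLM.comp
      ((ContinuousLinearMap.toSpanSingleton ℂ (v (cc p))).restrictScalars ℝ)).comp ccL) p :=
    fun p hp => fderiv_re_comp (hV _ hp)
  have hg1 : ∀ p ∈ Dk w₀ δ, fderiv ℝ g p (1, 0) = (v (cc p)).re := by
    intro p hp
    rw [(hgd p hp).fderiv]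
    have : ccL (1, 0) = 1 := by
      rw [ccL_apply]; apply Complex.ext <;> simp
    simp [this]
  have hg2 : ∀ p ∈ Dk w₀ δ, fderiv ℝ g p (0, 1) = (v (cc p) * Complex.I).re := by
    intro p hp
    rw [(hgd p hp).fderiv]
    have : ccL (0, 1) = Complex.I := by
      rw [ccL_apply]; apply Complex.ext <;> simp
    simp [this, mul_comm]
  have hgcont : ContinuousOn g (Dk w₀ δ) := fun p hp => (hgd p hp).continuousAt.continuousWithinAt
  -- the smaller disc
  set δ' : ℝ := δ / 2 with hδ'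
  have hδ'0 : 0 < δ' := by positivity
  have hD'cl : Dk w₀ δ' ⊆ {p : ℝ × ℝ | cc p ∈ Metric.closedBall w₀ δ'} :=
    fun p hp => Metric.ball_subset_closedBall hp
  have hcl' : {p : ℝ × ℝ | cc p ∈ Metric.closedBall w₀ δ'} ⊆ Dk w₀ δ := by
    intro p hp
    exact Metric.closedBall_subset_ball (by rw [hδ']; linarith) hp
  have hD' : Dk w₀ δ' ⊆ Dk w₀ δ := hD'cl.trans hcl'
  have hcpt' := compact_closedDisc w₀ δ'
  have hfg : ContinuousOn (fun p => f p - g p) (Dk w₀ δ) := (hfQ.mono hDQ).sub hgcont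
  have hfgint : IntegrableOn (fun p => f p - g p) (Dk w₀ δ') :=
    ((hfg.mono hcl').integrableOn_compact hcpt').mono_set hD'cl
  obtain ⟨v₂, hv₂, hvu₂⟩ := weylR w₀ δ' hδ'0 (fun p => ((f p - g p : ℝ) : ℂ)) hfgint.ofReal (by
    intro ζ hζ hζc hζs
    obtain ⟨g1, g2, g3, g4⟩ := hgc ζ hζ hζc
    have hζD : tsupport ζ ⊆ Dk w₀ δ := hζs.trans hD'
    have hζQ : tsupport ζ ⊆ QQ := hζD.trans hDQ
    have hζ1 : ContDiff ℝ 1 ζ := hζ.of_le (by simp)
    have e0 : ∀ p, ((f p - g p : ℝ) : ℂ) * (((gr ζ p).1 : ℂ) + Complex.I * ((gr ζ p).2 : ℂ)) =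
        (((f p - g p) * (gr ζ p).1 : ℝ) : ℂ) +
        Complex.I * (((f p - g p) * (gr ζ p).2 : ℝ) : ℂ) := by
      intro p
      push_cast
      ring
    simp only [e0]
    -- one direction
    have key : ∀ (x : ℝ × ℝ) (L : ℝ × ℝ → ℝ), (∀ᵐ p ∂(volume.restrict (Dk w₀ δ)),
        fderiv ℝ g p x = L (F p)) →
        Continuous (fun p => fderiv ℝ ζ p x) → HasCompactSupport (fun p => fderiv ℝ ζ p x) →
        (∀ p, p ∉ tsupport ζ → fderiv ℝ ζ p x = 0) →
        ContinuousOn (fun p => fderiv ℝ g p x) (Dk w₀ δ) →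
        ∫ p, f p * fderiv ℝ ζ p x = -∫ p, L (F p) * ζ p →
        ∫ p in Dk w₀ δ', (f p - g p) * fderiv ℝ ζ p x = 0 := by
      intro x L hL k1 k2 k3 k4 k5
      have i1 : IntegrableOn (fun p => f p * fderiv ℝ ζ p x) (Dk w₀ δ') :=
        hintF _ _ _ ((((hfQ.mono hDQ).mono hcl').integrableOn_compact hcpt').mono_set hD'cl) k1 k2
      have i2 : IntegrableOn (fun p => g p * fderiv ℝ ζ p x) (Dk w₀ δ') :=
        hintF _ _ _ (((hgcont.mono hcl').integrableOn_compact hcpt').mono_set hD'cl) k1 k2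
      have j0 : ∀ p, p ∉ Dk w₀ δ' → fderiv ℝ ζ p x = 0 := fun p hp => k3 p fun h => hp (hζs h)
      have j0' : ∀ p, p ∉ Dk w₀ δ' → ζ p = 0 := fun p hp =>
        image_eq_zero_of_notMem_tsupport fun h => hp (hζs h)
      simp only [sub_mul]
      rw [integral_sub i1 i2, set_eq j0, set_eq j0, k5]
      have hby : ∫ p, g p * fderiv ℝ ζ p x = -∫ p, fderiv ℝ g p x * ζ p := by
        refine integral_mul_fderiv_eq_neg_fderiv_mul_of_integrable ?_ ?_ ?_ ?_ ?_
        · have : IntegrableOn (fun p => fderiv ℝ g p x * ζ p) (Dk w₀ δ') :=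
            hintF _ _ _ (((k4.mono hcl').integrableOn_compact hcpt').mono_set hD'cl)
              hζ.continuous hζc
          exact (integrableOn_iff_integrable_of_support_subset (fun p hp => by
            by_contra h
            exact hp (by simp [j0' p h]))).1 this
        · exact (integrableOn_iff_integrable_of_support_subset (fun p hp => by
            by_contra h
            exact hp (by simp [j0 p h]))).1 i2
        · have : IntegrableOn (fun p => g p * ζ p) (Dk w₀ δ') :=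
            hintF _ _ _ (((hgcont.mono hcl').integrableOn_compact hcpt').mono_set hD'cl)
              hζ.continuous hζc
          exact (integrableOn_iff_integrable_of_support_subset (fun p hp => by
            by_contra h
            exact hp (by simp [j0' p h]))).1 this
        · intro p hp
          exact (hgd p (hζD hp)).differentiableAt
        · intro p _
          exact hζ.differentiable (by simp) p
      rw [hby]
      have hLe : ∫ p, L (F p) * ζ p = ∫ p, fderiv ℝ g p x * ζ p := by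
        rw [← set_eq (S := Dk w₀ δ) (fun p hp => image_eq_zero_of_notMem_tsupport
          fun h => hp (hζD h)), ← set_eq (S := Dk w₀ δ) (a := fun p => fderiv ℝ g p x)
          (fun p hp => image_eq_zero_of_notMem_tsupport fun h => hp (hζD h))]
        refine integral_congr_ae ?_
        filter_upwards [hL] with p hp
        rw [hp]
      rw [hLe]
      ring
    have hvc : ContinuousOn (fun p => v (cc p)) (Dk w₀ δ) :=
      hv.continuousOn.comp continuous_cc.continuousOn fun p hp => hp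
    have m1 : ContinuousOn (fun p => fderiv ℝ g p (1, 0)) (Dk w₀ δ) :=
      (Complex.continuous_re.comp_continuousOn hvc).congr fun p hp => hg1 p hp
    have m2 : ContinuousOn (fun p => fderiv ℝ g p (0, 1)) (Dk w₀ δ) :=
      (Complex.continuous_re.comp_continuousOn (hvc.mul continuousOn_const)).congr
        fun p hp => hg2 p hp
    have hmem : ∀ᵐ p ∂(volume.restrict (Dk w₀ δ)), p ∈ Dk w₀ δ :=
      ae_restrict_mem (isOpen_Dk w₀ δ).measurableSet
    have n1 := key (1, 0) (fun q => q.1) (by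
      filter_upwards [hvF, hmem] with p hp hm
      rw [hg1 p hm, hp.1]) g1 g2 (fun p hp => congrArg Prod.fst (gr_support hp)) m1
      (weak_fst hW hζ1 hζc hζQ)
    have n2 := key (0, 1) (fun q => q.2) (by
      filter_upwards [hvF, hmem] with p hp hm
      rw [hg2 p hm, hp.2]) g3 g4 (fun p hp => congrArg Prod.snd (gr_support hp)) m2
      (weak_snd hW hζ1 hζc hζQ)
    exact hsplit _ _ _ (hintF _ _ _ hfgint g1 g2) (hintF _ _ _ hfgint g3 g4) n1 n2)
  -- equality everywhere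
  have heq₂ : EqOn (fun p => ((f p - g p : ℝ) : ℂ)) (fun p => v₂ (cc p)) (Dk w₀ δ') :=
    Measure.eqOn_open_of_ae_eq (μ := volume) hvu₂ (isOpen_Dk _ _)
      (Complex.continuous_ofReal.comp_continuousOn (hfg.mono hD'))
      (hv₂.continuousOn.comp continuous_cc.continuousOn fun p hp => hp)
  set U : Set ℂ := Metric.ball w₀ δ' with hU_def
  have hU : IsOpen U := Metric.isOpen_ball
  have hUw : ∀ w ∈ U, ((w.re, w.im) : ℝ × ℝ) ∈ Dk w₀ δ' ∧ cc (w.re, w.im) = w :=
    fun w hw => ⟨hw, rfl⟩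
  have hv₂r : ∀ w ∈ U, v₂ w = ((f (w.re, w.im) - (V w).re : ℝ) : ℂ) := by
    intro w hw
    have := heq₂ (hUw w hw).1
    exact this.symm
  have hv₂0 := real_deriv_zero hU hv₂ (fun w hw => by rw [hv₂r w hw]; exact Complex.ofReal_im _)
  have hUV : ∀ w ∈ U, HasDerivAt V (v w) w := fun w hw =>
    hV w (Metric.ball_subset_ball (by rw [hδ']; linarith) hw)
  have hfd : ∀ w ∈ U, ∀ h : ℂ,
      DD (fun w => ((f (w.re, w.im) : ℝ) : ℂ)) w h (((v w * h).re : ℝ) : ℂ) := by
    intro w hw h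
    have e1 : ∀ w ∈ U, (1 / 2 : ℂ) * (V w + conj (V w)) + v₂ w = ((f (w.re, w.im) : ℝ) : ℂ) := by
      intro w hw
      rw [hv₂r w hw, Complex.add_conj]
      push_cast
      ring
    have e2 := DD_add (DD_const_mul (1 / 2) (DD_add (DD_holo (h := h) (hUV w hw))
      (DD_conj (DD_holo (h := h) (hUV w hw))))) (DD_holo (h := h) (hv₂0 w hw))
    have e3 := DD_congr hU e1 hw e2
    have e4 : (1 / 2 : ℂ) * (v w * h + conj (v w * h)) + 0 * h = (((v w * h).re : ℝ) : ℂ) := by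
      rw [Complex.add_conj]
      push_cast
      ring
    rw [e4] at e3
    exact e3
  have hE : EqOn (fun p : ℝ × ℝ => p.1 ^ 2 * ‖v (cc p)‖ ^ 2) (fun p => 4 * f p ^ 2) (Dk w₀ δ) := by
    refine Measure.eqOn_open_of_ae_eq (μ := volume) ?_ (isOpen_Dk _ _) ?_ ?_
    · have h1 := ae_restrict_of_ae (s := Dk w₀ δ) (ae_mu_iff.1 hgrad)
      have hmem : ∀ᵐ p ∂(volume.restrict (Dk w₀ δ)), p ∈ Dk w₀ δ :=
        ae_restrict_mem (isOpen_Dk w₀ δ).measurableSet
      filter_upwards [h1, hvu, hmem] with p h1 h2 h3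
      have h4 := h1 (hDQ h3)
      have h5 : p.1 ≠ 0 := (hDQ h3).1.ne'
      have h6 : ‖v (cc p)‖ ^ 2 = (F p).1 ^ 2 + (F p).2 ^ 2 := by
        rw [← h2, ← Complex.normSq_eq_norm_sq, Complex.normSq_apply]
        simp [hu_def]
        ring
      rw [h6, h4]
      field_simp
    · have hvc : ContinuousOn (fun p => v (cc p)) (Dk w₀ δ) :=
        hv.continuousOn.comp continuous_cc.continuousOn fun p hp => hp
      exact (continuous_fst.continuousOn.pow 2).mul (hvc.norm.pow 2)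
    · exact continuousOn_const.mul ((hfQ.mono hDQ).pow 2)
  have hEU : ∀ w ∈ U, w.re ^ 2 * ‖v w‖ ^ 2 = 4 * f (w.re, w.im) ^ 2 := by
    intro w hw
    exact hE (hD' (hUw w hw).1)
  have hpt := point_zero U hU v (fun w => f (w.re, w.im)) (fun w hw => (hDQ (hD' (hUw w hw).1)).1)
    (hv.mono (Metric.ball_subset_ball (by rw [hδ']; linarith))) hfd hEU
  have hwU : w₀ ∈ U := Metric.mem_ball_self hδ'0
  have h1 := hEU w₀ hwU
  rw [hpt w₀ hwU] at h1
  have h2 : f p₀ ^ 2 = 0 := by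
    have h3 : f (w₀.re, w₀.im) = f p₀ := rfl
    rw [h3] at h1
    simp at h1
    rw [h1]; simp
  exact pow_eq_zero_iff two_ne_zero |>.1 h2

end Pool.Agent.T6.H20.BV.ModNCB

namespace Pool.Agent.T6.H20.BV

theorem ncb (hC : StmCont) : StmNCB := by
  intro f F hW hgrad hdiv p hp
  exact ModNCB.main f F (hC f F hW) hW hgrad hdiv p hp

end Pool.Agent.T6.H20.BV
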