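import Pool.Agent.T6.H20.BV.Cha

/-!
# Project BV: truncation of the tests
-/

set_option autoImplicit false

namespace Pool.Agent.T6.H20.BV

open MeasureTheory Set Filter Topology Pool.Agent.T6.H20.BU

namespace TRT

/-- `√(1 + c (x² + y²))` -/
noncomputable def nn (c x y : ℝ) : ℝ := Real.sqrt (1 + c * (x ^ 2 + y ^ 2))

/-- the transformation of `av` -/
noncomputable def KK (c x y : ℝ) (v : V5) : V5 :=
  (1 / nn c x y) • v - (c / nn c x y ^ 3) •
    !₂[x * (x * v 0 + y * v 2), x * (x * v 1 + y * v 3), y * (x * v 0 + y * v 2),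
      y * (x * v 1 + y * v 3), 0]

theorem nn_pos {c : ℝ} (hc : 0 ≤ c) (x y : ℝ) : 0 < nn c x y := by
  unfold nn
  apply Real.sqrt_pos.2
  positivity

theorem nn_sq {c : ℝ} (hc : 0 ≤ c) (x y : ℝ) : nn c x y ^ 2 = 1 + c * (x ^ 2 + y ^ 2) := by
  unfold nn
  exact Real.sq_sqrt (by positivity)

theorem one_le_nn {c : ℝ} (hc : 0 ≤ c) (x y : ℝ) : 1 ≤ nn c x y := by
  unfold nn
  rw [Real.one_le_sqrt]
  have : 0 ≤ c * (x ^ 2 + y ^ 2) := by positivity
  linarith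

theorem norm_sq_V5 (v : V5) : ‖v‖ ^ 2 = v 0 ^ 2 + v 1 ^ 2 + v 2 ^ 2 + v 3 ^ 2 + v 4 ^ 2 := by
  rw [EuclideanSpace.norm_sq_eq, Fin.sum_univ_five]
  simp [sq_abs]

theorem ee_le (x y : ℝ) (v : V5) :
    ‖(!₂[x * (x * v 0 + y * v 2), x * (x * v 1 + y * v 3), y * (x * v 0 + y * v 2),
      y * (x * v 1 + y * v 3), 0] : V5)‖ ≤ (x ^ 2 + y ^ 2) * ‖v‖ := by
  refine abs_le_of_sq_le_sq' ?_ (by positivity) |>.2
  rw [mul_pow, norm_sq_V5, norm_sq_V5]
  have e : ∀ a b c d e : ℝ, (!₂[a, b, c, d, e] : V5) 0 = a ∧ (!₂[a, b, c, d, e] : V5) 1 = b ∧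
      (!₂[a, b, c, d, e] : V5) 2 = c ∧ (!₂[a, b, c, d, e] : V5) 3 = d ∧
      (!₂[a, b, c, d, e] : V5) 4 = e := fun a b c d e => ⟨rfl, rfl, rfl, rfl, rfl⟩
  obtain ⟨e0, e1, e2, e3, e4⟩ := e (x * (x * v 0 + y * v 2)) (x * (x * v 1 + y * v 3))
    (y * (x * v 0 + y * v 2)) (y * (x * v 1 + y * v 3)) 0
  rw [e0, e1, e2, e3, e4]
  have h1 : (x * v 0 + y * v 2) ^ 2 ≤ (x ^ 2 + y ^ 2) * (v 0 ^ 2 + v 2 ^ 2) := by
    nlinarith [sq_nonneg (x * v 2 - y * v 0)]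
  have h2 : (x * v 1 + y * v 3) ^ 2 ≤ (x ^ 2 + y ^ 2) * (v 1 ^ 2 + v 3 ^ 2) := by
    nlinarith [sq_nonneg (x * v 3 - y * v 1)]
  have h0 : 0 ≤ x ^ 2 + y ^ 2 := by positivity
  calc (x * (x * v 0 + y * v 2)) ^ 2 + (x * (x * v 1 + y * v 3)) ^ 2 +
        (y * (x * v 0 + y * v 2)) ^ 2 + (y * (x * v 1 + y * v 3)) ^ 2 + 0 ^ 2
      = (x ^ 2 + y ^ 2) * ((x * v 0 + y * v 2) ^ 2 + (x * v 1 + y * v 3) ^ 2) := by ring
    _ ≤ (x ^ 2 + y ^ 2) * ((x ^ 2 + y ^ 2) * (v 0 ^ 2 + v 2 ^ 2) +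
          (x ^ 2 + y ^ 2) * (v 1 ^ 2 + v 3 ^ 2)) :=
        mul_le_mul_of_nonneg_left (add_le_add h1 h2) h0
    _ ≤ (x ^ 2 + y ^ 2) ^ 2 * (v 0 ^ 2 + v 1 ^ 2 + v 2 ^ 2 + v 3 ^ 2 + v 4 ^ 2) := by
        nlinarith [mul_nonneg (sq_nonneg (x ^ 2 + y ^ 2)) (sq_nonneg (v 4))]

theorem KK_le {c : ℝ} (hc : 0 ≤ c) (x y : ℝ) (v : V5) : ‖KK c x y v‖ ≤ 2 * ‖v‖ := by
  have hn := nn_pos hc x y
  have h1 := one_le_nn hc x y
  have h2 := nn_sq hc x y
  unfold KK
  refine (norm_sub_le _ _).trans ?_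
  rw [norm_smul, norm_smul, Real.norm_of_nonneg (by positivity), Real.norm_of_nonneg (by positivity)]
  have a1 : 1 / nn c x y ≤ 1 := by
    rw [div_le_one hn]
    exact h1
  have a2 : c / nn c x y ^ 3 * (x ^ 2 + y ^ 2) ≤ 1 := by
    rw [div_mul_eq_mul_div, div_le_one (by positivity)]
    calc c * (x ^ 2 + y ^ 2) ≤ nn c x y ^ 2 := by rw [h2]; linarith
      _ ≤ nn c x y ^ 3 := pow_le_pow_right₀ h1 (by norm_num)
  have h3 := ee_le x y v
  calc _ ≤ 1 * ‖v‖ + c / nn c x y ^ 3 * ((x ^ 2 + y ^ 2) * ‖v‖) := by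
        refine add_le_add (mul_le_mul_of_nonneg_right a1 (norm_nonneg _)) ?_
        exact mul_le_mul_of_nonneg_left h3 (by positivity)
    _ = 1 * ‖v‖ + (c / nn c x y ^ 3 * (x ^ 2 + y ^ 2)) * ‖v‖ := by ring
    _ ≤ 1 * ‖v‖ + 1 * ‖v‖ := by
        refine add_le_add le_rfl (mul_le_mul_of_nonneg_right a2 (norm_nonneg _))
    _ = _ := by ring

theorem continuous_KK : Continuous fun q : ℝ × ℝ × ℝ × V5 => KK (|q.1|) q.2.1 q.2.2.1 q.2.2.2 := by
  have hn : Continuous fun q : ℝ × ℝ × ℝ × V5 => nn (|q.1|) q.2.1 q.2.2.1 := by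
    unfold nn
    fun_prop
  have hn0 : ∀ q : ℝ × ℝ × ℝ × V5, nn (|q.1|) q.2.1 q.2.2.1 ≠ 0 := fun q =>
    (nn_pos (abs_nonneg _) _ _).ne'
  unfold KK
  have hA : Continuous fun q : ℝ × ℝ × ℝ × V5 => 1 / nn (|q.1|) q.2.1 q.2.2.1 :=
    continuous_const.div hn hn0
  have hB : Continuous fun q : ℝ × ℝ × ℝ × V5 => |q.1| / nn (|q.1|) q.2.1 q.2.2.1 ^ 3 :=
    Continuous.div (by fun_prop) (hn.pow 3) fun q => pow_ne_zero _ (hn0 q)
  have hV : Continuous fun q : ℝ × ℝ × ℝ × V5 => q.2.2.2 := by fun_prop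
  refine Continuous.sub ?_ ?_
  · exact hA.smul hV
  · refine hB.smul ?_
    · refine (PiLp.continuous_toLp 2 (fun _ : Fin 5 => ℝ)).comp (continuous_pi fun i => ?_)
      fin_cases i
      · show Continuous fun q : ℝ × ℝ × ℝ × V5 =>
          q.2.1 * (q.2.1 * q.2.2.2 0 + q.2.2.1 * q.2.2.2 2)
        fun_prop
      · show Continuous fun q : ℝ × ℝ × ℝ × V5 =>
          q.2.1 * (q.2.1 * q.2.2.2 1 + q.2.2.1 * q.2.2.2 3)
        fun_prop
      · show Continuous fun q : ℝ × ℝ × ℝ × V5 =>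
          q.2.2.1 * (q.2.1 * q.2.2.2 0 + q.2.2.1 * q.2.2.2 2)
        fun_prop
      · show Continuous fun q : ℝ × ℝ × ℝ × V5 =>
          q.2.2.1 * (q.2.1 * q.2.2.2 1 + q.2.2.1 * q.2.2.2 3)
        fun_prop
      · exact continuous_const

theorem KK_zero (x y : ℝ) (v : V5) : KK 0 x y v = v := by
  have : nn 0 x y = 1 := by
    unfold nn
    simp
  unfold KK
  rw [this]
  simp

/-- `φ / √(1 + c (φ² + γ²))` -/
theorem W2_trunc (hC : StmChain) {φ γ : ℝ × ℝ → ℝ} {P R : ℝ × ℝ → ℝ × ℝ} (h1 : W2 φ P)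
    (h2 : W2 γ R) {c : ℝ} (hc : 0 ≤ c) :
    W2 (fun p => φ p / nn c (φ p) (γ p)) (fun p => (1 / nn c (φ p) (γ p)) • P p -
      (c * φ p / nn c (φ p) (γ p) ^ 3) • (φ p • P p + γ p • R p)) := by
  have hpos : ∀ x : Fin 2 → ℝ, 0 < 1 + c * (x 0 ^ 2 + x 1 ^ 2) := fun x => by positivity
  have hT : ContDiff ℝ 1 (fun x : Fin 2 → ℝ => x 0 / nn c (x 0) (x 1)) := by
    unfold nn
    refine ContDiff.div (by fun_prop) ?_ fun x => (Real.sqrt_pos.2 (hpos x)).ne'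
    refine ContDiff.sqrt (by fun_prop) fun x => (hpos x).ne'
  have h3 := hC.1 2 ![φ, γ] ![P, R] (fun x => x 0 / nn c (x 0) (x 1)) hT (by
    intro i
    fin_cases i
    · exact h1
    · exact h2)
  have hd : ∀ x : Fin 2 → ℝ, HasFDerivAt (fun x : Fin 2 → ℝ => x 0 / nn c (x 0) (x 1))
      ((1 / nn c (x 0) (x 1)) • (ContinuousLinearMap.proj 0 : (Fin 2 → ℝ) →L[ℝ] ℝ) -
        (c * x 0 / nn c (x 0) (x 1) ^ 3) •
          (x 0 • (ContinuousLinearMap.proj 0 : (Fin 2 → ℝ) →L[ℝ] ℝ) +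
            x 1 • (ContinuousLinearMap.proj 1 : (Fin 2 → ℝ) →L[ℝ] ℝ))) x := by
    intro x
    have p0 : HasFDerivAt (fun x : Fin 2 → ℝ => x 0)
        (ContinuousLinearMap.proj 0 : (Fin 2 → ℝ) →L[ℝ] ℝ) x :=
      (ContinuousLinearMap.proj (R := ℝ) (φ := fun _ : Fin 2 => ℝ) 0).hasFDerivAt
    have p1 : HasFDerivAt (fun x : Fin 2 → ℝ => x 1)
        (ContinuousLinearMap.proj 1 : (Fin 2 → ℝ) →L[ℝ] ℝ) x :=
      (ContinuousLinearMap.proj (R := ℝ) (φ := fun _ : Fin 2 => ℝ) 1).hasFDerivAt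
    have q : HasFDerivAt (fun x : Fin 2 → ℝ => 1 + c * (x 0 ^ 2 + x 1 ^ 2))
        (c • ((2 * x 0) • (ContinuousLinearMap.proj 0 : (Fin 2 → ℝ) →L[ℝ] ℝ) +
          (2 * x 1) • (ContinuousLinearMap.proj 1 : (Fin 2 → ℝ) →L[ℝ] ℝ))) x := by
      have q1 : HasFDerivAt (fun x : Fin 2 → ℝ => 1 + c * (x 0 ^ 2 + x 1 ^ 2)) _ x :=
        (((p0.pow 2).add (p1.pow 2)).const_mul c).const_add 1
      refine q1.congr_fderiv ?_
      ext v
      simp
    have hne : nn c (x 0) (x 1) ≠ 0 := (nn_pos hc _ _).ne'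
    have hn : HasFDerivAt (fun x : Fin 2 → ℝ => nn c (x 0) (x 1)) _ x := q.sqrt (hpos x).ne'
    have hinv : HasFDerivAt (fun x : Fin 2 → ℝ => (nn c (x 0) (x 1))⁻¹) _ x :=
      (hasDerivAt_inv hne).comp_hasFDerivAt x hn
    have h4 : HasFDerivAt (fun x : Fin 2 → ℝ => x 0 * (nn c (x 0) (x 1))⁻¹) _ x := p0.mul hinv
    have h5 : (fun x : Fin 2 → ℝ => x 0 / nn c (x 0) (x 1)) =
        fun x => x 0 * (nn c (x 0) (x 1))⁻¹ := by
      funext x
      exact div_eq_mul_inv _ _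
    rw [h5]
    refine h4.congr_fderiv ?_
    have hnn : Real.sqrt (1 + c * (x 0 ^ 2 + x 1 ^ 2)) = nn c (x 0) (x 1) := rfl
    ext v
    simp only [hnn, sub_apply, add_apply, smul_apply, ContinuousLinearMap.proj_apply,
      smul_eq_mul]
    field_simp
    ring
  have e1 : (fun p => ∑ i, (fderiv ℝ (fun x : Fin 2 → ℝ => x 0 / nn c (x 0) (x 1))
      fun j => (![φ, γ] : Fin 2 → ℝ × ℝ → ℝ) j p) (Pi.single i 1) •
        (![P, R] : Fin 2 → ℝ × ℝ → ℝ × ℝ) i p) = fun p => (1 / nn c (φ p) (γ p)) • P p -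
      (c * φ p / nn c (φ p) (γ p) ^ 3) • (φ p • P p + γ p • R p) := by
    funext p
    rw [Fin.sum_univ_two, (hd _).fderiv]
    refine Prod.ext ?_ ?_
    · simp
      ring
    · simp
      ring
  rw [e1] at h3
  exact h3

theorem nn_comm (c x y : ℝ) : nn c x y = nn c y x := by
  unfold nn
  rw [add_comm (x ^ 2)]

theorem av_trunc (c : ℝ) (φ γ : ℝ × ℝ → ℝ) (P R : ℝ × ℝ → ℝ × ℝ) (p : ℝ × ℝ) :
    av (fun p => φ p / nn c (φ p) (γ p))
      (fun p => (1 / nn c (φ p) (γ p)) • P p -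
        (c * φ p / nn c (φ p) (γ p) ^ 3) • (φ p • P p + γ p • R p))
      (fun p => (1 / nn c (γ p) (φ p)) • R p -
        (c * γ p / nn c (γ p) (φ p) ^ 3) • (γ p • R p + φ p • P p)) p =
      KK c (φ p) (γ p) (av φ P R p) := by
  have hnc := nn_comm c (γ p) (φ p)
  ext l
  fin_cases l
  · show ((1 / nn c (φ p) (γ p)) • P p -
        (c * φ p / nn c (φ p) (γ p) ^ 3) • (φ p • P p + γ p • R p)).1 =
      (1 / nn c (φ p) (γ p)) * (P p).1 - (c / nn c (φ p) (γ p) ^ 3) *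
        (φ p * (φ p * (P p).1 + γ p * (R p).1))
    simp
    ring
  · show ((1 / nn c (φ p) (γ p)) • P p -
        (c * φ p / nn c (φ p) (γ p) ^ 3) • (φ p • P p + γ p • R p)).2 =
      (1 / nn c (φ p) (γ p)) * (P p).2 - (c / nn c (φ p) (γ p) ^ 3) *
        (φ p * (φ p * (P p).2 + γ p * (R p).2))
    simp
    ring
  · show ((1 / nn c (γ p) (φ p)) • R p -
        (c * γ p / nn c (γ p) (φ p) ^ 3) • (γ p • R p + φ p • P p)).1 =
      (1 / nn c (φ p) (γ p)) * (R p).1 - (c / nn c (φ p) (γ p) ^ 3) *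
        (γ p * (φ p * (P p).1 + γ p * (R p).1))
    rw [hnc]
    simp
    ring
  · show ((1 / nn c (γ p) (φ p)) • R p -
        (c * γ p / nn c (γ p) (φ p) ^ 3) • (γ p • R p + φ p • P p)).2 =
      (1 / nn c (φ p) (γ p)) * (R p).2 - (c / nn c (φ p) (γ p) ^ 3) *
        (γ p * (φ p * (P p).2 + γ p * (R p).2))
    rw [hnc]
    simp
    ring
  · show 2 * (φ p / nn c (φ p) (γ p)) / p.1 =
      (1 / nn c (φ p) (γ p)) * (2 * φ p / p.1) - (c / nn c (φ p) (γ p) ^ 3) * 0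
    ring

end TRT

open TRT

theorem contOn_QQ_mu {f : ℝ × ℝ → ℝ} (hf : ContinuousOn f Qc) : AEStronglyMeasurable f mu := by
  unfold mu
  refine AEStronglyMeasurable.mono_ac (withDensity_absolutelyContinuous _ _) ?_
  exact (hf.mono QQ_sub_Qc).aestronglyMeasurable isOpen_QQ.measurableSet

theorem integrable_cube {a : ℝ × ℝ → V5} (ha : MemLp a 3 mu) :
    Integrable (fun p => ‖a p‖ ^ 3) mu := by
  have h := ha.integrable_norm_rpow (by norm_num) (by norm_num)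
  refine h.congr (Eventually.of_forall fun p => ?_)
  simp only [ENNReal.toReal_ofNat]
  exact_mod_cast Real.rpow_natCast (‖a p‖) 3

theorem sq_mul_le (s t : ℝ) (hs : 0 ≤ s) (ht : 0 ≤ t) : s * (s * t) ≤ s ^ 3 + t ^ 3 := by
  rcases le_total s t with h | h
  · have h1 : s * (s * t) ≤ t * (t * t) := by
      apply mul_le_mul h (mul_le_mul h le_rfl ht ht) (by positivity) ht
    have h2 : 0 ≤ s ^ 3 := by positivity
    nlinarith
  · have h1 : s * (s * t) ≤ s * (s * s) := by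
      apply mul_le_mul le_rfl (mul_le_mul le_rfl h ht hs) (by positivity) hs
    have h2 : 0 ≤ t ^ 3 := by positivity
    nlinarith

theorem trt (hC : StmChain) : StmTRT := by
  intro f g F G hAdm hB φ γ P R hT
  -- the truncated tests
  set c : ℕ → ℝ := fun N => (1 / ((N : ℝ) + 1)) ^ 2 with hcdef
  have hc0 : ∀ N, 0 < c N := fun N => by positivity
  have hct : Tendsto c atTop (𝓝 0) := by
    have := (tendsto_one_div_add_atTop_nhds_zero_nat (𝕜 := ℝ)).pow 2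
    have h0 : (0 : ℝ) ^ 2 = 0 := by norm_num
    rw [h0] at this
    exact this
  have hcφ := cont φ P hT.wφ
  have hcγ := cont γ R hT.wγ
  have mφ := contOn_QQ_mu hcφ
  have mγ := contOn_QQ_mu hcγ
  have hmeas : ∀ N, AEStronglyMeasurable (fun p => KK (c N) (φ p) (γ p) (av φ P R p)) mu := by
    intro N
    have h1 : AEStronglyMeasurable (fun p => (c N, φ p, γ p, av φ P R p)) mu :=
      aestronglyMeasurable_const.prodMk (mφ.prodMk (mγ.prodMk hT.mem.aestronglyMeasurable))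
    have h2 := continuous_KK.comp_aestronglyMeasurable h1
    refine h2.congr (Eventually.of_forall fun p => ?_)
    show KK (|c N|) (φ p) (γ p) (av φ P R p) = _
    rw [abs_of_pos (hc0 N)]
  have hbdd : ∀ (N : ℕ) (x y : ℝ), |x / nn (c N) x y| ≤ (N : ℝ) + 1 := by
    intro N x y
    have hn := nn_pos (hc0 N).le x y
    rw [abs_div, abs_of_pos hn, div_le_iff₀ hn]
    refine abs_le_of_sq_le_sq ?_ (by positivity)
    rw [mul_pow, nn_sq (hc0 N).le]
    have h1 : ((N : ℝ) + 1) ^ 2 * c N = 1 := by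
      rw [hcdef]
      field_simp
    calc x ^ 2 ≤ ((N : ℝ) + 1) ^ 2 + (((N : ℝ) + 1) ^ 2 * c N) * (x ^ 2 + y ^ 2) := by
          rw [h1]
          nlinarith [sq_nonneg y, sq_nonneg ((N : ℝ) + 1)]
      _ = _ := by ring
  have htest : ∀ N, Test f g (fun p => φ p / nn (c N) (φ p) (γ p))
      (fun p => γ p / nn (c N) (γ p) (φ p))
      (fun p => (1 / nn (c N) (φ p) (γ p)) • P p -
        (c N * φ p / nn (c N) (φ p) (γ p) ^ 3) • (φ p • P p + γ p • R p))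
      (fun p => (1 / nn (c N) (γ p) (φ p)) • R p -
        (c N * γ p / nn (c N) (γ p) (φ p) ^ 3) • (γ p • R p + φ p • P p)) := by
    intro N
    refine ⟨W2_trunc hC hT.wφ hT.wγ (hc0 N).le, W2_trunc hC hT.wγ hT.wφ (hc0 N).le, ?_, ?_⟩
    · have h1 : MemLp (fun p => KK (c N) (φ p) (γ p) (av φ P R p)) 3 mu :=
        hT.mem.of_le_mul (c := 2) (hmeas N) (Eventually.of_forall fun p => KK_le (hc0 N).le _ _ _)
      refine (memLp_congr_ae (Eventually.of_forall fun p => ?_)).1 h1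
      exact (av_trunc (c N) φ γ P R p).symm
    · intro r hr
      have h1 := hT.bdy r hr
      show f (r, 0) * (φ (r, 0) / nn (c N) (φ (r, 0)) (γ (r, 0))) +
        g (r, 0) * (γ (r, 0) / nn (c N) (γ (r, 0)) (φ (r, 0))) = 0
      rw [nn_comm (c N) (γ (r, 0)) (φ (r, 0))]
      have hn := (nn_pos (hc0 N).le (φ (r, 0)) (γ (r, 0))).ne'
      field_simp
      linarith
  have heq : ∀ N, ∫ p, ‖av f F G p‖ * inner ℝ (av f F G p)
      (KK (c N) (φ p) (γ p) (av φ P R p)) ∂mu = 0 := by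
    intro N
    have h1 := hB _ _ _ _ (htest N) ⟨(N : ℝ) + 1, fun p _ => ⟨hbdd N _ _, hbdd N _ _⟩⟩
    unfold Eqn at h1
    rw [← h1]
    refine integral_congr_ae (Eventually.of_forall fun p => ?_)
    dsimp only
    rw [av_trunc]
  have hlim : Tendsto (fun N => ∫ p, ‖av f F G p‖ * inner ℝ (av f F G p)
      (KK (c N) (φ p) (γ p) (av φ P R p)) ∂mu) atTop
      (𝓝 (∫ p, ‖av f F G p‖ * inner ℝ (av f F G p) (av φ P R p) ∂mu)) := by
    refine tendsto_integral_of_dominated_convergence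
      (fun p => 2 * (‖av f F G p‖ ^ 3 + ‖av φ P R p‖ ^ 3)) (fun N => ?_) ?_ (fun N => ?_) ?_
    · exact hAdm.mem.aestronglyMeasurable.norm.mul
        (hAdm.mem.aestronglyMeasurable.inner (hmeas N))
    · exact ((integrable_cube hAdm.mem).add (integrable_cube hT.mem)).const_mul 2
    · refine Eventually.of_forall fun p => ?_
      rw [norm_mul, norm_norm]
      calc ‖av f F G p‖ * ‖inner ℝ (av f F G p) (KK (c N) (φ p) (γ p) (av φ P R p))‖
          ≤ ‖av f F G p‖ * (‖av f F G p‖ * (2 * ‖av φ P R p‖)) := by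
            refine mul_le_mul_of_nonneg_left ?_ (norm_nonneg _)
            refine (norm_inner_le_norm _ _).trans ?_
            exact mul_le_mul_of_nonneg_left (KK_le (hc0 N).le _ _ _) (norm_nonneg _)
        _ = 2 * (‖av f F G p‖ * (‖av f F G p‖ * ‖av φ P R p‖)) := by ring
        _ ≤ _ := mul_le_mul_of_nonneg_left
            (sq_mul_le _ _ (norm_nonneg _) (norm_nonneg _)) (by norm_num)
    · refine Eventually.of_forall fun p => ?_
      have h1 : Tendsto (fun N => KK (c N) (φ p) (γ p) (av φ P R p)) atTop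
          (𝓝 (av φ P R p)) := by
        have h2 := (continuous_KK.tendsto (0, φ p, γ p, av φ P R p))
        have h3 : Tendsto (fun N => (c N, φ p, γ p, av φ P R p)) atTop
            (𝓝 (0, φ p, γ p, av φ P R p)) := hct.prodMk_nhds tendsto_const_nhds
        have h4 := h2.comp h3
        simp only [abs_zero, KK_zero] at h4
        refine h4.congr fun N => ?_
        show KK (|c N|) (φ p) (γ p) (av φ P R p) = _
        rw [abs_of_pos (hc0 N)]
      exact ((tendsto_const_nhds (x := av f F G p)).inner h1).const_mul _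
  unfold Eqn
  refine tendsto_nhds_unique hlim ?_
  simp only [heq]
  exact tendsto_const_nhds

end Pool.Agent.T6.H20.BV
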